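import Pool.Agent.Lib.H10K2.Calc

/-!
# Chunk C1 : complete homogeneous polynomials and divided differences
-/

namespace Pool.Agent.Lib.H10K2

open Polynomial
open scoped BigOperators

universe u v

variable {A : Type u} [CommRing A] {Q : Par A} {L : Type v} [Ring L] [Algebra A L]
  {s si t z zi : L}

/-- CHUNK C1.  Reindex: `∑_{i<n+1} s^i y^(n-i)`, the term `i = 0` is `y^n`, the others give
`s * hh s y n` (`Finset.sum_range_succ'`). -/
theorem hh_succ (s y : L) (n : ℕ) : hh s y (n + 1) = y ^ n + s * hh s y n := by
  unfold hh
  rw [Finset.sum_range_succ', Finset.mul_sum, add_comm]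
  congr 1
  · rw [pow_zero, one_mul, Nat.add_sub_cancel, Nat.sub_zero]
  · refine Finset.sum_congr rfl fun i _ => ?_
    rw [pow_succ', mul_assoc]
    congr 3
    omega

/-- CHUNK C1.  Likewise, the term `i = n` is `s^n`, the others give `hh s y n * y`
(`Finset.sum_range_succ`). -/
theorem hh_succ' (s y : L) (n : ℕ) : hh s y (n + 1) = s ^ n + hh s y n * y := by
  unfold hh
  rw [Finset.sum_range_succ, Finset.sum_mul, add_comm]
  congr 1
  · rw [Nat.add_sub_cancel, Nat.sub_self, pow_zero, mul_one]
  · refine Finset.sum_congr rfl fun i hi => ?_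
    have hi' := Finset.mem_range.1 hi
    rw [mul_assoc, ← pow_succ]
    congr 2
    omega

/-- CHUNK C1.  By induction from `hh_succ` : `s` and `y` commute.  -/
theorem hh_mul (s y : L) (hc : Commute s y) (n : ℕ) :
    (s - y) * hh s y n = s ^ n - y ^ n := by
  induction n with
  | zero =>
    unfold hh
    simp
  | succ n ih =>
    have hc2 : Commute (s - y) s := (Commute.refl s).sub_left hc.symm
    rw [hh_succ, mul_add, ← mul_assoc, hc2.eq, mul_assoc, ih, mul_sub, sub_mul, ← pow_succ',
      ← pow_succ']
    abel

/-- CHUNK C1.  Everything that commutes with `s` and `y` commutes with `hh s y n`. -/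
theorem comm_hh {s y x : L} (h1 : Commute x s) (h2 : Commute x y) (n : ℕ) :
    Commute x (hh s y n) := by
  unfold hh
  exact Commute.sum_right _ _ _ fun i _ => (h1.pow_right i).mul_right (h2.pow_right _)

/-- CHUNK C1.  Linear in `f`; `Polynomial.induction_on'` and `dd_monomial`, `comm_hh`. -/
theorem comm_dd {s y x : L} (h1 : Commute x s) (h2 : Commute x y) (f : A[X]) :
    Commute x (dd s y f) := by
  induction f using Polynomial.induction_on' with
  | add p q hp hq => rw [map_add]; exact hp.add_right hq
  | monomial n c => rw [dd_monomial]; exact (comm_hh h1 h2 n).smul_right c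

/-- CHUNK C1.  `(s - y) * dd f = f(s) - f(y)`. -/
theorem dd_mul (s y : L) (hc : Commute s y) (f : A[X]) :
    (s - y) * dd s y f = aeval s f - aeval y f := by
  induction f using Polynomial.induction_on' with
  | add p q hp hq => rw [map_add, mul_add, hp, hq, map_add, map_add]; abel
  | monomial n c =>
    rw [dd_monomial, mul_smul_comm, hh_mul s y hc, aeval_monomial, aeval_monomial,
      ← Algebra.smul_def, ← Algebra.smul_def, smul_sub]

end Pool.Agent.Lib.H10K2
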