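import Pool.Agent.Lib.H10K2.C1

/-!
# Chunk C1B : moving `t` through polynomials in `s`
-/

namespace Pool.Agent.Lib.H10K2

open Polynomial
open scoped BigOperators

universe u v

variable {A : Type u} [CommRing A] {Q : Par A} {L : Type v} [Ring L] [Algebra A L]
  {s si t z zi : L}

theorem c1b_pow (h : IsW Q s si t z zi) (n : ℕ) :
    t * s ^ n = (yy Q si z) ^ n * t - e0 Q si z * hh s (yy Q si z) n := by
  induction n with
  | zero => simp [hh]
  | succ n ih =>
    have hc := (comm_s_y h)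
    have he : Commute (e0 Q si z) s := comm_e0_s h
    have hey : Commute (e0 Q si z) (yy Q si z) := comm_e0_y h
    have hhs : Commute (hh s (yy Q si z) n) s :=
      (comm_hh (Commute.refl s) hc n).symm
    rw [pow_succ, ← mul_assoc, ih, sub_mul, mul_assoc ((yy Q si z) ^ n) t s, h.W', mul_sub,
      hh_succ, mul_add, ← mul_assoc ((yy Q si z) ^ n) (yy Q si z) t, ← pow_succ,
      mul_assoc (e0 Q si z) (hh s (yy Q si z) n) s, hhs.eq, (hey.pow_right n).eq]
    abel

/-- CHUNK C1B.  `t f(s) = f(y) t - e0 dd f`.  By linearity `f = X^n`, induction on `n`: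
`t s^(n+1) = (t s^n) s = (y^n t - e0 hh_n) s = y^n (y t - e0) - e0 hh_n s` by `h.W'`, and
`y^n + hh_n s = hh_(n+1)` (`hh_succ`, commutation). -/
theorem t_mul_aeval (h : IsW Q s si t z zi) (f : A[X]) :
    t * aeval s f = aeval (yy Q si z) f * t - e0 Q si z * dd s (yy Q si z) f := by
  induction f using Polynomial.induction_on' with
  | add p q hp hq =>
    rw [map_add, map_add, map_add, mul_add, add_mul, mul_add, hp, hq]
    abel
  | monomial n c =>
    rw [aeval_monomial, aeval_monomial, dd_monomial, ← Algebra.smul_def, ← Algebra.smul_def,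
      mul_smul_comm, c1b_pow h n, smul_sub, smul_mul_assoc, mul_smul_comm]

/-- CHUNK C1B.  `P(y) t = e0 dd P` : `t_mul_aeval` and `h.pol`. -/
theorem R1 (h : IsW Q s si t z zi) :
    aeval (yy Q si z) Q.P * t = e0 Q si z * dd s (yy Q si z) Q.P := by
  have h1 := t_mul_aeval h Q.P
  rw [h.pol, mul_zero] at h1
  exact (sub_eq_zero.mp h1.symm)

/-- CHUNK C1B.  `b P(y) = dd P (a s - γ z) t`.  From `R1` times `t` on the right, `h.quad` and
`dd_mul` (`(s - y) dd P = - P(y)` since `P(s) = 0`): `P(y) t² = a P(y) t + b P(y)` and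
`P(y) t² = e0 dd P t`, so `b P(y) = e0 dd P t - a P(y) t = dd P (e0 + a (s - y)) t` and
`e0 + a (s - y) = a s - γ z`. -/
theorem R2 (h : IsW Q s si t z zi) :
    (Q.b : A) • aeval (yy Q si z) Q.P =
      dd s (yy Q si z) Q.P * (Q.a • s - Q.g • z) * t := by
  have h1 := R1 h
  have hc := comm_s_y h
  have h2 : aeval (yy Q si z) Q.P * t * t
      = e0 Q si z * dd s (yy Q si z) Q.P * t := by rw [h1]
  have h3 : (s - yy Q si z) * dd s (yy Q si z) Q.P = - aeval (yy Q si z) Q.P := by
    rw [dd_mul s (yy Q si z) hc, h.pol, zero_sub]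
  have h4 : Commute (e0 Q si z) (dd s (yy Q si z) Q.P) :=
    comm_dd (comm_e0_s h) (comm_e0_y h) Q.P
  have h5 : Commute s (dd s (yy Q si z) Q.P) := comm_dd (Commute.refl s) hc Q.P
  have h6 : Commute (yy Q si z) (dd s (yy Q si z) Q.P) := comm_dd hc.symm (Commute.refl _) Q.P
  rw [mul_assoc, h.quad, mul_add, mul_smul_comm, mul_smul_comm, mul_one] at h2
  have h7 : (Q.b : A) • aeval (yy Q si z) Q.P
      = e0 Q si z * dd s (yy Q si z) Q.P * t - Q.a • (aeval (yy Q si z) Q.P * t) :=
    eq_sub_of_add_eq' h2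
  have h8 : aeval (yy Q si z) Q.P = - ((s - yy Q si z) * dd s (yy Q si z) Q.P) := by
    rw [h3, neg_neg]
  rw [h7, h8, h4.eq, sub_mul, h5.eq, h6.eq]
  have h9 : Q.a • s - Q.g • z = e0 Q si z + Q.a • (s - yy Q si z) := by
    rw [e0, smul_sub]
    abel
  rw [h9, mul_add, add_mul, mul_smul_comm, smul_mul_assoc, mul_sub, sub_mul, neg_mul, smul_neg,
    sub_neg_eq_add, sub_mul]

end Pool.Agent.Lib.H10K2
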