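import Pool.Agent.Lib.H10K2.C1B

/-!
# Chunk C2B : the polynomial `q^D s^D dd P`
-/

namespace Pool.Agent.Lib.H10K2

open Polynomial
open scoped BigOperators

universe u v

variable {A : Type u} [CommRing A] {Q : Par A} {L : Type v} [Ring L] [Algebra A L]
  {s si z : L}

/-- `s y = q⁻¹ z²`. -/
theorem c2b_sy (h1 : s * si = 1) (h2 : Commute s z) :
    s * yy Q si z = ((Q.q⁻¹ : Aˣ) : A) • (z * z) := by
  rw [yy, mul_smul_comm]
  congr 1
  calc s * (z * z * si) = (s * (z * z)) * si := by noncomm_ring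
    _ = (z * z) * s * si := by rw [(h2.mul_right h2).eq]
    _ = z * z := by rw [mul_assoc, h1, mul_one]

theorem c2b_comm (h2 : Commute s z) (h4 : Commute s si) : Commute s (yy Q si z) :=
  ((h2.mul_right h2).mul_right h4).smul_right _

theorem c2b_term (h1 : s * si = 1) (h2 : Commute s z) (h4 : Commute s si)
    (j m : ℕ) (hj : j ≤ Q.D) (c : A) :
    ((Q.q : A) ^ Q.D) • (c • (s ^ (m + j) * yy Q si z ^ j)) =
      z ^ (2 * j) * aeval s (C ((Q.q : A) ^ (Q.D - j)) * (C c * X ^ m)) := by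
  have e1 : s ^ j * yy Q si z ^ j = ((((Q.q⁻¹ : Aˣ) : A)) ^ j) • z ^ (2 * j) := by
    rw [← (c2b_comm h2 h4).mul_pow, c2b_sy h1 h2, _root_.smul_pow, ← sq, ← pow_mul]
  have e2 : (Q.q : A) ^ Q.D * (((Q.q⁻¹ : Aˣ) : A)) ^ j = (Q.q : A) ^ (Q.D - j) := by
    obtain ⟨k, hk⟩ := Nat.exists_eq_add_of_le hj
    rw [hk, Nat.add_sub_cancel_left, pow_add, mul_assoc, mul_comm ((Q.q : A) ^ k), ← mul_assoc,
      ← mul_pow, Units.mul_inv, one_pow, one_mul]
  rw [pow_add, mul_assoc, e1, map_mul, map_mul, aeval_C, aeval_C, aeval_X_pow, mul_smul_comm,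
    smul_smul, smul_smul, ← Algebra.smul_def, ← Algebra.smul_def, mul_smul_comm, mul_smul_comm,
    smul_smul, ← ((h2.pow_pow m (2 * j))).eq, ← e2]
  congr 1
  ring

/-- CHUNK C2B.  `q^D s^D dd P = ∑_{j<D} z^(2j) d_j(s)`.  `dd P = ∑_{n≤D} p_n hh n` and
`hh n = ∑_{i<n} s^i y^(n-1-i)`; put `j = n-1-i`; `q^D s^D s^(n-1-j) y^j = q^(D-j) s^(D+n-1-2j)
z^(2j)` for `j < n ≤ D`; exchange the two sums. -/
theorem lemD (h1 : s * si = 1) (h2 : Commute s z) (h3 : Commute si z) (h4 : Commute s si) :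
    ((Q.q : A) ^ Q.D) • (s ^ Q.D * dd s (yy Q si z) Q.P) =
      ∑ j ∈ Finset.range Q.D, z ^ (2 * j) * aeval s (dp Q j) := by
  have hP : dd s (yy Q si z) Q.P =
      ∑ n ∈ Finset.range (Q.D + 1), Q.P.coeff n • hh s (yy Q si z) n := by
    conv_lhs => rw [Q.P.as_sum_range' (Q.D + 1) (by rw [Q.deg]; exact Nat.lt_succ_self _)]
    rw [map_sum]
    exact Finset.sum_congr rfl fun n _ => dd_monomial _ _ _ _
  have hL : ((Q.q : A) ^ Q.D) • (s ^ Q.D * dd s (yy Q si z) Q.P) =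
      ∑ n ∈ Finset.range (Q.D + 1), ∑ j ∈ Finset.range n,
        z ^ (2 * j) * aeval s (C ((Q.q : A) ^ (Q.D - j)) *
          (C (Q.P.coeff n) * X ^ (Q.D + n - 1 - 2 * j))) := by
    rw [hP, Finset.mul_sum, Finset.smul_sum]
    refine Finset.sum_congr rfl fun n hn => ?_
    rw [Finset.mem_range] at hn
    have e : hh s (yy Q si z) n = ∑ j ∈ Finset.range n, s ^ (n - 1 - j) * yy Q si z ^ j := by
      rw [hh, ← Finset.sum_range_reflect]
      refine Finset.sum_congr rfl fun j hj => ?_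
      rw [Finset.mem_range] at hj
      rw [show n - 1 - (n - 1 - j) = j by omega]
    rw [e, Finset.smul_sum, Finset.mul_sum, Finset.smul_sum]
    refine Finset.sum_congr rfl fun j hj => ?_
    rw [Finset.mem_range] at hj
    rw [← c2b_term h1 h2 h4 j (Q.D + n - 1 - 2 * j) (by omega) (Q.P.coeff n), mul_smul_comm,
      ← mul_assoc, ← pow_add]
    congr 4
    omega
  have hR : ∑ j ∈ Finset.range Q.D, z ^ (2 * j) * aeval s (dp Q j) =
      ∑ j ∈ Finset.range Q.D, ∑ n ∈ Finset.Ioc j Q.D,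
        z ^ (2 * j) * aeval s (C ((Q.q : A) ^ (Q.D - j)) *
          (C (Q.P.coeff n) * X ^ (Q.D + n - 1 - 2 * j))) := by
    refine Finset.sum_congr rfl fun j _ => ?_
    rw [dp, Finset.mul_sum, map_sum, Finset.mul_sum]
  rw [hL, hR]
  refine Finset.sum_comm' fun n j => ?_
  simp only [Finset.mem_range, Finset.mem_Ioc]
  omega

end Pool.Agent.Lib.H10K2
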