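import Pool.Agent.Lib.H10K2.C2A
import Pool.Agent.Lib.H10K2.C2B

/-!
# Chunk C2 : the relation for `z^(2D)`
-/

namespace Pool.Agent.Lib.H10K2

open Polynomial
open scoped BigOperators

universe u v

variable {A : Type u} [CommRing A] {Q : Par A} {L : Type v} [Ring L] [Algebra A L]
  {s si z : L}

/-- CHUNK C2.  Multiply `R2` by `q^D s^D` on the left and use `lemG`, `lemD`. -/
theorem relZ {t zi : L} (h : IsW Q s si t z zi) :
    z ^ (2 * Q.D) + ∑ k ∈ Finset.range Q.D, z ^ (2 * k) * aeval s (gp Q k) =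
      ((Q.b⁻¹ : Aˣ) : A) • ((Q.a • s - Q.g • z) *
        ∑ j ∈ Finset.range Q.D, z ^ (2 * j) * aeval s (dp Q j)) * t := by
  have hG := lemG (Q := Q) h.s_si (comm_s_z h) (comm_si_z h) (comm_s_si h)
  have hD := lemD (Q := Q) h.s_si (comm_s_z h) (comm_si_z h) (comm_s_si h)
  have hR := R2 h
  rw [← hG, ← hD]
  have hms : Commute (Q.a • s - Q.g • z) s :=
    ((Commute.refl s).smul_left _).sub_left ((comm_s_z h).symm.smul_left _)
  have hmy : Commute (Q.a • s - Q.g • z) (yy Q si z) :=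
    ((comm_s_y h).smul_left _).sub_left ((comm_y_z h).symm.smul_left _)
  have hmd := comm_dd hms hmy Q.P
  obtain ⟨m, hm⟩ : ∃ m, m = Q.a • s - Q.g • z := ⟨_, rfl⟩
  obtain ⟨d, hd⟩ : ∃ d, d = dd s (yy Q si z) Q.P := ⟨_, rfl⟩
  rw [← hm, ← hd] at hmd hR
  rw [← hm] at hms
  have hP : aeval (yy Q si z) Q.P = ((Q.b⁻¹ : Aˣ) : A) • (d * m * t) := by
    rw [← hR, smul_smul, Units.inv_mul, one_smul]
  have hcc : s ^ Q.D * d * m = m * (s ^ Q.D * d) :=
    ((hms.pow_right Q.D).mul_right hmd).eq.symm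
  rw [hP, ← hm, ← hd, mul_smul_comm, mul_smul_comm, smul_mul_assoc, smul_mul_assoc, ← hcc]
  rw [smul_comm ((Q.q : A) ^ Q.D)]
  congr 2
  noncomm_ring

/-- CHUNK C2.  `s d_0(s) = - g_0(s)` : `d_0 = q^D ∑_{1≤n≤D} p_n X^(D+n-1)`, so
`X d_0 = q^D X^D (P - p_0)`, and `P(s) = 0`. -/
theorem s_mul_dp_zero (h : aeval s Q.P = 0) :
    s * aeval s (dp Q 0) = -aeval s (gp Q 0) := by
  have hD := Q.hD
  have h1 : (X : A[X]) * dp Q 0 + gp Q 0 = C ((Q.q : A) ^ Q.D) * X ^ Q.D * Q.P := by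
    have h2 : Finset.range (Q.D + 1) = insert 0 (Finset.Ioc 0 Q.D) := by
      ext n
      simp only [Finset.mem_range, Finset.mem_insert, Finset.mem_Ioc]
      omega
    have h3 : Q.P = C (Q.P.coeff 0) + ∑ n ∈ Finset.Ioc 0 Q.D, C (Q.P.coeff n) * X ^ n := by
      have h4 := Q.P.as_sum_range_C_mul_X_pow
      rw [Q.deg, h2, Finset.sum_insert (by simp), pow_zero, mul_one] at h4
      exact h4
    have h5 : ∀ n ∈ Finset.Ioc 0 Q.D, (X : A[X]) * (C (Q.P.coeff n) * X ^ (Q.D + n - 1 - 2 * 0)) =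
        X ^ Q.D * (C (Q.P.coeff n) * X ^ n) := by
      intro n hn
      rw [Finset.mem_Ioc] at hn
      have e : Q.D + n = (Q.D + n - 1 - 2 * 0) + 1 := by omega
      have e2 : (X : A[X]) ^ Q.D * X ^ n = X ^ (Q.D + n - 1 - 2 * 0) * X := by
        rw [← pow_add, ← pow_succ, ← e]
      linear_combination (-C (Q.P.coeff n)) * e2
    have h6 : (X : A[X]) * ∑ n ∈ Finset.Ioc 0 Q.D, C (Q.P.coeff n) * X ^ (Q.D + n - 1 - 2 * 0) =
        X ^ Q.D * ∑ n ∈ Finset.Ioc 0 Q.D, C (Q.P.coeff n) * X ^ n := by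
      rw [Finset.mul_sum, Finset.mul_sum]
      exact Finset.sum_congr rfl h5
    conv_rhs => rw [h3]
    unfold dp gp
    rw [Nat.sub_zero, C_mul]
    linear_combination (C ((Q.q : A) ^ Q.D)) * h6
  have h7 := congrArg (aeval s) h1
  rw [map_add, map_mul, aeval_X, map_mul, h, mul_zero] at h7
  exact eq_neg_of_add_eq_zero_left h7

/-- CHUNK C2.  The top coefficient: `D + D - 1 - 2 (D-1) = 1`, `p_D = 1`. -/
theorem dp_top : dp Q (Q.D - 1) = C (Q.q : A) * X := by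
  have hD := Q.hD
  have h1 : Finset.Ioc (Q.D - 1) Q.D = {Q.D} := by
    ext n
    simp only [Finset.mem_Ioc, Finset.mem_singleton]
    omega
  have h2 : Q.P.coeff Q.D = 1 := by
    have h3 := Q.monic.coeff_natDegree
    rwa [Q.deg] at h3
  have e1 : Q.D - (Q.D - 1) = 1 := by omega
  have e2 : Q.D + Q.D - 1 - 2 * (Q.D - 1) = 1 := by omega
  unfold dp
  rw [h1, Finset.sum_singleton, h2, e1, e2, C_1, one_mul, pow_one, pow_one]

end Pool.Agent.Lib.H10K2
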