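import Pool.Agent.Lib.H10K2.C1B

/-!
# Chunk C2A : the polynomial `q^D s^D P(y)`
-/

namespace Pool.Agent.Lib.H10K2

open Polynomial
open scoped BigOperators

universe u v

variable {A : Type u} [CommRing A] {Q : Par A} {L : Type v} [Ring L] [Algebra A L]
  {s si z : L}

theorem c2a_sub (h1 : s * si = 1) (h4 : Commute s si) (k m : ℕ) (hkm : k ≤ m) :
    s ^ m * si ^ k = s ^ (m - k) := by
  obtain ⟨j, rfl⟩ := Nat.exists_eq_add_of_le hkm
  rw [Nat.add_sub_cancel_left, add_comm k j, pow_add, mul_assoc, ← h4.mul_pow, h1, one_pow, mul_one]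

theorem c2a_pow (h1 : s * si = 1) (h2 : Commute s z) (h3 : Commute si z) (h4 : Commute s si)
    (k : ℕ) (hk : k ≤ Q.D) :
    ((Q.q : A) ^ Q.D) • (s ^ Q.D * (yy Q si z) ^ k) =
      ((Q.q : A) ^ (Q.D - k)) • (z ^ (2 * k) * s ^ (Q.D - k)) := by
  have e1 : (yy Q si z) ^ k = (((Q.q⁻¹ : Aˣ) : A) ^ k) • (z ^ (2 * k) * si ^ k) := by
    rw [yy, _root_.smul_pow]
    congr 1
    have hzz : Commute (z * z) si := (h3.symm.mul_left h3.symm)
    rw [hzz.mul_pow, pow_mul, pow_two]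
  rw [e1, mul_smul_comm, smul_smul]
  have e2 : (Q.q : A) ^ Q.D * ((Q.q⁻¹ : Aˣ) : A) ^ k = (Q.q : A) ^ (Q.D - k) := by
    have e3 : (Q.q : A) ^ Q.D = (Q.q : A) ^ (Q.D - k) * (Q.q : A) ^ k := by
      rw [← pow_add, Nat.sub_add_cancel hk]
    rw [e3, mul_assoc, ← mul_pow, Units.mul_inv, one_pow, mul_one]
  rw [e2]
  congr 1
  rw [← mul_assoc, ((h2.pow_pow Q.D (2 * k)).eq), mul_assoc, c2a_sub h1 h4 k Q.D hk]

/-- CHUNK C2A.  `q^D s^D P(y) = z^(2D) + ∑_{k<D} z^(2k) g_k(s)`, for commuting `s`, `si`, `z` with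
`s si = 1`.  `P = ∑_{k≤D} p_k X^k` (`Polynomial.aeval_eq_sum_range'` with `Q.deg`), `p_D = 1`
(`Q.monic`), and `q^D s^D y^k = q^(D-k) s^(D-k) z^(2k)` for `k ≤ D` (`y = q⁻¹ z² si`). -/
theorem lemG (h1 : s * si = 1) (h2 : Commute s z) (h3 : Commute si z) (h4 : Commute s si) :
    ((Q.q : A) ^ Q.D) • (s ^ Q.D * aeval (yy Q si z) Q.P) =
      z ^ (2 * Q.D) + ∑ k ∈ Finset.range Q.D, z ^ (2 * k) * aeval s (gp Q k) := by
  have hP : aeval (yy Q si z) Q.P =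
      ∑ k ∈ Finset.range (Q.D + 1), Q.P.coeff k • (yy Q si z) ^ k := by
    rw [aeval_eq_sum_range, Q.deg]
  have hlc : Q.P.coeff Q.D = 1 := by
    have := Q.monic
    rw [Monic, leadingCoeff, Q.deg] at this
    exact this
  rw [hP, Finset.mul_sum, Finset.smul_sum, Finset.sum_range_succ, hlc, one_smul,
    c2a_pow h1 h2 h3 h4 Q.D le_rfl, Nat.sub_self, pow_zero, pow_zero, mul_one, one_smul, add_comm]
  congr 1
  refine Finset.sum_congr rfl fun k hk => ?_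
  have hk' : k ≤ Q.D := (Finset.mem_range.mp hk).le
  rw [mul_smul_comm, smul_comm, c2a_pow h1 h2 h3 h4 k hk', gp, map_mul, aeval_C, map_pow, aeval_X,
    ← Algebra.smul_def, mul_smul_comm, smul_smul]

end Pool.Agent.Lib.H10K2
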