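import Pool.Agent.Lib.H10K2.C1B

/-!
# Chunk C3 : `z² (f t g - g t f) = q s (f t g - g t f) s`
-/

namespace Pool.Agent.Lib.H10K2

open Polynomial
open scoped BigOperators

universe u v

variable {A : Type u} [CommRing A] {Q : Par A} {L : Type v} [Ring L] [Algebra A L]
  {s si t z zi : L}

theorem c3_comm {L : Type v} [Ring L] [Algebra A L] {x s : L} (h : Commute x s) (f : A[X]) :
    Commute x (aeval s f) := by
  induction f using Polynomial.induction_on' with
  | add p q hp hq => rw [map_add]; exact hp.add_right hq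
  | monomial n c =>
    rw [aeval_monomial]
    exact (Algebra.commute_algebraMap_right c x).mul_right (h.pow_right n)

theorem c3_ring {L : Type v} [Ring L] {s y E F G a b t gy fy : L} (hG : (s - y) * b = G - gy)
    (hF : (s - y) * a = F - fy) (hFG : F * G = G * F) (hDb : (s - y) * b = b * (s - y))
    (hDa : (s - y) * a = a * (s - y)) (hEb : E * b = b * E) (hEa : E * a = a * E) :
    F * (gy * t - E * b) - G * (fy * t - E * a) = (G * a - F * b) * ((s - y) * t + E) := by
  linear_combination (norm := noncomm_ring) F * hG * t - G * hF * t + hFG * t - F * hDb * t +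
    G * hDa * t - F * hEb + G * hEa

theorem c3_kappa {L : Type v} [Ring L] {s y E t : L} (hts : t * s = y * t - E)
    (hsy : s * y = y * s) (hsE : s * E = E * s) :
    ((s - y) * t + E) * s = y * ((s - y) * t + E) := by
  linear_combination (norm := noncomm_ring) (s - y) * hts + hsy * t - hsE

/-- CHUNK C3.  With `F = f(s)`, `G = g(s)`, `y`, `e0`: by `t_mul_aeval`
`F t G - G t F = (F g(y) - G f(y)) t - e0 (F dd g - G dd f)`, and `g(y) = G - (s - y) dd g`
(`dd_mul`), so it is `W ((s - y) t + e0)` with `W = G dd f - F dd g`, which commutes with `s`.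
Next `((s - y) t + e0) s = (s - y) (y t - e0) + e0 s = y ((s - y) t + e0)` by `h.W'`.
Hence `s W κ s = s W y κ = (s y) W κ` and `q (s y) = z²` (`s_mul_y`). -/
theorem X_step (h : IsW Q s si t z zi) (f g : A[X]) :
    z * z * (aeval s f * t * aeval s g - aeval s g * t * aeval s f) =
      (Q.q : A) • (s * (aeval s f * t * aeval s g - aeval s g * t * aeval s f) * s) := by
  obtain ⟨y, hy⟩ : ∃ y, y = yy Q si z := ⟨_, rfl⟩
  obtain ⟨E, hE⟩ : ∃ E, E = e0 Q si z := ⟨_, rfl⟩
  have hsy : Commute s y := by rw [hy]; exact comm_s_y h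
  have hsE : Commute s E := by rw [hE]; exact (comm_e0_s h).symm
  have hyE : Commute y E := by rw [hy, hE]; exact (comm_e0_y h).symm
  have hts : t * s = y * t - E := by rw [hy, hE]; exact h.W'
  have htG : t * aeval s g = aeval y g * t - E * dd s y g := by
    rw [hy, hE]; exact t_mul_aeval h g
  have htF : t * aeval s f = aeval y f * t - E * dd s y f := by
    rw [hy, hE]; exact t_mul_aeval h f
  have hsD : Commute s (s - y) := (Commute.refl s).sub_right hsy
  have hyD : Commute y (s - y) := hsy.symm.sub_right (Commute.refl y)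
  have hsdd : ∀ f : A[X], Commute s (dd s y f) := comm_dd (Commute.refl s) hsy
  have hydd : ∀ f : A[X], Commute y (dd s y f) := comm_dd hsy.symm (Commute.refl y)
  have hEdd : ∀ f : A[X], Commute E (dd s y f) := comm_dd hsE.symm hyE.symm
  have hDdd : ∀ f : A[X], Commute (s - y) (dd s y f) := fun f => (hsdd f).sub_left (hydd f)
  have hss : ∀ f : A[X], Commute s (aeval s f) := c3_comm (Commute.refl s)
  have hys : ∀ f : A[X], Commute y (aeval s f) := c3_comm hsy.symm
  have hFG : Commute (aeval s f) (aeval s g) := c3_comm (hss f).symm g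
  obtain ⟨W, hW⟩ : ∃ W, W = aeval s g * dd s y f - aeval s f * dd s y g := ⟨_, rfl⟩
  obtain ⟨κ, hκ⟩ : ∃ κ, κ = (s - y) * t + E := ⟨_, rfl⟩
  have e1 : aeval s f * t * aeval s g - aeval s g * t * aeval s f = W * κ := by
    rw [mul_assoc, mul_assoc, htG, htF, hW, hκ]
    exact c3_ring (dd_mul s y hsy g) (dd_mul s y hsy f) hFG.eq (hDdd g).eq (hDdd f).eq
      (hEdd g).eq (hEdd f).eq
  have e2 : κ * s = y * κ := by
    rw [hκ]
    exact c3_kappa hts hsy.eq hsE.eq
  have hyW : W * y = y * W := by
    rw [hW]
    exact (((hys g).mul_right (hydd f)).sub_right ((hys f).mul_right (hydd g))).eq.symm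
  rw [e1]
  have e3 : s * (W * κ) * s = s * y * (W * κ) := by
    calc s * (W * κ) * s = s * W * (κ * s) := by noncomm_ring
      _ = s * (W * y) * κ := by rw [e2]; noncomm_ring
      _ = s * y * (W * κ) := by rw [hyW]; noncomm_ring
  rw [e3, ← smul_mul_assoc, hy, s_mul_y h, smul_smul, Units.mul_inv, one_smul]

end Pool.Agent.Lib.H10K2
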