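import Pool.Agent.Lib.H10K2.C1B

/-!
# Chunk C4 : the products `t s^i`
-/

namespace Pool.Agent.Lib.H10K2

open Polynomial
open scoped BigOperators

universe u v

variable {A : Type u} [CommRing A] {Q : Par A} {L : Type v} [Ring L] [Algebra A L]
  {s si t z zi : L}

/-- A polynomial `N` with `si = N(s)` : `N = - p0⁻¹ divX P`. -/
noncomputable def np (Q : Par A) : A[X] := -(C ((Q.p0⁻¹ : Aˣ) : A) * divX Q.P)

/-- CHUNK C4.  `s * N(s) = 1` because `P = divX P * X + C p0` and `P(s) = 0`; then `N(s) = si`. -/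
theorem aeval_np (h0 : aeval s Q.P = 0) : s * aeval s (np Q) = 1 := by
  have h1 : aeval s (divX Q.P) * s + algebraMap A L (Q.p0 : A) = 0 := by
    have h2 := congrArg (aeval s) (divX_mul_X_add Q.P)
    rw [h0, map_add, map_mul, aeval_X, aeval_C, Q.hp0] at h2
    exact h2
  have h3 : Commute s (aeval s (divX Q.P)) := by
    have h4 : aeval s (divX Q.P) * aeval s (X : A[X]) = aeval s (X : A[X]) * aeval s (divX Q.P) := by
      rw [← map_mul, ← map_mul, mul_comm]
    rw [aeval_X] at h4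
    exact h4.symm
  have h5 : s * aeval s (divX Q.P) = -algebraMap A L (Q.p0 : A) := by
    rw [h3.eq]
    exact eq_neg_of_add_eq_zero_left h1
  rw [np, map_neg, map_mul, aeval_C, ← Algebra.smul_def, mul_neg, mul_smul_comm, h5, smul_neg,
    neg_neg, Algebra.algebraMap_eq_smul_one, smul_smul, Units.inv_mul, one_smul]

theorem IsW.aeval_np (h : IsW Q s si t z zi) : aeval s (np Q) = si := by
  have h1 := H10K2.aeval_np h.pol
  calc aeval s (np Q) = si * s * aeval s (np Q) := by rw [h.si_s, one_mul]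
    _ = si := by rw [mul_assoc, h1, mul_one]

theorem c4_comm {L : Type v} [Ring L] [Algebra A L] {x s : L} (h : s * x = x * s) (f : A[X]) :
    Commute (aeval s f) x := by
  induction f using Polynomial.induction_on' with
  | add p q hp hq => rw [map_add]; exact hp.add_left hq
  | monomial n c =>
    rw [aeval_monomial]
    exact (Algebra.commute_algebraMap_left c x).mul_left (Commute.pow_left h n)

/-- CHUNK C4.  The expansion of `t s^i`: `t s^i = q^(-i) z^(2i) si^i t - e0 hh_i(s, y)`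
(`t_mul_aeval` for `X^i`, `dd_X_pow`; `y^i = q^(-i) z^(2i) si^i`), and
`e0 hh_i(s, y) = ∑_{j<i} s^(i-1-j) (a y - γ z) y^j = ∑_{j<i} (z^(2j+2) (..) + z^(2j+1) (..))`,
where all `(..)` are polynomials in `s` (`si = N(s)`, `h.aeval_np`). -/
theorem t_mul_pow (h : IsW Q s si t z zi) (i : ℕ) : ∃ c : ℕ → A[X],
    t * s ^ i = z ^ (2 * i) * aeval s (C (((Q.q⁻¹ : Aˣ) : A) ^ i) * np Q ^ i) * t +
      ∑ k ∈ Finset.range (2 * i), z ^ (k + 1) * aeval s (c k) := by
  induction i with
  | zero =>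
    refine ⟨fun _ => 0, ?_⟩
    simp
  | succ i ih =>
    obtain ⟨c, hc⟩ := ih
    obtain ⟨N, hN⟩ : ∃ N : A[X], N = C (((Q.q⁻¹ : Aˣ) : A) ^ i) * np Q ^ i := ⟨_, rfl⟩
    refine ⟨fun k => if k < 2 * i then c k * X else if k = 2 * i then C Q.g * N else
      -(C (Q.a * ((Q.q⁻¹ : Aˣ) : A)) * N * np Q), ?_⟩
    have hsN : ∀ f : A[X], aeval s f * s = aeval s (f * X) := fun f => by rw [map_mul, aeval_X]
    have e1 : C (((Q.q⁻¹ : Aˣ) : A) ^ (i + 1)) * np Q ^ (i + 1) =
        C ((Q.q⁻¹ : Aˣ) : A) * N * np Q := by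
      rw [hN, pow_succ, pow_succ, C_mul]
      ring
    have e2 : t * s = z * z * (aeval s (C ((Q.q⁻¹ : Aˣ) : A) * np Q) * t -
        aeval s (C (Q.a * ((Q.q⁻¹ : Aˣ) : A)) * np Q)) + Q.g • z := by
      rw [h.W, map_mul, map_mul, aeval_C, aeval_C, h.aeval_np, ← Algebra.smul_def,
        ← Algebra.smul_def]
      rw [mul_sub, mul_sub, smul_sub, smul_mul_assoc, mul_smul_comm, mul_smul_comm, mul_smul_comm,
        mul_one, smul_smul, mul_comm (((Q.q⁻¹ : Aˣ) : A)) Q.a, mul_assoc]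
    have hNz : Commute (aeval s N) z := c4_comm h.sz N
    have e3 : t * s ^ (i + 1) = z ^ (2 * i) * aeval s N * (t * s) +
        ∑ k ∈ Finset.range (2 * i), z ^ (k + 1) * aeval s (c k * X) := by
      rw [pow_succ, ← mul_assoc, hc, add_mul, Finset.sum_mul, ← hN]
      congr 1
      · rw [mul_assoc]
      · refine Finset.sum_congr rfl fun k _ => ?_
        rw [mul_assoc, hsN]
    have e4 : 2 * (i + 1) = 2 * i + 1 + 1 := by ring
    rw [e3, e1, e4, Finset.sum_range_succ, Finset.sum_range_succ]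
    beta_reduce
    have e5 : ∑ k ∈ Finset.range (2 * i), z ^ (k + 1) * aeval s (if k < 2 * i then c k * X else
        if k = 2 * i then C Q.g * N else -(C (Q.a * ((Q.q⁻¹ : Aˣ) : A)) * N * np Q)) =
        ∑ k ∈ Finset.range (2 * i), z ^ (k + 1) * aeval s (c k * X) := by
      refine Finset.sum_congr rfl fun k hk => ?_
      rw [if_pos (Finset.mem_range.1 hk)]
    rw [e5, if_neg (lt_irrefl _), if_pos rfl, if_neg (by omega), if_neg (by omega), e2]
    have e6 : aeval s N * (z * z) = z * z * aeval s N := (hNz.mul_right hNz).eq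
    have e7 : z ^ (2 * i) * aeval s N * (z * z * (aeval s (C ((Q.q⁻¹ : Aˣ) : A) * np Q) * t -
        aeval s (C (Q.a * ((Q.q⁻¹ : Aˣ) : A)) * np Q)) + Q.g • z) =
        z ^ (2 * i + 1 + 1) * aeval s (C ((Q.q⁻¹ : Aˣ) : A) * N * np Q) * t +
        (z ^ (2 * i + 1) * aeval s (C Q.g * N) +
          z ^ (2 * i + 1 + 1) * aeval s (-(C (Q.a * ((Q.q⁻¹ : Aˣ) : A)) * N * np Q))) := by
      have f1 : aeval s (C ((Q.q⁻¹ : Aˣ) : A) * N * np Q) =
          aeval s N * aeval s (C ((Q.q⁻¹ : Aˣ) : A) * np Q) := by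
        rw [← map_mul]
        congr 1
        ring
      have f2 : aeval s (-(C (Q.a * ((Q.q⁻¹ : Aˣ) : A)) * N * np Q)) =
          -(aeval s N * aeval s (C (Q.a * ((Q.q⁻¹ : Aˣ) : A)) * np Q)) := by
        rw [← map_mul, ← map_neg]
        congr 1
        ring
      have f3 : aeval s (C Q.g * N) = Q.g • aeval s N := by
        rw [map_mul, aeval_C, ← Algebra.smul_def]
      rw [f1, f2, f3, mul_add, mul_smul_comm, mul_smul_comm, mul_assoc (z ^ (2 * i)) (aeval s N) z,
        hNz.eq, ← mul_assoc (z ^ (2 * i)) z, ← pow_succ]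
      have f4 : z ^ (2 * i + 1 + 1) = z ^ (2 * i) * (z * z) := by
        rw [pow_succ, pow_succ, mul_assoc]
      rw [f4]
      generalize Q.g • (z ^ (2 * i + 1) * aeval s N) = B
      generalize z ^ (2 * i) = Z
      generalize aeval s (C ((Q.q⁻¹ : Aˣ) : A) * np Q) = n1
      generalize aeval s (C (Q.a * ((Q.q⁻¹ : Aˣ) : A)) * np Q) = m1
      linear_combination (norm := noncomm_ring) Z * e6 * (n1 * t - m1)
    rw [e7]
    noncomm_ring

end Pool.Agent.Lib.H10K2
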