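import Pool.Agent.Lib.H10K2.W2

/-!
# The elements `y = q⁻¹ z² s⁻¹`, `e0 = a y - γ z`, divided differences : definitions
-/

namespace Pool.Agent.Lib.H10K2

open Polynomial
open scoped BigOperators

universe u v

section

variable {A : Type u} [CommRing A] (Q : Par A) {L : Type v} [Ring L] [Algebra A L]

/-- `y = q⁻¹ z² s⁻¹`. -/
def yy (si z : L) : L := ((Q.q⁻¹ : Aˣ) : A) • (z * z * si)

/-- `e0 = a y - γ z`. -/
def e0 (si z : L) : L := Q.a • yy Q si z - Q.g • z

/-- The complete homogeneous polynomial `∑_{i<n} s^i y^(n-1-i) = (s^n - y^n) / (s - y)`. -/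
def hh (s y : L) (n : ℕ) : L := ∑ i ∈ Finset.range n, s ^ i * y ^ (n - 1 - i)

/-- The divided difference `(f(s) - f(y)) / (s - y)`. -/
noncomputable def dd (s y : L) : A[X] →ₗ[A] L :=
  Polynomial.lsum fun n => LinearMap.toSpanSingleton A L (hh s y n)

theorem dd_monomial (s y : L) (n : ℕ) (c : A) : dd s y (monomial n c) = c • hh s y n := by
  rw [dd, Polynomial.lsum_apply, Polynomial.sum_monomial_index]
  · rfl
  · exact map_zero (LinearMap.toSpanSingleton A L (hh s y n))

theorem dd_X_pow (s y : L) (n : ℕ) : dd s y (X ^ n : A[X]) = hh s y n := by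
  rw [← monomial_one_right_eq_X_pow, dd_monomial, one_smul]

/-- `g_k = p_k q^(D-k) X^(D-k)`. -/
noncomputable def gp (k : ℕ) : A[X] := C (Q.P.coeff k * (Q.q : A) ^ (Q.D - k)) * X ^ (Q.D - k)

/-- `d_j = q^(D-j) ∑_{j<n≤D} p_n X^(D+n-1-2j)`. -/
noncomputable def dp (j : ℕ) : A[X] := C ((Q.q : A) ^ (Q.D - j)) *
  ∑ n ∈ Finset.Ioc j Q.D, C (Q.P.coeff n) * X ^ (Q.D + n - 1 - 2 * j)

end

variable {A : Type u} [CommRing A] {Q : Par A} {L : Type v} [Ring L] [Algebra A L]
  {s si t z zi : L}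

theorem IsW.W' (h : IsW Q s si t z zi) : t * s = yy Q si z * t - e0 Q si z := by
  rw [h.W, e0, yy, mul_sub, mul_smul_comm, mul_one, smul_sub, smul_mul_assoc,
    smul_comm Q.a]
  abel

theorem comm_s_z (h : IsW Q s si t z zi) : Commute s z := h.sz

theorem comm_si_z (h : IsW Q s si t z zi) : Commute si z := h.siz

theorem comm_s_si (h : IsW Q s si t z zi) : Commute s si := by
  change s * si = si * s
  rw [h.s_si, h.si_s]

theorem comm_t_z (h : IsW Q s si t z zi) : Commute t z := h.tz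

theorem comm_y_z (h : IsW Q s si t z zi) : Commute (yy Q si z) z :=
  (((Commute.refl z).mul_left (Commute.refl z)).mul_left (comm_si_z h)).smul_left _

theorem comm_s_y (h : IsW Q s si t z zi) : Commute s (yy Q si z) :=
  (((comm_s_z h).mul_right (comm_s_z h)).mul_right (comm_s_si h)).smul_right _

theorem comm_e0_s (h : IsW Q s si t z zi) : Commute (e0 Q si z) s :=
  ((comm_s_y h).symm.smul_left _).sub_left ((comm_s_z h).symm.smul_left _)

theorem comm_e0_z (h : IsW Q s si t z zi) : Commute (e0 Q si z) z :=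
  ((comm_y_z h).smul_left _).sub_left ((Commute.refl z).smul_left _)

theorem comm_e0_y (h : IsW Q s si t z zi) : Commute (e0 Q si z) (yy Q si z) :=
  ((Commute.refl _).smul_left _).sub_left ((comm_y_z h).symm.smul_left _)

/-- `s y = q⁻¹ z²`. -/
theorem s_mul_y (h : IsW Q s si t z zi) : s * yy Q si z = ((Q.q⁻¹ : Aˣ) : A) • (z * z) := by
  rw [(comm_s_y h).eq, yy, smul_mul_assoc, mul_assoc, h.si_s, mul_one]

end Pool.Agent.Lib.H10K2
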