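import Pool.Agent.Lib.H10K2.DS1A

/-!
# The induced representation
-/

namespace Pool.Agent.Lib.H10K2

open Polynomial
open scoped BigOperators
open Pool.Agent.Lib.H10BMM (Gam tg liftG liftG_tg IsBraid chi chi_zero chi_succ zt zt_pow zt_prim
  tg_isBraid Gam_closure Gam_ext BW mem_BW_iff zd_prim' proj proj_tg sr GLn Gg sr_zero sr_succ
  chi_values tg_pow)

universe u'

section tw2

variable {d f : ℕ} (hd : 0 < d) (hf : 0 < f)

theorem tw2_one_iff (hd : 0 < d) (hf : 0 < f) {k k' : Fin f} :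
    tw2 (1 : Gam d (2 * f) 2) k k' ∈ BW d (2 * f) 2 ↔ k = k' := by
  constructor
  · intro h
    refine tw2_unique hd hf (x := 1) (k := k) ?_ h
    rw [tw2_self]
    exact Subgroup.one_mem _
  · rintro rfl
    rw [tw2_self]
    exact Subgroup.one_mem _

end tw2

section psi

variable {A : Type u'} [CommRing A] {d f : ℕ} (hd : 0 < d) (hf : 0 < f)
  (u : Fin d → Aˣ) (v w : Fin 2 → Aˣ)

open Classical in
/-- The induced representation of `G2`. -/
noncomputable def psi : G2 d f →* Matrix (Fin f) (Fin f) (HW2 d f u v w) where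
  toFun x := Matrix.of fun k k' =>
    if h : tw2 (x : Gam d (2 * f) 2) k k' ∈ BW d (2 * f) 2 then T2 d f u v w ⟨_, h⟩ else 0
  map_one' := by
    ext k k'
    rw [Matrix.of_apply, Matrix.one_apply]
    by_cases h : k = k'
    · subst h
      have h0 : tw2 ((1 : G2 d f) : Gam d (2 * f) 2) k k ∈ BW d (2 * f) 2 :=
        (tw2_one_iff hd hf).mpr rfl
      rw [if_pos rfl, dif_pos h0]
      have h1 : (⟨tw2 ((1 : G2 d f) : Gam d (2 * f) 2) k k, h0⟩ : BW d (2 * f) 2) = 1 :=
        Subtype.ext (tw2_self k)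
      rw [h1, map_one]
    · rw [if_neg h]
      exact dif_neg (fun h' => h ((tw2_one_iff hd hf).mp h'))
  map_mul' x y := by
    ext k k''
    rw [Matrix.mul_apply, Matrix.of_apply]
    obtain ⟨k', hk'⟩ := tw2_exists hd hf x.2 k
    rw [Finset.sum_eq_single k']
    · rw [Matrix.of_apply, Matrix.of_apply, dif_pos hk']
      by_cases h : tw2 ((x * y : G2 d f) : Gam d (2 * f) 2) k k'' ∈ BW d (2 * f) 2
      · have h' : tw2 (y : Gam d (2 * f) 2) k' k'' ∈ BW d (2 * f) 2 := by
          have h2 : tw2 (y : Gam d (2 * f) 2) k' k'' =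
              (tw2 (x : Gam d (2 * f) 2) k k')⁻¹ *
                tw2 ((x * y : G2 d f) : Gam d (2 * f) 2) k k'' := by
            rw [Subgroup.coe_mul, ← tw2_mul (x : Gam d (2 * f) 2) y k k' k'',
              inv_mul_cancel_left]
          rw [h2]
          exact Subgroup.mul_mem _ (Subgroup.inv_mem _ hk') h
        rw [dif_pos h, dif_pos h', ← map_mul]
        congr 1
        exact Subtype.ext (tw2_mul (x : Gam d (2 * f) 2) y k k' k'').symm
      · have h' : tw2 (y : Gam d (2 * f) 2) k' k'' ∉ BW d (2 * f) 2 := by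
          intro h'
          apply h
          rw [Subgroup.coe_mul, ← tw2_mul (x : Gam d (2 * f) 2) y k k' k'']
          exact Subgroup.mul_mem _ hk' h'
        rw [dif_neg h, dif_neg h', mul_zero]
    · intro b _ hb
      rw [Matrix.of_apply, dif_neg (fun h => hb (tw2_unique hd hf h hk')), zero_mul]
    · intro h; exact absurd (Finset.mem_univ _) h

open Classical in
theorem psi_apply (x : G2 d f) (k k' : Fin f) : psi hd hf u v w x k k' =
    if h : tw2 (x : Gam d (2 * f) 2) k k' ∈ BW d (2 * f) 2 then T2 d f u v w ⟨_, h⟩ else 0 := rfl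

theorem psi_of_mem {x : G2 d f} {k k' : Fin f}
    (h : tw2 (x : Gam d (2 * f) 2) k k' ∈ BW d (2 * f) 2) :
    psi hd hf u v w x k k' = T2 d f u v w ⟨_, h⟩ := by
  rw [psi_apply, dif_pos h]

theorem psi_of_not_mem {x : G2 d f} {k k' : Fin f}
    (h : tw2 (x : Gam d (2 * f) 2) k k' ∉ BW d (2 * f) 2) :
    psi hd hf u v w x k k' = 0 := by
  rw [psi_apply, dif_neg h]

theorem tw2_self_mem {x : Gam d (2 * f) 2} (hx : chi d (2 * f) 2 x = 1) (k : Fin f) :
    tw2 x k k ∈ BW d (2 * f) 2 := by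
  rw [mem_BW_iff, tw2, map_mul, map_mul, map_inv, hx, mul_one, mul_inv_cancel]

/-- The matrix of an element of the subgroup is diagonal. -/
theorem psi_diag {x : G2 d f} (hx : chi d (2 * f) 2 (x : Gam d (2 * f) 2) = 1) :
    psi hd hf u v w x =
    Matrix.diagonal (fun k => T2 d f u v w ⟨tw2 (x : Gam d (2 * f) 2) k k, tw2_self_mem hx k⟩) := by
  ext k k'
  rw [Matrix.diagonal_apply]
  by_cases h : k = k'
  · subst h
    rw [if_pos rfl, psi_of_mem hd hf u v w (tw2_self_mem hx k)]
  · rw [if_neg h, psi_of_not_mem]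
    intro h'
    exact h (tw2_unique hd hf (tw2_self_mem hx k) h')

end psi

end Pool.Agent.Lib.H10K2
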