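import Pool.Agent.Lib.H10K2.GP2

/-!
# Chunk DS1A : the Hecke algebra of `G(de,e,2)`, `e = 2 f`
-/

namespace Pool.Agent.Lib.H10K2

open Polynomial
open scoped BigOperators
open Pool.Agent.Lib.H10BMM (Gam tg liftG liftG_tg IsBraid chi chi_zero chi_succ zt zt_pow zt_prim
  tg_isBraid Gam_closure Gam_ext BW mem_BW_iff zd_prim' proj proj_tg sr GLn Gg sr_zero sr_succ
  chi_values tg_pow)

universe u'

section rel

variable {A : Type u'} [CommRing A] (d f : ℕ) (u : Fin d → Aˣ) (v w : Fin 2 → Aˣ)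

/-- The relations of the Hecke algebra of `G(2df, 2f, 2)`. -/
inductive HRel2 : MonoidAlgebra A (BW d (2 * f) 2) → MonoidAlgebra A (BW d (2 * f) 2) → Prop
  | c0 (x : BW d (2 * f) 2) (g : Gam d (2 * f) 2)
      (hx : (x : Gam d (2 * f) 2) = g * tg d (2 * f) 2 0 ^ (2 * f) * g⁻¹) (hd : d ≠ 1) : HRel2
      (aeval (MonoidAlgebra.of A (BW d (2 * f) 2) x)
        (∏ j : Fin d, (Polynomial.X - C ((u j : Aˣ) : A)))) 0
  | c1 (x : BW d (2 * f) 2) (g : Gam d (2 * f) 2) (hg : chi d (2 * f) 2 g ^ f = 1)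
      (hx : (x : Gam d (2 * f) 2) = g * tg d (2 * f) 2 1 * g⁻¹) : HRel2
      (aeval (MonoidAlgebra.of A (BW d (2 * f) 2) x)
        ((Polynomial.X - C ((v 0 : Aˣ) : A)) * (Polynomial.X - C ((v 1 : Aˣ) : A)))) 0
  | c2 (x : BW d (2 * f) 2) (g : Gam d (2 * f) 2) (hg : chi d (2 * f) 2 g ^ f ≠ 1)
      (hx : (x : Gam d (2 * f) 2) = g * tg d (2 * f) 2 1 * g⁻¹) : HRel2
      (aeval (MonoidAlgebra.of A (BW d (2 * f) 2) x)
        ((Polynomial.X - C ((w 0 : Aˣ) : A)) * (Polynomial.X - C ((w 1 : Aˣ) : A)))) 0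

/-- The Hecke algebra. -/
def HW2 : Type _ := RingQuot (HRel2 d f u v w)

noncomputable instance : Ring (HW2 d f u v w) :=
  inferInstanceAs (Ring (RingQuot (HRel2 d f u v w)))

noncomputable instance : Algebra A (HW2 d f u v w) :=
  inferInstanceAs (Algebra A (RingQuot (HRel2 d f u v w)))

/-- The quotient map. -/
noncomputable def mkW2 : MonoidAlgebra A (BW d (2 * f) 2) →ₐ[A] HW2 d f u v w :=
  RingQuot.mkAlgHom A (HRel2 d f u v w)

/-- The natural map `β ↦ T_β`. -/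
noncomputable def T2 : BW d (2 * f) 2 →* HW2 d f u v w :=
  (mkW2 d f u v w : MonoidAlgebra A (BW d (2 * f) 2) →* HW2 d f u v w).comp
    (MonoidAlgebra.of A (BW d (2 * f) 2))

variable {d f u v w}

theorem T2_c0 {x : BW d (2 * f) 2} (g : Gam d (2 * f) 2)
    (hx : (x : Gam d (2 * f) 2) = g * tg d (2 * f) 2 0 ^ (2 * f) * g⁻¹) (hd : d ≠ 1) :
    aeval (T2 d f u v w x) (∏ j : Fin d, (Polynomial.X - C ((u j : Aˣ) : A))) = 0 := by
  have h := RingQuot.mkAlgHom_rel A (HRel2.c0 (u := u) (v := v) (w := w) x g hx hd)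
  rw [map_zero] at h
  exact (Polynomial.aeval_algHom_apply (mkW2 d f u v w)
    (MonoidAlgebra.of A (BW d (2 * f) 2) x) _).trans h

theorem T2_c1 {x : BW d (2 * f) 2} (g : Gam d (2 * f) 2) (hg : chi d (2 * f) 2 g ^ f = 1)
    (hx : (x : Gam d (2 * f) 2) = g * tg d (2 * f) 2 1 * g⁻¹) :
    aeval (T2 d f u v w x)
      ((Polynomial.X - C ((v 0 : Aˣ) : A)) * (Polynomial.X - C ((v 1 : Aˣ) : A))) = 0 := by
  have h := RingQuot.mkAlgHom_rel A (HRel2.c1 (u := u) (v := v) (w := w) x g hg hx)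
  rw [map_zero] at h
  exact (Polynomial.aeval_algHom_apply (mkW2 d f u v w)
    (MonoidAlgebra.of A (BW d (2 * f) 2) x) _).trans h

theorem T2_c2 {x : BW d (2 * f) 2} (g : Gam d (2 * f) 2) (hg : chi d (2 * f) 2 g ^ f ≠ 1)
    (hx : (x : Gam d (2 * f) 2) = g * tg d (2 * f) 2 1 * g⁻¹) :
    aeval (T2 d f u v w x)
      ((Polynomial.X - C ((w 0 : Aˣ) : A)) * (Polynomial.X - C ((w 1 : Aˣ) : A))) = 0 := by
  have h := RingQuot.mkAlgHom_rel A (HRel2.c2 (u := u) (v := v) (w := w) x g hg hx)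
  rw [map_zero] at h
  exact (Polynomial.aeval_algHom_apply (mkW2 d f u v w)
    (MonoidAlgebra.of A (BW d (2 * f) 2) x) _).trans h

/-- Induction in the Hecke algebra. -/
theorem HW2_induction {p : HW2 d f u v w → Prop} (hadd : ∀ x y, p x → p y → p (x + y))
    (hsmul : ∀ (r : A) x, p x → p (r • x)) (hT : ∀ x, p (T2 d f u v w x)) (h : HW2 d f u v w) :
    p h := by
  obtain ⟨z, rfl⟩ := RingQuot.mkAlgHom_surjective A (HRel2 d f u v w) h
  change p (mkW2 d f u v w z)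
  induction z using MonoidAlgebra.induction_on with
  | of g => exact hT g
  | add a b ha hb => rw [map_add]; exact hadd _ _ ha hb
  | smul r a ha => rw [map_smul]; exact hsmul _ _ ha

end rel

/-- Elements of `B(W)` have even `t_0`-exponent. -/
theorem BW_le (d f : ℕ) : BW d (2 * f) 2 ≤ G2 d f := by
  intro x hx
  rw [mem_G2, (mem_BW_iff d (2 * f) 2 x).mp hx, one_pow]

section tw2

variable {d f : ℕ} (hd : 0 < d) (hf : 0 < f)

/-- The element `t_0^(2k) x t_0^(-2k')`. -/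
noncomputable def tw2 (x : Gam d (2 * f) 2) (k k' : Fin f) : Gam d (2 * f) 2 :=
  gs d f ^ (k : ℕ) * x * (gs d f ^ (k' : ℕ))⁻¹

theorem tw2_mul (x y : Gam d (2 * f) 2) (k k' k'' : Fin f) :
    tw2 x k k' * tw2 y k' k'' = tw2 (x * y) k k'' := by
  unfold tw2
  group

theorem tw2_self (k : Fin f) : tw2 (1 : Gam d (2 * f) 2) k k = 1 := by
  unfold tw2
  group

theorem ds1a_chi_tw2 (x : Gam d (2 * f) 2) (k k' : Fin f) :
    chi d (2 * f) 2 (tw2 x k k') = (zt d (2 * f) ^ d) ^ (2 * (k : ℕ)) * chi d (2 * f) 2 x *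
      ((zt d (2 * f) ^ d) ^ (2 * (k' : ℕ)))⁻¹ := by
  have h0 : chi d (2 * f) 2 (gs d f) = (zt d (2 * f) ^ d) ^ 2 := by
    rw [gs, map_pow, chi_zero d (2 * f) 2 (by omega)]
  rw [tw2, map_mul, map_mul, map_inv, map_pow, map_pow, h0, pow_mul, pow_mul]

/-- CHUNK DS1A.  `chi x = ω^m` (`chi_values`, `ω = chi t_0` primitive of order `2f`), `x ∈ G2` means
`ω^(m f) = 1`, so `m` is even, `m = 2 m'`; take `k' = (k + m') mod f`. -/
theorem tw2_exists (hd : 0 < d) (hf : 0 < f) {x : Gam d (2 * f) 2} (hx : x ∈ G2 d f) (k : Fin f) :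
    ∃ k' : Fin f, tw2 x k k' ∈ BW d (2 * f) 2 := by
  have he : 0 < 2 * f := by omega
  obtain ⟨m, hm, hxm⟩ := H10BMM.chi_values hd he x
  have h1 : (zt d (2 * f) ^ d) ^ (m * f) = 1 := by
    have h := mem_G2.mp hx
    rwa [hxm, ← pow_mul] at h
  have h2 : 2 * f ∣ m * f := (zd_prim' hd he).dvd_of_pow_eq_one _ h1
  obtain ⟨m', rfl⟩ : 2 ∣ m := Nat.dvd_of_mul_dvd_mul_right hf h2
  refine ⟨⟨((k : ℕ) + m') % f, Nat.mod_lt _ hf⟩, ?_⟩
  rw [mem_BW_iff, ds1a_chi_tw2, hxm, ← pow_add]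
  have h3 : (zt d (2 * f) ^ d) ^ (2 * (((k : ℕ) + m') % f)) =
      (zt d (2 * f) ^ d) ^ (2 * (k : ℕ) + 2 * m') := by
    have h4 : 2 * (k : ℕ) + 2 * m' =
        2 * (((k : ℕ) + m') % f) + 2 * f * (((k : ℕ) + m') / f) := by
      have h5 := Nat.mod_add_div ((k : ℕ) + m') f
      calc 2 * (k : ℕ) + 2 * m' = 2 * ((k : ℕ) + m') := by ring
        _ = 2 * (((k : ℕ) + m') % f + f * (((k : ℕ) + m') / f)) := by rw [h5]
        _ = _ := by ring
    rw [h4, pow_add, pow_mul _ (2 * f), (zd_prim' hd he).pow_eq_one, one_pow, mul_one]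
  change (zt d (2 * f) ^ d) ^ (2 * (k : ℕ) + 2 * m') *
    ((zt d (2 * f) ^ d) ^ (2 * (((k : ℕ) + m') % f)))⁻¹ = 1
  rw [h3, mul_inv_cancel]

/-- CHUNK DS1A.  `ω^(2 k') = ω^(2 k'')`, `2k', 2k'' < 2f` (`tw_unique` in `Ind2.lean`). -/
theorem tw2_unique (hd : 0 < d) (hf : 0 < f) {x : Gam d (2 * f) 2} {k k' k'' : Fin f}
    (h' : tw2 x k k' ∈ BW d (2 * f) 2) (h'' : tw2 x k k'' ∈ BW d (2 * f) 2) : k' = k'' := by
  have he : 0 < 2 * f := by omega
  rw [mem_BW_iff, ds1a_chi_tw2, mul_inv_eq_one] at h' h''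
  have h1 : (zt d (2 * f) ^ d) ^ (2 * (k' : ℕ)) = (zt d (2 * f) ^ d) ^ (2 * (k'' : ℕ)) := by
    rw [← h', ← h'']
  have h2 := (zd_prim' hd he).pow_inj (by have := k'.2; omega) (by have := k''.2; omega) h1
  exact Fin.ext (by omega)

end tw2

end Pool.Agent.Lib.H10K2
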