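import Pool.Agent.Lib.H10K2.DS1

/-!
# Chunk DS2C : the relations of the Hecke algebra in the mother algebra
-/

namespace Pool.Agent.Lib.H10K2

open Polynomial
open scoped BigOperators
open Pool.Agent.Lib.H10BMM (Gam tg liftG liftG_tg IsBraid chi chi_zero chi_succ zt zt_pow zt_prim
  tg_isBraid Gam_closure Gam_ext BW mem_BW_iff zd_prim' proj proj_tg sr GLn Gg sr_zero sr_succ
  chi_values tg_pow aeval_conj)

universe u'

variable {A : Type u'} [CommRing A] [Nontrivial A] {d f : ℕ} (hd : 0 < d) (hf : 0 < f)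
  (u : Fin d → Aˣ) (v w : Fin 2 → Aˣ) (hu1 : d = 1 → ∀ j, u j = 1)

/-- The map from `B(W)` to the mother algebra. -/
noncomputable def rhoW : BW d (2 * f) 2 →* K (parOf hd hf u v w) :=
  (rhoK hd hf u v w hu1).comp (Subgroup.inclusion (BW_le d f))

theorem rhoW_apply (x : BW d (2 * f) 2) :
    rhoW hd hf u v w hu1 x = rhoK hd hf u v w hu1 ⟨x, BW_le d f x.2⟩ := rfl

theorem ds2c_conj (h y : G2 d f) (p : A[X]) (hy : aeval (rhoK hd hf u v w hu1 y) p = 0) :
    aeval (rhoK hd hf u v w hu1 (h * y * h⁻¹)) p = 0 := by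
  have h1 : rhoK hd hf u v w hu1 (h * y * h⁻¹) =
      (((rhoK hd hf u v w hu1).toHomUnits h : (K (parOf hd hf u v w))ˣ) :
        K (parOf hd hf u v w)) * rhoK hd hf u v w hu1 y *
      ((((rhoK hd hf u v w hu1).toHomUnits h)⁻¹ : (K (parOf hd hf u v w))ˣ) :
        K (parOf hd hf u v w)) := by
    rw [map_mul, map_mul, ← map_inv]
    rfl
  rw [h1]
  exact aeval_conj _ _ _ hy

/-- CHUNK DS2C.  Compare `phi_rel` in `Lib/H10BMM/Ind2.lean` and `aeval_conj`.
`c0` : `x = g t_0^(2f) g⁻¹`: in `M_2(K)` the matrix of `t_0^(2f)` is `diag (s^f, s^f)` (`m0_pow`), and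
`∏ (X - u_j)` kills `s^f`; conjugate by the unit `rho2 g` and take the entry `(0,0)` (the matrix of
`x` is diagonal, so `aeval` can be computed entrywise; or argue in the matrix ring first).
`c1` : `g` even, the entry `(0,0)` of `rho2 g` is a unit `p` and `rhoW x = p t p⁻¹`.
`c2` : `g` odd, `rho2 g` is antidiagonal with `(0,1)` entry a unit `p` and `rhoW x = p u p⁻¹`
(write `g = h t_0` with `h ∈ G2`, so that `x = h gu h⁻¹` and `rhoK` is a homomorphism: this also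
works for `c1` with `h = g`). -/
theorem phi_rel {x y : MonoidAlgebra A (BW d (2 * f) 2)} (h : HRel2 d f u v w x y) :
    MonoidAlgebra.lift A (K (parOf hd hf u v w)) (BW d (2 * f) 2) (rhoW hd hf u v w hu1) x =
    MonoidAlgebra.lift A (K (parOf hd hf u v w)) (BW d (2 * f) 2) (rhoW hd hf u v w hu1) y := by
  induction h with
  | c0 x g hx hd1 =>
    rw [map_zero, ← aeval_algHom_apply, MonoidAlgebra.lift_of, rhoW_apply]
    have hks : aeval (ks (parOf hd hf u v w) ^ f)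
        (∏ j : Fin d, (Polynomial.X - C ((u j : Aˣ) : A))) = 0 := by
      have h2 : aeval (ks (parOf hd hf u v w)) (H10BMM.pol f u) = 0 :=
        (isH_K (parOf hd hf u v w)).pol
      rwa [H10BMM.pol_comp, aeval_comp, map_pow, aeval_X] at h2
    have hks' : aeval (rhoK hd hf u v w hu1 (⟨gs d f, gs_mem hd hf⟩ ^ f))
        (∏ j : Fin d, (Polynomial.X - C ((u j : Aˣ) : A))) = 0 := by
      rw [map_pow, rhoK_gs]
      exact hks
    obtain ⟨h, hh⟩ : ∃ h : G2 d f, (x : Gam d (2 * f) 2) =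
        (h : Gam d (2 * f) 2) * gs d f ^ f * (h : Gam d (2 * f) 2)⁻¹ := by
      rcases chi_pow_or hd hf g with hg | hg
      · refine ⟨⟨g, mem_G2.mpr hg⟩, ?_⟩
        rw [hx, gs, ← pow_mul]
      · refine ⟨⟨g * tg d (2 * f) 2 0, mem_G2.mpr ?_⟩, ?_⟩
        · rw [map_mul, mul_pow, hg, chi_zero_pow hd hf, neg_one_mul, neg_neg]
        · rw [hx, gs, ← pow_mul]
          change g * tg d (2 * f) 2 0 ^ (2 * f) * g⁻¹ =
            g * tg d (2 * f) 2 0 * tg d (2 * f) 2 0 ^ (2 * f) * (g * tg d (2 * f) 2 0)⁻¹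
          rw [mul_assoc g (tg d (2 * f) 2 0), ← pow_succ', pow_succ]
          group
    have hx2 : (⟨(x : Gam d (2 * f) 2), BW_le d f x.2⟩ : G2 d f) =
        h * ⟨gs d f, gs_mem hd hf⟩ ^ f * h⁻¹ := Subtype.ext hh
    rw [hx2]
    exact ds2c_conj hd hf u v w hu1 _ _ _ hks'
  | c1 x g hg hx =>
    rw [map_zero, ← aeval_algHom_apply, MonoidAlgebra.lift_of, rhoW_apply]
    have hx2 : (⟨(x : Gam d (2 * f) 2), BW_le d f x.2⟩ : G2 d f) =
        ⟨g, mem_G2.mpr hg⟩ * ⟨gt d f, gt_mem⟩ * (⟨g, mem_G2.mpr hg⟩ : G2 d f)⁻¹ :=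
      Subtype.ext hx
    rw [hx2]
    refine ds2c_conj hd hf u v w hu1 _ _ _ ?_
    rw [rhoK_gt, ← quadt_iff hd hf u v w]
    exact (isH_K (parOf hd hf u v w)).quadt
  | c2 x g hg hx =>
    rw [map_zero, ← aeval_algHom_apply, MonoidAlgebra.lift_of, rhoW_apply]
    have hg' : chi d (2 * f) 2 g ^ f = -1 := (chi_pow_or hd hf g).resolve_left hg
    have hmem : g * (tg d (2 * f) 2 0)⁻¹ ∈ G2 d f := by
      rw [mem_G2, map_mul, map_inv, mul_pow, inv_pow, hg', chi_zero_pow hd hf, mul_inv_cancel]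
    have hx2 : (⟨(x : Gam d (2 * f) 2), BW_le d f x.2⟩ : G2 d f) =
        ⟨_, hmem⟩ * ⟨gu d f, gu_mem⟩ * (⟨_, hmem⟩ : G2 d f)⁻¹ := by
      apply Subtype.ext
      change (x : Gam d (2 * f) 2) = g * (tg d (2 * f) 2 0)⁻¹ *
        (tg d (2 * f) 2 0 * tg d (2 * f) 2 1 * (tg d (2 * f) 2 0)⁻¹) *
        (g * (tg d (2 * f) 2 0)⁻¹)⁻¹
      rw [hx]
      group
    rw [hx2]
    refine ds2c_conj hd hf u v w hu1 _ _ _ ?_
    rw [rhoK_gu, ← quadu_iff hd hf u v w]
    exact (isH_K (parOf hd hf u v w)).quadu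

end Pool.Agent.Lib.H10K2
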