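import Pool.Agent.Lib.H10K2.DS2B
import Pool.Agent.Lib.H10K2.DS2C

/-!
# The Hecke algebra of `G(de,e,2)` inside the mother algebra
-/

namespace Pool.Agent.Lib.H10K2

open Polynomial
open scoped BigOperators
open Pool.Agent.Lib.H10BMM (Gam tg liftG liftG_tg IsBraid chi chi_zero chi_succ zt zt_pow zt_prim
  tg_isBraid Gam_closure Gam_ext BW mem_BW_iff zd_prim' proj proj_tg sr GLn Gg sr_zero sr_succ
  chi_values tg_pow aeval_conj)

universe u'

variable {A : Type u'} [CommRing A] [Nontrivial A] {d f : ℕ} (hd : 0 < d) (hf : 0 < f)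
  (u : Fin d → Aˣ) (v w : Fin 2 → Aˣ) (hu1 : d = 1 → ∀ j, u j = 1)

/-- The natural map. -/
noncomputable def phi : HW2 d f u v w →ₐ[A] K (parOf hd hf u v w) :=
  RingQuot.liftAlgHom A ⟨MonoidAlgebra.lift A (K (parOf hd hf u v w)) (BW d (2 * f) 2)
    (rhoW hd hf u v w hu1), fun _ _ h => phi_rel hd hf u v w hu1 h⟩

theorem phi_T2 (x : BW d (2 * f) 2) : phi hd hf u v w hu1 (T2 d f u v w x) =
    rhoK hd hf u v w hu1 ⟨x, BW_le d f x.2⟩ := by
  have h1 : phi hd hf u v w hu1 (T2 d f u v w x) =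
      MonoidAlgebra.lift A (K (parOf hd hf u v w)) (BW d (2 * f) 2) (rhoW hd hf u v w hu1)
        (MonoidAlgebra.of A (BW d (2 * f) 2) x) :=
    RingQuot.liftAlgHom_mkAlgHom_apply A _ _ _
  rw [h1, MonoidAlgebra.lift_of, rhoW_apply]

/-- The projection. -/
noncomputable def chW : K (parOf hd hf u v w) →ₗ[A] HW2 d f u v w where
  toFun h := Psi2 hd hf u v w hu1 h ⟨0, hf⟩ ⟨0, hf⟩
  map_add' x y := by rw [map_add, Matrix.add_apply]
  map_smul' r x := by rw [map_smul, Matrix.smul_apply]; rfl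

theorem chW_apply (h : K (parOf hd hf u v w)) :
    chW hd hf u v w hu1 h = Psi2 hd hf u v w hu1 h ⟨0, hf⟩ ⟨0, hf⟩ := rfl

theorem tw2_zero_zero (hf : 0 < f) (x : Gam d (2 * f) 2) :
    tw2 x (⟨0, hf⟩ : Fin f) ⟨0, hf⟩ = x := by
  unfold tw2; simp

theorem chW_rhoK_mem (x : BW d (2 * f) 2) : chW hd hf u v w hu1
    (rhoK hd hf u v w hu1 ⟨x, BW_le d f x.2⟩) = T2 d f u v w x := by
  rw [chW_apply, Psi2_rhoK hd hf u v w hu1, psi_of_mem hd hf u v w (by
    rw [tw2_zero_zero]; exact x.2)]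
  congr 1
  exact Subtype.ext (tw2_zero_zero hf _)

theorem chW_rhoK_not_mem {x : G2 d f} (hx : (x : Gam d (2 * f) 2) ∉ BW d (2 * f) 2) :
    chW hd hf u v w hu1 (rhoK hd hf u v w hu1 x) = 0 := by
  rw [chW_apply, Psi2_rhoK hd hf u v w hu1, psi_of_not_mem hd hf u v w (by
    rw [tw2_zero_zero]; exact hx)]

theorem chW_phi (y : HW2 d f u v w) : chW hd hf u v w hu1 (phi hd hf u v w hu1 y) = y := by
  induction y using HW2_induction with
  | hadd x y hx hy => rw [map_add, map_add, hx, hy]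
  | hsmul r x hx => rw [map_smul, map_smul, hx]
  | hT x => rw [phi_T2, chW_rhoK_mem]

/-- The matrix of an element of the Hecke algebra is diagonal in the first row and column. -/
theorem Psi2_phi_row (y : HW2 d f u v w) (k : Fin f) (hk : k ≠ ⟨0, hf⟩) :
    Psi2 hd hf u v w hu1 (phi hd hf u v w hu1 y) ⟨0, hf⟩ k = 0 ∧
      Psi2 hd hf u v w hu1 (phi hd hf u v w hu1 y) k ⟨0, hf⟩ = 0 := by
  induction y using HW2_induction with
  | hadd x y hx hy =>
    rw [map_add, map_add, Matrix.add_apply, Matrix.add_apply, hx.1, hx.2, hy.1, hy.2, add_zero]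
    exact ⟨rfl, rfl⟩
  | hsmul r x hx =>
    rw [map_smul, map_smul, Matrix.smul_apply, Matrix.smul_apply, hx.1, hx.2, smul_zero]
    exact ⟨rfl, rfl⟩
  | hT x =>
    rw [phi_T2, Psi2_rhoK hd hf u v w hu1, psi_diag hd hf u v w ((mem_BW_iff _ _ _ _).mp x.2),
      Matrix.diagonal_apply_ne _ (Ne.symm hk), Matrix.diagonal_apply_ne _ hk]
    exact ⟨rfl, rfl⟩

theorem chW_mul_phi (h : K (parOf hd hf u v w)) (y : HW2 d f u v w) :
    chW hd hf u v w hu1 (h * phi hd hf u v w hu1 y) = chW hd hf u v w hu1 h * y := by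
  rw [chW_apply, map_mul, Matrix.mul_apply, Finset.sum_eq_single ⟨0, hf⟩, ← chW_apply,
    ← chW_apply, chW_phi]
  · intro k _ hk
    rw [(Psi2_phi_row hd hf u v w hu1 y k hk).2, mul_zero]
  · intro h; exact absurd (Finset.mem_univ _) h

theorem chW_phi_mul (h : K (parOf hd hf u v w)) (y : HW2 d f u v w) :
    chW hd hf u v w hu1 (phi hd hf u v w hu1 y * h) = y * chW hd hf u v w hu1 h := by
  rw [chW_apply, map_mul, Matrix.mul_apply, Finset.sum_eq_single ⟨0, hf⟩, ← chW_apply,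
    ← chW_apply, chW_phi]
  · intro k _ hk
    rw [(Psi2_phi_row hd hf u v w hu1 y k hk).1, zero_mul]
  · intro h; exact absurd (Finset.mem_univ _) h

/-- `tau` only depends on the projection. -/
theorem tau_chW (h : K (parOf hd hf u v w)) :
    tau (parOf hd hf u v w) (phi hd hf u v w hu1 (chW hd hf u v w hu1 h)) =
      tau (parOf hd hf u v w) h := by
  have hspan : h ∈ Submodule.span A (Set.range (kw (parOf hd hf u v w))) :=
    kw_span (parOf hd hf u v w) trivial
  induction hspan using Submodule.span_induction with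
  | mem x hx =>
    obtain ⟨i, rfl⟩ := hx
    have e1 := rhoK_gw hd hf u v w hu1 i
    rw [← e1]
    by_cases h1 : gw d f i.1 i.2.1 i.2.2 ∈ BW d (2 * f) 2
    · rw [chW_rhoK_mem hd hf u v w hu1 ⟨_, h1⟩, phi_T2]
    · rw [chW_rhoK_not_mem hd hf u v w hu1 h1, map_zero, map_zero, e1, tau_kw, if_neg]
      intro h2
      apply h1
      rw [h2]
      have : gw d f ((0 : Fin 2) : ℕ) 0 0 = 1 := by simp [gw]
      change gw d f ((0 : Fin 2) : ℕ) 0 0 ∈ BW d (2 * f) 2
      rw [this]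
      exact Subgroup.one_mem _
  | zero => simp only [map_zero]
  | add x y _ _ hx hy => simp only [map_add, hx, hy]
  | smul r x _ hx => simp only [map_smul, hx]

end Pool.Agent.Lib.H10K2
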