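import Pool.Agent.Lib.H10K2.DS1

/-!
# Chunk DS2A : the relations in the induced representation
-/

namespace Pool.Agent.Lib.H10K2

open Polynomial
open scoped BigOperators
open Pool.Agent.Lib.H10BMM (Gam tg liftG liftG_tg IsBraid chi chi_zero chi_succ zt zt_pow zt_prim
  tg_isBraid Gam_closure Gam_ext BW mem_BW_iff zd_prim' proj proj_tg sr GLn Gg sr_zero sr_succ
  chi_values tg_pow aeval_conj)

universe u'

variable {A : Type u'} [CommRing A] [Nontrivial A] {d f : ℕ} (hd : 0 < d) (hf : 0 < f)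
  (u : Fin d → Aˣ) (v w : Fin 2 → Aˣ) (hu1 : d = 1 → ∀ j, u j = 1)

theorem ds2a_grp {G : Type*} [Group G] {a b : G} (h : a * b * a * b = b * a * b * a) :
    a ^ 2 * b * (a * b * a⁻¹) = b * (a * b * a⁻¹) * a ^ 2 ∧
      b * (a * b * a⁻¹) * a ^ 2 = a * b * a⁻¹ * a ^ 2 * b := by
  have h1 : b * (a * b * a⁻¹) * a ^ 2 = b * a * b * a := by group
  have h2 : a * b * a⁻¹ * a ^ 2 * b = a * b * a * b := by group
  have h3 : a ^ 2 * b * (a * b * a⁻¹) = a * (a * b * a * b) * a⁻¹ := by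
    simp only [pow_two, mul_assoc]
  have h4 : a * (b * a * b * a) * a⁻¹ = a * b * a * b := by group
  refine ⟨?_, ?_⟩
  · rw [h1, h3, h, h4, h]
  · rw [h1, h2, h]

include hu1 in
/-- CHUNK DS2A.  Compare `psi_isHecke` in `Lib/H10BMM/Ind2.lean`.
`pol` : `P = (∏_j (X - u_j)).comp (X^f)` (`pol_comp`), and `psi (gs)^f = psi (gs^f)` is the scalar
matrix `T2 (t_0^(2f))` (`psi_diag`), for `d ≠ 1` use `T2_c0`, for `d = 1` `t_0^(2f) = 1` and `hu1`.
`quadt` : `psi gt` is diagonal with entries `T2 (gs^k t_1 gs^(-k))`, `chi (gs^k)^f = 1` : `T2_c1`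
(`quadt_iff`).  `quadu` : `psi gu` is diagonal with entries `T2 (g t_1 g⁻¹)`, `g = gs^k t_0`,
`chi g ^ f = -1 ≠ 1` : `T2_c2`.  `br1`, `br2` : `psi` is a homomorphism and
`gs gt gu = gt gu gs = gu gs gt` in the group. -/
theorem psi_isH : IsH (parOf hd hf u v w) (psi hd hf u v w ⟨gs d f, gs_mem hd hf⟩)
    (psi hd hf u v w ⟨gt d f, gt_mem⟩) (psi hd hf u v w ⟨gu d f, gu_mem⟩) := by
  refine ⟨?_, ?_, ?_, ?_, ?_⟩
  · change aeval (psi hd hf u v w ⟨gs d f, gs_mem hd hf⟩) (H10BMM.pol f u) = 0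
    have hx : chi d (2 * f) 2 (tg d (2 * f) 2 0 ^ (2 * f)) = 1 := by
      rw [map_pow, chi_zero d (2 * f) 2 (by omega), (zd_prim' hd (by omega)).pow_eq_one]
    have hmem : tg d (2 * f) 2 0 ^ (2 * f) ∈ BW d (2 * f) 2 := by rw [mem_BW_iff, hx]
    have hgs : gs d f ^ f = tg d (2 * f) 2 0 ^ (2 * f) := by rw [gs, ← pow_mul]
    have hco : (((⟨gs d f, gs_mem hd hf⟩ : G2 d f) ^ f : G2 d f) : Gam d (2 * f) 2) =
        tg d (2 * f) 2 0 ^ (2 * f) := by
      rw [Subgroup.coe_pow]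
      exact hgs
    set y : HW2 d f u v w := T2 d f u v w ⟨tg d (2 * f) 2 0 ^ (2 * f), hmem⟩ with hy
    have h1 : psi hd hf u v w ⟨gs d f, gs_mem hd hf⟩ ^ f =
        Matrix.scalarAlgHom (Fin f) A y := by
      have hx' : chi d (2 * f) 2
          (((⟨gs d f, gs_mem hd hf⟩ : G2 d f) ^ f : G2 d f) : Gam d (2 * f) 2) = 1 := by
        rw [hco, hx]
      rw [← map_pow, psi_diag hd hf u v w hx']
      ext k k'
      simp only [Matrix.scalarAlgHom_apply, Matrix.scalar_apply]
      rw [Matrix.diagonal_apply, Matrix.diagonal_apply]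
      by_cases h : k = k'
      · rw [if_pos h, if_pos h, hy]
        congr 1
        apply Subtype.ext
        change gs d f ^ (k : ℕ) *
          (((⟨gs d f, gs_mem hd hf⟩ : G2 d f) ^ f : G2 d f) : Gam d (2 * f) 2) *
            (gs d f ^ (k : ℕ))⁻¹ = tg d (2 * f) 2 0 ^ (2 * f)
        rw [hco, ← hgs, ← pow_add, add_comm, pow_add, mul_inv_cancel_right]
      · rw [if_neg h, if_neg h]
    rw [H10BMM.pol_comp, aeval_comp, map_pow, aeval_X, h1, aeval_algHom_apply]
    have h2 : aeval y (∏ j : Fin d, (Polynomial.X - C ((u j : Aˣ) : A))) = 0 := by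
      by_cases hd1 : d = 1
      · subst hd1
        have h3 : y = 1 := by
          rw [hy, ← map_one (T2 1 f u v w)]
          congr 1
          exact Subtype.ext (tg_pow 1 (2 * f) 2 (by omega) rfl)
        rw [Fin.prod_univ_one, hu1 rfl, h3, map_sub, aeval_X, aeval_C, Units.val_one, map_one,
          sub_self]
      · exact T2_c0 1 (by simp) hd1
    rw [h2, map_zero]
  · have hc : chi d (2 * f) 2 ((⟨gt d f, gt_mem⟩ : G2 d f) : Gam d (2 * f) 2) = 1 := chi_one
    rw [psi_diag hd hf u v w hc, Matrix.diagonal_mul_diagonal]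
    ext k k'
    rw [Matrix.add_apply, Matrix.smul_apply, Matrix.smul_apply, Matrix.diagonal_apply,
      Matrix.diagonal_apply, Matrix.one_apply]
    by_cases h : k = k'
    · rw [if_pos h, if_pos h, if_pos h, quadt_iff hd hf u v w]
      refine T2_c1 (gs d f ^ (k : ℕ)) ?_ rfl
      have h4 := mem_G2.mp (gs_mem (d := d) hd hf)
      rw [map_pow, ← pow_mul, mul_comm (k : ℕ) f, pow_mul, h4, one_pow]
    · rw [if_neg h, if_neg h, if_neg h, smul_zero, smul_zero, add_zero]
  · have hc : chi d (2 * f) 2 ((⟨gu d f, gu_mem⟩ : G2 d f) : Gam d (2 * f) 2) = 1 := by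
      change chi d (2 * f) 2 (gu d f) = 1
      rw [gu, map_mul, map_mul, map_inv, chi_one, mul_one, mul_inv_cancel]
    rw [psi_diag hd hf u v w hc, Matrix.diagonal_mul_diagonal]
    ext k k'
    rw [Matrix.add_apply, Matrix.smul_apply, Matrix.smul_apply, Matrix.diagonal_apply,
      Matrix.diagonal_apply, Matrix.one_apply]
    by_cases h : k = k'
    · rw [if_pos h, if_pos h, if_pos h, quadu_iff hd hf u v w]
      refine T2_c2 (gs d f ^ (k : ℕ) * tg d (2 * f) 2 0) ?_ ?_
      · have h4 := mem_G2.mp (gs_mem (d := d) hd hf)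
        rw [map_mul, mul_pow, map_pow, ← pow_mul, mul_comm (k : ℕ) f, pow_mul, h4, one_pow, one_mul,
          chi_zero_pow hd hf]
        intro h5
        have h6 := congrArg (fun z : ℂˣ => (z : ℂ)) h5
        norm_num at h6
      · change gs d f ^ (k : ℕ) * gu d f * (gs d f ^ (k : ℕ))⁻¹ = _
        rw [gu]
        group
    · rw [if_neg h, if_neg h, if_neg h, smul_zero, smul_zero, add_zero]
  · rw [← map_mul, ← map_mul, ← map_mul, ← map_mul]
    congr 1
    apply Subtype.ext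
    change gs d f * gt d f * gu d f = gt d f * gu d f * gs d f
    rw [gs, gt, gu]
    exact (ds2a_grp ((tg_isBraid d (2 * f) 2).br4 (by omega))).1
  · rw [← map_mul, ← map_mul, ← map_mul, ← map_mul]
    congr 1
    apply Subtype.ext
    change gt d f * gu d f * gs d f = gu d f * gs d f * gt d f
    rw [gs, gt, gu]
    exact (ds2a_grp ((tg_isBraid d (2 * f) 2).br4 (by omega))).2

end Pool.Agent.Lib.H10K2
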