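import Pool.Agent.Lib.H10K2.DS2A

/-!
# Chunk DS2B
-/

namespace Pool.Agent.Lib.H10K2

open Polynomial
open scoped BigOperators
open Pool.Agent.Lib.H10BMM (Gam tg liftG liftG_tg IsBraid chi chi_zero chi_succ zt zt_pow zt_prim
  tg_isBraid Gam_closure Gam_ext BW mem_BW_iff zd_prim' proj proj_tg sr GLn Gg sr_zero sr_succ
  chi_values tg_pow aeval_conj)

universe u'

variable {A : Type u'} [CommRing A] [Nontrivial A] {d f : ℕ} (hd : 0 < d) (hf : 0 < f)
  (u : Fin d → Aˣ) (v w : Fin 2 → Aˣ) (hu1 : d = 1 → ∀ j, u j = 1)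

/-- The extension of the induced representation to the mother algebra. -/
noncomputable def Psi2 : K (parOf hd hf u v w) →ₐ[A] Matrix (Fin f) (Fin f) (HW2 d f u v w) :=
  lift (psi_isH hd hf u v w hu1)

/-- CHUNK DS2B.  `G2_hom_ext`. -/
theorem Psi2_rhoK (x : G2 d f) :
    Psi2 hd hf u v w hu1 (rhoK hd hf u v w hu1 x) = psi hd hf u v w x := by
  have h : ((Psi2 hd hf u v w hu1 : K (parOf hd hf u v w) →ₐ[A]
      Matrix (Fin f) (Fin f) (HW2 d f u v w)) : K (parOf hd hf u v w) →*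
      Matrix (Fin f) (Fin f) (HW2 d f u v w)).comp (rhoK hd hf u v w hu1) =
      psi hd hf u v w := by
    refine G2_hom_ext hd hf _ _ ?_ ?_ ?_
    · change Psi2 hd hf u v w hu1 (rhoK hd hf u v w hu1 ⟨gs d f, gs_mem hd hf⟩) = _
      rw [rhoK_gs, Psi2, lift_ks]
    · change Psi2 hd hf u v w hu1 (rhoK hd hf u v w hu1 ⟨gt d f, gt_mem⟩) = _
      rw [rhoK_gt, Psi2, lift_kt]
    · change Psi2 hd hf u v w hu1 (rhoK hd hf u v w hu1 ⟨gu d f, gu_mem⟩) = _
      rw [rhoK_gu, Psi2, lift_ku]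
  exact DFunLike.congr_fun h x

end Pool.Agent.Lib.H10K2
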