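import Mathlib

/-!
# The mother algebra of the Hecke algebras of `G(de,e,2)`, `e` even : definitions

`A` is a commutative ring.  `Par A` packs a monic polynomial `P` of degree `D > 0` with unit
constant coefficient `p0` and the coefficients of two quadratic relations with unit constant
terms.  `IsH Q s t u` says that `s`, `t`, `u` satisfy `P(s) = 0`, `t^2 = a t + b`,
`u^2 = a' u + b'` and `s t u = t u s = u s t`.  `K Q` is the universal such algebra.
-/

namespace Pool.Agent.Lib.H10K2

open scoped BigOperators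
open Polynomial

universe u v w

/-- The parameters. -/
structure Par (A : Type u) [CommRing A] where
  D : ℕ
  hD : 0 < D
  P : A[X]
  monic : P.Monic
  deg : P.natDegree = D
  p0 : Aˣ
  hp0 : P.coeff 0 = (p0 : A)
  a : A
  b : Aˣ
  a' : A
  b' : Aˣ

/-- `s`, `t`, `u` satisfy the relations of the mother algebra. -/
structure IsH {A : Type u} [CommRing A] (Q : Par A) {K : Type v} [Ring K] [Algebra A K]
    (s t u : K) : Prop where
  pol : aeval s Q.P = 0
  quadt : t * t = Q.a • t + (Q.b : A) • (1 : K)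
  quadu : u * u = Q.a' • u + (Q.b' : A) • (1 : K)
  br1 : s * t * u = t * u * s
  br2 : t * u * s = u * s * t

section

variable {A : Type u} [CommRing A] (Q : Par A)

/-- The product `q = b b'`. -/
def Par.q : Aˣ := Q.b * Q.b'

/-- `γ = - a' / b'`. -/
def Par.g : A := -(Q.a' * ((Q.b'⁻¹ : Aˣ) : A))

open FreeAlgebra in
/-- The defining relations of `K Q`; the generators are `0 ↦ s`, `1 ↦ t`, `2 ↦ u`. -/
inductive Rel : FreeAlgebra A (Fin 3) → FreeAlgebra A (Fin 3) → Prop
  | pol : Rel (aeval (ι A (0 : Fin 3)) Q.P) 0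
  | quadt : Rel (ι A (1 : Fin 3) * ι A 1) (Q.a • ι A (1 : Fin 3) + (Q.b : A) • 1)
  | quadu : Rel (ι A (2 : Fin 3) * ι A 2) (Q.a' • ι A (2 : Fin 3) + (Q.b' : A) • 1)
  | br1 : Rel (ι A (0 : Fin 3) * ι A 1 * ι A 2) (ι A 1 * ι A 2 * ι A 0)
  | br2 : Rel (ι A (1 : Fin 3) * ι A 2 * ι A 0) (ι A 2 * ι A 0 * ι A 1)

/-- The mother algebra. -/
def K : Type u := RingQuot (Rel Q)

noncomputable instance : Ring (K Q) := inferInstanceAs (Ring (RingQuot (Rel Q)))

noncomputable instance : Algebra A (K Q) := inferInstanceAs (Algebra A (RingQuot (Rel Q)))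

/-- The canonical map from the free algebra. -/
noncomputable def mk : FreeAlgebra A (Fin 3) →ₐ[A] K Q := RingQuot.mkAlgHom A (Rel Q)

/-- The generator `s`. -/
noncomputable def ks : K Q := mk Q (FreeAlgebra.ι A 0)

/-- The generator `t`. -/
noncomputable def kt : K Q := mk Q (FreeAlgebra.ι A 1)

/-- The generator `u`. -/
noncomputable def ku : K Q := mk Q (FreeAlgebra.ι A 2)

theorem mk_rel {x y : FreeAlgebra A (Fin 3)} (h : Rel Q x y) : mk Q x = mk Q y :=
  RingQuot.mkAlgHom_rel A h

theorem isH_K : IsH Q (ks Q) (kt Q) (ku Q) := by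
  refine ⟨?_, ?_, ?_, ?_, ?_⟩
  · have h := mk_rel Q (Rel.pol (Q := Q))
    rw [map_zero] at h
    rw [ks, Polynomial.aeval_algHom_apply]
    exact h
  · have h := mk_rel Q (Rel.quadt (Q := Q))
    simp only [map_mul, map_add, map_smul, map_one] at h
    exact h
  · have h := mk_rel Q (Rel.quadu (Q := Q))
    simp only [map_mul, map_add, map_smul, map_one] at h
    exact h
  · have h := mk_rel Q (Rel.br1 (Q := Q))
    simp only [map_mul] at h
    exact h
  · have h := mk_rel Q (Rel.br2 (Q := Q))
    simp only [map_mul] at h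
    exact h

variable {Q}

/-- The images of the generators. -/
def gen3 {L : Type v} (s t u : L) : Fin 3 → L := ![s, t, u]

theorem lift_rel {L : Type v} [Ring L] [Algebra A L] {s t u : L} (h : IsH Q s t u)
    {x y : FreeAlgebra A (Fin 3)} (hxy : Rel Q x y) :
    FreeAlgebra.lift A (gen3 s t u) x = FreeAlgebra.lift A (gen3 s t u) y := by
  have e0 : FreeAlgebra.lift A (gen3 s t u) (FreeAlgebra.ι A 0) = s := by
    rw [FreeAlgebra.lift_ι_apply]; rfl
  have e1 : FreeAlgebra.lift A (gen3 s t u) (FreeAlgebra.ι A 1) = t := by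
    rw [FreeAlgebra.lift_ι_apply]; rfl
  have e2 : FreeAlgebra.lift A (gen3 s t u) (FreeAlgebra.ι A 2) = u := by
    rw [FreeAlgebra.lift_ι_apply]; rfl
  induction hxy with
  | pol => rw [map_zero, ← Polynomial.aeval_algHom_apply, e0, h.pol]
  | quadt => simp only [map_mul, map_add, map_smul, map_one, e1]; exact h.quadt
  | quadu => simp only [map_mul, map_add, map_smul, map_one, e2]; exact h.quadu
  | br1 => simp only [map_mul, e0, e1, e2]; exact h.br1
  | br2 => simp only [map_mul, e0, e1, e2]; exact h.br2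

/-- The universal property. -/
noncomputable def lift {L : Type v} [Ring L] [Algebra A L] {s t u : L} (h : IsH Q s t u) :
    K Q →ₐ[A] L :=
  RingQuot.liftAlgHom A ⟨FreeAlgebra.lift A (gen3 s t u), fun _ _ hxy => lift_rel h hxy⟩

theorem lift_mk {L : Type v} [Ring L] [Algebra A L] {s t u : L} (h : IsH Q s t u)
    (x : FreeAlgebra A (Fin 3)) : lift h (mk Q x) = FreeAlgebra.lift A (gen3 s t u) x :=
  RingQuot.liftAlgHom_mkAlgHom_apply A _ _ _

theorem lift_ks {L : Type v} [Ring L] [Algebra A L] {s t u : L} (h : IsH Q s t u) :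
    lift h (ks Q) = s := by
  rw [ks, lift_mk, FreeAlgebra.lift_ι_apply]; rfl

theorem lift_kt {L : Type v} [Ring L] [Algebra A L] {s t u : L} (h : IsH Q s t u) :
    lift h (kt Q) = t := by
  rw [kt, lift_mk, FreeAlgebra.lift_ι_apply]; rfl

theorem lift_ku {L : Type v} [Ring L] [Algebra A L] {s t u : L} (h : IsH Q s t u) :
    lift h (ku Q) = u := by
  rw [ku, lift_mk, FreeAlgebra.lift_ι_apply]; rfl

/-- Induction over the algebra. -/
theorem K_induction {p : K Q → Prop} (halg : ∀ r : A, p (algebraMap A _ r)) (hs : p (ks Q))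
    (ht : p (kt Q)) (hu : p (ku Q)) (hadd : ∀ x y, p x → p y → p (x + y))
    (hmul : ∀ x y, p x → p y → p (x * y)) (x : K Q) : p x := by
  obtain ⟨z, rfl⟩ := RingQuot.mkAlgHom_surjective A (Rel Q) x
  change p (mk Q z)
  induction z using FreeAlgebra.induction with
  | grade0 r => rw [AlgHom.commutes]; exact halg r
  | grade1 i =>
    fin_cases i
    · exact hs
    · exact ht
    · exact hu
  | mul a b ha hb => rw [map_mul]; exact hmul _ _ ha hb
  | add a b ha hb => rw [map_add]; exact hadd _ _ ha hb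

end

/-- The working form of the relations: `z` is central (it commutes with `s` and `t`), `si`, `zi`
are the inverses of `s`, `z`, and `t s = q⁻¹ z² s⁻¹ (t - a) + γ z`. -/
structure IsW {A : Type u} [CommRing A] (Q : Par A) {L : Type v} [Ring L] [Algebra A L]
    (s si t z zi : L) : Prop where
  s_si : s * si = 1
  si_s : si * s = 1
  z_zi : z * zi = 1
  zi_z : zi * z = 1
  sz : s * z = z * s
  tz : t * z = z * t
  pol : aeval s Q.P = 0
  quad : t * t = Q.a • t + (Q.b : A) • (1 : L)
  W : t * s = ((Q.q⁻¹ : Aˣ) : A) • (z * z * si * (t - Q.a • 1)) + Q.g • z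

end Pool.Agent.Lib.H10K2
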