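import Pool.Agent.Lib.H10K2.FN3

/-!
# Chunk FN4
-/

namespace Pool.Agent.Lib.H10K2

open Polynomial
open scoped BigOperators
open Pool.Agent.Lib.H10BMM (Gam tg liftG liftG_tg IsBraid chi chi_zero chi_succ zt zt_pow zt_prim
  tg_isBraid Gam_closure Gam_ext BW mem_BW mem_BW_iff zd_prim' proj proj_tg sr GLn Gg piB cox)

universe u'

variable {d f : ℕ} (hd : 0 < d) (hf : 0 < f) {A : Type u'} [CommRing A] [Nontrivial A]
  (u : Fin d → Aˣ) (v w : Fin 2 → Aˣ) (hu1 : d = 1 → ∀ j, u j = 1)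

open Classical in
/-- CHUNK FN4.  `rhoK_sec`, `tau_kw`, `ixOf_one`, `ixOf` injective (`ixOf g = ixOf 1` gives
`g = 1` by `proj_ixOf`). -/
theorem tauW_sec (g : Gg d (2 * f) 2) :
    tauW hd hf u v w hu1 (T2 d f u v w (sec hd hf g)) = if g = 1 then 1 else 0 := by
  rw [tauW_T2, rhoK_sec]
  refine (tau_kw (parOf hd hf u v w) (ixOf hd hf g)).trans ?_
  have key : ixOf hd hf g = ixOf hd hf 1 ↔ g = 1 := by
    constructor
    · intro h1
      have h2 := proj_ixOf hd hf g
      rw [h1, proj_ixOf] at h2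
      exact Subtype.ext h2.symm
    · intro h
      rw [h]
  rw [ixOf_one] at key
  by_cases hg : g = 1
  · rw [if_pos hg]
    exact if_pos (key.mpr hg)
  · rw [if_neg hg]
    exact if_neg (fun h => hg (key.mp h))

end Pool.Agent.Lib.H10K2
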