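import Pool.Agent.Lib.H10K2.FN3

/-!
# Chunk FN5
-/

namespace Pool.Agent.Lib.H10K2

open Polynomial
open scoped BigOperators
open Pool.Agent.Lib.H10BMM (Gam tg liftG liftG_tg IsBraid chi chi_zero chi_succ zt zt_pow zt_prim
  tg_isBraid Gam_closure Gam_ext BW mem_BW mem_BW_iff zd_prim' proj proj_tg sr GLn Gg piB cox)

universe u'

variable {d f : ℕ} (hd : 0 < d) (hf : 0 < f) {A : Type u'} [CommRing A] [Nontrivial A]
  (u : Fin d → Aˣ) (v w : Fin 2 → Aˣ) (hu1 : d = 1 → ∀ j, u j = 1)

include hu1 in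
/-- CHUNK FN5.  `LinearIndependent.of_comp` with `phi`; `phi (T2 (sec g)) = kw (ixOf g)`
(`phi_T2`, `rhoK_sec`), `kw_linearIndependent`, `ixOf` injective. -/
theorem sec_linearIndependent :
    LinearIndependent A (fun g : Gg d (2 * f) 2 => T2 d f u v w (sec hd hf g)) := by
  have hinj : Function.Injective (ixOf hd hf) := by
    intro g g' h
    have h2 := proj_ixOf hd hf g
    rw [h, proj_ixOf] at h2
    exact Subtype.ext h2.symm
  have h1 := (kw_linearIndependent (parOf hd hf u v w)).comp _ hinj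
  refine LinearIndependent.of_comp (phi hd hf u v w hu1).toLinearMap ?_
  have h2 : (phi hd hf u v w hu1).toLinearMap ∘ (fun g : Gg d (2 * f) 2 => T2 d f u v w (sec hd hf g)) =
      kw (parOf hd hf u v w) ∘ ixOf hd hf := by
    funext g
    change phi hd hf u v w hu1 (T2 d f u v w (sec hd hf g)) = kw (parOf hd hf u v w) (ixOf hd hf g)
    rw [phi_T2, rhoK_sec]
  rw [h2]
  exact h1

end Pool.Agent.Lib.H10K2
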