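import Pool.Agent.Lib.H10K2.FN3

/-!
# Chunk FN6
-/

namespace Pool.Agent.Lib.H10K2

open Polynomial
open scoped BigOperators
open Pool.Agent.Lib.H10BMM (Gam tg liftG liftG_tg IsBraid chi chi_zero chi_succ zt zt_pow zt_prim
  tg_isBraid Gam_closure Gam_ext BW mem_BW mem_BW_iff zd_prim' proj proj_tg sr GLn Gg piB cox)

universe u'

variable {d f : ℕ} (hd : 0 < d) (hf : 0 < f) {A : Type u'} [CommRing A] [Nontrivial A]
  (u : Fin d → Aˣ) (v w : Fin 2 → Aˣ) (hu1 : d = 1 → ∀ j, u j = 1)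

include hu1 in
/-- CHUNK FN6.  As `sec_span` in `Lib/H10BMM/Final.lean`: `y = chW (phi y)`, and by `kw_span` it
suffices that `chW (kw i) = chW (rhoK (gw i))` is in the span: it is `0` if `gw i ∉ BW`
(`chW_rhoK_not_mem`) and `T2 (gw i)` otherwise (`chW_rhoK_mem`), and then `gw i = sec g` with
`g = proj (gw i)` (`ix_inj`, `proj_ixOf`). -/
theorem sec_span : ⊤ ≤ Submodule.span A (Set.range
    (fun g : Gg d (2 * f) 2 => T2 d f u v w (sec hd hf g))) := by
  intro y _
  rw [← chW_phi hd hf u v w hu1 y]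
  generalize phi hd hf u v w hu1 y = h
  have hspan := kw_span (parOf hd hf u v w) (Submodule.mem_top (x := h))
  induction hspan using Submodule.span_induction with
  | mem x hx =>
    obtain ⟨i, rfl⟩ := hx
    rw [← rhoK_gw hd hf u v w hu1 i]
    by_cases h1 : gw d f i.1 i.2.1 i.2.2 ∈ BW d (2 * f) 2
    · have h2 := chW_rhoK_mem hd hf u v w hu1 ⟨_, h1⟩
      rw [show (⟨gw d f i.1 i.2.1 i.2.2, gw_mem hd hf _ _ _⟩ : G2 d f) = ⟨((⟨_, h1⟩ : BW d (2 * f) 2) : Gam d (2 * f) 2), BW_le d f h1⟩ from rfl, h2]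
      refine Submodule.subset_span ⟨⟨proj d (2 * f) 2 (gw d f i.1 i.2.1 i.2.2), h1⟩, ?_⟩
      simp only
      congr 1
      apply Subtype.ext
      change gw d f (ixOf hd hf _).1 (ixOf hd hf _).2.1 (ixOf hd hf _).2.2 = _
      have h3 : ixOf hd hf (⟨proj d (2 * f) 2 (gw d f i.1 i.2.1 i.2.2), h1⟩ : Gg d (2 * f) 2) = i :=
        ix_inj hd hf (proj_ixOf hd hf _)
      rw [h3]
    · rw [chW_rhoK_not_mem hd hf u v w hu1 h1]
      exact Submodule.zero_mem _
  | zero => rw [map_zero]; exact Submodule.zero_mem _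
  | add x y _ _ hx hy => rw [map_add]; exact Submodule.add_mem _ hx hy
  | smul r x _ hx => rw [map_smul]; exact Submodule.smul_mem _ _ hx

end Pool.Agent.Lib.H10K2
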