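import Pool.Agent.Lib.H10K2.FN2
import Pool.Agent.Lib.H10K2.FN4
import Pool.Agent.Lib.H10K2.FN5
import Pool.Agent.Lib.H10K2.FN6

/-!
# The BMM trace and the section for `G(de,e,2)`, `e = 2 f`, over a general ring
-/

namespace Pool.Agent.Lib.H10K2

open Polynomial
open scoped BigOperators
open Pool.Agent.Lib.H10BMM (Gam tg liftG liftG_tg IsBraid chi chi_zero chi_succ zt zt_pow zt_prim
  tg_isBraid Gam_closure Gam_ext BW mem_BW mem_BW_iff zd_prim' proj proj_tg sr GLn Gg piB cox)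

universe u'

variable {A : Type u'} [CommRing A]

open Classical in
/-- The main theorem over a general ring. -/
theorem main_general2 [Nontrivial A] {d f : ℕ} (hd : 0 < d) (hf : 0 < f) (u : Fin d → Aˣ)
    (v w : Fin 2 → Aˣ) (hu1 : d = 1 → ∀ j, u j = 1) {st : A →+* A} {sp : A →+* ℂ} {z : ℂ}
    (hst : ∀ x, st (st x) = x) (hstu : ∀ j, st (u j) = (((u j)⁻¹ : Aˣ) : A))
    (hstv : ∀ j, st (v j) = (((v j)⁻¹ : Aˣ) : A)) (hstw : ∀ j, st (w j) = (((w j)⁻¹ : Aˣ) : A))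
    (hz : IsPrimitiveRoot z d)
    (hspu : ∀ j : Fin d, sp (u j) = z ^ (j : ℕ)) (hspv : ∀ j : Fin 2, sp (v j) = (-1) ^ (j : ℕ))
    (hspw : ∀ j : Fin 2, sp (w j) = (-1) ^ (j : ℕ)) :
    ∃ τ : HW2 d f u v w →ₗ[A] A, IsBMM2 d f u v w st sp τ ∧
      ∃ s : Gg d (2 * f) 2 → BW d (2 * f) 2, (∀ g, proj d (2 * f) 2 (s g) = g) ∧ s 1 = 1 ∧
        (∀ g, τ (T2 d f u v w (s g)) = if g = 1 then 1 else 0) ∧
        ∃ b : Module.Basis (Gg d (2 * f) 2) A (HW2 d f u v w), ∀ g, b g = T2 d f u v w (s g) := by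
  have hσ : IsStar (parOf hd hf u v w) st := parOf_isStar hd hf u v w hst hstu hstv hstw
  refine ⟨tauW hd hf u v w hu1, ⟨tauW_comm hd hf u v w hu1, tauW_bijective hd hf u v w hu1,
    tauW_spec hd hf u v w hu1 hz hspu hspv hspw, tauW_pi hd hf u v w hu1,
    tauW_star hd hf u v w hu1 hσ⟩,
    sec hd hf, proj_sec hd hf, sec_one hd hf, tauW_sec hd hf u v w hu1,
    Module.Basis.mk (sec_linearIndependent hd hf u v w hu1) (sec_span hd hf u v w hu1),
    fun g => by rw [Module.Basis.mk_apply]⟩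

end Pool.Agent.Lib.H10K2
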