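import Pool.Agent.Lib.H10K2.GP4B

/-!
# Chunk GP4 : condition (1)
-/

namespace Pool.Agent.Lib.H10K2

open Polynomial
open scoped BigOperators
open Pool.Agent.Lib.H10BMM (Gam tg liftG liftG_tg IsBraid chi chi_zero chi_succ zt zt_pow zt_prim
  tg_isBraid Gam_closure Gam_ext BW mem_BW_iff zd_prim' proj proj_tg sr GLn Gg sr_zero sr_succ
  Re toRe toRe_smul toRe_aeval cf1 cf1_add cf1_zero cf1_smul cf1_of pol_spec)

universe u' v'

variable {A : Type u'} [CommRing A] [Nontrivial A] {d f : ℕ} (hd : 0 < d) (hf : 0 < f)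
  (u : Fin d → Aˣ) (v w : Fin 2 → Aˣ) (hu1 : d = 1 → ∀ j, u j = 1) {θ : A →+* ℂ} {z : ℂ}
  (hz : IsPrimitiveRoot z d) (hu : ∀ j : Fin d, θ (u j) = z ^ (j : ℕ))
  (hv : ∀ j : Fin 2, θ (v j) = (-1) ^ (j : ℕ)) (hw : ∀ j : Fin 2, θ (w j) = (-1) ^ (j : ℕ))

open Classical in
/-- CHUNK GP4.  As `tau_Sp` in `Lib/H10BMM/Spec.lean`: by `kw_span` for `h = kw x = rhoK (gw x)`
(`rhoK_gw`): the left side is `1` iff `x` is trivial (`tau_kw`), the right side iff
`proj (gw x) = 1` (`Sp_rhoK`, `cf1_of`), iff `x` trivial (`proj_gw_inj`). -/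
theorem tau_Sp (hu1 : d = 1 → ∀ j, u j = 1) (h : K (parOf hd hf u v w)) :
    θ (tau (parOf hd hf u v w) h) = cf1 θ (GLn 2) (Sp hd hf u v w hz hu hv hw h) := by
  have hspan : h ∈ Submodule.span A (Set.range (kw (parOf hd hf u v w))) :=
    kw_span (parOf hd hf u v w) Submodule.mem_top
  induction hspan using Submodule.span_induction with
  | mem x hx =>
    obtain ⟨i, rfl⟩ := hx
    rw [tau_kw]
    have e := rhoK_gw hd hf u v w hu1 i
    rw [← e, Sp_rhoK hd hf u v w hu1, ga, cf1_of, apply_ite θ, map_one, map_zero]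
    refine if_congr ?_ rfl rfl
    have hpos : 0 < d * f := Nat.mul_pos hd hf
    have h1 : gw d f 0 0 0 = 1 := by simp [gw]
    constructor
    · rintro rfl
      change proj d (2 * f) 2 (gw d f 0 0 0) = 1
      rw [h1, map_one]
    · intro hi
      have h2 : proj d (2 * f) 2 (gw d f i.1 i.2.1 i.2.2) = proj d (2 * f) 2 (gw d f 0 0 0) := by
        rw [h1, map_one]; exact hi
      obtain ⟨e1, e2, e3⟩ := proj_gw_inj hd hf i.1.2 i.2.1.2 i.2.2.2 (by omega) (by omega)
        (by omega) h2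
      refine Prod.ext (Fin.ext e1) (Prod.ext (Fin.ext e2) (Fin.ext e3))
  | zero => rw [map_zero, map_zero, map_zero, cf1_zero]
  | add x y _ _ hx hy => rw [map_add, map_add, hx, hy, map_add, cf1_add]
  | smul r x _ hx => rw [map_smul, smul_eq_mul, map_mul, hx, map_smul, cf1_smul]

open Classical in
include hz hu hv hw in
theorem tau_rhoK_spec (x : G2 d f) :
    θ (tau (parOf hd hf u v w) (rhoK hd hf u v w hu1 x)) =
      if proj d (2 * f) 2 (x : Gam d (2 * f) 2) = 1 then 1 else 0 := by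
  rw [tau_Sp hd hf u v w hz hu hv hw hu1, Sp_rhoK hd hf u v w hu1, ga, cf1_of]

end Pool.Agent.Lib.H10K2
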