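import Pool.Agent.Lib.H10K2.DS2
import Pool.Agent.Lib.H10K2.GP4

/-!
# Chunk FN1 : the trace on the Hecke algebra of `G(de,e,2)`
-/

namespace Pool.Agent.Lib.H10K2

open Polynomial
open scoped BigOperators
open Pool.Agent.Lib.H10BMM (Gam tg liftG liftG_tg IsBraid chi chi_zero chi_succ zt zt_pow zt_prim
  tg_isBraid Gam_closure Gam_ext BW mem_BW mem_BW_iff zd_prim' proj proj_tg sr GLn Gg piB cox)

universe u'

variable {A : Type u'} [CommRing A]

open Classical in
/-- `τ` is the BMM trace of the Hecke algebra of `G(2df,2f,2)` over `A` with parameters `u`, `v`,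
`w`, where `st` is the involution `x ↦ x^*` and `sp` the specialisation to `ℂ`. -/
structure IsBMM2 (d f : ℕ) (u : Fin d → Aˣ) (v w : Fin 2 → Aˣ) (st : A →+* A) (sp : A →+* ℂ)
    (τ : HW2 d f u v w →ₗ[A] A) : Prop where
  trace : ∀ x y, τ (x * y) = τ (y * x)
  symm : Function.Bijective
    (fun x => (τ ∘ₗ LinearMap.mulLeft A x : HW2 d f u v w →ₗ[A] A))
  spec : ∀ β : BW d (2 * f) 2, sp (τ (T2 d f u v w β)) = if proj d (2 * f) 2 β = 1 then 1 else 0
  unit : IsUnit (τ (T2 d f u v w (piB d (2 * f) 2)))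
  star : ∀ β : BW d (2 * f) 2, st (τ (T2 d f u v w β⁻¹)) * τ (T2 d f u v w (piB d (2 * f) 2)) =
    τ (T2 d f u v w (β * piB d (2 * f) 2))

section main

variable [Nontrivial A] {d f : ℕ} (hd : 0 < d) (hf : 0 < f)
  (u : Fin d → Aˣ) (v w : Fin 2 → Aˣ) (hu1 : d = 1 → ∀ j, u j = 1)

/-- The trace. -/
noncomputable def tauW : HW2 d f u v w →ₗ[A] A :=
  tau (parOf hd hf u v w) ∘ₗ (phi hd hf u v w hu1).toLinearMap

theorem tauW_apply (x : HW2 d f u v w) :
    tauW hd hf u v w hu1 x = tau (parOf hd hf u v w) (phi hd hf u v w hu1 x) := rfl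

theorem tauW_comm (x y : HW2 d f u v w) :
    tauW hd hf u v w hu1 (x * y) = tauW hd hf u v w hu1 (y * x) := by
  rw [tauW_apply, tauW_apply, map_mul (phi hd hf u v w hu1), map_mul (phi hd hf u v w hu1),
    tau_comm]

theorem tauW_bijective : Function.Bijective
    (fun x => (tauW hd hf u v w hu1 ∘ₗ LinearMap.mulLeft A x : HW2 d f u v w →ₗ[A] A)) := by
  constructor
  · intro x y hxy
    have key : ∀ z : HW2 d f u v w, (∀ y, tauW hd hf u v w hu1 (z * y) = 0) → z = 0 := by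
      intro z hz
      have h1 : phi hd hf u v w hu1 z = 0 := by
        apply (tauDual_bijective (parOf hd hf u v w)).1
        rw [map_zero]
        refine LinearMap.ext fun h => ?_
        rw [tauDual_apply, ← tau_chW hd hf u v w hu1, chW_phi_mul]
        exact hz _
      rw [← chW_phi hd hf u v w hu1 z, h1, map_zero]
    rw [← sub_eq_zero]
    refine key _ fun w' => ?_
    have h2 := LinearMap.congr_fun hxy w'
    simp only [LinearMap.comp_apply, LinearMap.mulLeft_apply] at h2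
    rw [sub_mul, map_sub, h2, sub_self]
  · intro l
    obtain ⟨z, hz⟩ := tau_surj (parOf hd hf u v w) (l ∘ₗ chW hd hf u v w hu1)
    refine ⟨chW hd hf u v w hu1 z, LinearMap.ext fun x => ?_⟩
    change tauW hd hf u v w hu1 (chW hd hf u v w hu1 z * x) = l x
    rw [tauW_apply, ← chW_mul_phi hd hf u v w hu1, tau_chW hd hf u v w hu1, hz,
      LinearMap.comp_apply, chW_phi]

/-- The trace on group elements. -/
theorem tauW_T2 (x : BW d (2 * f) 2) : tauW hd hf u v w hu1 (T2 d f u v w x) =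
    tau (parOf hd hf u v w) (rhoK hd hf u v w hu1 ⟨x, BW_le d f x.2⟩) := by
  rw [tauW_apply, phi_T2]

open Classical in
/-- Condition (1). -/
theorem tauW_spec {θ : A →+* ℂ} {z : ℂ} (hz : IsPrimitiveRoot z d)
    (hu : ∀ j : Fin d, θ (u j) = z ^ (j : ℕ)) (hv : ∀ j : Fin 2, θ (v j) = (-1) ^ (j : ℕ))
    (hw : ∀ j : Fin 2, θ (w j) = (-1) ^ (j : ℕ)) (β : BW d (2 * f) 2) :
    θ (tauW hd hf u v w hu1 (T2 d f u v w β)) = if proj d (2 * f) 2 β = 1 then 1 else 0 := by
  rw [tauW_T2]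
  exact tau_rhoK_spec hd hf u v w hu1 hz hu hv hw _

/-- CHUNK FN1.  `piB = cox (tg) 2 ^ (2 (d (2 f))) = (1 * t_0 * t_1)^(2 (d (2f))) = gz^(2 (d f))`
as group elements, and `rhoK_gz`. -/
theorem rhoK_pi : rhoK hd hf u v w hu1 ⟨piB d (2 * f) 2, BW_le d f (piB d (2 * f) 2).2⟩ =
    kz (parOf hd hf u v w) ^ (2 * (parOf hd hf u v w).D) := by
  have h1 : ((piB d (2 * f) 2 : BW d (2 * f) 2) : Gam d (2 * f) 2) = gz d f ^ (2 * (d * f)) := by
    change cox (tg d (2 * f) 2) 2 ^ (2 * (d * (2 * f))) = _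
    have h2 : cox (tg d (2 * f) 2) 2 = tg d (2 * f) 2 0 * tg d (2 * f) 2 1 := by
      change 1 * tg d (2 * f) 2 0 * tg d (2 * f) 2 1 = _
      rw [one_mul]
    rw [h2, gz, ← pow_mul]
    congr 1
    ring
  have h3 : (⟨((piB d (2 * f) 2 : BW d (2 * f) 2) : Gam d (2 * f) 2), BW_le d f (piB d (2 * f) 2).2⟩ : G2 d f) =
      ⟨gz d f, gz_mem hd hf⟩ ^ (2 * (d * f)) := by
    apply Subtype.ext
    rw [Subgroup.coe_pow]
    exact h1
  rw [h3, map_pow, rhoK_gz]
  rfl

end main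

end Pool.Agent.Lib.H10K2
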