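import Pool.Agent.Lib.H10K2.FN1

/-!
# Chunk FN2 : condition (2)
-/

namespace Pool.Agent.Lib.H10K2

open Polynomial
open scoped BigOperators
open Pool.Agent.Lib.H10BMM (Gam tg liftG liftG_tg IsBraid chi chi_zero chi_succ zt zt_pow zt_prim
  tg_isBraid Gam_closure Gam_ext BW mem_BW mem_BW_iff zd_prim' proj proj_tg sr GLn Gg piB cox)

universe u'

variable {A : Type u'} [CommRing A]

variable [Nontrivial A] {d f : ℕ} (hd : 0 < d) (hf : 0 < f)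
  (u : Fin d → Aˣ) (v w : Fin 2 → Aˣ) (hu1 : d = 1 → ∀ j, u j = 1)

theorem tauW_pi : IsUnit (tauW hd hf u v w hu1 (T2 d f u v w (piB d (2 * f) 2))) := by
  rw [tauW_T2, rhoK_pi, tau_z_top]
  exact ((parOf hd hf u v w).p0.isUnit.pow 2).mul ((parOf hd hf u v w).q.isUnit.pow _)

/-- CHUNK FN2.  Condition (2).  `β * piB` and `β⁻¹` under `rhoK` (a homomorphism on `G2`), then
`rhoK_pi`, `tau_star`, `tau_z_top` and `al_rhoK`; compare `tauW_star` in `Lib/H10BMM/Final.lean`. -/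
theorem tauW_star {σ : A →+* A} (hσ : IsStar (parOf hd hf u v w) σ) (β : BW d (2 * f) 2) :
    σ (tauW hd hf u v w hu1 (T2 d f u v w β⁻¹)) *
      tauW hd hf u v w hu1 (T2 d f u v w (piB d (2 * f) 2)) =
      tauW hd hf u v w hu1 (T2 d f u v w (β * piB d (2 * f) 2)) := by
  have h1 := tau_star hσ (rhoK hd hf u v w hu1 ⟨(β : Gam d (2 * f) 2), BW_le d f β.2⟩)
  rw [al_rhoK] at h1
  have h2 : (⟨((β * piB d (2 * f) 2 : BW d (2 * f) 2) : Gam d (2 * f) 2), BW_le d f (β * piB d (2 * f) 2).2⟩ : G2 d f) =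
      ⟨(β : Gam d (2 * f) 2), BW_le d f β.2⟩ *
        ⟨((piB d (2 * f) 2 : BW d (2 * f) 2) : Gam d (2 * f) 2), BW_le d f (piB d (2 * f) 2).2⟩ := rfl
  have h3 : (⟨((β⁻¹ : BW d (2 * f) 2) : Gam d (2 * f) 2), BW_le d f (β⁻¹).2⟩ : G2 d f) =
      (⟨(β : Gam d (2 * f) 2), BW_le d f β.2⟩ : G2 d f)⁻¹ := rfl
  rw [tauW_T2, tauW_T2, tauW_T2, h2, h3, map_mul, rhoK_pi, tau_z_top, h1]
  ring

end Pool.Agent.Lib.H10K2
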