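import Pool.Agent.Lib.H10K2.FN1

/-!
# Chunk FN3 : the section
-/

namespace Pool.Agent.Lib.H10K2

open Polynomial
open scoped BigOperators
open Pool.Agent.Lib.H10BMM (Gam tg liftG liftG_tg IsBraid chi chi_zero chi_succ zt zt_pow zt_prim
  tg_isBraid Gam_closure Gam_ext BW mem_BW mem_BW_iff zd_prim' proj proj_tg sr GLn Gg piB cox)

universe u'

section section'

variable {d f : ℕ} (hd : 0 < d) (hf : 0 < f)

include hd hf in
theorem exists_ix (g : Gg d (2 * f) 2) :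
    ∃ i : Fin 2 × Fin (2 * (d * f)) × Fin (d * f),
      proj d (2 * f) 2 (gw d f i.1 i.2.1 i.2.2) = g := by
  obtain ⟨a, k, i, ha, hk, hi, h⟩ := exists_gw hd hf (g : GLn 2) g.2
  exact ⟨(⟨a, ha⟩, ⟨k, hk⟩, ⟨i, hi⟩), h⟩

/-- The index of the section word. -/
noncomputable def ixOf (g : Gg d (2 * f) 2) : Fin 2 × Fin (2 * (d * f)) × Fin (d * f) :=
  Classical.choose (exists_ix hd hf g)

theorem proj_ixOf (g : Gg d (2 * f) 2) :
    proj d (2 * f) 2 (gw d f (ixOf hd hf g).1 (ixOf hd hf g).2.1 (ixOf hd hf g).2.2) = g :=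
  Classical.choose_spec (exists_ix hd hf g)

/-- The section. -/
noncomputable def sec (g : Gg d (2 * f) 2) : BW d (2 * f) 2 :=
  ⟨gw d f (ixOf hd hf g).1 (ixOf hd hf g).2.1 (ixOf hd hf g).2.2, by
    rw [mem_BW, proj_ixOf]; exact g.2⟩

theorem proj_sec (g : Gg d (2 * f) 2) : proj d (2 * f) 2 (sec hd hf g) = g := proj_ixOf hd hf g

include hd hf in
/-- CHUNK FN3.  `proj_gw_inj`. -/
theorem ix_inj {i j : Fin 2 × Fin (2 * (d * f)) × Fin (d * f)}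
    (h : proj d (2 * f) 2 (gw d f i.1 i.2.1 i.2.2) = proj d (2 * f) 2 (gw d f j.1 j.2.1 j.2.2)) :
    i = j := by
  obtain ⟨h1, h2, h3⟩ := proj_gw_inj hd hf i.1.2 i.2.1.2 i.2.2.2 j.1.2 j.2.1.2 j.2.2.2 h
  exact Prod.ext (Fin.ext h1) (Prod.ext (Fin.ext h2) (Fin.ext h3))

theorem ixOf_one : ixOf hd hf (1 : Gg d (2 * f) 2) =
    (0, ⟨0, by have := Nat.mul_pos hd hf; omega⟩, ⟨0, Nat.mul_pos hd hf⟩) := by
  apply ix_inj hd hf
  rw [proj_ixOf]
  have : gw d f ((0 : Fin 2) : ℕ) 0 0 = 1 := by simp [gw]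
  change ((1 : Gg d (2 * f) 2) : GLn 2) = proj d (2 * f) 2 (gw d f ((0 : Fin 2) : ℕ) 0 0)
  rw [this, map_one, Subgroup.coe_one]

theorem sec_one : sec hd hf (1 : Gg d (2 * f) 2) = 1 := by
  apply Subtype.ext
  change gw d f (ixOf hd hf 1).1 (ixOf hd hf 1).2.1 (ixOf hd hf 1).2.2 = 1
  rw [ixOf_one]
  simp [gw]

variable {A : Type u'} [CommRing A] [Nontrivial A] (u : Fin d → Aˣ) (v w : Fin 2 → Aˣ)
  (hu1 : d = 1 → ∀ j, u j = 1)

theorem rhoK_sec (g : Gg d (2 * f) 2) :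
    rhoK hd hf u v w hu1 ⟨sec hd hf g, BW_le d f (sec hd hf g).2⟩ =
      kw (parOf hd hf u v w) (ixOf hd hf g) :=
  rhoK_gw hd hf u v w hu1 (ixOf hd hf g)

end section'

end Pool.Agent.Lib.H10K2
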