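import Pool.Agent.Lib.H10K2.FR3

/-!
# `tau` is a symmetrising form
-/

namespace Pool.Agent.Lib.H10K2

open Polynomial
open scoped BigOperators

universe u v

variable {A : Type u} [CommRing A] (Q : Par A) [Nontrivial A]

/-- Every linear form is `tau (z * ·)`. -/
theorem tau_surj (l : K Q →ₗ[A] A) : ∃ z : K Q, ∀ h, tau Q (z * h) = l h := by
  obtain ⟨z, hz⟩ := frob Q (fun k i a => l (kz Q ^ k * ks Q ^ i * kt Q ^ a)) (2 * Q.D) le_rfl
  refine ⟨z, fun h => ?_⟩
  have h1 : tau Q ∘ₗ LinearMap.mulLeft A z = l := by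
    refine (kb Q).ext fun x => ?_
    rw [LinearMap.comp_apply, LinearMap.mulLeft_apply, kb_apply, kw]
    exact hz _ _ _ (by omega) x.2.1.2 x.2.2.2 x.1.2
  exact LinearMap.congr_fun h1 h

/-- The map `h ↦ tau (h * ·)`. -/
noncomputable def tauDual : K Q →ₗ[A] Module.Dual A (K Q) :=
  (LinearMap.mul A (K Q)).compr₂ (tau Q)

@[simp] theorem tauDual_apply (h h' : K Q) : tauDual Q h h' = tau Q (h * h') := rfl

theorem tauDual_bijective : Function.Bijective (tauDual Q) := by
  have hs : Function.Surjective (tauDual Q) := fun l => by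
    obtain ⟨z, hz⟩ := tau_surj Q l
    exact ⟨z, LinearMap.ext hz⟩
  refine ⟨?_, hs⟩
  have h2 : Module.Finite A (K Q) := Module.Finite.of_basis (kb Q)
  classical
  have h3 : Function.Surjective ((kb Q).toDualEquiv.symm.toLinearMap ∘ₗ tauDual Q) :=
    (kb Q).toDualEquiv.symm.surjective.comp hs
  have h4 := OrzechProperty.injective_of_surjective_endomorphism _ h3
  intro x y hxy
  apply h4
  rw [LinearMap.comp_apply, LinearMap.comp_apply, hxy]

end Pool.Agent.Lib.H10K2
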