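import Pool.Agent.Lib.H10K2.TA
import Pool.Agent.Lib.H10K2.C4

/-!
# Chunk FR1
-/

namespace Pool.Agent.Lib.H10K2

open Polynomial
open scoped BigOperators

universe u v

variable {A : Type u} [CommRing A] (Q : Par A) [Nontrivial A]

omit [Nontrivial A] in
/-- `X N = 1 - p0⁻¹ P`. -/
theorem fr1_XN : X * np Q = 1 - C (((Q.p0⁻¹ : Aˣ) : A)) * Q.P := by
  have h : divX Q.P * X + C (Q.P.coeff 0) = Q.P := divX_mul_X_add _
  have hc : C (((Q.p0⁻¹ : Aˣ) : A)) * C (Q.P.coeff 0) = 1 := by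
    rw [Q.hp0, ← C_mul, Units.inv_mul, C_1]
  conv_rhs => rw [← h]
  rw [np, mul_add, hc]
  ring

omit [Nontrivial A] in
/-- `(X N)^j = 1` modulo `P`. -/
theorem fr1_dvd (j : ℕ) : ∃ r : A[X], (X * np Q) ^ j = 1 + r * Q.P := by
  induction j with
  | zero => exact ⟨0, by simp⟩
  | succ j ih =>
    obtain ⟨r, hr⟩ := ih
    refine ⟨r * (X * np Q) - C (((Q.p0⁻¹ : Aˣ) : A)), ?_⟩
    rw [pow_succ, hr, add_mul, one_mul]
    conv_lhs => arg 1; rw [fr1_XN]
    ring

theorem fr1_eps (j i : ℕ) (c : A) (h : j ≤ i) :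
    eps Q (C c * np Q ^ j * X ^ i) = c * eps Q (X ^ (i - j)) := by
  obtain ⟨r, hr⟩ := fr1_dvd Q j
  obtain ⟨k, rfl⟩ := Nat.exists_eq_add_of_le h
  have e : C c * np Q ^ j * X ^ (j + k) = c • X ^ k + (C c * X ^ k * r) * Q.P := by
    have e1 : C c * np Q ^ j * X ^ (j + k) = C c * X ^ k * (X * np Q) ^ j := by
      rw [mul_pow]; ring
    rw [e1, hr, smul_eq_C_mul]
    ring
  rw [e, map_add, eps_mul_P, add_zero, map_smul, smul_eq_mul, Nat.add_sub_cancel_left]

/-- CHUNK FR1.  Pure polynomial algebra: for all `g : ℕ → A` there is `f : A[X]` with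
`eps (f * X^i) = g i` for `i < D`.  Let `N = np Q`, so `X N ≡ 1` modulo `P`; look for
`f = ∑_{j<D} c_j N^j`.  By downward induction (as `frob_level0` in `Lib/H10BMM/Un.lean`): for all
`m ≤ D` there is `f` with `eps (f * X^i) = g i` for `D - m ≤ i < D`: in the step `j = D - m - 1`
add `c N^j` with `c = g j - eps (f * X^j)`: `eps (c N^j X^i) = c eps (X^(i-j))` for `i ≥ j`
(`N^j X^i - X^(i-j)` is a multiple of `P`, `eps_mul_P`), which is `c` if `i = j` and `0` if
`j < i < D` (`eps_X_pow`). -/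
theorem eps_surj (g : ℕ → A) : ∃ f : A[X], ∀ i, i < Q.D → eps Q (f * X ^ i) = g i := by
  have key : ∀ m, m ≤ Q.D → ∃ f : A[X], ∀ i, Q.D - m ≤ i → i < Q.D →
      eps Q (f * X ^ i) = g i := by
    intro m
    induction m with
    | zero => intro _; exact ⟨0, fun i h1 h2 => by omega⟩
    | succ m ih =>
      intro hm
      obtain ⟨f, hf⟩ := ih (by omega)
      set j := Q.D - (m + 1) with hj
      refine ⟨f + C (g j - eps Q (f * X ^ j)) * np Q ^ j, fun i h1 h2 => ?_⟩
      rw [add_mul, map_add, fr1_eps Q j i _ h1, eps_X_pow Q (i - j) (by omega)]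
      rcases eq_or_lt_of_le h1 with h | h
      · rw [← h, Nat.sub_self, if_pos rfl]
        ring
      · rw [if_neg (by omega), mul_zero, add_zero]
        exact hf i (by omega) h2
  obtain ⟨f, hf⟩ := key Q.D le_rfl
  exact ⟨f, fun i hi => hf i (by omega) hi⟩

end Pool.Agent.Lib.H10K2
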