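import Pool.Agent.Lib.H10K2.TC
import Pool.Agent.Lib.H10K2.FR1

/-!
# Chunk FR2
-/

namespace Pool.Agent.Lib.H10K2

open Polynomial
open scoped BigOperators

universe u v

variable {A : Type u} [CommRing A] (Q : Par A) [Nontrivial A]

theorem fr2_zpow (k : ℕ) (h : K Q) : h * kz Q ^ k = kz Q ^ k * h := by
  have h1 : Commute (kz Q) h := kz_comm Q h
  exact (h1.pow_left k).eq.symm

theorem fr2_left (f : A[X]) (k i a : ℕ) (hk : k < 2 * Q.D) (ha : a < 2) :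
    tau Q (aeval (ks Q) f * (kz Q ^ k * ks Q ^ i * kt Q ^ a)) =
      if k = 0 ∧ a = 0 then eps Q (f * X ^ i) else 0 := by
  rw [← tau_kt_pow Q k a hk ha (f * X ^ i)]
  congr 1
  rw [map_mul (aeval (ks Q)), aeval_X_pow, ← mul_assoc, ← mul_assoc,
    fr2_zpow, mul_assoc (kz Q ^ k)]

theorem fr2_right (f : A[X]) (k i a : ℕ) (hk : k < 2 * Q.D) (ha : a < 2) :
    tau Q (tinv Q (kt Q) * aeval (ks Q) f * (kz Q ^ k * ks Q ^ i * kt Q ^ a)) =
      if k = 0 then (if a = 0 then -(((Q.b⁻¹ : Aˣ) : A) * Q.a * eps Q (f * X ^ i))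
        else eps Q (f * X ^ i)) else 0 := by
  have e : tau Q (tinv Q (kt Q) * aeval (ks Q) f * (kz Q ^ k * ks Q ^ i * kt Q ^ a)) =
      tau Q (kz Q ^ k * aeval (ks Q) (f * X ^ i) * kt Q ^ a * tinv Q (kt Q)) := by
    rw [mul_assoc, tau_comm]
    congr 1
    rw [map_mul, aeval_X_pow, ← mul_assoc, ← mul_assoc, fr2_zpow, mul_assoc (kz Q ^ k)]
  rw [e]
  have ha' : a = 0 ∨ a = 1 := by omega
  rcases ha' with rfl | rfl
  · rw [pow_zero, mul_one, V2' Q k hk, if_pos rfl]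
  · rw [pow_one, mul_assoc, mul_tinv (isH_K Q).quadt, mul_one, V1 Q k hk, if_neg one_ne_zero]

/-- CHUNK FR2.  Level `0`: `h = f(s) + f'(s) tinv` (multiplied on the right, all in the order
`z^k s^i t^a * h`): choose `f'` with `eps (f' X^i) = g i 1` and `f` with
`eps (f X^i) = g i 0 + (a / b) g i 1` for `i < D` (`eps_surj`).  Then, for `x = s^i t^a` :
`tau (h' x)` with `h' = f(s) + tinv f'(s)`: `tau (f s^i t^a) = [a=0] eps (f X^i)`,
`tau (tinv f' s^i t^a) = tau (f' s^i t^a tinv)` (`tau_comm`) `= [a=1] eps (f' X^i) -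
[a=0] (a/b) eps (f' X^i)` (`V1`, `V2`, `V2'`).
Moreover `tau (h' z^k s^i t^a) = 0` for `0 < k < 2D`. -/
theorem level0 (g : ℕ → ℕ → A) : ∃ h : K Q, (∀ i a, i < Q.D → a < 2 →
      tau Q (h * (ks Q ^ i * kt Q ^ a)) = g i a) ∧
    ∀ k i a, 0 < k → k < 2 * Q.D → i < Q.D → a < 2 →
      tau Q (h * (kz Q ^ k * ks Q ^ i * kt Q ^ a)) = 0 := by
  obtain ⟨f', hf'⟩ := eps_surj Q (fun i => g i 1)
  obtain ⟨f, hf⟩ := eps_surj Q (fun i => g i 0 + ((Q.b⁻¹ : Aˣ) : A) * Q.a * g i 1)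
  refine ⟨aeval (ks Q) f + tinv Q (kt Q) * aeval (ks Q) f', ?_, ?_⟩
  · intro i a hi ha
    have hD := Q.hD
    have h1 := fr2_left Q f 0 i a (by omega) ha
    have h2 := fr2_right Q f' 0 i a (by omega) ha
    rw [pow_zero, one_mul] at h1 h2
    rw [add_mul, map_add, h1, h2, hf i hi, hf' i hi]
    have ha' : a = 0 ∨ a = 1 := by omega
    rcases ha' with rfl | rfl
    · simp
    · simp
  · intro k i a hk0 hk hi ha
    rw [add_mul, map_add, fr2_left Q f k i a hk ha, fr2_right Q f' k i a hk ha,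
      if_neg (by omega), if_neg (by omega), add_zero]

end Pool.Agent.Lib.H10K2
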