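import Pool.Agent.Lib.H10K2.FR2

/-!
# Chunk FR3
-/

namespace Pool.Agent.Lib.H10K2

open Polynomial
open scoped BigOperators

universe u v

variable {A : Type u} [CommRing A] (Q : Par A) [Nontrivial A]

theorem fr3_zi_comm (h : K Q) : kzi Q * h = h * kzi Q := by
  have hW := isW_K Q
  calc kzi Q * h = kzi Q * h * (kz Q * kzi Q) := by rw [hW.z_zi, mul_one]
    _ = kzi Q * (h * kz Q) * kzi Q := by simp only [mul_assoc]
    _ = kzi Q * (kz Q * h) * kzi Q := by rw [← kz_comm Q h]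
    _ = h * kzi Q := by rw [← mul_assoc (kzi Q), hW.zi_z, one_mul]

theorem fr3_cancel (k j : ℕ) (h y : K Q) :
    kzi Q ^ k * h * (kz Q ^ (k + j) * y) = h * (kz Q ^ j * y) := by
  have hW := isW_K Q
  have e1 : kzi Q ^ k * kz Q ^ k = 1 := by
    have hc : Commute (kzi Q) (kz Q) := fr3_zi_comm Q (kz Q)
    rw [← hc.mul_pow, hW.zi_z, one_pow]
  have e2 : h * kz Q ^ k = kz Q ^ k * h := by
    have hc : Commute (kz Q) h := kz_comm Q h
    exact (hc.pow_left k).eq.symm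
  rw [pow_add]
  calc kzi Q ^ k * h * (kz Q ^ k * kz Q ^ j * y) = kzi Q ^ k * (h * kz Q ^ k) * (kz Q ^ j * y) := by
        simp only [mul_assoc]
    _ = (kzi Q ^ k * kz Q ^ k) * h * (kz Q ^ j * y) := by rw [e2]; simp only [mul_assoc]
    _ = h * (kz Q ^ j * y) := by rw [e1, one_mul]

/-- CHUNK FR3.  Downward induction on the level (as `frob_level0` in `Lib/H10BMM/Un.lean`), adding
`zi^(k0) h0` with `h0` from `level0` (`kz`, `kzi` are central: `kz_comm`). -/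
theorem frob (g : ℕ → ℕ → ℕ → A) (m : ℕ) (hm : m ≤ 2 * Q.D) : ∃ h : K Q,
    ∀ k i a, 2 * Q.D - m ≤ k → k < 2 * Q.D → i < Q.D → a < 2 →
      tau Q (h * (kz Q ^ k * ks Q ^ i * kt Q ^ a)) = g k i a := by
  induction m with
  | zero =>
    exact ⟨0, fun k i a h1 h2 _ _ => by omega⟩
  | succ m ih =>
    obtain ⟨h, hh⟩ := ih (by omega)
    obtain ⟨h0, h1, h2⟩ := level0 Q (fun i a => g (2 * Q.D - (m + 1)) i a -
      tau Q (h * (kz Q ^ (2 * Q.D - (m + 1)) * ks Q ^ i * kt Q ^ a)))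
    refine ⟨h + kzi Q ^ (2 * Q.D - (m + 1)) * h0, fun k i a hk1 hk2 hi ha => ?_⟩
    rw [add_mul, map_add]
    obtain ⟨j, rfl⟩ : ∃ j, k = 2 * Q.D - (m + 1) + j := ⟨k - (2 * Q.D - (m + 1)), by omega⟩
    have e := fr3_cancel Q (2 * Q.D - (m + 1)) j h0 (ks Q ^ i * kt Q ^ a)
    rw [← mul_assoc (kz Q ^ _), ← mul_assoc (kz Q ^ j)] at e
    rw [e]
    rcases Nat.eq_zero_or_pos j with rfl | hj
    · rw [pow_zero, one_mul, h1 i a hi ha, add_zero]
      ring
    · rw [h2 j i a hj (by omega) hi ha, add_zero]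
      exact hh _ i a (by omega) hk2 hi ha

end Pool.Agent.Lib.H10K2
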