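import Pool.Agent.Lib.H10K2.PO

/-!
# Chunk GP1C : the elements with even exponent
-/

namespace Pool.Agent.Lib.H10K2

open Polynomial
open scoped BigOperators
open Pool.Agent.Lib.H10BMM (Gam tg liftG liftG_tg IsBraid chi chi_zero chi_succ zt zt_pow zt_prim
  tg_isBraid Gam_closure Gam_ext BW mem_BW_iff zd_prim' proj proj_tg sr GLn Gg)

universe u' v'

variable {d f : ℕ} (hd : 0 < d) (hf : 0 < f)

/-- The elements with even `t_0`-exponent. -/
noncomputable def G2 (d f : ℕ) : Subgroup (Gam d (2 * f) 2) :=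
  ((powMonoidHom f : ℂˣ →* ℂˣ).comp (chi d (2 * f) 2)).ker

theorem mem_G2 {x : Gam d (2 * f) 2} : x ∈ G2 d f ↔ chi d (2 * f) 2 x ^ f = 1 := Iff.rfl

theorem gp1c_sq {z : ℂ} (h : z ^ 2 = 1) : z = 1 ∨ z = -1 := by
  have h1 : (z - 1) * (z + 1) = 0 := by
    linear_combination h
  rcases mul_eq_zero.1 h1 with h2 | h2
  · exact Or.inl (sub_eq_zero.1 h2)
  · exact Or.inr (eq_neg_of_add_eq_zero_left h2)

include hd hf in
/-- CHUNK GP1C.  `chi (t_0) = ζ_{2df}^d` is a primitive `2f`-th root of unity (`zd_prim'`), so its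
`f`-th power is `-1` (`IsPrimitiveRoot`, square `1` and not `1`). -/
theorem chi_zero_pow : chi d (2 * f) 2 (tg d (2 * f) 2 0) ^ f = -1 := by
  have hp := zd_prim' (d := d) (e := 2 * f) hd (by omega)
  rw [chi_zero d (2 * f) 2 (by omega)]
  have h1 : ((zt d (2 * f) ^ d) ^ f) ^ 2 = 1 := by
    rw [← pow_mul, mul_comm f 2]
    exact hp.pow_eq_one
  have h2 : (zt d (2 * f) ^ d) ^ f ≠ 1 := by
    intro h
    have := Nat.le_of_dvd hf (hp.dvd_of_pow_eq_one f h)
    omega
  have h3 : (((zt d (2 * f) ^ d) ^ f : ℂˣ) : ℂ) ^ 2 = 1 := by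
    rw [← Units.val_pow_eq_pow_val, h1, Units.val_one]
  rcases gp1c_sq h3 with h | h
  · exact absurd (Units.ext h) h2
  · apply Units.ext
    rw [h, Units.val_neg, Units.val_one]

theorem chi_one : chi d (2 * f) 2 (tg d (2 * f) 2 1) = 1 := chi_succ d (2 * f) 2 (by omega) (by omega)

include hd hf in
/-- CHUNK GP1C.  Closure induction (`Gam_closure`, generators `t_0`, `t_1`). -/
theorem chi_pow_or (x : Gam d (2 * f) 2) :
    chi d (2 * f) 2 x ^ f = 1 ∨ chi d (2 * f) 2 x ^ f = -1 := by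
  have hx : x ∈ Subgroup.closure {x | ∃ i, i < 2 ∧ x = tg d (2 * f) 2 i} := by
    rw [Gam_closure]
    exact Subgroup.mem_top x
  induction hx using Subgroup.closure_induction with
  | mem y hy =>
    obtain ⟨i, hi, rfl⟩ := hy
    rcases Nat.lt_succ_iff_lt_or_eq.1 hi with h | h
    · have : i = 0 := by omega
      subst this
      exact Or.inr (chi_zero_pow hd hf)
    · subst h
      rw [chi_one, one_pow]
      exact Or.inl rfl
  | one => exact Or.inl (by rw [map_one, one_pow])
  | mul y z _ _ hy hz =>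
    rw [map_mul, mul_pow]
    rcases hy with h | h <;> rcases hz with h' | h' <;> rw [h, h'] <;> simp
  | inv y _ hy =>
    rw [map_inv, inv_pow]
    rcases hy with h | h <;> rw [h] <;> simp

end Pool.Agent.Lib.H10K2
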