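import Pool.Agent.Lib.H10K2.GP1B
import Pool.Agent.Lib.H10K2.GP1C

/-!
# Chunk GP1 : the map from `G2` to the mother algebra
-/

namespace Pool.Agent.Lib.H10K2

open Polynomial
open scoped BigOperators
open Pool.Agent.Lib.H10BMM (Gam tg liftG liftG_tg IsBraid chi chi_zero chi_succ zt zt_pow zt_prim
  tg_isBraid Gam_closure Gam_ext BW mem_BW_iff zd_prim' proj proj_tg sr GLn Gg)

universe u' v'

variable {A : Type u'} [CommRing A] [Nontrivial A] {d f : ℕ} (hd : 0 < d) (hf : 0 < f)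
  (u : Fin d → Aˣ) (v w : Fin 2 → Aˣ) (hu1 : d = 1 → ∀ j, u j = 1)

section gp1aux

variable {R : Type*} [Ring R]

theorem gp1_mul (M N : (Matrix (Fin 2) (Fin 2) R)ˣ) (i j : Fin 2) :
    ((M * N : (Matrix (Fin 2) (Fin 2) R)ˣ) : Matrix (Fin 2) (Fin 2) R) i j =
      (M : Matrix (Fin 2) (Fin 2) R) i 0 * (N : Matrix (Fin 2) (Fin 2) R) 0 j +
        (M : Matrix (Fin 2) (Fin 2) R) i 1 * (N : Matrix (Fin 2) (Fin 2) R) 1 j := by
  rw [Units.val_mul, Matrix.mul_apply, Fin.sum_univ_two]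

theorem gp1_val_one (i j : Fin 2) :
    ((1 : (Matrix (Fin 2) (Fin 2) R)ˣ) : Matrix (Fin 2) (Fin 2) R) i j =
      if i = j then 1 else 0 := by
  rw [Units.val_one, Matrix.one_apply]

theorem gp1_diag_inv (M : (Matrix (Fin 2) (Fin 2) R)ˣ)
    (h01 : (M : Matrix (Fin 2) (Fin 2) R) 0 1 = 0)
    (h10 : (M : Matrix (Fin 2) (Fin 2) R) 1 0 = 0) :
    ((M⁻¹ : (Matrix (Fin 2) (Fin 2) R)ˣ) : Matrix (Fin 2) (Fin 2) R) 0 1 = 0 ∧
      ((M⁻¹ : (Matrix (Fin 2) (Fin 2) R)ˣ) : Matrix (Fin 2) (Fin 2) R) 1 0 = 0 := by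
  have a01 := gp1_mul M⁻¹ M 0 1
  have a10 := gp1_mul M⁻¹ M 1 0
  have b00 := gp1_mul M M⁻¹ 0 0
  have b11 := gp1_mul M M⁻¹ 1 1
  rw [inv_mul_cancel, gp1_val_one, if_neg (by decide), h01, mul_zero, zero_add] at a01
  rw [inv_mul_cancel, gp1_val_one, if_neg (by decide), h10, mul_zero, add_zero] at a10
  rw [mul_inv_cancel, gp1_val_one, if_pos rfl, h01, zero_mul, add_zero] at b00
  rw [mul_inv_cancel, gp1_val_one, if_pos rfl, h10, zero_mul, zero_add] at b11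
  constructor
  · rw [← mul_one (((M⁻¹ : (Matrix (Fin 2) (Fin 2) R)ˣ) : Matrix (Fin 2) (Fin 2) R) 0 1), b11,
      ← mul_assoc, ← a01, zero_mul]
  · rw [← mul_one (((M⁻¹ : (Matrix (Fin 2) (Fin 2) R)ˣ) : Matrix (Fin 2) (Fin 2) R) 1 0), b00,
      ← mul_assoc, ← a10, zero_mul]

theorem gp1_anti_inv (M : (Matrix (Fin 2) (Fin 2) R)ˣ)
    (h00 : (M : Matrix (Fin 2) (Fin 2) R) 0 0 = 0)
    (h11 : (M : Matrix (Fin 2) (Fin 2) R) 1 1 = 0) :
    ((M⁻¹ : (Matrix (Fin 2) (Fin 2) R)ˣ) : Matrix (Fin 2) (Fin 2) R) 0 0 = 0 ∧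
      ((M⁻¹ : (Matrix (Fin 2) (Fin 2) R)ˣ) : Matrix (Fin 2) (Fin 2) R) 1 1 = 0 := by
  have a01 := gp1_mul M⁻¹ M 0 1
  have a10 := gp1_mul M⁻¹ M 1 0
  have b00 := gp1_mul M M⁻¹ 0 0
  have b11 := gp1_mul M M⁻¹ 1 1
  rw [inv_mul_cancel, gp1_val_one, if_neg (by decide), h11, mul_zero, add_zero] at a01
  rw [inv_mul_cancel, gp1_val_one, if_neg (by decide), h00, mul_zero, zero_add] at a10
  rw [mul_inv_cancel, gp1_val_one, if_pos rfl, h00, zero_mul, zero_add] at b00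
  rw [mul_inv_cancel, gp1_val_one, if_pos rfl, h11, zero_mul, add_zero] at b11
  constructor
  · rw [← mul_one (((M⁻¹ : (Matrix (Fin 2) (Fin 2) R)ˣ) : Matrix (Fin 2) (Fin 2) R) 0 0), b00,
      ← mul_assoc, ← a01, zero_mul]
  · rw [← mul_one (((M⁻¹ : (Matrix (Fin 2) (Fin 2) R)ˣ) : Matrix (Fin 2) (Fin 2) R) 1 1), b11,
      ← mul_assoc, ← a10, zero_mul]

end gp1aux

/-- CHUNK GP1.  Closure induction: even elements have diagonal matrices, odd elements
antidiagonal ones (products and inverses of such units are again such: for the inverse use that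
the inverse matrix is determined; or do induction only with products by proving it for
`t_0⁻¹`, `t_1⁻¹` too, `Subgroup.closure_induction` / `Subgroup.closure_induction_right`). -/
theorem rho2_form (x : Gam d (2 * f) 2) :
    (chi d (2 * f) 2 x ^ f = 1 ∧
      ((rho2 hd hf u v w hu1 x : (Matrix (Fin 2) (Fin 2) (K (parOf hd hf u v w)))ˣ) :
        Matrix (Fin 2) (Fin 2) (K (parOf hd hf u v w))) 0 1 = 0 ∧
      ((rho2 hd hf u v w hu1 x : (Matrix (Fin 2) (Fin 2) (K (parOf hd hf u v w)))ˣ) :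
        Matrix (Fin 2) (Fin 2) (K (parOf hd hf u v w))) 1 0 = 0) ∨
    (chi d (2 * f) 2 x ^ f = -1 ∧
      ((rho2 hd hf u v w hu1 x : (Matrix (Fin 2) (Fin 2) (K (parOf hd hf u v w)))ˣ) :
        Matrix (Fin 2) (Fin 2) (K (parOf hd hf u v w))) 0 0 = 0 ∧
      ((rho2 hd hf u v w hu1 x : (Matrix (Fin 2) (Fin 2) (K (parOf hd hf u v w)))ˣ) :
        Matrix (Fin 2) (Fin 2) (K (parOf hd hf u v w))) 1 1 = 0) := by
  have hx : x ∈ Subgroup.closure {x | ∃ i, i < 2 ∧ x = tg d (2 * f) 2 i} := by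
    rw [Gam_closure]; exact Subgroup.mem_top _
  induction hx using Subgroup.closure_induction with
  | mem y hy =>
    obtain ⟨i, hi, rfl⟩ := hy
    have hi2 : i = 0 ∨ i = 1 := by omega
    rcases hi2 with rfl | rfl
    · right
      refine ⟨chi_zero_pow hd hf, ?_, ?_⟩
      · rw [rho2_zero]; rfl
      · rw [rho2_zero]; rfl
    · left
      refine ⟨?_, ?_, ?_⟩
      · rw [chi_one, one_pow]
      · rw [rho2_one]; rfl
      · rw [rho2_one]; rfl
  | one =>
    left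
    refine ⟨by rw [map_one, one_pow], ?_, ?_⟩
    · rw [map_one, gp1_val_one, if_neg (by decide)]
    · rw [map_one, gp1_val_one, if_neg (by decide)]
  | mul x y _ _ hx hy =>
    rcases hx with ⟨hx0, hx1, hx2⟩ | ⟨hx0, hx1, hx2⟩ <;>
      rcases hy with ⟨hy0, hy1, hy2⟩ | ⟨hy0, hy1, hy2⟩
    · left
      refine ⟨by rw [map_mul, mul_pow, hx0, hy0, one_mul], ?_, ?_⟩
      · rw [map_mul, gp1_mul, hx1, hy1, mul_zero, zero_mul, add_zero]
      · rw [map_mul, gp1_mul, hx2, hy2, mul_zero, zero_mul, add_zero]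
    · right
      refine ⟨by rw [map_mul, mul_pow, hx0, hy0, one_mul], ?_, ?_⟩
      · rw [map_mul, gp1_mul, hx1, hy1, mul_zero, zero_mul, add_zero]
      · rw [map_mul, gp1_mul, hx2, hy2, mul_zero, zero_mul, add_zero]
    · right
      refine ⟨by rw [map_mul, mul_pow, hx0, hy0, mul_one], ?_, ?_⟩
      · rw [map_mul, gp1_mul, hx1, hy2, mul_zero, zero_mul, add_zero]
      · rw [map_mul, gp1_mul, hx2, hy1, mul_zero, zero_mul, add_zero]
    · left
      refine ⟨by rw [map_mul, mul_pow, hx0, hy0, neg_one_mul, neg_neg], ?_, ?_⟩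
      · rw [map_mul, gp1_mul, hx1, hy2, mul_zero, zero_mul, add_zero]
      · rw [map_mul, gp1_mul, hx2, hy1, mul_zero, zero_mul, add_zero]
  | inv x _ hx =>
    rcases hx with ⟨hx0, hx1, hx2⟩ | ⟨hx0, hx1, hx2⟩
    · left
      refine ⟨by rw [map_inv, inv_pow, hx0, inv_one], ?_⟩
      rw [map_inv]
      exact gp1_diag_inv _ hx1 hx2
    · right
      refine ⟨by rw [map_inv, inv_pow, hx0, inv_neg, inv_one], ?_⟩
      rw [map_inv]
      exact gp1_anti_inv _ hx1 hx2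

/-- The map `G2 → K Q`, the entry `(0,0)`. -/
noncomputable def rhoK : G2 d f →* K (parOf hd hf u v w) where
  toFun x := ((rho2 hd hf u v w hu1 (x : Gam d (2 * f) 2) :
    (Matrix (Fin 2) (Fin 2) (K (parOf hd hf u v w)))ˣ) :
      Matrix (Fin 2) (Fin 2) (K (parOf hd hf u v w))) 0 0
  map_one' := by
    rw [Subgroup.coe_one, map_one, Units.val_one, Matrix.one_apply_eq]
  map_mul' x y := by
    rw [Subgroup.coe_mul, map_mul, Units.val_mul, Matrix.mul_apply, Fin.sum_univ_two]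
    rcases rho2_form hd hf u v w hu1 (x : Gam d (2 * f) 2) with h | h
    · rw [h.2.1, zero_mul, add_zero]
    · exfalso
      have h1 := mem_G2.mp x.2
      rw [h.1] at h1
      have h2 := congrArg (fun z : ℂˣ => (z : ℂ)) h1
      norm_num at h2

theorem rhoK_apply (x : G2 d f) : rhoK hd hf u v w hu1 x =
    ((rho2 hd hf u v w hu1 (x : Gam d (2 * f) 2) :
      (Matrix (Fin 2) (Fin 2) (K (parOf hd hf u v w)))ˣ) :
        Matrix (Fin 2) (Fin 2) (K (parOf hd hf u v w))) 0 0 := rfl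

end Pool.Agent.Lib.H10K2
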