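import Pool.Agent.Lib.H10K2.PO

/-!
# Chunk GP1A : the matrices
-/

namespace Pool.Agent.Lib.H10K2

open Polynomial
open scoped BigOperators
open Pool.Agent.Lib.H10BMM (Gam tg liftG liftG_tg IsBraid chi chi_zero chi_succ zt zt_pow zt_prim
  tg_isBraid Gam_closure Gam_ext BW mem_BW_iff zd_prim' proj proj_tg sr GLn Gg)

universe u' v'

section mats

variable {A : Type u'} [CommRing A] (Q : Par A)

/-- The image of `t_0`. -/
noncomputable def m0 : (Matrix (Fin 2) (Fin 2) (K Q))ˣ where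
  val := !![0, 1; ks Q, 0]
  inv := !![0, ksi Q; 1, 0]
  val_inv := by
    rw [Matrix.mul_fin_two, Matrix.one_fin_two, (isW_K Q).s_si]
    simp
  inv_val := by
    rw [Matrix.mul_fin_two, Matrix.one_fin_two, (isW_K Q).si_s]
    simp

/-- The image of `t_1`. -/
noncomputable def m1 : (Matrix (Fin 2) (Fin 2) (K Q))ˣ where
  val := !![kt Q, 0; 0, ku Q]
  inv := !![tinv Q (kt Q), 0; 0, kui Q]
  val_inv := by
    rw [Matrix.mul_fin_two, Matrix.one_fin_two, mul_tinv (isH_K Q).quadt, ku_kui]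
    simp
  inv_val := by
    rw [Matrix.mul_fin_two, Matrix.one_fin_two, tinv_mul (isH_K Q).quadt, kui_ku]
    simp

/-- The images of the generators. -/
noncomputable def mm (i : ℕ) : (Matrix (Fin 2) (Fin 2) (K Q))ˣ :=
  if i = 0 then m0 Q else if i = 1 then m1 Q else 1

/-- CHUNK GP1A.  `(m0 m1)² = diag (u s t, s t u)` and `(m1 m0)² = diag (t u s, u s t)`, equal by
`br1`, `br2`; the other relations are void for `n = 2`. -/
theorem mm_isBraid : IsBraid 2 (mm Q) := by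
  refine ⟨fun _ => ?_, fun i h0 h1 => by omega, fun i j h0 h1 => by omega⟩
  have e0 : mm Q 0 = m0 Q := if_pos rfl
  have e1 : mm Q 1 = m1 Q := by
    rw [mm, if_neg one_ne_zero, if_pos rfl]
  have h1 := (isH_K Q).br1
  have h2 := (isH_K Q).br2
  rw [e0, e1]
  apply Units.ext
  rw [Units.val_mul, Units.val_mul, Units.val_mul, Units.val_mul, Units.val_mul, Units.val_mul]
  change (!![0, 1; ks Q, 0] : Matrix (Fin 2) (Fin 2) (K Q)) * !![kt Q, 0; 0, ku Q] *
      !![0, 1; ks Q, 0] * !![kt Q, 0; 0, ku Q] =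
    !![kt Q, 0; 0, ku Q] * !![0, 1; ks Q, 0] * !![kt Q, 0; 0, ku Q] * !![0, 1; ks Q, 0]
  simp only [Matrix.mul_fin_two, zero_mul, mul_zero, add_zero, zero_add, one_mul, mul_one]
  rw [h1, h2]

/-- CHUNK GP1A.  `m0 ^ 2 = diag (s, s)`, so `m0 ^ (2 k) = diag (s^k, s^k)`. -/
theorem m0_pow (k : ℕ) : ((m0 Q ^ (2 * k) : (Matrix (Fin 2) (Fin 2) (K Q))ˣ) :
    Matrix (Fin 2) (Fin 2) (K Q)) = !![ks Q ^ k, 0; 0, ks Q ^ k] := by
  induction k with
  | zero =>
    rw [mul_zero, pow_zero, pow_zero, Units.val_one, Matrix.one_fin_two]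
  | succ k ih =>
    rw [mul_add, mul_one, pow_add, Units.val_mul, ih, pow_two, Units.val_mul]
    change _ * ((!![0, 1; ks Q, 0] : Matrix (Fin 2) (Fin 2) (K Q)) * !![0, 1; ks Q, 0]) = _
    simp only [Matrix.mul_fin_two, zero_mul, mul_zero, add_zero, zero_add, one_mul, mul_one]
    rw [pow_succ]

end mats

end Pool.Agent.Lib.H10K2
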