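import Pool.Agent.Lib.H10K2.GP1A

/-!
# Chunk GP1B : the map from the group to the units of `M_2(K Q)`
-/

namespace Pool.Agent.Lib.H10K2

open Polynomial
open scoped BigOperators
open Pool.Agent.Lib.H10BMM (Gam tg liftG liftG_tg IsBraid chi chi_zero chi_succ zt zt_pow zt_prim
  tg_isBraid Gam_closure Gam_ext BW mem_BW_iff zd_prim' proj proj_tg sr GLn Gg)

universe u' v'

variable {A : Type u'} [CommRing A] [Nontrivial A] {d f : ℕ} (hd : 0 < d) (hf : 0 < f)
  (u : Fin d → Aˣ) (v w : Fin 2 → Aˣ) (hu1 : d = 1 → ∀ j, u j = 1)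

include hu1 in
/-- CHUNK GP1B.  For `d = 1` : `P = X^f - 1` (`hu1`), so `s^f = 1` and `m0 ^ (2 f) = 1`. -/
theorem m0_pow_e (h1 : d = 1) : m0 (parOf hd hf u v w) ^ (2 * f) = 1 := by
  subst h1
  have h2 := (isH_K (parOf hd hf u v w)).pol
  have h3 : (parOf hd hf u v w).P = Polynomial.X ^ f - C (1 : A) := by
    change H10BMM.pol f u = _
    rw [H10BMM.pol, Fin.prod_univ_one, hu1 rfl 0, Units.val_one]
  rw [h3, map_sub, map_pow, aeval_X, aeval_C, map_one, sub_eq_zero] at h2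
  apply Units.ext
  rw [m0_pow, h2, Units.val_one, Matrix.one_fin_two]

/-- The map from the group. -/
noncomputable def rho2 : Gam d (2 * f) 2 →*
    (Matrix (Fin 2) (Fin 2) (K (parOf hd hf u v w)))ˣ :=
  liftG (mm_isBraid (parOf hd hf u v w)) (fun _ h1 => by
    rw [mm, if_pos rfl]; exact m0_pow_e hd hf u v w hu1 h1)

theorem rho2_zero : rho2 hd hf u v w hu1 (tg d (2 * f) 2 0) = m0 (parOf hd hf u v w) := by
  rw [rho2, liftG_tg _ _ (by omega), mm, if_pos rfl]

theorem rho2_one : rho2 hd hf u v w hu1 (tg d (2 * f) 2 1) = m1 (parOf hd hf u v w) := by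
  rw [rho2, liftG_tg _ _ (by omega), mm, if_neg (by omega), if_pos rfl]

end Pool.Agent.Lib.H10K2
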