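import Pool.Agent.Lib.H10K2.GP2A
import Pool.Agent.Lib.H10K2.GP1

/-!
# Chunk GP2D : the images of the words
-/

namespace Pool.Agent.Lib.H10K2

open Polynomial
open scoped BigOperators
open Pool.Agent.Lib.H10BMM (Gam tg liftG liftG_tg IsBraid chi chi_zero chi_succ zt zt_pow zt_prim
  tg_isBraid Gam_closure Gam_ext BW mem_BW_iff zd_prim' proj proj_tg sr GLn Gg sr_zero sr_succ
  dg_pow GLn_ext ev permHom_ev)

universe u' v'

variable {A : Type u'} [CommRing A] [Nontrivial A] {d f : ℕ} (hd : 0 < d) (hf : 0 < f)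
  (u : Fin d → Aˣ) (v w : Fin 2 → Aˣ) (hu1 : d = 1 → ∀ j, u j = 1)

/-- CHUNK GP2D.  Matrix products: `rho2_zero`, `rho2_one`, `m0_pow` with `k = 1`. -/
theorem rhoK_gs : rhoK hd hf u v w hu1 ⟨gs d f, gs_mem hd hf⟩ = ks (parOf hd hf u v w) := by
  rw [rhoK_apply]
  have h : rho2 hd hf u v w hu1 (gs d f) = m0 (parOf hd hf u v w) ^ (2 * 1) := by
    rw [gs, map_pow, rho2_zero]
  change ((rho2 hd hf u v w hu1 (gs d f) : (Matrix (Fin 2) (Fin 2) (K (parOf hd hf u v w)))ˣ) :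
    Matrix (Fin 2) (Fin 2) (K (parOf hd hf u v w))) 0 0 = _
  rw [h, m0_pow, pow_one]
  rfl

theorem rhoK_gt : rhoK hd hf u v w hu1 ⟨gt d f, gt_mem⟩ = kt (parOf hd hf u v w) := by
  rw [rhoK_apply]
  change ((rho2 hd hf u v w hu1 (tg d (2 * f) 2 1) :
    (Matrix (Fin 2) (Fin 2) (K (parOf hd hf u v w)))ˣ) :
    Matrix (Fin 2) (Fin 2) (K (parOf hd hf u v w))) 0 0 = _
  rw [rho2_one]
  rfl

theorem gp2d_m01 (Q : Par A) : ((m0 Q * m1 Q : (Matrix (Fin 2) (Fin 2) (K Q))ˣ) :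
    Matrix (Fin 2) (Fin 2) (K Q)) = !![0, ku Q; ks Q * kt Q, 0] := by
  rw [Units.val_mul]
  change !![0, 1; ks Q, 0] * !![kt Q, 0; 0, ku Q] = _
  rw [Matrix.mul_fin_two]
  simp

theorem rhoK_gu : rhoK hd hf u v w hu1 ⟨gu d f, gu_mem⟩ = ku (parOf hd hf u v w) := by
  rw [rhoK_apply]
  change ((rho2 hd hf u v w hu1 (tg d (2 * f) 2 0 * tg d (2 * f) 2 1 *
    (tg d (2 * f) 2 0)⁻¹) :
    (Matrix (Fin 2) (Fin 2) (K (parOf hd hf u v w)))ˣ) :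
    Matrix (Fin 2) (Fin 2) (K (parOf hd hf u v w))) 0 0 = _
  rw [map_mul, map_mul, map_inv, rho2_zero, rho2_one, Units.val_mul, gp2d_m01]
  change (!![0, ku (parOf hd hf u v w); ks (parOf hd hf u v w) * kt (parOf hd hf u v w), 0] *
    !![0, ksi (parOf hd hf u v w); 1, 0]) 0 0 = _
  rw [Matrix.mul_fin_two]
  simp

/-- CHUNK GP2D.  The entry is `u s t = s t u`. -/
theorem rhoK_gz : rhoK hd hf u v w hu1 ⟨gz d f, gz_mem hd hf⟩ = kz (parOf hd hf u v w) := by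
  rw [rhoK_apply]
  change ((rho2 hd hf u v w hu1 ((tg d (2 * f) 2 0 * tg d (2 * f) 2 1) ^ 2) :
    (Matrix (Fin 2) (Fin 2) (K (parOf hd hf u v w)))ˣ) :
    Matrix (Fin 2) (Fin 2) (K (parOf hd hf u v w))) 0 0 = _
  rw [map_pow, map_mul, rho2_zero, rho2_one, pow_two, Units.val_mul, gp2d_m01,
    Matrix.mul_fin_two, kz, (isH_K (parOf hd hf u v w)).br1, (isH_K (parOf hd hf u v w)).br2]
  simp [mul_assoc]

theorem rhoK_gw (x : Fin 2 × Fin (2 * (d * f)) × Fin (d * f)) :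
    rhoK hd hf u v w hu1 ⟨gw d f x.1 x.2.1 x.2.2, gw_mem hd hf _ _ _⟩ =
      kw (parOf hd hf u v w) x := by
  have h : (⟨gw d f x.1 x.2.1 x.2.2, gw_mem hd hf _ _ _⟩ : G2 d f) =
      ⟨gz d f, gz_mem hd hf⟩ ^ (x.2.1 : ℕ) * ⟨gs d f, gs_mem hd hf⟩ ^ (x.2.2 : ℕ) *
        ⟨gt d f, gt_mem⟩ ^ (x.1 : ℕ) := rfl
  rw [h, map_mul, map_mul, map_pow, map_pow, map_pow, rhoK_gs, rhoK_gt, rhoK_gz]
  rfl

end Pool.Agent.Lib.H10K2
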