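import Pool.Agent.Lib.H10K2.GP2C
import Pool.Agent.Lib.H10K2.GP2D

/-!
# Chunk GP2 : the anti-automorphism on group elements
-/

namespace Pool.Agent.Lib.H10K2

open Polynomial
open scoped BigOperators
open Pool.Agent.Lib.H10BMM (Gam tg liftG liftG_tg IsBraid chi chi_zero chi_succ zt zt_pow zt_prim
  tg_isBraid Gam_closure Gam_ext BW mem_BW_iff zd_prim' proj proj_tg sr GLn Gg sr_zero sr_succ
  dg_pow GLn_ext ev permHom_ev)

universe u' v'

variable {A : Type u'} [CommRing A] [Nontrivial A] {d f : ℕ} (hd : 0 < d) (hf : 0 < f)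
  (u : Fin d → Aˣ) (v w : Fin 2 → Aˣ) (hu1 : d = 1 → ∀ j, u j = 1)

/-- The homomorphism `x ↦ al (rhoK x⁻¹)`. -/
noncomputable def gp2_hom {σ : A →+* A} (hσ : IsStar (parOf hd hf u v w) σ) :
    G2 d f →* K (parOf hd hf u v w) where
  toFun x := al hσ (rhoK hd hf u v w hu1 x⁻¹)
  map_one' := by rw [inv_one, map_one, al_one]
  map_mul' x y := by rw [mul_inv_rev, map_mul, al_mul]

theorem gp2_inv (x : G2 d f) {y yi : K (parOf hd hf u v w)} (h1 : yi * y = 1)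
    (hx : rhoK hd hf u v w hu1 x = y) : rhoK hd hf u v w hu1 x⁻¹ = yi := by
  have h2 : y * rhoK hd hf u v w hu1 x⁻¹ = 1 := by
    rw [← hx, ← map_mul, mul_inv_cancel, map_one]
  calc rhoK hd hf u v w hu1 x⁻¹ = (yi * y) * rhoK hd hf u v w hu1 x⁻¹ := by rw [h1, one_mul]
    _ = yi := by rw [mul_assoc, h2, mul_one]

/-- CHUNK GP2.  `x ↦ al (rhoK x⁻¹)` is a homomorphism which agrees with `rhoK` on the three
generators (`al_al`, `al_si`, `al_tinv`, `al_kui`; `rhoK` of an inverse is the inverse), so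
`G2_hom_ext`. -/
theorem al_rhoK {σ : A →+* A} (hσ : IsStar (parOf hd hf u v w) σ) (x : G2 d f) :
    al hσ (rhoK hd hf u v w hu1 x) = rhoK hd hf u v w hu1 x⁻¹ := by
  have h : rhoK hd hf u v w hu1 = gp2_hom hd hf u v w hu1 hσ := by
    apply G2_hom_ext hd hf
    · change _ = al hσ (rhoK hd hf u v w hu1 ⟨gs d f, gs_mem hd hf⟩⁻¹)
      rw [gp2_inv hd hf u v w hu1 _ (isW_K (parOf hd hf u v w)).si_s
        (rhoK_gs hd hf u v w hu1), al_si, rhoK_gs]
    · change _ = al hσ (rhoK hd hf u v w hu1 ⟨gt d f, gt_mem⟩⁻¹)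
      rw [gp2_inv hd hf u v w hu1 _ (tinv_mul (isH_K (parOf hd hf u v w)).quadt)
        (rhoK_gt hd hf u v w hu1), al_tinv, rhoK_gt]
    · change _ = al hσ (rhoK hd hf u v w hu1 ⟨gu d f, gu_mem⟩⁻¹)
      rw [gp2_inv hd hf u v w hu1 _ (kui_ku (Q := parOf hd hf u v w))
        (rhoK_gu hd hf u v w hu1), al_kui, rhoK_gu]
  have h2 := DFunLike.congr_fun h x⁻¹
  rw [h2]
  change _ = al hσ (rhoK hd hf u v w hu1 (x⁻¹)⁻¹)
  rw [inv_inv]

end Pool.Agent.Lib.H10K2
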