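import Pool.Agent.Lib.H10K2.GP1C

/-!
# Chunk GP2A : generators of `G2`, words
-/

namespace Pool.Agent.Lib.H10K2

open Polynomial
open scoped BigOperators
open Pool.Agent.Lib.H10BMM (Gam tg liftG liftG_tg IsBraid chi chi_zero chi_succ zt zt_pow zt_prim
  tg_isBraid Gam_closure Gam_ext BW mem_BW_iff zd_prim' proj proj_tg sr GLn Gg sr_zero sr_succ
  dg_pow GLn_ext ev permHom_ev)

universe u' v'

section gens

variable (d f : ℕ)

/-- `t_0²`. -/
noncomputable def gs : Gam d (2 * f) 2 := tg d (2 * f) 2 0 ^ 2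

/-- `t_1`. -/
noncomputable def gt : Gam d (2 * f) 2 := tg d (2 * f) 2 1

/-- `t_0 t_1 t_0⁻¹`. -/
noncomputable def gu : Gam d (2 * f) 2 :=
  tg d (2 * f) 2 0 * tg d (2 * f) 2 1 * (tg d (2 * f) 2 0)⁻¹

/-- `(t_0 t_1)²`. -/
noncomputable def gz : Gam d (2 * f) 2 := (tg d (2 * f) 2 0 * tg d (2 * f) 2 1) ^ 2

/-- The word `z^k s^i t^a`. -/
noncomputable def gw (a k i : ℕ) : Gam d (2 * f) 2 := gz d f ^ k * gs d f ^ i * gt d f ^ a

variable {d f} (hd : 0 < d) (hf : 0 < f)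

include hd hf in
/-- CHUNK GP2a.  `(-1)^2 = 1` (`chi_zero_pow`). -/
theorem gs_mem : gs d f ∈ G2 d f := by
  rw [mem_G2, gs, map_pow, pow_right_comm, chi_zero_pow hd hf]
  simp

theorem gt_mem : gt d f ∈ G2 d f := by
  rw [mem_G2, gt, chi_one, one_pow]

theorem gu_mem : gu d f ∈ G2 d f := by
  rw [mem_G2, gu, map_mul, map_mul, map_inv, chi_one, mul_one, mul_inv_cancel, one_pow]

include hd hf in
/-- CHUNK GP2a. -/
theorem gz_mem : gz d f ∈ G2 d f := by
  rw [mem_G2, gz, map_pow, map_mul, chi_one, mul_one, pow_right_comm, chi_zero_pow hd hf]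
  simp

include hd hf in
theorem gw_mem (a k i : ℕ) : gw d f a k i ∈ G2 d f :=
  Subgroup.mul_mem _ (Subgroup.mul_mem _ (Subgroup.pow_mem _ (gz_mem hd hf) _)
    (Subgroup.pow_mem _ (gs_mem hd hf) _)) (Subgroup.pow_mem _ gt_mem _)

end gens

end Pool.Agent.Lib.H10K2
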