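import Pool.Agent.Lib.H10K2.GP2A

/-!
# Chunk GP2B : generation of `G2`
-/

namespace Pool.Agent.Lib.H10K2

open Polynomial
open scoped BigOperators
open Pool.Agent.Lib.H10BMM (Gam tg liftG liftG_tg IsBraid chi chi_zero chi_succ zt zt_pow zt_prim
  tg_isBraid Gam_closure Gam_ext BW mem_BW_iff zd_prim' proj proj_tg sr GLn Gg sr_zero sr_succ
  dg_pow GLn_ext ev permHom_ev)

universe u' v'

variable {d f : ℕ}

/-- CHUNK GP2B.  Let `S` be the closure of the three elements.  Every `x` is in `S` or in `S t_0`: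
closure induction on the right (`Subgroup.closure_induction_right`), `S t_0 t_1 = S gu t_0`,
`S t_0 t_0 = S gs`, `S t_0⁻¹ = S gs⁻¹ t_0`.  If `x ∈ G2` is in `S t_0` then
`chi^f` is `1` and `-1`, a contradiction (`chi_zero_pow`). -/
theorem G2_le_closure (hd : 0 < d) (hf : 0 < f) :
    G2 d f ≤ Subgroup.closure {gs d f, gt d f, gu d f} := by
  have hs : gs d f ∈ Subgroup.closure {gs d f, gt d f, gu d f} :=
    Subgroup.subset_closure (by simp)
  have ht : gt d f ∈ Subgroup.closure {gs d f, gt d f, gu d f} :=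
    Subgroup.subset_closure (by simp)
  have hu : gu d f ∈ Subgroup.closure {gs d f, gt d f, gu d f} :=
    Subgroup.subset_closure (by simp)
  generalize Subgroup.closure {gs d f, gt d f, gu d f} = S at hs ht hu ⊢
  have h0s : ∀ y : Gam d (2 * f) 2, y ∈ S → chi d (2 * f) 2 y ^ f = 1 →
      chi d (2 * f) 2 (y * tg d (2 * f) 2 0) ^ f = -1 := by
    intro y _ hy1
    rw [map_mul, mul_pow, hy1, chi_zero_pow hd hf, one_mul]
  have key : ∀ x : Gam d (2 * f) 2, (x ∈ S ∧ chi d (2 * f) 2 x ^ f = 1) ∨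
      (x * (tg d (2 * f) 2 0)⁻¹ ∈ S ∧ chi d (2 * f) 2 (x * (tg d (2 * f) 2 0)⁻¹) ^ f = 1) := by
    intro x
    have hs1 : chi d (2 * f) 2 (gs d f) ^ f = 1 := mem_G2.mp (gs_mem hd hf)
    have ht1 : chi d (2 * f) 2 (gt d f) ^ f = 1 := mem_G2.mp gt_mem
    have hu1 : chi d (2 * f) 2 (gu d f) ^ f = 1 := mem_G2.mp gu_mem
    have hx : x ∈ Subgroup.closure {x | ∃ i, i < 2 ∧ x = tg d (2 * f) 2 i} := by
      rw [Gam_closure]; exact Subgroup.mem_top x
    induction hx using Subgroup.closure_induction_right with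
    | one => exact Or.inl ⟨S.one_mem, by rw [map_one, one_pow]⟩
    | mul_right x hx y hy ih =>
      obtain ⟨i, hi, rfl⟩ := hy
      rcases ih with ⟨h1, h2⟩ | ⟨h1, h2⟩
      · interval_cases i
        · right
          rw [mul_inv_cancel_right]
          exact ⟨h1, h2⟩
        · left
          refine ⟨S.mul_mem h1 ht, ?_⟩
          change chi d (2 * f) 2 (x * gt d f) ^ f = 1
          rw [map_mul, mul_pow, h2, ht1, one_mul]
      · interval_cases i
        · left
          have e : x * tg d (2 * f) 2 0 = x * (tg d (2 * f) 2 0)⁻¹ * gs d f := by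
            rw [gs, pow_two, mul_assoc, inv_mul_cancel_left]
          rw [e]
          exact ⟨S.mul_mem h1 hs, by rw [map_mul, mul_pow, h2, hs1, one_mul]⟩
        · right
          have e : x * tg d (2 * f) 2 1 * (tg d (2 * f) 2 0)⁻¹ =
              x * (tg d (2 * f) 2 0)⁻¹ * gu d f := by
            rw [gu]; group
          rw [e]
          exact ⟨S.mul_mem h1 hu, by rw [map_mul, mul_pow, h2, hu1, one_mul]⟩
    | mul_inv_cancel x hx y hy ih =>
      obtain ⟨i, hi, rfl⟩ := hy
      rcases ih with ⟨h1, h2⟩ | ⟨h1, h2⟩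
      · interval_cases i
        · right
          have e : x * (tg d (2 * f) 2 0)⁻¹ * (tg d (2 * f) 2 0)⁻¹ = x * (gs d f)⁻¹ := by
            rw [gs, pow_two, mul_inv_rev, mul_assoc]
          rw [e]
          exact ⟨S.mul_mem h1 (S.inv_mem hs), by
            rw [map_mul, mul_pow, map_inv, inv_pow, h2, hs1, inv_one, one_mul]⟩
        · left
          refine ⟨S.mul_mem h1 (S.inv_mem ht), ?_⟩
          change chi d (2 * f) 2 (x * (gt d f)⁻¹) ^ f = 1
          rw [map_mul, mul_pow, map_inv, inv_pow, h2, ht1, inv_one, one_mul]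
      · interval_cases i
        · left
          exact ⟨h1, h2⟩
        · right
          have e : x * (tg d (2 * f) 2 1)⁻¹ * (tg d (2 * f) 2 0)⁻¹ =
              x * (tg d (2 * f) 2 0)⁻¹ * (gu d f)⁻¹ := by
            rw [gu]; group
          rw [e]
          exact ⟨S.mul_mem h1 (S.inv_mem hu), by
            rw [map_mul, mul_pow, map_inv (chi d (2 * f) 2) (gu d f), inv_pow, h2, hu1, inv_one,
              one_mul]⟩
  intro x hx
  rcases key x with h | ⟨h1, h2⟩
  · exact h.1
  · exfalso
    have h3 := h0s _ h1 h2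
    rw [inv_mul_cancel_right] at h3
    rw [mem_G2.mp hx] at h3
    have h4 := congrArg (fun z : ℂˣ => (z : ℂ)) h3
    norm_num at h4

end Pool.Agent.Lib.H10K2
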