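import Pool.Agent.Lib.H10K2.GP2B

/-!
# Chunk GP2C : homomorphisms from `G2`
-/

namespace Pool.Agent.Lib.H10K2

open Polynomial
open scoped BigOperators
open Pool.Agent.Lib.H10BMM (Gam tg liftG liftG_tg IsBraid chi chi_zero chi_succ zt zt_pow zt_prim
  tg_isBraid Gam_closure Gam_ext BW mem_BW_iff zd_prim' proj proj_tg sr GLn Gg sr_zero sr_succ
  dg_pow GLn_ext ev permHom_ev)

universe u' v'

variable {d f : ℕ}

/-- CHUNK GP2C.  Homomorphisms from `G2` to a monoid which agree on the three generators are equal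
(in `G2` the three elements generate the group by `G2_le_closure`; for inverses use
`MonoidHom.toHomUnits` or uniqueness of inverses). -/
theorem G2_hom_ext {M : Type*} [Monoid M] (hd : 0 < d) (hf : 0 < f) (φ ψ : G2 d f →* M)
    (hs : φ ⟨gs d f, gs_mem hd hf⟩ = ψ ⟨gs d f, gs_mem hd hf⟩)
    (ht : φ ⟨gt d f, gt_mem⟩ = ψ ⟨gt d f, gt_mem⟩)
    (hu : φ ⟨gu d f, gu_mem⟩ = ψ ⟨gu d f, gu_mem⟩) : φ = ψ := by
  have huniq : ∀ x : G2 d f, φ x = ψ x → φ x⁻¹ = ψ x⁻¹ := by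
    intro x h
    have h1 : φ x⁻¹ * φ x = 1 := by rw [← map_mul, inv_mul_cancel, map_one]
    have h2 : ψ x * ψ x⁻¹ = 1 := by rw [← map_mul, mul_inv_cancel, map_one]
    calc φ x⁻¹ = φ x⁻¹ * (ψ x * ψ x⁻¹) := by rw [h2, mul_one]
      _ = φ x⁻¹ * φ x * ψ x⁻¹ := by rw [← h, mul_assoc]
      _ = ψ x⁻¹ := by rw [h1, one_mul]
  have key : ∀ y : Gam d (2 * f) 2, y ∈ Subgroup.closure {gs d f, gt d f, gu d f} →
      ∃ hy : y ∈ G2 d f, φ ⟨y, hy⟩ = ψ ⟨y, hy⟩ := by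
    intro y hy
    induction hy using Subgroup.closure_induction with
    | mem x hx =>
      simp only [Set.mem_insert_iff, Set.mem_singleton_iff] at hx
      rcases hx with rfl | rfl | rfl
      · exact ⟨gs_mem hd hf, hs⟩
      · exact ⟨gt_mem, ht⟩
      · exact ⟨gu_mem, hu⟩
    | one =>
      refine ⟨Subgroup.one_mem _, ?_⟩
      change φ 1 = ψ 1
      rw [map_one, map_one]
    | mul x y _ _ hx hy =>
      obtain ⟨h1, e1⟩ := hx
      obtain ⟨h2, e2⟩ := hy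
      refine ⟨Subgroup.mul_mem _ h1 h2, ?_⟩
      change φ (⟨x, h1⟩ * ⟨y, h2⟩) = ψ (⟨x, h1⟩ * ⟨y, h2⟩)
      rw [map_mul, map_mul, e1, e2]
    | inv x _ hx =>
      obtain ⟨h1, e1⟩ := hx
      refine ⟨Subgroup.inv_mem _ h1, ?_⟩
      exact huniq ⟨x, h1⟩ e1
  ext x
  obtain ⟨_, h⟩ := key x (G2_le_closure hd hf x.2)
  exact h

end Pool.Agent.Lib.H10K2
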