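import Pool.Agent.Lib.H10K2.GP3B

/-!
# Chunk GP3
-/

namespace Pool.Agent.Lib.H10K2

open Polynomial
open scoped BigOperators
open Pool.Agent.Lib.H10BMM (Gam tg liftG liftG_tg IsBraid chi chi_zero chi_succ zt zt_pow zt_prim
  tg_isBraid Gam_closure Gam_ext BW mem_BW_iff zd_prim' proj proj_tg sr GLn Gg sr_zero sr_succ
  dg_pow GLn_ext ev permHom_ev IsMon mem_Gg)

variable {d f : ℕ} (hd : 0 < d) (hf : 0 < f)

include hd hf in
/-- The exponents. -/
theorem gp3_aux {α β : ℂ} (hα : α ^ (d * (2 * f)) = 1) (hβ : β ^ (d * (2 * f)) = 1)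
    (h : (α * β) ^ d = 1) : ∃ k i, k < 2 * (d * f) ∧ i < d * f ∧
      (zt d (2 * f) : ℂ) ^ (k + 2 * i) = α ∧ (zt d (2 * f) : ℂ) ^ k = β := by
  have hpos : 0 < d * (2 * f) := by positivity
  have hdf : 0 < d * f := by positivity
  have hmul : d * (2 * f) = 2 * (d * f) := by ring
  have : NeZero (d * (2 * f)) := ⟨hpos.ne'⟩
  have hz := zt_prim (d := d) (e := 2 * f) hpos
  obtain ⟨p, hp, rfl⟩ := hz.eq_pow_of_pow_eq_one hα
  obtain ⟨k, hk, rfl⟩ := hz.eq_pow_of_pow_eq_one hβ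
  rw [← pow_add, ← pow_mul] at h
  have h1 := hz.dvd_of_pow_eq_one _ h
  rw [mul_comm (p + k) d] at h1
  have h2 : 2 * f ∣ p + k := Nat.dvd_of_mul_dvd_mul_left hd h1
  obtain ⟨c, hc⟩ := h2
  rw [mul_assoc] at hc
  rw [hmul] at hp hk
  have h3 : 2 * ((p + 2 * (d * f) - k) / 2) = p + 2 * (d * f) - k := by omega
  have h4 := Nat.div_add_mod ((p + 2 * (d * f) - k) / 2) (d * f)
  refine ⟨k, ((p + 2 * (d * f) - k) / 2) % (d * f), hk, Nat.mod_lt _ hdf, ?_, rfl⟩
  have h5 : (zt d (2 * f) : ℂ) ^ (2 * (d * f)) = 1 := by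
    rw [← hmul]; exact zt_pow d (2 * f)
  have h6 : (zt d (2 * f) : ℂ) ^ (k + 2 * ((p + 2 * (d * f) - k) / 2)) =
      (zt d (2 * f) : ℂ) ^ p := by
    have : k + 2 * ((p + 2 * (d * f) - k) / 2) = p + 2 * (d * f) := by omega
    rw [this, pow_add, h5, mul_one]
  rw [← h6]
  have h7 : k + 2 * ((p + 2 * (d * f) - k) / 2) =
      (k + 2 * (((p + 2 * (d * f) - k) / 2) % (d * f))) +
        2 * (d * f) * (((p + 2 * (d * f) - k) / 2) / (d * f)) := by
    nlinarith [h4]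
  rw [h7, pow_add _ (k + _), pow_mul _ (2 * (d * f)), h5, one_pow, mul_one]

include hd hf in
/-- CHUNK GP3.  Every element of `G(2df', 2f', 2)` type: if `g ∈ Gg d (2 f) 2` (monomial, entries
`2df`-th roots of unity `ζ^p`, `ζ^r`, `(ζ^(p+r))^d = 1`), then `2f ∣ p + r`, so `p - r` is even and
`g` is `proj (gw a k i)` with `a = 0, 1` according to the permutation, `ζ^k` the entry on `e_1`
(resp. the image of `e_0`), and `2 i = ` the difference of exponents modulo `2df`. -/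
theorem exists_gw (g : GLn 2) (hg : g ∈ Gg d (2 * f) 2) :
    ∃ a k i, a < 2 ∧ k < 2 * (d * f) ∧ i < d * f ∧ proj d (2 * f) 2 (gw d f a k i) = g := by
  obtain ⟨σ, θ, h1, h2, h3⟩ := mem_Gg.1 hg
  rw [Fin.prod_univ_two] at h2
  have hev : ∀ j : Fin 2, (ev j : Fin 2 → ℂ) = Pi.single j 1 := fun j => rfl
  have hsm : ∀ (j : Fin 2) (c : ℂ), (Pi.single j c : Fin 2 → ℂ) = c • ev j :=
    fun j c => Pool.Agent.Lib.H10BMM.single_eq_smul_ev j c
  have h01 : ∀ x : Fin 2, x = 0 ∨ x = 1 := by decide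
  rcases h01 (σ 0) with h | h
  · have hσ1 : σ 1 = 1 := by
      rcases h01 (σ 1) with h' | h'
      · exact absurd (σ.injective (h'.trans h.symm)) (by decide)
      · exact h'
    obtain ⟨k, i, hk, hi, e1, e2⟩ := gp3_aux hd hf (h1 0) (h1 1) h2
    refine ⟨0, k, i, by omega, hk, hi, GLn_ext fun j => ?_⟩
    rw [proj_gw 0 k i (by omega) j, if_pos rfl, hev j, h3 j, hsm (σ j)]
    rcases h01 j with hj | hj
    · rw [hj, if_pos rfl, e1, h]
    · rw [hj, if_neg (by decide), e2, hσ1]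
  · have hσ1 : σ 1 = 0 := by
      rcases h01 (σ 1) with h' | h'
      · exact h'
      · exact absurd (σ.injective (h'.trans h.symm)) (by decide)
    obtain ⟨k, i, hk, hi, e1, e2⟩ := gp3_aux hd hf (h1 1) (h1 0) (by rw [mul_comm]; exact h2)
    refine ⟨1, k, i, by omega, hk, hi, GLn_ext fun j => ?_⟩
    rw [proj_gw 1 k i (by omega) j, if_neg (by omega), hev j, h3 j, hsm (σ j)]
    rcases h01 j with hj | hj
    · rw [hj, if_pos rfl, e2, h]
    · rw [hj, if_neg (by decide), e1, hσ1]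

end Pool.Agent.Lib.H10K2
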