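import Pool.Agent.Lib.H10K2.GP2A

/-!
# Chunk GP3A : the images of the words in `GL_2(ℂ)`
-/

namespace Pool.Agent.Lib.H10K2

open Polynomial
open scoped BigOperators
open Pool.Agent.Lib.H10BMM (Gam tg liftG liftG_tg IsBraid chi chi_zero chi_succ zt zt_pow zt_prim
  tg_isBraid Gam_closure Gam_ext BW mem_BW_iff zd_prim' proj proj_tg sr GLn Gg sr_zero sr_succ
  dg_pow GLn_ext ev permHom_ev IsMon mem_Gg)

variable {d f : ℕ} (hd : 0 < d) (hf : 0 < f)

theorem gp3a_t0 (j : Fin 2) : proj d (2 * f) 2 (tg d (2 * f) 2 0) (ev j) =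
    (if j = 0 then (zt d (2 * f) : ℂ) else 1) • ev j := by
  rw [proj_tg (by norm_num), sr_zero _ (by norm_num), Pool.Agent.Lib.H10BMM.dg_ev]
  congr 1
  fin_cases j <;> simp

theorem gp3a_t1_0 : proj d (2 * f) 2 (tg d (2 * f) 2 1) (ev (0 : Fin 2)) = ev (1 : Fin 2) := by
  have h := sr_succ (n := 2) (zt d (2 * f)) (i := 0) (by norm_num)
  have h2 : sr 2 (zt d (2 * f)) 1 = _ := h
  rw [proj_tg (by norm_num), h2, permHom_ev]
  exact congrArg ev (Equiv.swap_apply_left _ _)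

theorem gp3a_t1_1 : proj d (2 * f) 2 (tg d (2 * f) 2 1) (ev (1 : Fin 2)) = ev (0 : Fin 2) := by
  have h := sr_succ (n := 2) (zt d (2 * f)) (i := 0) (by norm_num)
  have h2 : sr 2 (zt d (2 * f)) 1 = _ := h
  rw [proj_tg (by norm_num), h2, permHom_ev]
  exact congrArg ev (Equiv.swap_apply_right _ _)

theorem gp3a_z (j : Fin 2) : proj d (2 * f) 2 (gz d f) (ev j) = (zt d (2 * f) : ℂ) • ev j := by
  rw [gz, pow_two, map_mul, map_mul, LinearEquiv.mul_apply, LinearEquiv.mul_apply,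
    LinearEquiv.mul_apply]
  fin_cases j
  · change proj d (2 * f) 2 (tg d (2 * f) 2 0) (proj d (2 * f) 2 (tg d (2 * f) 2 1)
      (proj d (2 * f) 2 (tg d (2 * f) 2 0) (proj d (2 * f) 2 (tg d (2 * f) 2 1) (ev (0 : Fin 2))))) =
        (zt d (2 * f) : ℂ) • ev (0 : Fin 2)
    rw [gp3a_t1_0, gp3a_t0, if_neg (by decide), one_smul, gp3a_t1_1, gp3a_t0, if_pos rfl]
  · change proj d (2 * f) 2 (tg d (2 * f) 2 0) (proj d (2 * f) 2 (tg d (2 * f) 2 1)
      (proj d (2 * f) 2 (tg d (2 * f) 2 0) (proj d (2 * f) 2 (tg d (2 * f) 2 1) (ev (1 : Fin 2))))) =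
        (zt d (2 * f) : ℂ) • ev (1 : Fin 2)
    rw [gp3a_t1_1, gp3a_t0, if_pos rfl, map_smul, gp3a_t1_0, map_smul, gp3a_t0,
      if_neg (by decide), one_smul]

theorem gp3a_zk (k : ℕ) (j : Fin 2) :
    proj d (2 * f) 2 (gz d f ^ k) (ev j) = ((zt d (2 * f) : ℂ) ^ k) • ev j := by
  induction k with
  | zero => rw [pow_zero, map_one, pow_zero, one_smul]; rfl
  | succ k ih => rw [pow_succ, map_mul, LinearEquiv.mul_apply, gp3a_z, map_smul, ih, smul_smul,
      pow_succ']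

theorem gp3a_sk (i : ℕ) (j : Fin 2) :
    proj d (2 * f) 2 (gs d f ^ i) (ev j) =
      ((if j = 0 then (zt d (2 * f) : ℂ) else 1) ^ (2 * i)) • ev j := by
  rw [gs, ← pow_mul, map_pow]
  generalize 2 * i = m
  induction m with
  | zero => rw [pow_zero, pow_zero, one_smul]; rfl
  | succ k ih => rw [pow_succ, LinearEquiv.mul_apply, gp3a_t0, map_smul, ih, smul_smul, pow_succ']

/-- CHUNK GP3A.  With `ζ = ζ_{2df}`: `t_0 ↦ diag (ζ, 1)` (`sr_zero`, `dg`), `t_1 ↦` the swap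
(`sr_succ`, `permHom`), `gz = (t_0 t_1)² ↦ ζ · 1`, `gs ↦ diag (ζ², 1)`.  The value on the basis
vectors: `e_0 ↦ ζ^(k + 2 i) e_0`, `e_1 ↦ ζ^k e_1` for `a = 0`; for `a = 1` first swap. -/
theorem proj_gw (a k i : ℕ) (ha : a < 2) (j : Fin 2) :
    proj d (2 * f) 2 (gw d f a k i) (ev j) =
      if a = 0 then (if j = 0 then ((zt d (2 * f) : ℂ) ^ (k + 2 * i)) • ev (0 : Fin 2)
        else ((zt d (2 * f) : ℂ) ^ k) • ev (1 : Fin 2))
      else (if j = 0 then ((zt d (2 * f) : ℂ) ^ k) • ev (1 : Fin 2)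
        else ((zt d (2 * f) : ℂ) ^ (k + 2 * i)) • ev (0 : Fin 2)) := by
  rw [gw, map_mul, map_mul, LinearEquiv.mul_apply, LinearEquiv.mul_apply]
  have hj : j = 0 ∨ j = 1 := by
    fin_cases j
    · exact Or.inl rfl
    · exact Or.inr rfl
  obtain rfl | rfl : a = 0 ∨ a = 1 := by omega
  · rw [if_pos rfl, pow_zero, map_one]
    change proj d (2 * f) 2 (gz d f ^ k) (proj d (2 * f) 2 (gs d f ^ i) (ev j)) = _
    rw [gp3a_sk, map_smul, gp3a_zk, smul_smul]
    rcases hj with rfl | rfl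
    · rw [if_pos rfl, if_pos rfl, ← pow_add, add_comm]
    · rw [if_neg (by decide), if_neg (by decide), one_pow, one_mul]
  · rw [if_neg (by decide), pow_one, gt]
    rcases hj with rfl | rfl
    · rw [if_pos rfl, gp3a_t1_0, gp3a_sk, if_neg (by decide), one_pow, one_smul, gp3a_zk]
    · rw [if_neg (by decide), gp3a_t1_1, gp3a_sk, if_pos rfl, map_smul, gp3a_zk, smul_smul,
        ← pow_add, add_comm]

end Pool.Agent.Lib.H10K2
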