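import Pool.Agent.Lib.H10K2.GP3A

/-!
# Chunk GP3B
-/

namespace Pool.Agent.Lib.H10K2

open Polynomial
open scoped BigOperators
open Pool.Agent.Lib.H10BMM (Gam tg liftG liftG_tg IsBraid chi chi_zero chi_succ zt zt_pow zt_prim
  tg_isBraid Gam_closure Gam_ext BW mem_BW_iff zd_prim' proj proj_tg sr GLn Gg sr_zero sr_succ
  dg_pow GLn_ext ev permHom_ev IsMon mem_Gg)

variable {d f : ℕ} (hd : 0 < d) (hf : 0 < f)

theorem gp3b_smul_inj {j : Fin 2} {c c' : ℂ} (h : c • (ev j : Fin 2 → ℂ) = c' • ev j) :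
    c = c' := by
  have h1 := congrFun h j
  simpa using h1

theorem gp3b_smul_ne {j j' : Fin 2} (hj : j ≠ j') {c c' : ℂ} (hc : c ≠ 0)
    (h : c • (ev j : Fin 2 → ℂ) = c' • ev j') : False := by
  have h1 := congrFun h j
  rw [Pi.smul_apply, Pi.smul_apply, Pool.Agent.Lib.H10BMM.ev_apply,
    Pool.Agent.Lib.H10BMM.ev_apply, if_pos rfl, if_neg hj, smul_eq_mul, smul_eq_mul, mul_one,
    mul_zero] at h1
  exact hc h1

include hd hf in
theorem gp3b_pow {k k' i i' : ℕ} (hk : k < 2 * (d * f)) (hi : i < d * f)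
    (hk' : k' < 2 * (d * f)) (hi' : i' < d * f)
    (h1 : (zt d (2 * f) : ℂ) ^ k = (zt d (2 * f) : ℂ) ^ k')
    (h2 : (zt d (2 * f) : ℂ) ^ (k + 2 * i) = (zt d (2 * f) : ℂ) ^ (k' + 2 * i')) :
    k = k' ∧ i = i' := by
  have e : d * (2 * f) = 2 * (d * f) := by ring
  have hp : IsPrimitiveRoot (zt d (2 * f) : ℂ) (2 * (d * f)) := by
    have := zt_prim (d := d) (e := 2 * f) (Nat.mul_pos hd (by omega))
    rwa [e] at this
  have h3 := hp.pow_inj hk hk' h1
  subst h3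
  rw [pow_add, pow_add] at h2
  have h4 := mul_left_cancel₀ (pow_ne_zero _ (Units.ne_zero _)) h2
  have h5 := hp.pow_inj (by omega) (by omega) h4
  exact ⟨rfl, by omega⟩

include hd hf in
/-- CHUNK GP3B.  The words are mapped to different elements: from `proj_gw`, `a` is determined
(`e_0 ↦ e_0` or `e_1`), `ζ^k` determines `k < 2df`, `ζ^(k+2i)` determines `2i` modulo `2df`, hence
`i < df`. -/
theorem proj_gw_inj {a k i a' k' i' : ℕ} (ha : a < 2) (hk : k < 2 * (d * f)) (hi : i < d * f)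
    (ha' : a' < 2) (hk' : k' < 2 * (d * f)) (hi' : i' < d * f)
    (h : proj d (2 * f) 2 (gw d f a k i) = proj d (2 * f) 2 (gw d f a' k' i')) :
    a = a' ∧ k = k' ∧ i = i' := by
  have h0 : proj d (2 * f) 2 (gw d f a k i) (ev 0) = proj d (2 * f) 2 (gw d f a' k' i') (ev 0) := by
    rw [h]
  have h1 : proj d (2 * f) 2 (gw d f a k i) (ev 1) = proj d (2 * f) 2 (gw d f a' k' i') (ev 1) := by
    rw [h]
  rw [proj_gw a k i ha, proj_gw a' k' i' ha'] at h0 h1
  rw [if_pos rfl, if_pos rfl, if_pos rfl, if_pos rfl] at h0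
  have n10 : ¬ ((1 : Fin 2) = 0) := by decide
  have n01 : (0 : Fin 2) ≠ 1 := by decide
  rw [if_neg n10, if_neg n10, if_neg n10, if_neg n10] at h1
  have hne : ∀ m : ℕ, (zt d (2 * f) : ℂ) ^ m ≠ 0 := fun m => pow_ne_zero _ (Units.ne_zero _)
  by_cases haz : a = 0
  · by_cases haz' : a' = 0
    · rw [if_pos haz, if_pos haz'] at h0 h1
      exact ⟨haz.trans haz'.symm,
        gp3b_pow hd hf hk hi hk' hi' (gp3b_smul_inj h1) (gp3b_smul_inj h0)⟩
    · rw [if_pos haz, if_neg haz'] at h0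
      exact (gp3b_smul_ne n01 (hne _) h0).elim
  · by_cases haz' : a' = 0
    · rw [if_neg haz, if_pos haz'] at h0
      exact (gp3b_smul_ne n01.symm (hne _) h0).elim
    · rw [if_neg haz, if_neg haz'] at h0 h1
      exact ⟨by omega, gp3b_pow hd hf hk hi hk' hi' (gp3b_smul_inj h0) (gp3b_smul_inj h1)⟩

end Pool.Agent.Lib.H10K2
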