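import Pool.Agent.Lib.H10K2.GP2
import Pool.Agent.Lib.H10K2.GP3

/-!
# Chunk GP4A : relations in the group algebra
-/

namespace Pool.Agent.Lib.H10K2

open Polynomial
open scoped BigOperators
open Pool.Agent.Lib.H10BMM (Gam tg liftG liftG_tg IsBraid chi chi_zero chi_succ zt zt_pow zt_prim
  tg_isBraid Gam_closure Gam_ext BW mem_BW_iff zd_prim' proj proj_tg sr GLn Gg sr_zero sr_succ
  Re toRe toRe_smul toRe_aeval cf1 cf1_add cf1_zero cf1_smul cf1_of pol_spec)

universe u' v'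

variable {A : Type u'} [CommRing A] [Nontrivial A] {d f : ℕ} (hd : 0 < d) (hf : 0 < f)
  (u : Fin d → Aˣ) (v w : Fin 2 → Aˣ) (hu1 : d = 1 → ∀ j, u j = 1) {θ : A →+* ℂ} {z : ℂ}
  (hz : IsPrimitiveRoot z d) (hu : ∀ j : Fin d, θ (u j) = z ^ (j : ℕ))
  (hv : ∀ j : Fin 2, θ (v j) = (-1) ^ (j : ℕ)) (hw : ∀ j : Fin 2, θ (w j) = (-1) ^ (j : ℕ))

/-- The group element `x` in the group algebra. -/
noncomputable def ga (θ : A →+* ℂ) (x : Gam d (2 * f) 2) : Re θ (MonoidAlgebra ℂ (GLn 2)) :=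
  toRe θ (MonoidAlgebra ℂ (GLn 2)) (MonoidAlgebra.of ℂ (GLn 2) (proj d (2 * f) 2 x))

include hz hu hv hw in
/-- CHUNK GP4A.  As `group_isHecke` in `Lib/H10BMM/Spec.lean` (`toRe_aeval`).  `pol` : `pol_spec`
(with `e := f`): `(pol f u).map θ = X^(df) - 1` and `proj (t_0²)^(df) = 1` (`t_0^(2df) ↦ 1`, see
`sr_zero_pow` in `Final.lean`).  `quadt`, `quadu` : `θ` maps both quadratics to `X² - 1`
(`quadt_iff`, `quadu_iff`), and `t_1² ↦ 1`.  `br1`, `br2` : in the group `gs gt gu = gt gu gs =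
gu gs gt`, from `br4` (conjugate `t_0 t_1 t_0 t_1 = t_1 t_0 t_1 t_0`). -/
theorem ga_isH : IsH (parOf hd hf u v w) (ga θ (gs d f)) (ga θ (gt d f)) (ga θ (gu d f)) := by
  have hmul : ∀ x y : Gam d (2 * f) 2, ga θ x * ga θ y = ga θ (x * y) := fun x y => by
    unfold ga
    rw [map_mul, map_mul, map_mul]
  have e4 : tg d (2 * f) 2 0 * tg d (2 * f) 2 1 * tg d (2 * f) 2 0 * tg d (2 * f) 2 1 =
      tg d (2 * f) 2 1 * tg d (2 * f) 2 0 * tg d (2 * f) 2 1 * tg d (2 * f) 2 0 :=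
    (tg_isBraid d (2 * f) 2).br4 (by omega)
  have hsq : ∀ (r : Fin 2 → Aˣ), (∀ j : Fin 2, θ (r j) = (-1) ^ (j : ℕ)) →
      ∀ x : GLn 2, x * x = 1 →
      aeval (toRe θ (MonoidAlgebra ℂ (GLn 2)) (MonoidAlgebra.of ℂ (GLn 2) x))
        ((Polynomial.X - C ((r 0 : Aˣ) : A)) * (Polynomial.X - C ((r 1 : Aˣ) : A))) = 0 := by
    intro r hr x hx
    have h1 : (θ ((r 0 : Aˣ) : A)) = 1 := by rw [hr]; simp
    have h2 : (θ ((r 1 : Aˣ) : A)) = -1 := by rw [hr]; simp
    rw [toRe_aeval, Polynomial.map_mul, Polynomial.map_sub, Polynomial.map_sub,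
      Polynomial.map_X, Polynomial.map_C, Polynomial.map_C, h1, h2, map_mul, map_sub, map_sub,
      Polynomial.aeval_X, Polynomial.aeval_C, Polynomial.aeval_C, map_one, map_neg, map_one]
    have h3 : MonoidAlgebra.of ℂ (GLn 2) x * MonoidAlgebra.of ℂ (GLn 2) x = 1 := by
      rw [← map_mul, hx, map_one]
    generalize MonoidAlgebra.of ℂ (GLn 2) x = y at h3 ⊢
    rw [show (y - 1) * (y - -1) = y * y - 1 by noncomm_ring, h3, sub_self, map_zero]
  have ht2 : proj d (2 * f) 2 (gt d f) * proj d (2 * f) 2 (gt d f) = 1 := by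
    unfold gt
    rw [proj_tg (by omega)]
    rw [sr_succ _ (by omega), ← map_mul, Equiv.swap_mul_self, map_one]
  have hu2 : proj d (2 * f) 2 (gu d f) * proj d (2 * f) 2 (gu d f) = 1 := by
    have h1 : proj d (2 * f) 2 (gu d f) = proj d (2 * f) 2 (tg d (2 * f) 2 0) *
        proj d (2 * f) 2 (gt d f) * (proj d (2 * f) 2 (tg d (2 * f) 2 0))⁻¹ := by
      unfold gu gt
      rw [map_mul, map_mul, map_inv]
    rw [h1]
    generalize proj d (2 * f) 2 (gt d f) = y at ht2 ⊢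
    generalize proj d (2 * f) 2 (tg d (2 * f) 2 0) = z
    calc z * y * z⁻¹ * (z * y * z⁻¹) = z * (y * y) * z⁻¹ := by group
      _ = 1 := by rw [ht2, mul_one, mul_inv_cancel]
  refine ⟨?_, ?_, ?_, ?_, ?_⟩
  · change aeval (ga θ (gs d f)) (H10BMM.pol f u) = 0
    unfold ga
    rw [toRe_aeval, pol_spec (e := f) hd u hz hu, map_sub, map_pow, Polynomial.aeval_X, map_one,
      ← map_pow]
    have h1 : proj d (2 * f) 2 (gs d f) ^ (d * f) = 1 := by
      unfold gs
      rw [map_pow, proj_tg (by omega), ← pow_mul]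
      have h2 : sr 2 (zt d (2 * f)) 0 ^ (d * (2 * f)) = 1 := by
        rw [sr_zero _ (by omega)]
        apply H10BMM.GLn_ext
        intro j
        rw [H10BMM.dg_pow]
        split_ifs
        · rw [zt_pow, one_smul]; rfl
        · rw [one_pow, one_smul]; rfl
      rw [show 2 * (d * f) = d * (2 * f) by ring]
      exact h2
    rw [h1, map_one, sub_self, map_zero]
  · rw [quadt_iff]
    exact hsq v hv _ ht2
  · rw [quadu_iff]
    exact hsq w hw _ hu2
  · rw [hmul, hmul, hmul, hmul]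
    congr 1
    unfold gs gt gu
    generalize tg d (2 * f) 2 0 = a at e4 ⊢
    generalize tg d (2 * f) 2 1 = b at e4 ⊢
    calc a ^ 2 * b * (a * b * a⁻¹) = a * (a * b * a * b) * a⁻¹ := by
          simp only [pow_two, mul_assoc]
      _ = a * (b * a * b * a) * a⁻¹ := by rw [e4]
      _ = a * b * a * b := by group
      _ = b * a * b * a := e4
      _ = b * (a * b * a⁻¹) * a ^ 2 := by
          simp only [pow_two, mul_assoc, inv_mul_cancel_left]
  · rw [hmul, hmul, hmul, hmul]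
    congr 1
    unfold gs gt gu
    generalize tg d (2 * f) 2 0 = a at e4 ⊢
    generalize tg d (2 * f) 2 1 = b at e4 ⊢
    calc b * (a * b * a⁻¹) * a ^ 2 = b * a * b * a := by
          simp only [pow_two, mul_assoc, inv_mul_cancel_left]
      _ = a * b * a * b := e4.symm
      _ = a * b * a⁻¹ * a ^ 2 * b := by
          simp only [pow_two, mul_assoc, inv_mul_cancel_left]

end Pool.Agent.Lib.H10K2
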