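import Pool.Agent.Lib.H10K2.GP4A

/-!
# Chunk GP4B : the specialisation
-/

namespace Pool.Agent.Lib.H10K2

open Polynomial
open scoped BigOperators
open Pool.Agent.Lib.H10BMM (Gam tg liftG liftG_tg IsBraid chi chi_zero chi_succ zt zt_pow zt_prim
  tg_isBraid Gam_closure Gam_ext BW mem_BW_iff zd_prim' proj proj_tg sr GLn Gg sr_zero sr_succ
  Re toRe toRe_smul toRe_aeval cf1 cf1_add cf1_zero cf1_smul cf1_of pol_spec)

universe u' v'

variable {A : Type u'} [CommRing A] [Nontrivial A] {d f : ℕ} (hd : 0 < d) (hf : 0 < f)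
  (u : Fin d → Aˣ) (v w : Fin 2 → Aˣ) (hu1 : d = 1 → ∀ j, u j = 1) {θ : A →+* ℂ} {z : ℂ}
  (hz : IsPrimitiveRoot z d) (hu : ∀ j : Fin d, θ (u j) = z ^ (j : ℕ))
  (hv : ∀ j : Fin 2, θ (v j) = (-1) ^ (j : ℕ)) (hw : ∀ j : Fin 2, θ (w j) = (-1) ^ (j : ℕ))

/-- The specialisation. -/
noncomputable def Sp : K (parOf hd hf u v w) →ₐ[A] Re θ (MonoidAlgebra ℂ (GLn 2)) :=
  lift (ga_isH hd hf u v w hz hu hv hw)

include hu1 in
/-- CHUNK GP4B.  Both sides are homomorphisms in `x` which agree on the generators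
(`G2_hom_ext`, `rhoK_gs`, `rhoK_gt`, `rhoK_gu`). -/
theorem Sp_rhoK (x : G2 d f) : Sp hd hf u v w hz hu hv hw (rhoK hd hf u v w hu1 x) =
    ga θ (x : Gam d (2 * f) 2) := by
  have h : ((Sp hd hf u v w hz hu hv hw : K (parOf hd hf u v w) →*
      Re θ (MonoidAlgebra ℂ (GLn 2))).comp (rhoK hd hf u v w hu1)) =
      (((toRe θ (MonoidAlgebra ℂ (GLn 2)) : MonoidAlgebra ℂ (GLn 2) →*
        Re θ (MonoidAlgebra ℂ (GLn 2)))).comp ((MonoidAlgebra.of ℂ (GLn 2)).comp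
          (proj d (2 * f) 2))).comp (G2 d f).subtype := by
    refine G2_hom_ext hd hf _ _ ?_ ?_ ?_
    · change Sp hd hf u v w hz hu hv hw (rhoK hd hf u v w hu1 _) = ga θ (gs d f)
      rw [rhoK_gs]
      exact lift_ks _
    · change Sp hd hf u v w hz hu hv hw (rhoK hd hf u v w hu1 _) = ga θ (gt d f)
      rw [rhoK_gt]
      exact lift_kt _
    · change Sp hd hf u v w hz hu hv hw (rhoK hd hf u v w hu1 _) = ga θ (gu d f)
      rw [rhoK_gu]
      exact lift_ku _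
  exact DFunLike.congr_fun h x

end Pool.Agent.Lib.H10K2
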