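import Mathlib

/-!
# Rings of Laurent polynomials over `ℤ`
-/

namespace Pool.Agent.Lib.H10K2

open scoped BigOperators

/-- The ring of Laurent polynomials over `ℤ` in indeterminates indexed by `V`: the group ring of
`V → ℤ`. -/
def Lau (V : Type) : Type := AddMonoidAlgebra ℤ (V → ℤ)

noncomputable instance instLau (V : Type) : CommRing (Lau V) :=
  (AddMonoidAlgebra.commRing : CommRing (AddMonoidAlgebra ℤ (V → ℤ)))

instance (V : Type) : Nontrivial (Lau V) :=
  inferInstanceAs (Nontrivial (AddMonoidAlgebra ℤ (V → ℤ)))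

section

variable {V : Type}

/-- The Laurent monomial with exponent `a`. -/
noncomputable def mono (a : V → ℤ) : Lau V := AddMonoidAlgebra.single a 1

theorem mono_mul (a b : V → ℤ) : mono a * mono b = mono (a + b) := by
  have h : (AddMonoidAlgebra.single a 1 * AddMonoidAlgebra.single b 1 :
      AddMonoidAlgebra ℤ (V → ℤ)) = AddMonoidAlgebra.single (a + b) 1 := by
    rw [AddMonoidAlgebra.single_mul_single, mul_one]
  exact h

theorem mono_zero : mono (0 : V → ℤ) = 1 := rfl

theorem mono_mul_neg (a : V → ℤ) : mono a * mono (-a) = 1 := by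
  rw [mono_mul, add_neg_cancel, mono_zero]

theorem mono_neg_mul (a : V → ℤ) : mono (-a) * mono a = 1 := by
  rw [mono_mul, neg_add_cancel, mono_zero]

/-- The Laurent monomial with exponent `a`, as a unit. -/
noncomputable def mon (a : V → ℤ) : (Lau V)ˣ :=
  ⟨mono a, mono (-a), mono_mul_neg a, mono_neg_mul a⟩

open Classical in
/-- The indeterminate with index `x`. -/
noncomputable def var (x : V) : (Lau V)ˣ := mon (Pi.single x 1)

/-- The ring automorphism which inverts all indeterminates. -/
noncomputable def star : Lau V →+* Lau V :=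
  AddMonoidAlgebra.mapDomainRingHom ℤ (negAddMonoidHom : (V → ℤ) →+ (V → ℤ))

variable [Fintype V]

/-- The value of a Laurent monomial. -/
noncomputable def monVal (val : V → ℂˣ) (a : V → ℤ) : ℂ := ((∏ x, val x ^ a x : ℂˣ) : ℂ)

theorem monVal_zero (val : V → ℂˣ) : monVal val 0 = 1 := by simp [monVal]

theorem monVal_add (val : V → ℂˣ) (a b : V → ℤ) :
    monVal val (a + b) = monVal val a * monVal val b := by
  simp only [monVal, Pi.add_apply, zpow_add, Finset.prod_mul_distrib, Units.val_mul]

/-- The value of a Laurent monomial, as a homomorphism. -/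
noncomputable def monHom (val : V → ℂˣ) : Multiplicative (V → ℤ) →* ℂ where
  toFun := monVal val
  map_one' := monVal_zero val
  map_mul' := monVal_add val

/-- The specialisation at `val`. -/
noncomputable def spec (val : V → ℂˣ) : Lau V →+* ℂ :=
  (AddMonoidAlgebra.lift ℤ ℂ (V → ℤ) (monHom val)).toRingHom

omit [Fintype V] in
theorem star_mon (a : V → ℤ) : star (mon a : Lau V) = (((mon a)⁻¹ : (Lau V)ˣ) : Lau V) := by
  have h : AddMonoidAlgebra.mapDomainRingHom ℤ (negAddMonoidHom : (V → ℤ) →+ (V → ℤ))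
      (AddMonoidAlgebra.single a 1 : AddMonoidAlgebra ℤ (V → ℤ)) =
      AddMonoidAlgebra.single (-a) 1 := by
    simp
  exact h

omit [Fintype V] in
theorem star_var (x : V) : star (var x : Lau V) = (((var x)⁻¹ : (Lau V)ˣ) : Lau V) := star_mon _

omit [Fintype V] in
theorem star_star (x : Lau V) : star (star x) = x := by
  have h : (AddMonoidAlgebra.mapDomainRingHom ℤ (negAddMonoidHom : (V → ℤ) →+ (V → ℤ))).comp
      (AddMonoidAlgebra.mapDomainRingHom ℤ (negAddMonoidHom : (V → ℤ) →+ (V → ℤ))) =
      RingHom.id (AddMonoidAlgebra ℤ (V → ℤ)) := by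
    rw [← AddMonoidAlgebra.mapDomainRingHom_comp]
    have h1 : (negAddMonoidHom : (V → ℤ) →+ (V → ℤ)).comp negAddMonoidHom =
        AddMonoidHom.id _ := by ext; simp
    rw [h1, AddMonoidAlgebra.mapDomainRingHom_id]
  exact congrArg (fun f : AddMonoidAlgebra ℤ (V → ℤ) →+* AddMonoidAlgebra ℤ (V → ℤ) => f x) h

theorem spec_mon (val : V → ℂˣ) (a : V → ℤ) :
    spec val (mon a : Lau V) = ((∏ x, val x ^ (a x) : ℂˣ) : ℂ) := by
  have h : (AddMonoidAlgebra.lift ℤ ℂ (V → ℤ) (monHom val))
      (AddMonoidAlgebra.single a 1 : AddMonoidAlgebra ℤ (V → ℤ)) = monVal val a := by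
    rw [AddMonoidAlgebra.lift_single, one_smul]
    rfl
  exact h

theorem spec_var (val : V → ℂˣ) (x : V) : spec val (var x : Lau V) = (val x : ℂ) := by
  classical
  unfold var
  rw [spec_mon, Finset.prod_eq_single x]
  · rw [Pi.single_eq_same, zpow_one]
  · intro b _ hb
    rw [Pi.single_eq_of_ne hb, zpow_zero]
  · intro h; exact absurd (Finset.mem_univ _) h

end

end Pool.Agent.Lib.H10K2
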