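import Pool.Agent.Lib.H10BMM.Stm
import Pool.Agent.Lib.H10K2.Laurent

/-!
# The statement: braid group, generic Hecke algebra and BMM trace of `G(de,e,n)`, all cases

`H10BMM.Gam`, `WG`, `BraidW`, `inc`, `pr`, `twist`, `IsRef0` are those of `Lib/H10BMM`.  New here:
the reflecting hyperplanes `z_i = ζ z_j` form two orbits if `n = 2` and `e` is even, and one orbit
otherwise; so there are one or two pairs of indeterminates `v`.
-/

namespace Pool.Agent.Lib.H10K2

open Polynomial (C aeval)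
open scoped Polynomial
open Pool.Agent.Lib.H10BMM (Gam tg liftG liftG_tg IsBraid WG instWG BraidW instBraidW inc pr twist
  IsRef0 zd)

/-- The number of orbits of the hyperplanes `z_i = ζ z_j`. -/
def orb (e n : ℕ) : ℕ := if n = 2 ∧ 2 ∣ e then 2 else 1

instance (e n : ℕ) : NeZero (orb e n) := ⟨by unfold orb; split_ifs <;> omega⟩

/-- The set of indeterminates of the generic Hecke algebra of `G(de,e,n)` : `u_0, …, u_{d-1}` if
`d ≠ 1` (none if `d = 1`), and `v_{c,0}, v_{c,1}` for each orbit `c`. -/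
abbrev Vars (d e n : ℕ) : Type := {_j : Fin d // d ≠ 1} ⊕ (ZMod (orb e n) × Fin 2)

noncomputable instance (d e n : ℕ) : Fintype (Vars d e n) := by
  unfold Vars
  infer_instance

/-- The ring `R` of Laurent polynomials. -/
abbrev Rg (d e n : ℕ) : Type := Lau (Vars d e n)

/-- `u_j` (for `d = 1` it is not an indeterminate and is set to `1`). -/
noncomputable def uR (d e n : ℕ) (j : Fin d) : (Rg d e n)ˣ :=
  if h : d ≠ 1 then var (Sum.inl ⟨j, h⟩) else 1

/-- `v_{c,j}`. -/
noncomputable def vR (d e n : ℕ) (c : ZMod (orb e n)) (j : Fin 2) : (Rg d e n)ˣ :=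
  var (Sum.inr (c, j))

/-- The ring automorphism `x ↦ x^*` with `u ↦ u⁻¹`, `v ↦ v⁻¹`. -/
noncomputable def starR (d e n : ℕ) : Rg d e n →+* Rg d e n := star

/-- The values of the indeterminates in the group algebra: `u_j ↦ ζ_d^j`, `v_{c,j} ↦ (-1)^j`. -/
noncomputable def valR (d e n : ℕ) : Vars d e n → ℂˣ :=
  Sum.elim (fun j => zd d ^ (j.1 : ℕ)) (fun x => (-1) ^ (x.2 : ℕ))

/-- The specialisation `R → ℂ`, `u_j ↦ ζ_d^j`, `v_{c,j} ↦ (-1)^j`. -/
noncomputable def specR (d e n : ℕ) : Rg d e n →+* ℂ := spec (valR d e n)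

/-- The orbit of the hyperplane of `g t_i g⁻¹`, `i ≥ 1`: the `t_0`-exponent of `g` modulo the number
of orbits; a homomorphism with `t_0 ↦ 1`, `t_i ↦ 0`. -/
noncomputable def par (d e n : ℕ) : Gam d e n →* Multiplicative (ZMod (orb e n)) :=
  liftG (t := fun i => if i = 0 then Multiplicative.ofAdd 1 else 1)
    ⟨fun _ => by simp [mul_comm], fun i h0 _ => by
        rw [if_neg (by omega), if_neg (by omega)],
      fun i j hij _ => mul_comm _ _⟩
    (fun _ _ => by
      rw [if_pos rfl, ← ofAdd_nsmul, ← ofAdd_zero, nsmul_eq_mul, mul_one]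
      congr 1
      rw [ZMod.natCast_eq_zero_iff]
      unfold orb
      split_ifs with h
      · exact h.2
      · exact one_dvd _)

/-- `x` is conjugate to one of `t_1, …, t_{n-1}`, in the orbit `c`. -/
def IsRef1 (d e n : ℕ) (c : ZMod (orb e n)) (x : BraidW d e n) : Prop :=
  ∃ (g : Gam d e n) (i : ℕ), 0 < i ∧ i < n ∧ par d e n g = Multiplicative.ofAdd c ∧
    inc d e n x = g * tg d e n i * g⁻¹

/-- The group algebra `R[B(W)]`. -/
def GrAlg (d e n : ℕ) : Type := MonoidAlgebra (Rg d e n) (BraidW d e n)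

noncomputable instance instGrAlg (d e n : ℕ) : Ring (GrAlg d e n) :=
  (MonoidAlgebra.ring : Ring (MonoidAlgebra (Rg d e n) (BraidW d e n)))

noncomputable instance instGrAlg2 (d e n : ℕ) : Algebra (Rg d e n) (GrAlg d e n) :=
  (MonoidAlgebra.algebra : Algebra (Rg d e n) (MonoidAlgebra (Rg d e n) (BraidW d e n)))

/-- The inclusion `B(W) → R[B(W)]`. -/
noncomputable def ofB (d e n : ℕ) : BraidW d e n →* GrAlg d e n :=
  MonoidAlgebra.of (Rg d e n) (BraidW d e n)

/-- `∏_j (X - u_j)`. -/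
noncomputable def polU (d e n : ℕ) : (Rg d e n)[X] :=
  ∏ j : Fin d, (Polynomial.X - C (uR d e n j : Rg d e n))

/-- `(X - v_{c,0}) (X - v_{c,1})`. -/
noncomputable def polV (d e n : ℕ) (c : ZMod (orb e n)) : (Rg d e n)[X] :=
  (Polynomial.X - C (vR d e n c 0 : Rg d e n)) * (Polynomial.X - C (vR d e n c 1 : Rg d e n))

/-- The relations of the Hecke algebra of `W = G(de,e,n)`: if `d ≠ 1`, then `∏_j (x - u_j) = 0` for
every conjugate `x` of `t_0 ^ e`, and `(x - v_{c,0}) (x - v_{c,1}) = 0` for every conjugate `x` of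
`t_i`, `0 < i < n`, in the orbit `c`. -/
inductive WRel (d e n : ℕ) : GrAlg d e n → GrAlg d e n → Prop
  | c0 (x : BraidW d e n) (hx : IsRef0 d e n x) (hd : d ≠ 1) :
      WRel d e n (aeval (ofB d e n x) (polU d e n)) 0
  | c1 (x : BraidW d e n) (c : ZMod (orb e n)) (hx : IsRef1 d e n c x) :
      WRel d e n (aeval (ofB d e n x) (polV d e n c)) 0

/-- The generic Hecke algebra `H(W)` of `W = G(de,e,n)`. -/
def HeckeAlg (d e n : ℕ) : Type := RingQuot (WRel d e n)

/-- Its ring structure (that of Mathlib). -/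
noncomputable def instHeckeAlg (d e n : ℕ) : Ring (HeckeAlg d e n) :=
  (RingQuot.instRing (WRel d e n) : Ring (RingQuot (WRel d e n)))

attribute [instance] instHeckeAlg

/-- Its algebra structure (that of Mathlib). -/
noncomputable def instHeckeAlg2 (d e n : ℕ) : Algebra (Rg d e n) (HeckeAlg d e n) :=
  (RingQuot.instAlgebra (WRel d e n) : Algebra (Rg d e n) (RingQuot (WRel d e n)))

attribute [instance] instHeckeAlg2

/-- The quotient map `R[B(W)] → H(W)`. -/
noncomputable def mkH (d e n : ℕ) : GrAlg d e n →ₐ[Rg d e n] HeckeAlg d e n :=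
  RingQuot.mkAlgHom (Rg d e n) (WRel d e n)

/-- The natural map `β ↦ T_β`. -/
noncomputable def TB (d e n : ℕ) (β : BraidW d e n) : HeckeAlg d e n := mkH d e n (ofB d e n β)

/-- The linear form `y ↦ τ (x y)`. -/
noncomputable def lform (d e n : ℕ) (τ : HeckeAlg d e n →ₗ[Rg d e n] Rg d e n)
    (x : HeckeAlg d e n) : HeckeAlg d e n →ₗ[Rg d e n] Rg d e n :=
  τ ∘ₗ LinearMap.mulLeft (Rg d e n) x

/-- The value `τ (T_β)`. -/
noncomputable def tauT (d e n : ℕ) (τ : HeckeAlg d e n →ₗ[Rg d e n] Rg d e n)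
    (β : BraidW d e n) : Rg d e n := τ (TB d e n β)

open Classical in
/-- `τ` is the BMM trace of the generic Hecke algebra of `G(de,e,n)`. -/
structure IsBMMTrace (d e n : ℕ) (τ : HeckeAlg d e n →ₗ[Rg d e n] Rg d e n) : Prop where
  trace : ∀ x y, τ (x * y) = τ (y * x)
  symm : Function.Bijective (lform d e n τ)
  spec : ∀ β : BraidW d e n, specR d e n (tauT d e n τ β) = if pr d e n β = 1 then 1 else 0
  unit : IsUnit (tauT d e n τ (twist d e n))
  star : ∀ β : BraidW d e n, starR d e n (tauT d e n τ β⁻¹) * tauT d e n τ (twist d e n) =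
    tauT d e n τ (β * twist d e n)

end Pool.Agent.Lib.H10K2
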