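import Pool.Agent.Lib.H10K2.FN
import Pool.Agent.Lib.H10K2.Stm
import Pool.Agent.Lib.H10BMM.Main

/-!
# The main theorem in the form of the statement
-/

namespace Pool.Agent.Lib.H10K2

open Polynomial (C aeval)
open scoped Polynomial
open Pool.Agent.Lib.H10BMM (Gam tg liftG liftG_tg IsBraid WG instWG BraidW instBraidW inc pr twist
  IsRef0 zd chi chi_zero chi_succ zt zt_pow zt_prim Gam_closure BW Gg proj piB HRel main_r)

universe u'

theorem starR_u (d e n : ℕ) (j : Fin d) :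
    starR d e n (uR d e n j) = (((uR d e n j)⁻¹ : (Rg d e n)ˣ) : Rg d e n) := by
  unfold uR starR
  split_ifs
  · exact star_var _
  · simp

theorem starR_v (d e n : ℕ) (c : ZMod (orb e n)) (j : Fin 2) :
    starR d e n (vR d e n c j) = (((vR d e n c j)⁻¹ : (Rg d e n)ˣ) : Rg d e n) := star_var _

theorem specR_v (d e n : ℕ) (c : ZMod (orb e n)) (j : Fin 2) :
    specR d e n (vR d e n c j) = (-1) ^ (j : ℕ) := by
  unfold vR specR
  rw [spec_var]
  simp [valR]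

theorem specR_u (d e n : ℕ) (hd : 0 < d) (j : Fin d) :
    specR d e n (uR d e n j) = Complex.exp (2 * Real.pi * Complex.I / (d : ℂ)) ^ (j : ℕ) := by
  unfold uR specR
  split_ifs with h
  · rw [spec_var]
    simp [valR, zd]
  · have hj : (j : ℕ) = 0 := by
      have := j.2
      omega
    rw [hj, pow_zero, Units.val_one, map_one]

theorem uR_one (d e n : ℕ) (h1 : d = 1) (j : Fin d) : uR d e n j = 1 := by
  rw [uR, dif_neg (by simp [h1])]

theorem orb_one {e n : ℕ} (h : ¬ (n = 2 ∧ 2 ∣ e)) : orb e n = 1 := if_neg h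

theorem orb_two (f : ℕ) : orb (2 * f) 2 = 2 := if_pos ⟨rfl, Dvd.intro f rfl⟩

theorem zmod_orb_one {e n : ℕ} (h : ¬ (n = 2 ∧ 2 ∣ e)) (c : ZMod (orb e n)) : c = 0 := by
  revert c
  rw [orb_one h]
  decide

theorem zmod_orb_two (f : ℕ) (c : ZMod (orb (2 * f) 2)) : c = 0 ∨ c = 1 := by
  revert c
  rw [orb_two f]
  decide

theorem zmod_orb_add (f : ℕ) (c : ZMod (orb (2 * f) 2)) : c + c = 0 := by
  revert c
  rw [orb_two f]
  decide

theorem zmod_orb_ne (f : ℕ) : (1 : ZMod (orb (2 * f) 2)) ≠ 0 := by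
  rw [orb_two f]
  decide

theorem par_zero (d e n : ℕ) (hn : 0 < n) : par d e n (tg d e n 0) = Multiplicative.ofAdd 1 := by
  rw [par, liftG_tg _ _ hn, if_pos rfl]

theorem par_succ (d e n : ℕ) {i : ℕ} (h0 : 0 < i) (hi : i < n) : par d e n (tg d e n i) = 1 := by
  rw [par, liftG_tg _ _ hi, if_neg (by omega)]

/-- The two descriptions of the orbits. -/
theorem par_chi {d f : ℕ} (hd : 0 < d) (hf : 0 < f) (g : Gam d (2 * f) 2) :
    (par d (2 * f) 2 g = 1 ∧ chi d (2 * f) 2 g ^ f = 1) ∨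
      (par d (2 * f) 2 g = Multiplicative.ofAdd 1 ∧ chi d (2 * f) 2 g ^ f = -1) := by
  have hx : g ∈ Subgroup.closure {x | ∃ i, i < 2 ∧ x = tg d (2 * f) 2 i} := by
    rw [Gam_closure]; exact Subgroup.mem_top _
  have hadd : (Multiplicative.ofAdd 1 * Multiplicative.ofAdd 1 :
      Multiplicative (ZMod (orb (2 * f) 2))) = 1 := by
    rw [← ofAdd_add, zmod_orb_add, ofAdd_zero]
  induction hx using Subgroup.closure_induction with
  | mem y hy =>
    obtain ⟨i, hi, rfl⟩ := hy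
    rcases Nat.eq_zero_or_pos i with rfl | h0
    · right
      refine ⟨par_zero d (2 * f) 2 hi, ?_⟩
      rw [chi_zero d (2 * f) 2 hi, ← pow_mul]
      apply Units.ext
      rw [Units.val_pow_eq_pow_val, Units.val_neg, Units.val_one]
      have hp : IsPrimitiveRoot ((zt d (2 * f) : ℂ) ^ (d * f)) 2 :=
        (zt_prim (d := d) (e := 2 * f) (by positivity)).pow (by positivity) (by ring)
      exact hp.eq_neg_one_of_two_right
    · left
      refine ⟨par_succ d (2 * f) 2 h0 hi, ?_⟩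
      rw [chi_succ d (2 * f) 2 h0 hi, one_pow]
  | one => left; exact ⟨map_one _, by rw [map_one, one_pow]⟩
  | mul x y _ _ hx hy =>
    rw [map_mul, map_mul, mul_pow]
    rcases hx with ⟨h1, h2⟩ | ⟨h1, h2⟩ <;> rcases hy with ⟨h3, h4⟩ | ⟨h3, h4⟩ <;>
      rw [h1, h2, h3, h4]
    · left; exact ⟨mul_one _, mul_one _⟩
    · right; exact ⟨one_mul _, one_mul _⟩
    · right; exact ⟨mul_one _, mul_one _⟩
    · left; exact ⟨hadd, by rw [neg_mul_neg, one_mul]⟩
  | inv x _ hx =>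
    rw [map_inv, map_inv, inv_pow]
    rcases hx with ⟨h1, h2⟩ | ⟨h1, h2⟩ <;> rw [h1, h2]
    · left; exact ⟨inv_one, inv_one⟩
    · right
      refine ⟨inv_eq_of_mul_eq_one_left hadd, ?_⟩
      rw [inv_neg, inv_one]

theorem par_iff_zero {d f : ℕ} (hd : 0 < d) (hf : 0 < f) (g : Gam d (2 * f) 2) :
    par d (2 * f) 2 g = Multiplicative.ofAdd 0 ↔ chi d (2 * f) 2 g ^ f = 1 := by
  rw [ofAdd_zero]
  rcases par_chi hd hf g with ⟨h1, h2⟩ | ⟨h1, h2⟩
  · exact ⟨fun _ => h2, fun _ => h1⟩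
  · refine ⟨fun h => ?_, fun h => ?_⟩
    · rw [h1, ← ofAdd_zero] at h
      exact absurd (Multiplicative.ofAdd.injective h) (zmod_orb_ne f)
    · rw [h2] at h
      have h' := congrArg Units.val h
      rw [Units.val_neg, Units.val_one] at h'
      norm_num at h'

theorem par_iff_one {d f : ℕ} (hd : 0 < d) (hf : 0 < f) (g : Gam d (2 * f) 2) :
    par d (2 * f) 2 g = Multiplicative.ofAdd 1 ↔ chi d (2 * f) 2 g ^ f ≠ 1 := by
  rw [← not_iff_not, not_not, ← par_iff_zero hd hf g, ofAdd_zero]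
  rcases par_chi hd hf g with ⟨h1, h2⟩ | ⟨h1, h2⟩
  · rw [h1, ← ofAdd_zero]
    refine ⟨fun _ => rfl, fun _ h => zmod_orb_ne f (Multiplicative.ofAdd.injective h).symm⟩
  · rw [h1, ← ofAdd_zero]
    refine ⟨fun h => absurd rfl h, fun h => absurd (Multiplicative.ofAdd.injective h) (zmod_orb_ne f)⟩

/-- The relations of the statement are those of the proof (one orbit). -/
theorem rel_eq1 (d e n : ℕ) (hn : 0 < n) (h : ¬ (n = 2 ∧ 2 ∣ e)) :
    (WRel d e n : MonoidAlgebra (Rg d e n) (BW d e n) → MonoidAlgebra (Rg d e n) (BW d e n) →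
      Prop) = HRel d e n (uR d e n) (vR d e n 0) := by
  funext x y
  apply propext
  constructor
  · intro h'
    induction h' with
    | c0 x hx hd =>
      obtain ⟨g, hg⟩ := hx
      exact HRel.c0 x g hg hn hd
    | c1 x c hx =>
      obtain ⟨g, i, h0, hi, -, hg⟩ := hx
      rw [zmod_orb_one h c]
      exact HRel.c1 x g i h0 hi hg
  · intro h'
    induction h' with
    | c0 x g hx hn hd => exact WRel.c0 x ⟨g, hx⟩ hd
    | c1 x g i h0 hi hx =>
      refine WRel.c1 x 0 ⟨g, i, h0, hi, ?_, hx⟩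
      exact (congrArg Multiplicative.ofAdd (zmod_orb_one h (Multiplicative.toAdd (par d e n g))))

/-- The relations of the statement are those of the proof (two orbits). -/
theorem rel_eq2 {d f : ℕ} (hd : 0 < d) (hf : 0 < f) :
    (WRel d (2 * f) 2 : MonoidAlgebra (Rg d (2 * f) 2) (BW d (2 * f) 2) →
      MonoidAlgebra (Rg d (2 * f) 2) (BW d (2 * f) 2) → Prop) =
      HRel2 d f (uR d (2 * f) 2) (vR d (2 * f) 2 0) (vR d (2 * f) 2 1) := by
  funext x y
  apply propext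
  constructor
  · intro h'
    induction h' with
    | c0 x hx hd =>
      obtain ⟨g, hg⟩ := hx
      exact HRel2.c0 x g hg hd
    | c1 x c hx =>
      obtain ⟨g, i, h0, hi, hc, hg⟩ := hx
      obtain rfl : i = 1 := by omega
      rcases zmod_orb_two f c with rfl | rfl
      · exact HRel2.c1 x g ((par_iff_zero hd hf g).mp hc) hg
      · exact HRel2.c2 x g ((par_iff_one hd hf g).mp hc) hg
  · intro h'
    induction h' with
    | c0 x g hx hd => exact WRel.c0 x ⟨g, hx⟩ hd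
    | c1 x g hg hx =>
      exact WRel.c1 x 0 ⟨g, 1, by omega, by omega, (par_iff_zero hd hf g).mpr hg, hx⟩
    | c2 x g hg hx =>
      exact WRel.c1 x 1 ⟨g, 1, by omega, by omega, (par_iff_one hd hf g).mpr hg, hx⟩

open Classical in
theorem main_r2 {A : Type u'} [CommRing A] [Nontrivial A] {d f : ℕ} (hd : 0 < d) (hf : 0 < f)
    (u : Fin d → Aˣ)
    (v w : Fin 2 → Aˣ) (hu1 : d = 1 → ∀ j, u j = 1) {st : A →+* A} {sp : A →+* ℂ} {z : ℂ}
    (hst : ∀ x, st (st x) = x) (hstu : ∀ j, st (u j) = (((u j)⁻¹ : Aˣ) : A))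
    (hstv : ∀ j, st (v j) = (((v j)⁻¹ : Aˣ) : A)) (hstw : ∀ j, st (w j) = (((w j)⁻¹ : Aˣ) : A))
    (hz : IsPrimitiveRoot z d)
    (hspu : ∀ j : Fin d, sp (u j) = z ^ (j : ℕ)) (hspv : ∀ j : Fin 2, sp (v j) = (-1) ^ (j : ℕ))
    (hspw : ∀ j : Fin 2, sp (w j) = (-1) ^ (j : ℕ))
    (r : MonoidAlgebra A (BW d (2 * f) 2) → MonoidAlgebra A (BW d (2 * f) 2) → Prop)
    (hr : r = HRel2 d f u v w) :
    ∃ τ : RingQuot r →ₗ[A] A, ((∀ x y, τ (x * y) = τ (y * x)) ∧
      Function.Bijective (fun x => (τ ∘ₗ LinearMap.mulLeft A x : RingQuot r →ₗ[A] A)) ∧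
      (∀ β : BW d (2 * f) 2, sp (τ (RingQuot.mkAlgHom A r (MonoidAlgebra.of A _ β))) =
        if proj d (2 * f) 2 β = 1 then 1 else 0) ∧
      IsUnit (τ (RingQuot.mkAlgHom A r (MonoidAlgebra.of A _ (piB d (2 * f) 2)))) ∧
      (∀ β : BW d (2 * f) 2, st (τ (RingQuot.mkAlgHom A r (MonoidAlgebra.of A _ β⁻¹))) *
        τ (RingQuot.mkAlgHom A r (MonoidAlgebra.of A _ (piB d (2 * f) 2))) =
        τ (RingQuot.mkAlgHom A r (MonoidAlgebra.of A _ (β * piB d (2 * f) 2))))) ∧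
      ∃ s : Gg d (2 * f) 2 → BW d (2 * f) 2, (∀ g, proj d (2 * f) 2 (s g) = g) ∧ s 1 = 1 ∧
        (∀ g, τ (RingQuot.mkAlgHom A r (MonoidAlgebra.of A _ (s g))) = if g = 1 then 1 else 0) ∧
        ∃ b : Module.Basis (Gg d (2 * f) 2) A (RingQuot r),
          ∀ g, b g = RingQuot.mkAlgHom A r (MonoidAlgebra.of A _ (s g)) := by
  subst hr
  obtain ⟨τ, hτ, s, h1, h2, h3, b, h4⟩ :=
    main_general2 hd hf u v w hu1 hst hstu hstv hstw hz hspu hspv hspw
  exact ⟨τ, ⟨hτ.trace, hτ.symm, hτ.spec, hτ.unit, hτ.star⟩, s, h1, h2, h3, b, h4⟩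

open Classical in
/-- The main theorem (one orbit). -/
theorem main_stm1 {d e n : ℕ} (hd : 0 < d) (he : 0 < e) (hn : 0 < n) (h : ¬ (n = 2 ∧ 2 ∣ e)) :
    ∃ τ : HeckeAlg d e n →ₗ[Rg d e n] Rg d e n, IsBMMTrace d e n τ ∧
      ∃ s : WG d e n → BraidW d e n, (∀ w, pr d e n (s w) = w) ∧ s 1 = 1 ∧
        (∀ w, tauT d e n τ (s w) = if w = 1 then 1 else 0) ∧
        ∃ b : Module.Basis (WG d e n) (Rg d e n) (HeckeAlg d e n), ∀ w, b w = TB d e n (s w) := by
  obtain ⟨τ, ⟨t1, t2, t3, t4, t5⟩, s, h1, h2, h3, b, h4⟩ :=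
    main_r hd he hn (uR d e n) (vR d e n 0) (uR_one d e n) (star_star) (starR_u d e n)
      (starR_v d e n 0) (Complex.isPrimitiveRoot_exp d (by omega))
      (specR_u d e n hd) (specR_v d e n 0) (WRel d e n) (rel_eq1 d e n hn h)
  refine ⟨τ, ⟨t1, t2, ?_, t4, t5⟩, s, ?_, h2, fun w => (h3 w).trans (if_congr Iff.rfl rfl rfl), b,
    h4⟩
  · intro β
    have h := t3 β
    have h' : (pr d e n β = 1) ↔ (proj d e n (inc d e n β) = 1) :=
      ⟨fun h => congrArg Subtype.val h, fun h => Subtype.ext h⟩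
    simp only [h']
    exact h
  · intro w
    exact Subtype.ext (h1 w)

open Classical in
/-- The main theorem (two orbits). -/
theorem main_stm2 {d f : ℕ} (hd : 0 < d) (hf : 0 < f) :
    ∃ τ : HeckeAlg d (2 * f) 2 →ₗ[Rg d (2 * f) 2] Rg d (2 * f) 2, IsBMMTrace d (2 * f) 2 τ ∧
      ∃ s : WG d (2 * f) 2 → BraidW d (2 * f) 2, (∀ w, pr d (2 * f) 2 (s w) = w) ∧ s 1 = 1 ∧
        (∀ w, tauT d (2 * f) 2 τ (s w) = if w = 1 then 1 else 0) ∧
        ∃ b : Module.Basis (WG d (2 * f) 2) (Rg d (2 * f) 2) (HeckeAlg d (2 * f) 2),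
          ∀ w, b w = TB d (2 * f) 2 (s w) := by
  obtain ⟨τ, ⟨t1, t2, t3, t4, t5⟩, s, h1, h2, h3, b, h4⟩ :=
    main_r2 hd hf (uR d (2 * f) 2) (vR d (2 * f) 2 0) (vR d (2 * f) 2 1) (uR_one d (2 * f) 2)
      (star_star) (starR_u d (2 * f) 2)
      (starR_v d (2 * f) 2 0) (starR_v d (2 * f) 2 1) (Complex.isPrimitiveRoot_exp d (by omega))
      (specR_u d (2 * f) 2 hd) (specR_v d (2 * f) 2 0) (specR_v d (2 * f) 2 1)
      (WRel d (2 * f) 2) (rel_eq2 hd hf)
  refine ⟨τ, ⟨t1, t2, ?_, t4, t5⟩, s, ?_, h2, fun w => (h3 w).trans (if_congr Iff.rfl rfl rfl), b,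
    h4⟩
  · intro β
    have h := t3 β
    have h' : (pr d (2 * f) 2 β = 1) ↔ (proj d (2 * f) 2 (inc d (2 * f) 2 β) = 1) :=
      ⟨fun h => congrArg Subtype.val h, fun h => Subtype.ext h⟩
    simp only [h']
    exact h
  · intro w
    exact Subtype.ext (h1 w)

open Classical in
/-- The main theorem. -/
theorem main_stm {d e n : ℕ} (hd : 0 < d) (he : 0 < e) (hn : 0 < n) :
    ∃ τ : HeckeAlg d e n →ₗ[Rg d e n] Rg d e n, IsBMMTrace d e n τ ∧
      ∃ s : WG d e n → BraidW d e n, (∀ w, pr d e n (s w) = w) ∧ s 1 = 1 ∧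
        (∀ w, tauT d e n τ (s w) = if w = 1 then 1 else 0) ∧
        ∃ b : Module.Basis (WG d e n) (Rg d e n) (HeckeAlg d e n), ∀ w, b w = TB d e n (s w) := by
  by_cases h : n = 2 ∧ 2 ∣ e
  · obtain ⟨rfl, f, rfl⟩ := h
    exact main_stm2 hd (by omega)
  · exact main_stm1 hd he hn h

end Pool.Agent.Lib.H10K2
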