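import Pool.Agent.Lib.H10K2.ST2
import Pool.Agent.Lib.H10BMM.Ind2

/-!
# Chunk PO : the parameters given by `u : Fin d → Aˣ`, `v w : Fin 2 → Aˣ` and `f = e / 2`
-/

namespace Pool.Agent.Lib.H10K2

open Polynomial
open scoped BigOperators
open Pool.Agent.Lib.H10BMM (pol pol_monic pol_natDegree pol_coeff_zero reflect_pol pol_spec)

universe u' v'

variable {A : Type u'} [CommRing A] [Nontrivial A]

/-- The parameters. -/
noncomputable def parOf {d f : ℕ} (hd : 0 < d) (hf : 0 < f) (u : Fin d → Aˣ) (v w : Fin 2 → Aˣ) :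
    Par A where
  D := d * f
  hD := Nat.mul_pos hd hf
  P := pol f u
  monic := pol_monic hf u
  deg := pol_natDegree hf u
  p0 := ∏ j : Fin d, (-u j)
  hp0 := by
    rw [pol_coeff_zero hf u, Units.coe_prod]
    exact Finset.prod_congr rfl fun j _ => (Units.val_neg _).symm
  a := ((v 0 : Aˣ) : A) + ((v 1 : Aˣ) : A)
  b := -(v 0 * v 1)
  a' := ((w 0 : Aˣ) : A) + ((w 1 : Aˣ) : A)
  b' := -(w 0 * w 1)

section parOf

variable {d f : ℕ} (hd : 0 < d) (hf : 0 < f) (u : Fin d → Aˣ) (v w : Fin 2 → Aˣ)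

theorem quad_iff {K : Type v'} [Ring K] [Algebra A K] (v : Fin 2 → Aˣ) (t : K) :
    t * t = (((v 0 : Aˣ) : A) + ((v 1 : Aˣ) : A)) • t + ((-(v 0 * v 1) : Aˣ) : A) • (1 : K) ↔
      aeval t ((Polynomial.X - C ((v 0 : Aˣ) : A)) * (Polynomial.X - C ((v 1 : Aˣ) : A))) = 0 :=
  H10BMM.quad_iff (d := 1) (e := 1) one_pos (fun _ => 1) v t

theorem quadt_iff {K : Type v'} [Ring K] [Algebra A K] (t : K) :
    t * t = (parOf hd hf u v w).a • t + ((parOf hd hf u v w).b : A) • (1 : K) ↔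
      aeval t ((Polynomial.X - C ((v 0 : Aˣ) : A)) * (Polynomial.X - C ((v 1 : Aˣ) : A))) = 0 :=
  quad_iff v t

theorem quadu_iff {K : Type v'} [Ring K] [Algebra A K] (t : K) :
    t * t = (parOf hd hf u v w).a' • t + ((parOf hd hf u v w).b' : A) • (1 : K) ↔
      aeval t ((Polynomial.X - C ((w 0 : Aˣ) : A)) * (Polynomial.X - C ((w 1 : Aˣ) : A))) = 0 :=
  quad_iff w t

/-- CHUNK PO1.  As `H10BMM.parOf_isStar`; the last field is `reflect_pol`. -/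
theorem parOf_isStar {σ : A →+* A} (hinv : ∀ x, σ (σ x) = x)
    (hu : ∀ j, σ (u j) = (((u j)⁻¹ : Aˣ) : A)) (hv : ∀ j, σ (v j) = (((v j)⁻¹ : Aˣ) : A))
    (hw : ∀ j, σ (w j) = (((w j)⁻¹ : Aˣ) : A)) :
    IsStar (parOf hd hf u v w) σ := by
  refine ⟨hinv, ?_, ?_, ?_, ?_, ?_⟩
  · change σ (((v 0 : Aˣ) : A) + ((v 1 : Aˣ) : A)) =
      -(((v 0 : Aˣ) : A) + ((v 1 : Aˣ) : A)) * (((-(v 0 * v 1))⁻¹ : Aˣ) : A)
    rw [map_add, hv, hv, inv_neg, mul_inv, Units.val_neg, Units.val_mul]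
    have h0 : ((v 0 : Aˣ) : A) * (((v 0)⁻¹ : Aˣ) : A) = 1 := Units.mul_inv _
    have h1 : ((v 1 : Aˣ) : A) * (((v 1)⁻¹ : Aˣ) : A) = 1 := Units.mul_inv _
    generalize ((v 0 : Aˣ) : A) = x at *
    generalize ((v 1 : Aˣ) : A) = y at *
    generalize (((v 0)⁻¹ : Aˣ) : A) = x' at *
    generalize (((v 1)⁻¹ : Aˣ) : A) = y' at *
    linear_combination (-y') * h0 + (-x') * h1
  · change σ ((-(v 0 * v 1) : Aˣ) : A) = (((-(v 0 * v 1))⁻¹ : Aˣ) : A)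
    rw [Units.val_neg, map_neg, Units.val_mul, map_mul, hv, hv, inv_neg, mul_inv, Units.val_neg,
      Units.val_mul]
  · change σ (((w 0 : Aˣ) : A) + ((w 1 : Aˣ) : A)) =
      -(((w 0 : Aˣ) : A) + ((w 1 : Aˣ) : A)) * (((-(w 0 * w 1))⁻¹ : Aˣ) : A)
    rw [map_add, hw, hw, inv_neg, mul_inv, Units.val_neg, Units.val_mul]
    have h0 : ((w 0 : Aˣ) : A) * (((w 0)⁻¹ : Aˣ) : A) = 1 := Units.mul_inv _
    have h1 : ((w 1 : Aˣ) : A) * (((w 1)⁻¹ : Aˣ) : A) = 1 := Units.mul_inv _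
    generalize ((w 0 : Aˣ) : A) = x at *
    generalize ((w 1 : Aˣ) : A) = y at *
    generalize (((w 0)⁻¹ : Aˣ) : A) = x' at *
    generalize (((w 1)⁻¹ : Aˣ) : A) = y' at *
    linear_combination (-y') * h0 + (-x') * h1
  · change σ ((-(w 0 * w 1) : Aˣ) : A) = (((-(w 0 * w 1))⁻¹ : Aˣ) : A)
    rw [Units.val_neg, map_neg, Units.val_mul, map_mul, hw, hw, inv_neg, mul_inv, Units.val_neg,
      Units.val_mul]
  · exact reflect_pol u σ hu

end parOf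

end Pool.Agent.Lib.H10K2
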