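import Pool.Agent.Lib.H10K2.C2

/-!
# Chunk RR1 : the universal commutative ring `R`
-/

namespace Pool.Agent.Lib.H10K2

open Polynomial
open scoped BigOperators

universe u v

/-- The relations of the commutative ring `R` (`w` plays the role of `t`). -/
structure RelR {A : Type u} [CommRing A] (Q : Par A) {R : Type v} [CommRing R] [Algebra A R]
    (s w z : R) : Prop where
  pol : aeval s Q.P = 0
  quad : w * w = Q.a • w + (Q.b : A) • (1 : R)
  phi : z ^ (2 * Q.D) + ∑ k ∈ Finset.range Q.D, z ^ (2 * k) * aeval s (gp Q k) =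
      ((Q.b⁻¹ : Aˣ) : A) • ((Q.a • s - Q.g • z) *
        ∑ j ∈ Finset.range Q.D, z ^ (2 * j) * aeval s (dp Q j)) * w

/-- One step of the tower. -/
theorem rr1_step {A : Type u} [CommRing A] {S : Type u} [CommRing S] [Algebra A S] {ι : Type}
    (b : Module.Basis ι A S) (g : S[X]) (hg : g.Monic) {n : ℕ} (hn : g.natDegree = n) :
    ∃ B : Module.Basis (ι × Fin n) A (AdjoinRoot g),
      ∀ x, B x = algebraMap S (AdjoinRoot g) (b x.1) * AdjoinRoot.root g ^ (x.2 : ℕ) := by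
  subst hn
  have h : ∀ i : Fin g.natDegree, AdjoinRoot.powerBasisAux' hg i = AdjoinRoot.root g ^ (i : ℕ) :=
    fun i => (AdjoinRoot.powerBasis' hg).basis_eq_pow i
  refine ⟨b.smulTower (AdjoinRoot.powerBasisAux' hg), fun x => ?_⟩
  rw [Module.Basis.smulTower_apply, h, Algebra.smul_def]

section

variable {A : Type u} [CommRing A] (Q : Par A)

/-- The quadratic polynomial of `w`. -/
noncomputable def rr1q {S : Type u} [CommRing S] [Algebra A S] : S[X] :=
  X ^ 2 + (-(C (algebraMap A S Q.a) * X + C (algebraMap A S Q.b)))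

theorem rr1q_deg {S : Type u} [CommRing S] [Algebra A S] :
    (-(C (algebraMap A S Q.a) * X + C (algebraMap A S Q.b))).degree < ((2 : ℕ) : WithBot ℕ) := by
  rw [degree_neg]
  refine lt_of_le_of_lt degree_linear_le ?_
  norm_cast

theorem rr1q_monic {S : Type u} [CommRing S] [Algebra A S] : (rr1q Q (S := S)).Monic :=
  monic_X_pow_add (rr1q_deg Q)

theorem rr1q_natDegree {S : Type u} [CommRing S] [Algebra A S] [Nontrivial S] :
    (rr1q Q (S := S)).natDegree = 2 := by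
  rw [rr1q, natDegree_eq_of_degree_eq (degree_add_eq_left_of_degree_lt ?_), natDegree_X_pow]
  rw [degree_X_pow]
  exact rr1q_deg Q

/-- The lower part of `Φ`. -/
noncomputable def rr1l {S : Type u} [CommRing S] [Algebra A S] (s w : S) : S[X] :=
  ∑ k ∈ Finset.range Q.D, X ^ (2 * k) * C (aeval s (gp Q k)) -
    C (algebraMap A S ((Q.b⁻¹ : Aˣ) : A)) * ((C (Q.a • s) - C (algebraMap A S Q.g) * X) *
      ∑ j ∈ Finset.range Q.D, X ^ (2 * j) * C (aeval s (dp Q j))) * C w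

/-- The polynomial `Φ`. -/
noncomputable def rr1p {S : Type u} [CommRing S] [Algebra A S] (s w : S) : S[X] :=
  X ^ (2 * Q.D) + rr1l Q s w

theorem rr1l_deg {S : Type u} [CommRing S] [Algebra A S] (s w : S) :
    (rr1l Q s w).degree < ((2 * Q.D : ℕ) : WithBot ℕ) := by
  have hD := Q.hD
  have h1 : ∀ (F : ℕ → S), (∑ k ∈ Finset.range Q.D, (X : S[X]) ^ (2 * k) * C (F k)).natDegree ≤
      2 * (Q.D - 1) := by
    intro F
    refine natDegree_sum_le_of_forall_le _ _ fun k hk => ?_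
    refine (natDegree_mul_C_le _ _).trans ((natDegree_X_pow_le _).trans ?_)
    have := Finset.mem_range.1 hk
    omega
  have h2 : (rr1l Q s w).natDegree ≤ 2 * Q.D - 1 := by
    refine (natDegree_sub_le _ _).trans (max_le ((h1 _).trans (by omega)) ?_)
    refine (natDegree_mul_C_le _ _).trans ((natDegree_C_mul_le _ _).trans
      (natDegree_mul_le.trans ?_))
    have h3 : (C (Q.a • s) - C (algebraMap A S Q.g) * X : S[X]).natDegree ≤ 1 := by
      refine (natDegree_sub_le _ _).trans (max_le ?_ ?_)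
      · rw [natDegree_C]; omega
      · exact (natDegree_C_mul_le _ _).trans natDegree_X_le
    have h4 := h1 fun j => aeval s (dp Q j)
    omega
  refine lt_of_le_of_lt degree_le_natDegree ?_
  norm_cast
  omega

theorem rr1p_monic {S : Type u} [CommRing S] [Algebra A S] (s w : S) : (rr1p Q s w).Monic :=
  monic_X_pow_add (rr1l_deg Q s w)

theorem rr1p_natDegree {S : Type u} [CommRing S] [Algebra A S] [Nontrivial S] (s w : S) :
    (rr1p Q s w).natDegree = 2 * Q.D := by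
  rw [rr1p, natDegree_eq_of_degree_eq (degree_add_eq_left_of_degree_lt ?_), natDegree_X_pow]
  rw [degree_X_pow]
  exact rr1l_deg Q s w

theorem rr1q_eval {S : Type u} [CommRing S] [Algebra A S] {T : Type u} [CommRing T] [Algebra A T]
    (f : S →ₐ[A] T) (w : T) : (rr1q Q (S := S)).eval₂ (f : S →+* T) w =
      w * w - (Q.a • w + (Q.b : A) • (1 : T)) := by
  rw [rr1q]
  simp only [eval₂_add, eval₂_neg, eval₂_mul, eval₂_pow, eval₂_X, eval₂_C, RingHom.coe_coe,
    AlgHom.commutes, Algebra.smul_def, mul_one]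
  ring

theorem rr1p_eval {S : Type u} [CommRing S] [Algebra A S] {T : Type u} [CommRing T] [Algebra A T]
    (f : S →ₐ[A] T) (s w : S) (z : T) : (rr1p Q s w).eval₂ (f : S →+* T) z =
      z ^ (2 * Q.D) + ∑ k ∈ Finset.range Q.D, z ^ (2 * k) * aeval (f s) (gp Q k) -
      ((Q.b⁻¹ : Aˣ) : A) • ((Q.a • (f s) - Q.g • z) *
        ∑ j ∈ Finset.range Q.D, z ^ (2 * j) * aeval (f s) (dp Q j)) * f w := by
  rw [rr1p, rr1l]
  simp only [eval₂_add, eval₂_sub, eval₂_mul, eval₂_pow, eval₂_X, eval₂_C, RingHom.coe_coe,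
    AlgHom.commutes, Algebra.smul_def, eval₂_finsetSum, map_mul, Polynomial.aeval_algHom_apply]
  ring

end

/-- CHUNK RR1.  `S = AdjoinRoot Q.P`, `S' = AdjoinRoot (X^2 - a X - b)` over `S`,
`R = AdjoinRoot Φ` over `S'`, where
`Φ = X^(2D) + ∑_{k<D} C(g_k(s)) X^(2k) - C w * C b⁻¹ * (C (a s) - C γ * X) * ∑_{j<D} C(d_j(s)) X^(2j)`
is monic of degree `2D` (the last product has degree `≤ 1 + 2 (D-1) < 2 D`).  Power bases
(`AdjoinRoot.powerBasis'`, `Module.Basis.smulTower`) give the basis `z^k s^i w^a`; the universal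
property is `AdjoinRoot.lift` three times.  (Any other construction is fine.) -/
theorem exists_R {A : Type u} [CommRing A] [Nontrivial A] (Q : Par A) :
    ∃ (R : Type u) (_ : CommRing R) (_ : Algebra A R) (s w z : R)
      (B : Module.Basis (Fin 2 × Fin (2 * Q.D) × Fin Q.D) A R),
      (∀ x, B x = z ^ (x.2.1 : ℕ) * s ^ (x.2.2 : ℕ) * w ^ (x.1 : ℕ)) ∧ RelR Q s w z ∧
      ∀ (R' : Type u) [CommRing R'] [Algebra A R'] (s' w' z' : R'), RelR Q s' w' z' →
        ∃ f : R →ₐ[A] R', f s = s' ∧ f w = w' ∧ f z = z' := by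
  classical
  have hD := Q.hD
  -- the first step
  obtain ⟨B1, hB1⟩ : ∃ B : Module.Basis (Fin Q.D) A (AdjoinRoot Q.P),
      ∀ x, B x = AdjoinRoot.root Q.P ^ (x : ℕ) := by
    have h := Q.deg
    have hm := Q.monic
    revert h
    generalize Q.D = n
    intro h
    subst h
    exact ⟨AdjoinRoot.powerBasisAux' hm, fun x => (AdjoinRoot.powerBasis' hm).basis_eq_pow x⟩
  have : Nontrivial (AdjoinRoot Q.P) := ⟨⟨B1 ⟨0, hD⟩, 0, B1.ne_zero _⟩⟩
  obtain ⟨B2, hB2⟩ := rr1_step B1 (rr1q Q (S := AdjoinRoot Q.P)) (rr1q_monic Q)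
    (rr1q_natDegree Q)
  have : Nontrivial (AdjoinRoot (rr1q Q (S := AdjoinRoot Q.P))) :=
    ⟨⟨B2 (⟨0, hD⟩, 0), 0, B2.ne_zero _⟩⟩
  let S2 := AdjoinRoot (rr1q Q (S := AdjoinRoot Q.P))
  let s2 : S2 := algebraMap (AdjoinRoot Q.P) S2 (AdjoinRoot.root Q.P)
  let w2 : S2 := AdjoinRoot.root (rr1q Q (S := AdjoinRoot Q.P))
  obtain ⟨B3, hB3⟩ := rr1_step B2 (rr1p Q s2 w2) (rr1p_monic Q s2 w2) (rr1p_natDegree Q s2 w2)
  let S3 := AdjoinRoot (rr1p Q s2 w2)
  let j12 : AdjoinRoot Q.P →ₐ[A] S2 := IsScalarTower.toAlgHom A (AdjoinRoot Q.P) S2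
  let j23 : S2 →ₐ[A] S3 := IsScalarTower.toAlgHom A S2 S3
  have hs2 : aeval s2 Q.P = 0 := by
    have h1 : aeval (AdjoinRoot.root Q.P) Q.P = 0 := by
      rw [AdjoinRoot.aeval_eq, AdjoinRoot.mk_self]
    have h2 : s2 = j12 (AdjoinRoot.root Q.P) := rfl
    rw [h2, Polynomial.aeval_algHom_apply, h1, map_zero]
  have hw2 : w2 * w2 = Q.a • w2 + (Q.b : A) • (1 : S2) := by
    have h1 := rr1q_eval Q j12 w2
    have h2 : (rr1q Q (S := AdjoinRoot Q.P)).eval₂ (j12 : AdjoinRoot Q.P →+* S2) w2 = 0 :=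
      AdjoinRoot.eval₂_root _
    rw [h2] at h1
    exact (sub_eq_zero.1 h1.symm)
  have hz : (AdjoinRoot.root (rr1p Q s2 w2) : S3) ^ (2 * Q.D) +
      ∑ k ∈ Finset.range Q.D, (AdjoinRoot.root (rr1p Q s2 w2)) ^ (2 * k) *
        aeval (j23 s2) (gp Q k) =
      ((Q.b⁻¹ : Aˣ) : A) • ((Q.a • (j23 s2) - Q.g • (AdjoinRoot.root (rr1p Q s2 w2))) *
        ∑ j ∈ Finset.range Q.D, (AdjoinRoot.root (rr1p Q s2 w2)) ^ (2 * j) *
          aeval (j23 s2) (dp Q j)) * j23 w2 := by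
    have h1 := rr1p_eval Q j23 s2 w2 (AdjoinRoot.root (rr1p Q s2 w2))
    have h2 : (rr1p Q s2 w2).eval₂ (j23 : S2 →+* S3) (AdjoinRoot.root (rr1p Q s2 w2)) = 0 :=
      AdjoinRoot.eval₂_root _
    rw [h2] at h1
    exact (sub_eq_zero.1 h1.symm)
  refine ⟨S3, inferInstance, inferInstance, j23 s2, j23 w2, AdjoinRoot.root (rr1p Q s2 w2),
    B3.reindex (((Equiv.prodComm (Fin Q.D) (Fin 2)).prodCongr (Equiv.refl _)).trans
      ((Equiv.prodAssoc _ _ _).trans ((Equiv.refl _).prodCongr (Equiv.prodComm _ _)))),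
    ?_, ⟨?_, ?_, hz⟩, ?_⟩
  · intro x
    rw [Module.Basis.reindex_apply, hB3]
    have e1 : B2 ((((Equiv.prodComm (Fin Q.D) (Fin 2)).prodCongr (Equiv.refl _)).trans
      ((Equiv.prodAssoc _ _ _).trans ((Equiv.refl (Fin 2)).prodCongr
        (Equiv.prodComm (Fin Q.D) (Fin (2 * Q.D)))))).symm x).1 =
        s2 ^ (x.2.2 : ℕ) * w2 ^ (x.1 : ℕ) := by
      rw [hB2, hB1, map_pow]
      rfl
    rw [e1]
    change j23 (s2 ^ (x.2.2 : ℕ) * w2 ^ (x.1 : ℕ)) *
      (AdjoinRoot.root (rr1p Q s2 w2)) ^ (x.2.1 : ℕ) = _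
    rw [map_mul, map_pow, map_pow]
    ring
  · rw [Polynomial.aeval_algHom_apply, hs2, map_zero]
  · have := congrArg j23 hw2
    simpa only [map_mul, map_add, map_smul, map_one] using this
  · intro R' _ _ s' w' z' h
    let f1 : AdjoinRoot Q.P →ₐ[A] R' := AdjoinRoot.liftAlgHom Q.P (Algebra.ofId A R') s' h.pol
    have hf1 : f1 (AdjoinRoot.root Q.P) = s' := AdjoinRoot.liftAlgHom_root _ _ _ _
    let f2 : S2 →ₐ[A] R' := AdjoinRoot.liftAlgHom (rr1q Q (S := AdjoinRoot Q.P)) f1 w' (by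
      rw [rr1q_eval, h.quad, sub_self])
    have hf2w : f2 w2 = w' := AdjoinRoot.liftAlgHom_root _ _ _ _
    have hf2s : f2 s2 = s' := by
      have : f2 s2 = f1 (AdjoinRoot.root Q.P) := AdjoinRoot.liftAlgHom_of _ _ _ _ _
      rw [this, hf1]
    let f3 : S3 →ₐ[A] R' := AdjoinRoot.liftAlgHom (rr1p Q s2 w2) f2 z' (by
      rw [rr1p_eval, hf2s, hf2w, h.phi, sub_self])
    refine ⟨f3, ?_, ?_, AdjoinRoot.liftAlgHom_root _ _ _ _⟩
    · have : f3 (j23 s2) = f2 s2 := AdjoinRoot.liftAlgHom_of _ _ _ _ _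
      rw [this, hf2s]
    · have : f3 (j23 w2) = f2 w2 := AdjoinRoot.liftAlgHom_of _ _ _ _ _
      rw [this, hf2w]

end Pool.Agent.Lib.H10K2
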