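import Pool.Agent.Lib.H10K2.RR2A

/-!
# Chunk RR2 : reformulation of the relation `phi`
-/

namespace Pool.Agent.Lib.H10K2

open Polynomial
open scoped BigOperators

universe u v

variable {A : Type u} [CommRing A] {Q : Par A} {R : Type v} [CommRing R] [Algebra A R]
  {s w z : R}

theorem rr2_iff {si : R} (hsi : s * si = 1) :
    (z ^ (2 * Q.D) + ∑ k ∈ Finset.range Q.D, z ^ (2 * k) * aeval s (gp Q k) =
      ((Q.b⁻¹ : Aˣ) : A) • ((Q.a • s - Q.g • z) *
        ∑ j ∈ Finset.range Q.D, z ^ (2 * j) * aeval s (dp Q j)) * w) ↔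
    (Q.b : A) • aeval (yy Q si z) Q.P =
      dd s (yy Q si z) Q.P * (Q.a • s - Q.g • z) * w := by
  rw [← lemG hsi (Commute.all s z) (Commute.all si z) (Commute.all s si),
    ← lemD hsi (Commute.all s z) (Commute.all si z) (Commute.all s si)]
  have hb : algebraMap A R (Q.b : A) * algebraMap A R ((Q.b⁻¹ : Aˣ) : A) = 1 := by
    rw [← map_mul, Units.mul_inv, map_one]
  have hq : algebraMap A R ((Q.q : A) ^ Q.D) * algebraMap A R (((Q.q⁻¹ : Aˣ) : A) ^ Q.D) = 1 := by
    rw [← map_mul, ← mul_pow, Units.mul_inv, one_pow, map_one]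
  have hs : s ^ Q.D * si ^ Q.D = 1 := by rw [← mul_pow, hsi, one_pow]
  simp only [Algebra.smul_def]
  generalize algebraMap A R (Q.b : A) = b at hb ⊢
  generalize algebraMap A R ((Q.b⁻¹ : Aˣ) : A) = bi at hb ⊢
  generalize algebraMap A R ((Q.q : A) ^ Q.D) = q at hq ⊢
  generalize algebraMap A R (((Q.q⁻¹ : Aˣ) : A) ^ Q.D) = qi at hq
  generalize s ^ Q.D = sD at hs ⊢
  generalize si ^ Q.D = siD at hs
  generalize aeval (yy Q si z) Q.P = p
  generalize dd s (yy Q si z) Q.P = d
  generalize algebraMap A R Q.a * s - algebraMap A R Q.g * z = c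
  constructor
  · intro h
    have e1 : b * p = (qi * siD * b) * (q * (sD * p)) := by
      have : (qi * siD * b) * (q * (sD * p)) = (q * qi) * (sD * siD) * (b * p) := by ring
      rw [this, hq, hs, one_mul, one_mul]
    rw [e1, h]
    have : qi * siD * b * (bi * (c * (q * (sD * d))) * w) =
        (q * qi) * (sD * siD) * (b * bi) * (d * c * w) := by ring
    rw [this, hq, hs, hb, one_mul, one_mul, one_mul]
  · intro h
    have e1 : q * (sD * p) = (q * sD * bi) * (b * p) := by
      have : (q * sD * bi) * (b * p) = (b * bi) * (q * (sD * p)) := by ring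
      rw [this, hb, one_mul]
    rw [e1, h]
    ring

/-- CHUNK RR2.  `phi` in the form `b P(y) = dd P (a s - γ z) w` (divide by the unit `q^D s^D`,
`lemG`, `lemD`). -/
theorem RelR.phi' (h : RelR Q s w z) {si : R} (hsi : s * si = 1) :
    (Q.b : A) • aeval (yy Q si z) Q.P =
      dd s (yy Q si z) Q.P * (Q.a • s - Q.g • z) * w :=
  (rr2_iff hsi).1 h.phi

/-- CHUNK RR2.  Conversely. -/
theorem RelR.of_phi' (h1 : aeval s Q.P = 0) (h2 : w * w = Q.a • w + (Q.b : A) • (1 : R))
    {si : R} (hsi : s * si = 1)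
    (h3 : (Q.b : A) • aeval (yy Q si z) Q.P =
      dd s (yy Q si z) Q.P * (Q.a • s - Q.g • z) * w) : RelR Q s w z :=
  ⟨h1, h2, (rr2_iff hsi).2 h3⟩

/-- CHUNK RR2.  `w P(y) = e0 dd P`.  Multiply `phi'` by `w`, use `w² = a w + b`, `phi'` again and
`(s - y) dd P = - P(y)` (`dd_mul`, `h.pol`): `b w P(y) = a b P(y) + b dd P (a s - γ z)`, so
`w P(y) = a P(y) + dd P (a s - γ z) = dd P (a s - γ z - a (s - y)) = e0 dd P`. -/
theorem RelR.w_mul (h : RelR Q s w z) {si : R} (hsi : s * si = 1) :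
    w * aeval (yy Q si z) Q.P = e0 Q si z * dd s (yy Q si z) Q.P := by
  have h1 := h.phi' hsi
  have h2 := h.quad
  have h3 := dd_mul s (yy Q si z) (Commute.all _ _) Q.P
  rw [h.pol, zero_sub] at h3
  have hb : algebraMap A R (Q.b : A) * algebraMap A R ((Q.b⁻¹ : Aˣ) : A) = 1 := by
    rw [← map_mul, Units.mul_inv, map_one]
  rw [e0]
  simp only [Algebra.smul_def, mul_one] at h1 h2 ⊢
  generalize algebraMap A R (Q.b : A) = b at hb h1 h2
  generalize algebraMap A R ((Q.b⁻¹ : Aˣ) : A) = bi at hb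
  generalize aeval (yy Q si z) Q.P = p at h1 h3 ⊢
  generalize dd s (yy Q si z) Q.P = d at h1 h3 ⊢
  generalize yy Q si z = y at h3 ⊢
  generalize algebraMap A R Q.a = a at h1 h2 ⊢
  generalize algebraMap A R Q.g = g at h1 ⊢
  have h4 : b * (w * p) = b * ((a * y - g * z) * d) := by
    calc b * (w * p) = w * (b * p) := by ring
      _ = d * (a * s - g * z) * (w * w) := by rw [h1]; ring
      _ = a * (d * (a * s - g * z) * w) + b * (d * (a * s - g * z)) := by rw [h2]; ring
      _ = a * (b * p) + b * (d * (a * s - g * z)) := by rw [h1]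
      _ = b * ((a * y - g * z) * d) := by linear_combination (a * b) * h3
  calc w * p = (b * bi) * (w * p) := by rw [hb, one_mul]
    _ = bi * (b * (w * p)) := by ring
    _ = (b * bi) * ((a * y - g * z) * d) := by rw [h4]; ring
    _ = (a * y - g * z) * d := by rw [hb, one_mul]

end Pool.Agent.Lib.H10K2
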