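import Pool.Agent.Lib.H10K2.RR1
import Pool.Agent.Lib.H10K2.C4

/-!
# Chunk RR2A : inverses in a ring with `RelR`
-/

namespace Pool.Agent.Lib.H10K2

open Polynomial
open scoped BigOperators

universe u v

variable {A : Type u} [CommRing A] {Q : Par A} {R : Type v} [CommRing R] [Algebra A R]
  {s w z : R}

/-- CHUNK RR2A.  `s` is invertible (`aeval_np`). -/
theorem RelR.exists_si (h : RelR Q s w z) : ∃ si : R, s * si = 1 :=
  ⟨_, aeval_np h.pol⟩

theorem rr2a_w_unit (h : RelR Q s w z) : IsUnit w := by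
  have h1 : w * (w - Q.a • (1 : R)) = (Q.b : A) • (1 : R) := by
    rw [mul_sub, h.quad, mul_smul_comm, mul_one]
    abel
  have h2 : IsUnit ((Q.b : A) • (1 : R)) := by
    rw [← Algebra.algebraMap_eq_smul_one]
    exact (Units.isUnit Q.b).map (algebraMap A R)
  rw [← h1] at h2
  exact isUnit_of_mul_isUnit_left h2

theorem rr2a_g0 : aeval s (gp Q 0) = ((Q.p0 * Q.q ^ Q.D : Aˣ) : A) • s ^ Q.D := by
  rw [gp, Nat.sub_zero, map_mul, aeval_C, map_pow, aeval_X, Algebra.smul_def, Q.hp0]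
  rfl

theorem rr2a_g0_unit (h : RelR Q s w z) : IsUnit (aeval s (gp Q 0)) := by
  obtain ⟨si, hsi⟩ := h.exists_si
  have hs : IsUnit s := IsUnit.of_mul_eq_one si hsi
  rw [rr2a_g0, Algebra.smul_def]
  exact ((Units.isUnit _).map (algebraMap A R)).mul (hs.pow _)

theorem rr2a_split (z : R) (f : ℕ → R) (m : ℕ) :
    ∑ k ∈ Finset.range (m + 1), z ^ (2 * k) * f k =
      z * (∑ k ∈ Finset.range m, z ^ (2 * k + 1) * f (k + 1)) + f 0 := by
  rw [Finset.sum_range_succ', Finset.mul_sum, Nat.mul_zero, pow_zero, one_mul]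
  congr 1
  refine Finset.sum_congr rfl fun k _ => ?_
  ring

theorem rr2a_key (z G0 D0 S1 S2 Z w s : R) (a g b bi : R) (hb : b * bi = 1)
    (h0 : s * D0 = -G0) (hw : w * w = a * w + b)
    (h : z * Z + (z * S1 + G0) = bi * ((a * s - g * z) * (z * S2 + D0)) * w) :
    z * (bi * (a * s * S2 - g * z * S2 - g * D0) * w - Z - S1) = G0 * bi * (w * w) := by
  have e : z * (bi * (a * s * S2 - g * z * S2 - g * D0) * w - Z - S1) =
      bi * ((a * s - g * z) * (z * S2 + D0)) * w - (z * Z + (z * S1 + G0)) + G0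
        - bi * a * (s * D0) * w := by ring
  rw [e, h, h0, hw]
  linear_combination (-G0) * hb

/-- CHUNK RR2A.  `z` is invertible: in `phi` collect the terms without `z`: with
`g_0(s) = p_0 q^D s^D` (a unit) and `s d_0(s) = - g_0(s)` (`s_mul_dp_zero`) the terms without `z`
are `g_0(s)` on the left and `- (a / b) g_0(s) w` on the right; hence
`z * (..) = g_0(s) (1 + (a / b) w) = g_0(s) b⁻¹ (b + a w) = g_0(s) b⁻¹ w²`, and `w` is a unit
(`w (w - a) = b`).  All other terms are divisible by `z` (`Finset.sum_range_succ'`,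
`D = (D-1) + 1`). -/
theorem RelR.exists_zi (h : RelR Q s w z) : ∃ zi : R, z * zi = 1 := by
  obtain ⟨m, hm⟩ : ∃ m, Q.D = m + 1 := ⟨Q.D - 1, (Nat.succ_pred_eq_of_pos Q.hD).symm⟩
  have h1 := h.phi
  rw [hm] at h1
  rw [rr2a_split, rr2a_split, show 2 * (m + 1) = (2 * m + 1) + 1 by ring, pow_succ'] at h1
  have h2 := h.quad
  simp only [Algebra.smul_def, mul_one] at h1 h2
  have hb : algebraMap A R (Q.b : A) * algebraMap A R ((Q.b⁻¹ : Aˣ) : A) = 1 := by
    rw [← map_mul, Units.mul_inv, map_one]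
  have h3 := rr2a_key z _ _ _ _ _ w s (algebraMap A R Q.a) (algebraMap A R Q.g)
    (algebraMap A R (Q.b : A)) (algebraMap A R ((Q.b⁻¹ : Aˣ) : A)) hb
    (s_mul_dp_zero h.pol) h2 h1
  have h4 : IsUnit (aeval s (gp Q 0) * algebraMap A R ((Q.b⁻¹ : Aˣ) : A) * (w * w)) :=
    ((rr2a_g0_unit h).mul ((Units.isUnit _).map (algebraMap A R))).mul
      ((rr2a_w_unit h).mul (rr2a_w_unit h))
  rw [← h3] at h4
  obtain ⟨c, hc⟩ := (isUnit_of_mul_isUnit_left h4).exists_right_inv
  exact ⟨c, hc⟩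

end Pool.Agent.Lib.H10K2
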