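import Pool.Agent.Lib.H10K2.RR3B

/-!
# Chunk RR3 : the operator `T` on `R`
-/

namespace Pool.Agent.Lib.H10K2

open Polynomial
open scoped BigOperators

universe u v

/-- Divided differences and algebra maps. -/
theorem rr3_dd_map {A : Type u} [CommRing A] {L L' : Type u} [CommRing L] [Algebra A L]
    [CommRing L'] [Algebra A L'] (f : L →ₐ[A] L') (s y : L) (p : A[X]) :
    dd (f s) (f y) p = f (dd s y p) := by
  induction p using Polynomial.induction_on' with
  | add p q hp hq => rw [map_add, map_add, map_add, hp, hq]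
  | monomial n c =>
    rw [dd_monomial, dd_monomial, map_smul, hh, hh, map_sum]
    simp only [map_mul, map_pow]

/-- The ideal `I`. -/
def rr3I {R R2 : Type u} [CommRing R] [CommRing R2] [Algebra R R2] {ω : R2} (ev : R2 →ₐ[R] R)
    (lam : R2 →ₗ[R] R) (y E : R) (h5 : ∀ x, lam (ω * x) = y * lam x - E * ev x)
    (h6 : ∀ x : R2, ∃ m0 m1 : R, x = algebraMap R R2 m0 + algebraMap R R2 m1 * ω) : Ideal R2 where
  carrier := {x | ev x = 0 ∧ lam x = 0}
  add_mem' := by
    rintro a b ⟨ha, ha'⟩ ⟨hb, hb'⟩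
    exact ⟨by rw [map_add, ha, hb, add_zero], by rw [map_add, ha', hb', add_zero]⟩
  zero_mem' := ⟨map_zero _, map_zero _⟩
  smul_mem' := by
    rintro r x ⟨hx, hx'⟩
    obtain ⟨m0, m1, rfl⟩ := h6 r
    refine ⟨by rw [smul_eq_mul, map_mul, hx, mul_zero], ?_⟩
    rw [smul_eq_mul, add_mul, mul_assoc, ← Algebra.smul_def, ← Algebra.smul_def, map_add,
      map_smul, map_smul, hx', h5, hx, hx', smul_zero, mul_zero, mul_zero, sub_zero, smul_zero,
      add_zero]

/-- CHUNK RR3.  The operator.  Write `y = yy Q si z`, `E = e0 Q si z` (in `R`).  Take `R2`, `ω`, `ev`,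
`lam` from `exists_R2 s y w E` (with the algebra structure `A → R → R2`).
`I = {x | ev x = 0 ∧ lam x = 0}` is an ideal of `R2`: for `x ∈ I` and `r = m0 + m1 ω` :
`lam (ω x) = y lam x - E ev x = 0`.  In `R' = R2 / I` the images of `ω`, `w`, `z` satisfy `RelR`:
* `P(ω) ∈ I` : `ev P(ω) = P(s) = 0` and `lam P(ω) = w P(y) - E dd P = 0` (`lam_aeval`,
  `RelR.w_mul`);
* `w² = a w + b` is clear;
* `phi` : by `RelR.of_phi'` (with `si' = ` the inverse of `ω`, `y' = yy Q si' z = s + y - ω`, since
  `ω (s + y - ω) = s y = q⁻¹ z²`) one has to see that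
  `Ψ = b P(s + y - ω) - DD (a ω - γ z) w ∈ I`, where `DD = dd s y P` (`dd_conj`).
  `ev Ψ = b P(y) - DD (a s - γ z) w = 0` is `RelR.phi'` (`ev (s + y - ω) = y`).
  `lam Ψ = 0` : `lam P(s + y - ω) = w P(s) + E DD = E DD` (`lam_aeval_conj`) and
  `lam ((a ω - γ z) w) = (a (w y - E) - γ z w) w = (w E - a E) w = b E` (`a y - γ z = E`,
  `w² - a w = b`).
By the universal property there is `Ξ : R → R2 / I` with `s ↦ ω`, `w ↦ w`, `z ↦ z`;
`T := lam ∘ Ξ` (`lam` factors through `R2 / I`), and `ev (Ξ r) = r` because `ev ∘ Ξ` is an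
`A`-algebra endomorphism of `R` fixing `s`, `w`, `z`, hence all `B x`.  Then `T (s r) =
lam (ω Ξ r) = y T r - E ev (Ξ r) = y T r - E r`; `T (z r) = z T r`, `T (w r) = w T r` since `lam` is
`R`-linear; `T 1 = lam 1 = w`. -/
theorem exists_T {A : Type u} [CommRing A] {Q : Par A} {R : Type u} [CommRing R] [Algebra A R]
    {s w z si : R} (hR : RelR Q s w z) (hsi : s * si = 1)
    (B : Module.Basis (Fin 2 × Fin (2 * Q.D) × Fin Q.D) A R)
    (hB : ∀ x, B x = z ^ (x.2.1 : ℕ) * s ^ (x.2.2 : ℕ) * w ^ (x.1 : ℕ))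
    (hU : ∀ (R' : Type u) [CommRing R'] [Algebra A R'] (s' w' z' : R'), RelR Q s' w' z' →
        ∃ f : R →ₐ[A] R', f s = s' ∧ f w = w' ∧ f z = z') :
    ∃ T : R →ₗ[A] R, (∀ r, T (z * r) = z * T r) ∧ (∀ r, T (w * r) = w * T r) ∧ T 1 = w ∧
      ∀ r, T (s * r) = yy Q si z * T r - e0 Q si z * r := by
  obtain ⟨zi, hzi⟩ := hR.exists_zi
  obtain ⟨R2, _, _, ω, ev, lam, h1, h2, h3, h4, h5, h6⟩ :=
    exists_R2 s (yy Q si z) w (e0 Q si z)
  let _ : Algebra A R2 := Algebra.compHom R2 (algebraMap A R)
  have : IsScalarTower A R R2 := IsScalarTower.of_algebraMap_eq (fun _ => rfl)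
  let evA : R2 →ₐ[A] R := ev.restrictScalars A
  let ι : R →ₐ[A] R2 := IsScalarTower.toAlgHom A R R2
  have hevι : ∀ r : R, ev (ι r) = r := fun r => ev.commutes r
  have hlamι : ∀ (r : R) (x : R2), lam (ι r * x) = r * lam x := by
    intro r x
    have : ι r * x = r • x := (Algebra.smul_def r x).symm
    rw [this, map_smul, smul_eq_mul]
  let I : Ideal R2 := rr3I ev lam (yy Q si z) (e0 Q si z) h5 h6
  have hI : ∀ x, x ∈ I ↔ ev x = 0 ∧ lam x = 0 := fun _ => Iff.rfl
  let π : R2 →ₐ[A] R2 ⧸ I := Ideal.Quotient.mkₐ A I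
  have hπ : ∀ x x' : R2, π x = π x' ↔ x - x' ∈ I := fun x x' => Ideal.Quotient.eq
  have hπ0 : ∀ x : R2, x ∈ I → π x = 0 := fun x hx => Ideal.Quotient.eq_zero_iff_mem.2 hx
  have hπs : Function.Surjective π := Ideal.Quotient.mk_surjective
  have hsy : s * yy Q si z = ((Q.q⁻¹ : Aˣ) : A) • (z * z) := by
    rw [yy, mul_smul_comm, mul_comm (z * z), ← mul_assoc, hsi, one_mul]
  have hE : e0 Q si z = Q.a • yy Q si z - Q.g • z := rfl
  have hphi := hR.phi' hsi
  have hw := hR.w_mul hsi
  have hquad := hR.quad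
  set y : R := yy Q si z with hy
  set E : R := e0 Q si z with hEdef
  set ω' : R2 := algebraMap R R2 (s + y) - ω with hω'
  have hevω' : ev ω' = y := by
    have : ev (algebraMap R R2 (s + y)) = s + y := hevι _
    rw [hω', map_sub, this, h2]
    ring
  -- the relations in the quotient
  have hrel : RelR Q (π ω) (π (ι w)) (π (ι z)) := by
    have hsi' : π ω * π (ω' * ι ((Q.q : A) • (zi * zi))) = 1 := by
      rw [← map_mul, ← mul_assoc, h1, hsy]
      have : ((Q.q⁻¹ : Aˣ) : A) • (z * z) * ((Q.q : A) • (zi * zi)) = 1 := by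
        rw [smul_mul_smul_comm, Units.inv_mul, one_smul]
        calc z * z * (zi * zi) = (z * zi) * (z * zi) := by ring
          _ = 1 := by rw [hzi, one_mul]
      have h9 : algebraMap R R2 (((Q.q⁻¹ : Aˣ) : A) • (z * z)) * ι ((Q.q : A) • (zi * zi)) = 1 := by
        change ι (((Q.q⁻¹ : Aˣ) : A) • (z * z)) * ι ((Q.q : A) • (zi * zi)) = 1
        rw [← map_mul, this, map_one]
      rw [h9, map_one]
    have hyy : yy Q (π (ω' * ι ((Q.q : A) • (zi * zi)))) (π (ι z)) = π ω' := by
      rw [yy, ← map_mul, ← map_mul, ← map_smul]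
      congr 1
      have : ι z * ι z * (ω' * ι ((Q.q : A) • (zi * zi))) =
          ω' * ι (z * z * ((Q.q : A) • (zi * zi))) := by
        rw [map_mul, map_mul]; ring
      rw [this, ← mul_smul_comm, ← map_smul, mul_smul_comm, smul_smul, Units.inv_mul, one_smul]
      have : z * z * (zi * zi) = 1 := by
        calc z * z * (zi * zi) = (z * zi) * (z * zi) := by ring
          _ = 1 := by rw [hzi, one_mul]
      rw [this, map_one, mul_one]
    refine RelR.of_phi' (Q := Q) ?_ ?_ hsi' ?_
    · rw [Polynomial.aeval_algHom_apply]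
      refine hπ0 _ ((hI _).2 ⟨?_, ?_⟩)
      · change evA (aeval ω Q.P) = 0
        rw [← Polynomial.aeval_algHom_apply]
        change aeval (ev ω) Q.P = 0
        rw [h2, hR.pol]
      · rw [lam_aeval h2 h3 h5, hw, sub_self]
    · have := congrArg (fun r => π (ι r)) hquad
      simpa only [map_mul, map_add, map_smul, map_one] using this
    · have key : (Q.b : A) • π (aeval ω' Q.P) -
          π (algebraMap R R2 (dd s y Q.P)) * (Q.a • π ω - Q.g • π (ι z)) * π (ι w) =
          π ((Q.b : A) • aeval ω' Q.P - ι (dd s y Q.P) * (Q.a • ω - Q.g • ι z) * ι w) := by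
        simp only [map_sub, map_mul, map_smul π]
        rfl
      rw [hyy, Polynomial.aeval_algHom_apply, rr3_dd_map π ω ω' Q.P, dd_conj s y ω h1,
        ← sub_eq_zero, key]
      refine hπ0 _ ((hI _).2 ?_)
      constructor
      · rw [map_sub]
        have e1 : ev ((Q.b : A) • aeval ω' Q.P) = (Q.b : A) • aeval y Q.P := by
          change evA ((Q.b : A) • aeval ω' Q.P) = _
          rw [map_smul, ← Polynomial.aeval_algHom_apply]
          change (Q.b : A) • aeval (ev ω') Q.P = _
          rw [hevω']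
        have e2 : ev (ι (dd s y Q.P) * (Q.a • ω - Q.g • ι z) * ι w) =
            dd s y Q.P * (Q.a • s - Q.g • z) * w := by
          rw [map_mul, map_mul, hevι, hevι, map_sub]
          have e3 : ev (Q.a • ω) = Q.a • s := by
            change evA (Q.a • ω) = _
            rw [map_smul]
            change Q.a • ev ω = _
            rw [h2]
          have e4 : ev (Q.g • ι z) = Q.g • z := by
            rw [← map_smul, hevι]
          rw [e3, e4]
        rw [e1, e2, hphi, sub_self]
      · rw [map_sub]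
        have e1 : lam ((Q.b : A) • aeval ω' Q.P) = (Q.b : A) • (E * dd s y Q.P) := by
          have : (Q.b : A) • aeval ω' Q.P = ι (algebraMap A R (Q.b : A)) * aeval ω' Q.P := by
            rw [AlgHom.commutes, Algebra.smul_def]
          rw [this, hlamι, hω', lam_aeval_conj h1 h2 h3 h4 h5, hR.pol, mul_zero, zero_add,
            Algebra.smul_def]
        have e2 : lam (ι (dd s y Q.P) * (Q.a • ω - Q.g • ι z) * ι w) =
            dd s y Q.P * (w * (Q.a • (w * y - E) - Q.g • z * w)) := by
          have e3 : ι (dd s y Q.P) * (Q.a • ω - Q.g • ι z) * ι w =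
              ι (dd s y Q.P) * (ι w * (ι (algebraMap A R Q.a) * ω - ι (Q.g • z) * 1)) := by
            rw [AlgHom.commutes, map_smul, Algebra.smul_def Q.a ω]
            ring
          rw [e3, hlamι, hlamι, map_sub, hlamι, hlamι, h4, h3, Algebra.smul_def Q.a (w * y - E)]
        rw [e1, e2]
        have hq' : w * w = Q.a • w + (Q.b : A) • (1 : R) := hquad
        simp only [Algebra.smul_def, mul_one] at hq' hE ⊢
        have e5 : algebraMap A R Q.g * z = algebraMap A R Q.a * y - E := by
          rw [hE]; ring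
        rw [e5]
        linear_combination (-(dd s y Q.P * E)) * hq'
  obtain ⟨Ξ, hΞs, hΞw, hΞz⟩ := hU (R2 ⧸ I) (π ω) (π (ι w)) (π (ι z)) hrel
  choose g hg using fun r => hπs (Ξ r)
  have hlam : ∀ {x x' : R2}, π x = π x' → lam x = lam x' := by
    intro x x' h
    have := ((hI _).1 ((hπ x x').1 h)).2
    rwa [map_sub, sub_eq_zero] at this
  have hev : ∀ {x x' : R2}, π x = π x' → ev x = ev x' := by
    intro x x' h
    have := ((hI _).1 ((hπ x x').1 h)).1
    rwa [map_sub, sub_eq_zero] at this
  have hsmulA : ∀ (c : A) (x : R2), c • x = ι (algebraMap A R c) * x := by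
    intro c x
    rw [AlgHom.commutes, Algebra.smul_def]
  let ρ : R →ₗ[A] R :=
    { toFun := fun r => ev (g r)
      map_add' := fun r r' => by
        rw [← map_add]
        apply hev
        rw [map_add, hg, hg, hg, map_add]
      map_smul' := fun c r => by
        have : π (g (c • r)) = π (c • g r) := by
          rw [hg, map_smul, map_smul, hg]
        rw [hev this, hsmulA, map_mul, hevι, RingHom.id_apply, Algebra.smul_def] }
  have hρ : ρ = LinearMap.id := by
    refine B.ext fun x => ?_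
    change ev (g (B x)) = B x
    have : π (g (B x)) = π (ι z ^ (x.2.1 : ℕ) * ω ^ (x.2.2 : ℕ) * ι w ^ (x.1 : ℕ)) := by
      rw [hg, hB]
      simp only [map_mul, map_pow, hΞs, hΞw, hΞz]
    rw [hev this, hB]
    simp only [map_mul, map_pow, hevι, h2]
  have hρ' : ∀ r, ev (g r) = r := fun r => LinearMap.congr_fun hρ r
  refine ⟨
    { toFun := fun r => lam (g r)
      map_add' := fun r r' => by
        rw [← map_add]
        apply hlam
        rw [map_add, hg, hg, hg, map_add]
      map_smul' := fun c r => by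
        have : π (g (c • r)) = π (c • g r) := by
          rw [hg, map_smul, map_smul, hg]
        rw [hlam this, hsmulA, hlamι, RingHom.id_apply, Algebra.smul_def] }, ?_, ?_, ?_, ?_⟩
  · intro r
    change lam (g (z * r)) = z * lam (g r)
    rw [← hlamι]
    apply hlam
    rw [map_mul, hg, hg, map_mul, hΞz]
  · intro r
    change lam (g (w * r)) = w * lam (g r)
    rw [← hlamι]
    apply hlam
    rw [map_mul, hg, hg, map_mul, hΞw]
  · change lam (g 1) = w
    rw [← h3]
    apply hlam
    rw [hg, map_one, map_one]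
  · intro r
    change lam (g (s * r)) = y * lam (g r) - E * r
    have : π (g (s * r)) = π (ω * g r) := by
      rw [map_mul, hg, hg, map_mul, hΞs]
    rw [hlam this, h5, hρ']

end Pool.Agent.Lib.H10K2
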