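import Pool.Agent.Lib.H10K2.RR2

/-!
# Chunk RR3A : the ring `R2`
-/

namespace Pool.Agent.Lib.H10K2

open Polynomial
open scoped BigOperators

universe u v

/-- The map `re + im ω ↦ re * w + im * (w y - E)`. -/
noncomputable def rr3a_lam {R : Type u} [CommRing R] (a b w c : R) :
    QuadraticAlgebra R a b →ₗ[R] R where
  toFun x := x.re * w + x.im * c
  map_add' x y := by
    rw [QuadraticAlgebra.re_add, QuadraticAlgebra.im_add]
    ring
  map_smul' r x := by
    rw [QuadraticAlgebra.re_smul, QuadraticAlgebra.im_smul, smul_eq_mul, smul_eq_mul,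
      smul_eq_mul, RingHom.id_apply]
    ring

theorem rr3a_lam_apply {R : Type u} [CommRing R] (a b w c : R) (x : QuadraticAlgebra R a b) :
    rr3a_lam a b w c x = x.re * w + x.im * c := rfl

/-- CHUNK RR3A.  `R2 = R[ω] / (ω² - (s + y) ω + s y)` : take `QuadraticAlgebra R (-(s * y)) (s + y)`
(`ω * ω = -(s y) + (s + y) ω`) or `AdjoinRoot`; `ev` is the ring map `ω ↦ s`, `lam` the `R`-linear
map with `lam 1 = w`, `lam ω = w y - E`.  The last-but-one property: both sides are `R`-linear in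
`x`; check `x = 1` and `x = ω`. -/
theorem exists_R2 {R : Type u} [CommRing R] (s y w E : R) :
    ∃ (R2 : Type u) (_ : CommRing R2) (_ : Algebra R R2) (ω : R2) (ev : R2 →ₐ[R] R)
      (lam : R2 →ₗ[R] R),
      ω * (algebraMap R R2 (s + y) - ω) = algebraMap R R2 (s * y) ∧ ev ω = s ∧ lam 1 = w ∧
      lam ω = w * y - E ∧ (∀ x, lam (ω * x) = y * lam x - E * ev x) ∧
      ∀ x, ∃ m0 m1 : R, x = algebraMap R R2 m0 + algebraMap R R2 m1 * ω := by
  have hs : s * s = (-(s * y)) • (1 : R) + (s + y) • s := by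
    rw [smul_eq_mul, smul_eq_mul]
    ring
  have hev : ∀ x : QuadraticAlgebra R (-(s * y)) (s + y),
      QuadraticAlgebra.lift ⟨s, hs⟩ x = x.re + x.im * s := by
    intro x
    rw [QuadraticAlgebra.lift_apply_apply, smul_eq_mul, smul_eq_mul, mul_one]
  refine ⟨QuadraticAlgebra R (-(s * y)) (s + y), inferInstance, inferInstance,
    QuadraticAlgebra.omega, QuadraticAlgebra.lift ⟨s, hs⟩,
    rr3a_lam _ _ w (w * y - E), ?_, ?_, ?_, ?_, ?_, ?_⟩
  · apply QuadraticAlgebra.ext
    · change (0 : R) * ((s + y) - 0) + (-(s * y)) * 1 * (0 - 1) = s * y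
      ring
    · change (0 : R) * (0 - 1) + 1 * ((s + y) - 0) + (s + y) * 1 * (0 - 1) = 0
      ring
  · rw [hev]
    change (0 : R) + 1 * s = s
    ring
  · change (1 : R) * w + 0 * (w * y - E) = w
    ring
  · change (0 : R) * w + 1 * (w * y - E) = w * y - E
    ring
  · intro x
    rw [hev]
    change ((0 : R) * x.re + (-(s * y)) * 1 * x.im) * w +
      (0 * x.im + 1 * x.re + (s + y) * 1 * x.im) * (w * y - E) =
      y * (x.re * w + x.im * (w * y - E)) - E * (x.re + x.im * s)
    ring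
  · intro x
    refine ⟨x.re, x.im, ?_⟩
    apply QuadraticAlgebra.ext
    · change x.re = x.re + (x.im * 0 + (-(s * y)) * 0 * 1)
      ring
    · change x.im = 0 + (x.im * 1 + 0 * 0 + (s + y) * 0 * 1)
      ring

end Pool.Agent.Lib.H10K2
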