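import Pool.Agent.Lib.H10K2.RR3A

/-!
# Chunk RR3B : the form `lam` on polynomials
-/

namespace Pool.Agent.Lib.H10K2

open Polynomial
open scoped BigOperators

universe u v

variable {A : Type u} [CommRing A] {R : Type u} [CommRing R] [Algebra A R] {R2 : Type u}
  [CommRing R2] [Algebra R R2] [Algebra A R2] [IsScalarTower A R R2]

theorem rr3b_hh_zero {L : Type v} [Ring L] (s y : L) : hh s y 0 = 0 := by
  simp [hh]

theorem rr3b_hh_one {L : Type v} [Ring L] (s y : L) : hh s y 1 = 1 := by
  simp [hh]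

theorem rr3b_hh_rec {L : Type v} [CommRing L] (x y : L) (n : ℕ) :
    hh x y (n + 2) = (x + y) * hh x y (n + 1) - x * y * hh x y n := by
  have h1 := hh_succ x y (n + 1)
  have h2 := hh_succ x y n
  rw [h1]
  have h3 : y ^ n = hh x y (n + 1) - x * hh x y n := by
    rw [h2]; ring
  rw [pow_succ, h3]
  ring

theorem rr3b_smul (c : A) (r : R) : algebraMap R R2 (c • r) = c • algebraMap R R2 r := by
  rw [Algebra.smul_def, map_mul, ← IsScalarTower.algebraMap_apply A R R2, ← Algebra.smul_def]

theorem rr3b_hh (s y : R) (ω : R2)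
    (h : ω * (algebraMap R R2 (s + y) - ω) = algebraMap R R2 (s * y)) (n : ℕ) :
    hh ω (algebraMap R R2 (s + y) - ω) n = algebraMap R R2 (hh s y n) ∧
      hh ω (algebraMap R R2 (s + y) - ω) (n + 1) = algebraMap R R2 (hh s y (n + 1)) := by
  induction n with
  | zero =>
    refine ⟨?_, ?_⟩
    · rw [rr3b_hh_zero, rr3b_hh_zero, map_zero]
    · rw [zero_add, rr3b_hh_one, rr3b_hh_one, map_one]
  | succ n ih =>
    refine ⟨ih.2, ?_⟩
    rw [rr3b_hh_rec, rr3b_hh_rec, ih.1, ih.2, h]
    have e : ω + ((algebraMap R R2) (s + y) - ω) = (algebraMap R R2) (s + y) := by ring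
    rw [e, ← map_mul, ← map_mul, ← map_sub]

/-- CHUNK RR3B.  `hh` is a function of the sum and the product: if `x + x' = c`, `x x' = e` (in a
commutative ring) then `hh x x' (n+2) = c hh x x' (n+1) - e hh x x' n`, `hh 0 = 0`, `hh 1 = 1`
(`hh_succ`, `hh_succ'`); two-step induction, then linearity (`dd_monomial`). -/
theorem dd_conj (s y : R) (ω : R2) (h : ω * (algebraMap R R2 (s + y) - ω) = algebraMap R R2 (s * y))
    (f : A[X]) : dd ω (algebraMap R R2 (s + y) - ω) f = algebraMap R R2 (dd s y f) := by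
  induction f using Polynomial.induction_on' with
  | add p q hp hq =>
    rw [LinearMap.map_add, LinearMap.map_add, hp, hq, RingHom.map_add]
  | monomial n c => rw [dd_monomial, dd_monomial, rr3b_smul, (rr3b_hh s y ω h n).1]

variable {s y w E : R} {ω : R2} {ev : R2 →ₐ[R] R} {lam : R2 →ₗ[R] R}

/-- CHUNK RR3B.  Induction on `f` (linear; `f = X^n`, step `lam (ω * ω^n) = y lam (ω^n) -
E ev (ω^n)`, `ev (ω^n) = s^n`, and `hh_succ'`). -/
theorem lam_aeval (h2 : ev ω = s) (h3 : lam 1 = w)
    (h5 : ∀ x, lam (ω * x) = y * lam x - E * ev x) (f : A[X]) :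
    lam (aeval ω f) = w * aeval y f - E * dd s y f := by
  have hpow : ∀ n : ℕ, lam (ω ^ n) = w * y ^ n - E * hh s y n := by
    intro n
    induction n with
    | zero => rw [pow_zero, h3, rr3b_hh_zero]; ring
    | succ n ih =>
      rw [pow_succ', h5, ih, map_pow, h2, hh_succ']
      ring
  induction f using Polynomial.induction_on' with
  | add p q hp hq =>
    rw [map_add, map_add, hp, hq, map_add, map_add]
    ring
  | monomial n c =>
    have h1 : aeval ω (monomial n c) = (algebraMap A R c) • ω ^ n := by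
      rw [aeval_monomial, Algebra.smul_def, ← IsScalarTower.algebraMap_apply A R R2]
    rw [h1, map_smul, hpow, aeval_monomial, dd_monomial, smul_eq_mul, Algebra.smul_def]
    ring

/-- CHUNK RR3B.  With `ω' = s + y - ω` and `DD = dd s y f` (in `R`): `f(ω) - f(ω') = (ω - ω') DD`
(`dd_mul`, `dd_conj`), so `f(ω') = f(ω) - (2 ω - (s + y)) DD` and
`lam f(ω') = w f(y) - E DD - (2 (w y - E) - (s + y) w) DD = w (f(y) + (s - y) DD) + E DD`, and
`(s - y) DD = f(s) - f(y)`. -/
theorem lam_aeval_conj (h1 : ω * (algebraMap R R2 (s + y) - ω) = algebraMap R R2 (s * y))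
    (h2 : ev ω = s) (h3 : lam 1 = w) (h4 : lam ω = w * y - E)
    (h5 : ∀ x, lam (ω * x) = y * lam x - E * ev x) (f : A[X]) :
    lam (aeval (algebraMap R R2 (s + y) - ω) f) = w * aeval s f + E * dd s y f := by
  have e1 := dd_mul ω (algebraMap R R2 (s + y) - ω) (Commute.all _ _) f
  rw [dd_conj s y ω h1 f] at e1
  have e2 := dd_mul s y (Commute.all _ _) f
  have e3 : aeval (algebraMap R R2 (s + y) - ω) f = aeval ω f -
      (dd s y f) • ((2 : R) • ω - (s + y) • (1 : R2)) := by
    have : aeval (algebraMap R R2 (s + y) - ω) f = aeval ω f -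
      (ω - (algebraMap R R2 (s + y) - ω)) * algebraMap R R2 (dd s y f) := by
      rw [e1]; ring
    rw [this, Algebra.smul_def, Algebra.smul_def, Algebra.smul_def, mul_one, map_ofNat]
    ring
  rw [e3, map_sub, lam_aeval h2 h3 h5 f, map_smul, map_sub, map_smul, map_smul, h3, h4]
  simp only [smul_eq_mul]
  have e4 : aeval s f = (s - y) * dd s y f + aeval y f := by
    rw [e2]; ring
  rw [e4]
  ring

end Pool.Agent.Lib.H10K2
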