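import Pool.Agent.Lib.H10K2.RR4A

/-!
# Chunk RR4 : linear independence of the words `z^k s^i t^a`
-/

namespace Pool.Agent.Lib.H10K2

open Polynomial
open scoped BigOperators

universe u v

/-- CHUNK RR4.  Use `exists_R`, `RelR.exists_si`, `RelR.exists_zi`, `exists_T`, `T_quad`: the
operators `LinearMap.mulLeft A s`, `mulLeft A si`, `T`, `mulLeft A z`, `mulLeft A zi` of
`Module.End A R` satisfy `IsW`; by `IsW.toH` and `lift` there is an algebra map
`ρ : K Q →ₐ[A] Module.End A R` with `ks ↦ mulLeft s`, `kt ↦ T`, and `kz ↦ mulLeft z` (from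
`s * t * u = z`).  The linear map `x ↦ ρ x 1` sends `kw Q x` to `B x` (`T 1 = w`), so the `kw Q x`
are linearly independent (`LinearIndependent.of_comp`). -/
theorem kw_linearIndependent {A : Type u} [CommRing A] [Nontrivial A] (Q : Par A) :
    LinearIndependent A (kw Q) := by
  obtain ⟨R, _, _, s, w, z, B, hB, hR, hU⟩ := exists_R Q
  obtain ⟨si, hsi⟩ := hR.exists_si
  obtain ⟨zi, hzi⟩ := hR.exists_zi
  obtain ⟨T, h1, h2, h3, h4⟩ := exists_T hR hsi B hB hU
  have hq := T_quad hR hsi hzi B hB T h1 h2 h3 h4
  have hpol : ∀ f : A[X], aeval (LinearMap.mulLeft A s) f = LinearMap.mulLeft A (aeval s f) := by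
    intro f
    have : LinearMap.mulLeft A s = Algebra.lmul A R s := rfl
    rw [this, Polynomial.aeval_algHom_apply]
    rfl
  have hW : IsW Q (LinearMap.mulLeft A s : Module.End A R) (LinearMap.mulLeft A si) T
      (LinearMap.mulLeft A z) (LinearMap.mulLeft A zi) := by
    refine ⟨?_, ?_, ?_, ?_, ?_, ?_, ?_, ?_, ?_⟩
    · ext r
      simp only [Module.End.mul_apply, LinearMap.mulLeft_apply, Module.End.one_apply]
      rw [← mul_assoc, hsi, one_mul]
    · ext r
      simp only [Module.End.mul_apply, LinearMap.mulLeft_apply, Module.End.one_apply]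
      rw [← mul_assoc, mul_comm si s, hsi, one_mul]
    · ext r
      simp only [Module.End.mul_apply, LinearMap.mulLeft_apply, Module.End.one_apply]
      rw [← mul_assoc, hzi, one_mul]
    · ext r
      simp only [Module.End.mul_apply, LinearMap.mulLeft_apply, Module.End.one_apply]
      rw [← mul_assoc, mul_comm zi z, hzi, one_mul]
    · ext r
      simp only [Module.End.mul_apply, LinearMap.mulLeft_apply]
      ring
    · ext r
      simp only [Module.End.mul_apply, LinearMap.mulLeft_apply]
      exact h1 r
    · rw [hpol, hR.pol]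
      ext r
      simp
    · ext r
      simp only [Module.End.mul_apply, LinearMap.add_apply, LinearMap.smul_apply, Module.End.one_apply]
      exact hq r
    · ext r
      simp only [Module.End.mul_apply, LinearMap.mulLeft_apply, LinearMap.add_apply, LinearMap.smul_apply,
        LinearMap.sub_apply, Module.End.one_apply]
      rw [h4 r, e0, yy]
      simp only [Algebra.smul_def]
      ring
  obtain ⟨u, hH, hu⟩ := hW.toH
  let ρ : K Q →ₐ[A] Module.End A R := lift hH
  have r1 : ρ (ks Q) = LinearMap.mulLeft A s := lift_ks hH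
  have r2 : ρ (kt Q) = T := lift_kt hH
  have r3 : ρ (kz Q) = LinearMap.mulLeft A z := by
    rw [kz, map_mul, map_mul, r1, r2]
    have : ρ (ku Q) = u := lift_ku hH
    rw [this, hu]
  have hpow : ∀ (x : R) (n : ℕ), (LinearMap.mulLeft A x) ^ n = LinearMap.mulLeft A (x ^ n) := by
    intro x n
    rw [LinearMap.pow_mulLeft]
  let L : K Q →ₗ[A] R := (LinearMap.applyₗ (1 : R)).comp ρ.toLinearMap
  have hL : ∀ x, L (kw Q x) = B x := by
    intro x
    have : L (kw Q x) = ρ (kw Q x) 1 := rfl
    rw [this, kw, map_mul, map_mul, map_pow, map_pow, map_pow, r1, r2, r3, hpow, hpow, hB]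
    simp only [Module.End.mul_apply, LinearMap.mulLeft_apply]
    have hT : (T ^ (x.1 : ℕ)) 1 = w ^ (x.1 : ℕ) := by
      obtain ⟨a, b⟩ := x
      fin_cases a
      · simp
      · simpa using h3
    rw [hT]
    ring
  have hli : LinearIndependent A (fun x => L (kw Q x)) := by
    have : (fun x => L (kw Q x)) = B := funext hL
    rw [this]
    exact B.linearIndependent
  exact LinearIndependent.of_comp L hli

end Pool.Agent.Lib.H10K2
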