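import Pool.Agent.Lib.H10K2.RR3

/-!
# Chunk RR4A : the operator `T` is a root of `X² - a X - b`
-/

namespace Pool.Agent.Lib.H10K2

open Polynomial
open scoped BigOperators

universe u v

section

variable {A : Type u} [CommRing A] (Q : Par A)

/-- The central element `z = s t u`. -/
noncomputable def kz : K Q := ks Q * kt Q * ku Q

/-- The inverse of `s`. -/
noncomputable def ksi : K Q := Classical.choose (isH_K Q).toW

/-- The inverse of `z`. -/
noncomputable def kzi : K Q := Classical.choose (Classical.choose_spec (isH_K Q).toW)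

theorem isW_K : IsW Q (ks Q) (ksi Q) (kt Q) (kz Q) (kzi Q) :=
  Classical.choose_spec (Classical.choose_spec (isH_K Q).toW)

/-- The words `z^k s^i t^a`; the index is `(a, k, i)`. -/
noncomputable def kw (x : Fin 2 × Fin (2 * Q.D) × Fin Q.D) : K Q :=
  kz Q ^ (x.2.1 : ℕ) * ks Q ^ (x.2.2 : ℕ) * kt Q ^ (x.1 : ℕ)

end

theorem rr4a_yT {A : Type u} [CommRing A] {Q : Par A} {R : Type u} [CommRing R] [Algebra A R]
    {s z si zi : R} (hsi : s * si = 1) (hzi : z * zi = 1)
    (T : R →ₗ[A] R) (h1 : ∀ r, T (z * r) = z * T r)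
    (h4 : ∀ r, T (s * r) = yy Q si z * T r - e0 Q si z * r) (r : R) :
    T (yy Q si z * r) = s * T r + e0 Q si z * r := by
  have hy : s * yy Q si z = ((Q.q⁻¹ : Aˣ) : A) • (z * z) := by
    rw [yy, mul_smul_comm, mul_comm (z * z) si, ← mul_assoc, hsi, one_mul]
  have hyu : yy Q si z * ((Q.q : A) • (s * zi * zi)) = 1 := by
    rw [yy, smul_mul_smul_comm, Units.inv_mul, one_smul]
    have : z * z * si * (s * zi * zi) = (s * si) * (z * zi) * (z * zi) := by ring
    rw [this, hsi, hzi, one_mul, one_mul]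
  have h5 : T (s * (yy Q si z * r)) = s * yy Q si z * T r := by
    rw [← mul_assoc, hy, smul_mul_assoc, map_smul, mul_assoc, h1, h1, smul_mul_assoc, mul_assoc]
  have h6 := h4 (yy Q si z * r)
  rw [h5] at h6
  have h7 : yy Q si z * T (yy Q si z * r) = yy Q si z * (s * T r + e0 Q si z * r) := by
    linear_combination -h6
  calc T (yy Q si z * r) = (yy Q si z * ((Q.q : A) • (s * zi * zi))) * T (yy Q si z * r) := by
        rw [hyu, one_mul]
    _ = ((Q.q : A) • (s * zi * zi)) * (yy Q si z * T (yy Q si z * r)) := by ring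
    _ = (yy Q si z * ((Q.q : A) • (s * zi * zi))) * (s * T r + e0 Q si z * r) := by
        rw [h7]; ring
    _ = s * T r + e0 Q si z * r := by rw [hyu, one_mul]

/-- The defect of the quadratic relation. -/
noncomputable def rr4a_X {A : Type u} [CommRing A] (Q : Par A) {R : Type u} [CommRing R]
    [Algebra A R] (T : R →ₗ[A] R) : R →ₗ[A] R :=
  T ∘ₗ T - Q.a • T - (Q.b : A) • LinearMap.id

theorem rr4a_X_apply {A : Type u} [CommRing A] (Q : Par A) {R : Type u} [CommRing R]
    [Algebra A R] (T : R →ₗ[A] R) (r : R) :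
    rr4a_X Q T r = T (T r) - Q.a • T r - (Q.b : A) • r := rfl

theorem rr4a_X_comm {A : Type u} [CommRing A] {Q : Par A} {R : Type u} [CommRing R]
    [Algebra A R] (T : R →ₗ[A] R) {c : R} (h : ∀ r, T (c * r) = c * T r) (r : R) :
    rr4a_X Q T (c * r) = c * rr4a_X Q T r := by
  rw [rr4a_X_apply, rr4a_X_apply, h, h, mul_sub, mul_sub, mul_smul_comm, mul_smul_comm]

theorem rr4a_X_s {A : Type u} [CommRing A] {Q : Par A} {R : Type u} [CommRing R] [Algebra A R]
    {s z si zi : R} (hsi : s * si = 1) (hzi : z * zi = 1)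
    (T : R →ₗ[A] R) (h1 : ∀ r, T (z * r) = z * T r)
    (h4 : ∀ r, T (s * r) = yy Q si z * T r - e0 Q si z * r) (r : R) :
    rr4a_X Q T (s * r) = s * rr4a_X Q T r := by
  have hY := rr4a_yT hsi hzi T h1 h4
  have hE : T (e0 Q si z * r) = Q.a • (s * T r + e0 Q si z * r) - Q.g • (z * T r) := by
    conv_lhs => rw [e0, sub_mul, smul_mul_assoc, smul_mul_assoc, map_sub, map_smul, map_smul,
      hY, h1]
  rw [rr4a_X_apply, rr4a_X_apply, h4, map_sub, hE, hY]
  have he : e0 Q si z = Q.a • yy Q si z - Q.g • z := rfl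
  simp only [Algebra.smul_def] at he ⊢
  linear_combination (T r) * he

theorem rr4a_X_pow {A : Type u} [CommRing A] {Q : Par A} {R : Type u} [CommRing R]
    [Algebra A R] (T : R →ₗ[A] R) {c : R} (h : ∀ r, rr4a_X Q T (c * r) = c * rr4a_X Q T r)
    (n : ℕ) (r : R) : rr4a_X Q T (c ^ n * r) = c ^ n * rr4a_X Q T r := by
  induction n with
  | zero => rw [pow_zero, one_mul, one_mul]
  | succ n ih => rw [pow_succ', mul_assoc, h, ih, mul_assoc]

/-- CHUNK RR4A.  `T² = a T + b`.  Put `X r = T (T r) - a T r - b r`.  First `T (y r) = s T r + E r`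
(apply the rule for `T (s * _)` to `y r`: `T (s y r) = y T (y r) - E y r` and
`s y = q⁻¹ z²`, so `T (s y r) = s y T r`; cancel the unit `y`).  Then `T (E r) = a s T r + a E r -
γ z T r`, and `X (s r) = s X r`, `X (z r) = z X r`, `X (w r) = w X r` by direct computation
(`E - a s + γ z = a (y - s)`).  So `X (B x) = B x * X 1`, and `X 1 = T w - a w - b =
w² - a w - b = 0`. -/
theorem T_quad {A : Type u} [CommRing A] {Q : Par A} {R : Type u} [CommRing R] [Algebra A R]
    {s w z si zi : R} (hR : RelR Q s w z) (hsi : s * si = 1) (hzi : z * zi = 1)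
    (B : Module.Basis (Fin 2 × Fin (2 * Q.D) × Fin Q.D) A R)
    (hB : ∀ x, B x = z ^ (x.2.1 : ℕ) * s ^ (x.2.2 : ℕ) * w ^ (x.1 : ℕ))
    (T : R →ₗ[A] R) (h1 : ∀ r, T (z * r) = z * T r) (h2 : ∀ r, T (w * r) = w * T r)
    (h3 : T 1 = w) (h4 : ∀ r, T (s * r) = yy Q si z * T r - e0 Q si z * r) (r : R) :
    T (T r) = Q.a • T r + (Q.b : A) • r := by
  have hX1 : rr4a_X Q T 1 = 0 := by
    have h5 : T w = w * w := by
      have := h2 1
      rwa [mul_one, h3] at this
    rw [rr4a_X_apply, h3, h5, hR.quad]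
    abel
  have hX : rr4a_X Q T = 0 := by
    refine B.ext fun x => ?_
    rw [hB, LinearMap.zero_apply, mul_assoc, rr4a_X_pow T (rr4a_X_comm T h1),
      rr4a_X_pow T (rr4a_X_s hsi hzi T h1 h4), ← mul_one (w ^ (x.1 : ℕ)),
      rr4a_X_pow T (rr4a_X_comm T h2), hX1, mul_zero, mul_zero, mul_zero]
  have h6 : rr4a_X Q T r = 0 := by rw [hX, LinearMap.zero_apply]
  rw [rr4a_X_apply, sub_sub, sub_eq_zero] at h6
  exact h6

end Pool.Agent.Lib.H10K2
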