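import Pool.Agent.Lib.H10K2.SP3
import Pool.Agent.Lib.H10K2.RR4

/-!
# The words `z^k s^i t^a` form a basis
-/

namespace Pool.Agent.Lib.H10K2

open Polynomial
open scoped BigOperators

universe u v

variable {A : Type u} [CommRing A] (Q : Par A)

theorem kw_one : kw Q (0, ⟨0, by have := Q.hD; omega⟩, ⟨0, Q.hD⟩) = 1 := by
  simp [kw]

theorem kw_span : ⊤ ≤ Submodule.span A (Set.range (kw Q)) := by
  rw [eq_top_of_stable Q (Submodule.span A (Set.range (kw Q)))
    (Submodule.subset_span ⟨_, kw_one Q⟩) (span_s Q) (span_z Q) (span_t Q)]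

/-- The basis. -/
noncomputable def kb [Nontrivial A] :
    Module.Basis (Fin 2 × Fin (2 * Q.D) × Fin Q.D) A (K Q) :=
  Module.Basis.mk (kw_linearIndependent Q) (kw_span Q)

theorem kb_apply [Nontrivial A] (x : Fin 2 × Fin (2 * Q.D) × Fin Q.D) : kb Q x = kw Q x := by
  rw [kb, Module.Basis.mk_apply]

end Pool.Agent.Lib.H10K2
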