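import Pool.Agent.Lib.H10K2.RR4A

set_option autoImplicit false

/-!
# Chunk SP1 : stable submodules
-/

namespace Pool.Agent.Lib.H10K2

open Polynomial
open scoped BigOperators

universe u v

variable {A : Type u} [CommRing A] (Q : Par A)

/-- `u = t⁻¹ s⁻¹ z`. -/
theorem ku_eq : ku Q = tinv Q (kt Q) * ksi Q * kz Q := by
  have h := isW_K Q
  rw [kz]
  calc ku Q = tinv Q (kt Q) * kt Q * ku Q := by rw [tinv_mul (isH_K Q).quadt, one_mul]
    _ = tinv Q (kt Q) * (ksi Q * ks Q) * kt Q * ku Q := by rw [h.si_s, mul_one]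
    _ = _ := by noncomm_ring

theorem sp1_aeval {L : Type v} [Ring L] [Algebra A L] {s : L} (N : Submodule A L)
    (hs : ∀ n ∈ N, s * n ∈ N) (f : A[X]) : ∀ n ∈ N, aeval s f * n ∈ N := by
  have hp : ∀ k : ℕ, ∀ n ∈ N, s ^ k * n ∈ N := by
    intro k
    induction k with
    | zero => intro n hn; rwa [pow_zero, one_mul]
    | succ k ih => intro n hn; rw [pow_succ', mul_assoc]; exact hs _ (ih n hn)
  induction f using Polynomial.induction_on' with
  | add p q hp hq => intro n hn; rw [map_add, add_mul]; exact N.add_mem (hp n hn) (hq n hn)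
  | monomial k c =>
    intro n hn
    rw [aeval_monomial, mul_assoc, ← Algebra.smul_def]
    exact N.smul_mem _ (hp k n hn)

/-- CHUNK SP1.  A submodule which contains `1` and is stable under left multiplication by `s`, `z`
and `t` is everything.  It is stable under `si = N(s)` (`IsW.aeval_np`; powers of `s`, linear
combinations), under `tinv = b⁻¹ (t - a)`, hence under `u` (`ku_eq`); so
`{x | ∀ n ∈ N, x n ∈ N}` is everything by `K_induction`. -/
theorem eq_top_of_stable (N : Submodule A (K Q)) (h1 : (1 : K Q) ∈ N)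
    (hs : ∀ n ∈ N, ks Q * n ∈ N) (hz : ∀ n ∈ N, kz Q * n ∈ N) (ht : ∀ n ∈ N, kt Q * n ∈ N) :
    N = ⊤ := by
  have hsi : ∀ n ∈ N, ksi Q * n ∈ N := by
    rw [← (isW_K Q).aeval_np]
    exact sp1_aeval N hs (np Q)
  have hti : ∀ n ∈ N, tinv Q (kt Q) * n ∈ N := by
    intro n hn
    rw [tinv, smul_mul_assoc, sub_mul, smul_mul_assoc, one_mul]
    exact N.smul_mem _ (N.sub_mem (ht n hn) (N.smul_mem _ hn))
  have hu : ∀ n ∈ N, ku Q * n ∈ N := by
    intro n hn
    rw [ku_eq, mul_assoc, mul_assoc]
    exact hti _ (hsi _ (hz n hn))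
  have hall : ∀ x : K Q, ∀ n ∈ N, x * n ∈ N := by
    intro x
    induction x using K_induction with
    | halg r => intro n hn; rw [← Algebra.smul_def]; exact N.smul_mem _ hn
    | hs => exact hs
    | ht => exact ht
    | hu => exact hu
    | hadd x y hx hy => intro n hn; rw [add_mul]; exact N.add_mem (hx n hn) (hy n hn)
    | hmul x y hx hy => intro n hn; rw [mul_assoc]; exact hx _ (hy n hn)
  rw [eq_top_iff]
  intro x _
  have := hall x 1 h1
  rwa [mul_one] at this

end Pool.Agent.Lib.H10K2
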