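import Pool.Agent.Lib.H10K2.SP1

set_option autoImplicit false

/-!
# Chunk SP2 : the span of the words is stable under `s` and `z`
-/

namespace Pool.Agent.Lib.H10K2

open Polynomial
open scoped BigOperators

universe u v

variable {A : Type u} [CommRing A] (Q : Par A)

theorem sp2_aux (k : ℕ) (hk : k < 2 * Q.D) (f : A[X]) (a : ℕ) (ha : a < 2) :
    kz Q ^ k * aeval (ks Q) f * kt Q ^ a ∈ Submodule.span A (Set.range (kw Q)) := by
  rcases subsingleton_or_nontrivial A with hA | hA
  · have : Subsingleton (K Q) := Module.subsingleton A (K Q)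
    rw [Subsingleton.elim (kz Q ^ k * aeval (ks Q) f * kt Q ^ a) 0]
    exact Submodule.zero_mem _
  · have h0 : aeval (ks Q) f = aeval (ks Q) (f %ₘ Q.P) := by
      conv_lhs => rw [← modByMonic_add_div f Q.P]
      rw [map_add, map_mul, (isW_K Q).pol, zero_mul, add_zero]
    have hd : (f %ₘ Q.P).natDegree < Q.D := by
      rw [← Q.deg]
      refine natDegree_modByMonic_lt f Q.monic ?_
      intro h
      have h2 := Q.deg
      rw [h, natDegree_one] at h2
      exact absurd Q.hD (by omega)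
    rw [h0, aeval_eq_sum_range' hd, Finset.mul_sum, Finset.sum_mul]
    refine Submodule.sum_mem _ fun i hi => ?_
    rw [mul_smul_comm, smul_mul_assoc]
    exact Submodule.smul_mem _ _ (Submodule.subset_span
      ⟨(⟨a, ha⟩, ⟨k, hk⟩, ⟨i, Finset.mem_range.1 hi⟩), rfl⟩)

theorem sp2_mem (k : ℕ) (hk : k < 2 * Q.D) (a : ℕ) : ∀ f : A[X],
    kz Q ^ k * aeval (ks Q) f * kt Q ^ a ∈ Submodule.span A (Set.range (kw Q)) := by
  induction a using Nat.strong_induction_on with
  | _ a ih =>
    intro f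
    by_cases ha : a < 2
    · exact sp2_aux Q k hk f a ha
    · obtain ⟨m, rfl⟩ := Nat.exists_eq_add_of_le (Nat.le_of_not_lt ha)
      have h1 : kt Q ^ (2 + m) = Q.a • kt Q ^ (m + 1) + (Q.b : A) • kt Q ^ m := by
        rw [pow_add, pow_two, (isW_K Q).quad, add_mul, smul_mul_assoc, smul_mul_assoc, one_mul,
          pow_succ']
      rw [h1, mul_add, mul_smul_comm, mul_smul_comm]
      exact Submodule.add_mem _ (Submodule.smul_mem _ _ (ih (m + 1) (by omega) f))
        (Submodule.smul_mem _ _ (ih m (by omega) f))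

theorem sp2_sz (k : ℕ) (f : A[X]) : aeval (ks Q) f * kz Q ^ k = kz Q ^ k * aeval (ks Q) f := by
  have h : Commute (kz Q ^ k) (ks Q) := (Commute.pow_left (comm_s_z (isW_K Q)).symm k)
  induction f using Polynomial.induction_on' with
  | add p q hp hq => rw [map_add, add_mul, mul_add, hp, hq]
  | monomial n c =>
    rw [aeval_monomial, mul_assoc, ← (h.pow_right n).eq, ← mul_assoc, ← mul_assoc,
      Algebra.commutes]

/-- CHUNK SP2.  The span `N` of the `z^k s^i t^a`, `k < 2D`, `i < D`, `a < 2` is stable under left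
multiplication by `s` (`z` commutes with `s`; `s^D` is a combination of lower powers: `h.pol`,
`Q.monic`, `Q.deg`) and by `z` (`relZ` : `z^(2D) s^i t^a = s^i z^(2D) t^a` is a combination of
`z^k f(s) t^a`, `k < 2D`, and `z^k f(s) t^(a+1)`, `k ≤ 2D - 1`; `t² = a t + b`; first show that
`z^k f(s) t^a ∈ N` for all `k < 2D`, all `f : A[X]` and all `a`). -/
theorem span_s (n : K Q) (hn : n ∈ Submodule.span A (Set.range (kw Q))) :
    ks Q * n ∈ Submodule.span A (Set.range (kw Q)) := by
  induction hn using Submodule.span_induction with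
  | mem x hx =>
    obtain ⟨⟨a, k, i⟩, rfl⟩ := hx
    have h := sp2_mem Q k k.2 a (X ^ ((i : ℕ) + 1))
    have h2 := sp2_sz Q k (X : A[X])
    rw [aeval_X] at h2
    have h3 : ks Q * kw Q (a, k, i) =
        kz Q ^ (k : ℕ) * aeval (ks Q) (X ^ ((i : ℕ) + 1) : A[X]) * kt Q ^ (a : ℕ) := by
      rw [kw, aeval_X_pow, pow_succ', ← mul_assoc, ← mul_assoc, h2, ← mul_assoc]
    rw [h3]
    exact h
  | zero => rw [mul_zero]; exact Submodule.zero_mem _
  | add x y _ _ hx hy => rw [mul_add]; exact Submodule.add_mem _ hx hy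
  | smul c x _ hx => rw [mul_smul_comm]; exact Submodule.smul_mem _ _ hx

theorem sp2_top (i a : ℕ) : kz Q ^ (2 * Q.D) * ks Q ^ i * kt Q ^ a ∈
    Submodule.span A (Set.range (kw Q)) := by
  have hr := relZ (isW_K Q)
  have hD := Q.hD
  have h0 : kz Q ^ (2 * Q.D) * ks Q ^ i * kt Q ^ a =
      aeval (ks Q) (X ^ i : A[X]) * kz Q ^ (2 * Q.D) * kt Q ^ a := by
    rw [sp2_sz, aeval_X_pow]
  rw [h0, eq_sub_of_add_eq hr, mul_sub, sub_mul]
  refine Submodule.sub_mem _ ?_ ?_
  · rw [smul_mul_assoc, mul_smul_comm, smul_mul_assoc]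
    refine Submodule.smul_mem _ _ ?_
    rw [sub_mul, sub_mul, mul_sub, sub_mul]
    refine Submodule.sub_mem _ ?_ ?_
    · rw [Finset.mul_sum, Finset.sum_mul, Finset.mul_sum, Finset.sum_mul]
      refine Submodule.sum_mem _ fun j hj => ?_
      have hj' := Finset.mem_range.1 hj
      have h1 : aeval (ks Q) (X ^ i : A[X]) * (Q.a • ks Q * (kz Q ^ (2 * j) * aeval (ks Q) (dp Q j)) *
          kt Q) * kt Q ^ a = Q.a • (kz Q ^ (2 * j) * aeval (ks Q) (X ^ i * X * dp Q j) *
            kt Q ^ (a + 1)) := by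
        rw [map_mul, map_mul, aeval_X, pow_succ']
        have h2 := sp2_sz Q (2 * j) (X ^ i * X : A[X])
        rw [map_mul, aeval_X] at h2
        simp only [smul_mul_assoc, mul_smul_comm]
        congr 1
        calc _ = (aeval (ks Q) (X ^ i : A[X]) * ks Q * kz Q ^ (2 * j)) * aeval (ks Q) (dp Q j) *
              (kt Q * kt Q ^ a) := by simp only [mul_assoc]
          _ = _ := by rw [h2]; simp only [mul_assoc]
      rw [h1]
      exact Submodule.smul_mem _ _ (sp2_mem Q (2 * j) (by omega) (a + 1) _)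
    · rw [Finset.mul_sum, Finset.sum_mul, Finset.mul_sum, Finset.sum_mul]
      refine Submodule.sum_mem _ fun j hj => ?_
      have hj' := Finset.mem_range.1 hj
      have h1 : aeval (ks Q) (X ^ i : A[X]) * (Q.g • kz Q * (kz Q ^ (2 * j) * aeval (ks Q) (dp Q j)) *
          kt Q) * kt Q ^ a = Q.g • (kz Q ^ (2 * j + 1) * aeval (ks Q) (X ^ i * dp Q j) *
            kt Q ^ (a + 1)) := by
        rw [map_mul, pow_succ' (kt Q)]
        have h2 := sp2_sz Q (2 * j + 1) (X ^ i : A[X])
        simp only [smul_mul_assoc, mul_smul_comm]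
        congr 1
        calc _ = (aeval (ks Q) (X ^ i : A[X]) * (kz Q * kz Q ^ (2 * j))) * aeval (ks Q) (dp Q j) *
              (kt Q * kt Q ^ a) := by simp only [mul_assoc]
          _ = _ := by rw [← pow_succ', h2]; simp only [mul_assoc]
      rw [h1]
      exact Submodule.smul_mem _ _ (sp2_mem Q (2 * j + 1) (by omega) (a + 1) _)
  · rw [Finset.mul_sum, Finset.sum_mul]
    refine Submodule.sum_mem _ fun k hk => ?_
    have hk' := Finset.mem_range.1 hk
    have h1 : aeval (ks Q) (X ^ i : A[X]) * (kz Q ^ (2 * k) * aeval (ks Q) (gp Q k)) * kt Q ^ a =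
        kz Q ^ (2 * k) * aeval (ks Q) (X ^ i * gp Q k) * kt Q ^ a := by
      rw [map_mul, ← mul_assoc, sp2_sz, mul_assoc (kz Q ^ (2 * k))]
    rw [h1]
    exact sp2_mem Q (2 * k) (by omega) a _

theorem span_z (n : K Q) (hn : n ∈ Submodule.span A (Set.range (kw Q))) :
    kz Q * n ∈ Submodule.span A (Set.range (kw Q)) := by
  induction hn using Submodule.span_induction with
  | mem x hx =>
    obtain ⟨⟨a, k, i⟩, rfl⟩ := hx
    have h3 : kz Q * kw Q (a, k, i) =
        kz Q ^ ((k : ℕ) + 1) * ks Q ^ (i : ℕ) * kt Q ^ (a : ℕ) := by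
      rw [kw, pow_succ', ← mul_assoc, ← mul_assoc]
    rw [h3]
    by_cases hk : (k : ℕ) + 1 < 2 * Q.D
    · have h := sp2_mem Q (k + 1) hk a (X ^ (i : ℕ))
      rwa [aeval_X_pow] at h
    · have hk2 : (k : ℕ) + 1 = 2 * Q.D := by have := k.2; omega
      rw [hk2]
      exact sp2_top Q i a
  | zero => rw [mul_zero]; exact Submodule.zero_mem _
  | add x y _ _ hx hy => rw [mul_add]; exact Submodule.add_mem _ hx hy
  | smul c x _ hx => rw [mul_smul_comm]; exact Submodule.smul_mem _ _ hx

end Pool.Agent.Lib.H10K2
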