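import Pool.Agent.Lib.H10K2.SP2

set_option autoImplicit false

/-!
# Chunk SP3 : the span of the words is stable under `t`
-/

namespace Pool.Agent.Lib.H10K2

open Polynomial
open scoped BigOperators

universe u v

variable {A : Type u} [CommRing A] (Q : Par A)

theorem sp3_mem (m : ℕ) (f : A[X]) (a : ℕ) :
    kz Q ^ m * aeval (ks Q) f * kt Q ^ a ∈ Submodule.span A (Set.range (kw Q)) := by
  induction m with
  | zero => exact sp2_mem Q 0 (by have := Q.hD; omega) a f
  | succ m ih =>
    rw [pow_succ', mul_assoc, mul_assoc]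
    rw [mul_assoc] at ih
    exact span_z Q _ ih

/-- CHUNK SP3.  Stable under left multiplication by `t`: `t z^k s^i t^a = z^k (t s^i) t^a` and
`t_mul_pow`; use `span_s`, `span_z` (a product of powers of `z`, polynomials in `s` and an element
of `N` is in `N`) and `t^a ∈ N`, `t^(a+1) ∈ N`. -/
theorem span_t (n : K Q) (hn : n ∈ Submodule.span A (Set.range (kw Q))) :
    kt Q * n ∈ Submodule.span A (Set.range (kw Q)) := by
  induction hn using Submodule.span_induction with
  | mem x hx =>
    obtain ⟨⟨a, k, i⟩, rfl⟩ := hx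
    obtain ⟨c, hc⟩ := t_mul_pow (isW_K Q) (i : ℕ)
    have ht : kt Q * kz Q ^ (k : ℕ) = kz Q ^ (k : ℕ) * kt Q :=
      ((comm_t_z (isW_K Q)).pow_right k).eq
    have h3 : kt Q * kw Q (a, k, i) =
        kz Q ^ ((k : ℕ) + 2 * i) *
          aeval (ks Q) (C (((Q.q⁻¹ : Aˣ) : A) ^ (i : ℕ)) * np Q ^ (i : ℕ)) *
            kt Q ^ ((a : ℕ) + 1) +
        ∑ j ∈ Finset.range (2 * (i : ℕ)), kz Q ^ ((k : ℕ) + (j + 1)) * aeval (ks Q) (c j) *
          kt Q ^ (a : ℕ) := by
      calc kt Q * kw Q (a, k, i) = (kt Q * kz Q ^ (k : ℕ)) * ks Q ^ (i : ℕ) * kt Q ^ (a : ℕ) := by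
            rw [kw]; simp only [mul_assoc]
        _ = kz Q ^ (k : ℕ) * (kt Q * ks Q ^ (i : ℕ)) * kt Q ^ (a : ℕ) := by
            rw [ht]; simp only [mul_assoc]
        _ = _ := by
            rw [hc, mul_add, add_mul, Finset.mul_sum, Finset.sum_mul]
            congr 1
            · rw [pow_add (kz Q), pow_succ' (kt Q)]
              simp only [mul_assoc]
            · refine Finset.sum_congr rfl fun j _ => ?_
              rw [pow_add (kz Q) k (j + 1)]
              simp only [mul_assoc]
    rw [h3]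
    exact Submodule.add_mem _ (sp3_mem Q _ _ _) (Submodule.sum_mem _ fun j _ => sp3_mem Q _ _ _)
  | zero => rw [mul_zero]; exact Submodule.zero_mem _
  | add x y _ _ hx hy => rw [mul_add]; exact Submodule.add_mem _ hx hy
  | smul c x _ hx => rw [mul_smul_comm]; exact Submodule.smul_mem _ _ hx

end Pool.Agent.Lib.H10K2
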