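import Pool.Agent.Lib.H10K2.ST1

/-!
# The anti-automorphism
-/

namespace Pool.Agent.Lib.H10K2

open Polynomial
open scoped BigOperators
open Pool.Agent.Lib.H10BMM (Tw twop untw twop_mul twop_add twop_one twop_zero twop_pow twop_smul
  twop_sum untw_twop twop_untw untw_mul untw_add untw_one untw_algebraMap)

universe u v

variable {A : Type u} [CommRing A] (Q : Par A)

variable {Q}

/-- The semilinear anti-automorphism with `s ↦ s⁻¹`, `t ↦ t⁻¹`, `u ↦ u⁻¹`. -/
noncomputable def al {σ : A →+* A} (hσ : IsStar Q σ) (h : K Q) : K Q :=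
  untw σ (lift (tw_isH Q hσ) h)

section al

variable {σ : A →+* A} (hσ : IsStar Q σ)

theorem al_add (x y : K Q) : al hσ (x + y) = al hσ x + al hσ y := by
  unfold al; rw [map_add, untw_add]

theorem al_mul (x y : K Q) : al hσ (x * y) = al hσ y * al hσ x := by
  unfold al; rw [map_mul, untw_mul]

theorem al_algebraMap (r : A) : al hσ (algebraMap A _ r) = algebraMap A _ (σ r) := by
  unfold al; rw [AlgHom.commutes, untw_algebraMap]

theorem al_one : al hσ (1 : K Q) = 1 := by
  have := al_algebraMap hσ 1
  simpa using this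

theorem al_zero : al hσ (0 : K Q) = 0 := by
  have := al_algebraMap hσ 0
  simpa using this

theorem al_smul (r : A) (x : K Q) : al hσ (r • x) = σ r • al hσ x := by
  rw [Algebra.smul_def, al_mul, al_algebraMap, ← Algebra.commutes, Algebra.smul_def]

theorem al_s : al hσ (ks Q) = ksi Q := by
  unfold al; rw [lift_ks, untw_twop]

theorem al_t : al hσ (kt Q) = tinv Q (kt Q) := by
  unfold al; rw [lift_kt, untw_twop]

theorem al_u : al hσ (ku Q) = kui Q := by
  unfold al; rw [lift_ku, untw_twop]

/-- If `x y = y x = 1` then `al x`, `al y` are inverse to each other. -/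
theorem al_inv {x y x' : K Q} (h1 : x * y = 1) (h2 : y * x = 1) (h3 : al hσ x = y)
    : al hσ y = x := by
  have e1 : al hσ y * y = 1 := by rw [← h3, ← al_mul, h3, h1, al_one]
  calc al hσ y = al hσ y * (y * x) := by rw [h2, mul_one]
    _ = x := by rw [← mul_assoc, e1, one_mul]

end al

end Pool.Agent.Lib.H10K2
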