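import Pool.Agent.Lib.H10K2.FR
import Pool.Agent.Lib.H10BMM.Star

/-!
# Chunk ST1 : inverses in the opposite ring
-/

namespace Pool.Agent.Lib.H10K2

open Polynomial
open scoped BigOperators
open Pool.Agent.Lib.H10BMM (Tw twop untw twop_mul twop_add twop_one twop_zero twop_pow twop_smul
  twop_sum untw_twop twop_untw untw_mul untw_add untw_one untw_algebraMap)

universe u v

variable {A : Type u} [CommRing A] (Q : Par A)

/-- The ring endomorphism `σ` of `A` inverts the parameters. -/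
structure IsStar (σ : A →+* A) : Prop where
  invol : ∀ x, σ (σ x) = x
  a : σ Q.a = -Q.a * ((Q.b⁻¹ : Aˣ) : A)
  b : σ (Q.b : A) = ((Q.b⁻¹ : Aˣ) : A)
  a' : σ Q.a' = -Q.a' * ((Q.b'⁻¹ : Aˣ) : A)
  b' : σ (Q.b' : A) = ((Q.b'⁻¹ : Aˣ) : A)
  P : reflect Q.D Q.P = C (Q.p0 : A) * Q.P.map σ

/-- The inverse of `u`. -/
noncomputable def kui : K Q := ((Q.b'⁻¹ : Aˣ) : A) • (ku Q - Q.a' • 1)

theorem ku_kui : ku Q * kui Q = 1 := by
  rw [kui, mul_smul_comm, mul_sub, (isH_K Q).quadu, mul_smul_comm, mul_one, add_sub_cancel_left,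
    smul_smul, Units.inv_mul, one_smul]

theorem kui_ku : kui Q * ku Q = 1 := by
  rw [kui, smul_mul_assoc, sub_mul, (isH_K Q).quadu, smul_mul_assoc, one_mul, add_sub_cancel_left,
    smul_smul, Units.inv_mul, one_smul]

theorem st1_aeval_twop {L : Type v} [Ring L] [Algebra A L] (σ : A →+* A) (x : L) (f : A[X]) :
    aeval (twop σ x) f = twop σ (aeval x (f.map σ)) := by
  have h1 : (f.map σ).natDegree < f.natDegree + 1 :=
    Nat.lt_succ_of_le natDegree_map_le
  rw [aeval_eq_sum_range, aeval_eq_sum_range' h1, twop_sum]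
  refine Finset.sum_congr rfl fun i _ => ?_
  rw [coeff_map, twop_smul, twop_pow]

theorem st1_reflect {L : Type v} [Ring L] [Algebra A L] {s si : L} (h : si * s = 1) (D : ℕ)
    (f : A[X]) (hf : f.natDegree ≤ D) : aeval si (reflect D f) = si ^ D * aeval s f := by
  have hpow : ∀ k : ℕ, si ^ k * s ^ k = 1 := by
    intro k
    induction k with
    | zero => simp
    | succ k ih =>
      rw [pow_succ, pow_succ', mul_assoc, ← mul_assoc si, h, one_mul, ih]
  have hpow2 : ∀ k m : ℕ, k ≤ m → si ^ m * s ^ k = si ^ (m - k) := by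
    intro k m hkm
    conv_lhs => rw [show m = (m - k) + k by omega, pow_add, mul_assoc, hpow, mul_one]
  have h1 : (reflect D f).natDegree < D + 1 := by
    refine Nat.lt_succ_of_le ?_
    rw [natDegree_le_iff_coeff_eq_zero]
    intro n hn
    rw [coeff_reflect, revAt_eq_self_of_lt hn]
    exact coeff_eq_zero_of_natDegree_lt (lt_of_le_of_lt hf hn)
  rw [aeval_eq_sum_range' h1, aeval_eq_sum_range' (Nat.lt_succ_of_le hf), Finset.mul_sum,
    ← Finset.sum_range_reflect]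
  refine Finset.sum_congr rfl fun i hi => ?_
  rw [Finset.mem_range] at hi
  rw [mul_smul_comm, hpow2 _ _ (by omega), coeff_reflect]
  have e1 : D + 1 - 1 - i = D - i := by omega
  rw [e1, revAt_le (by omega)]
  congr 2
  omega

theorem st1_quad {L : Type v} [Ring L] [Algebra A L] {a : A} {b : Aˣ} {σ : A →+* A}
    (ha : σ a = -a * ((b⁻¹ : Aˣ) : A)) (hb : σ (b : A) = ((b⁻¹ : Aˣ) : A)) {t s : L}
    (hts : t * s = 1) (h : t * t = a • t + (b : A) • 1) :
    s * s = σ a • s + σ (b : A) • 1 := by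
  have h1 : t * t * s * s = 1 := by
    rw [mul_assoc t t s, hts, mul_one, hts]
  rw [h] at h1
  rw [add_mul, add_mul, smul_mul_assoc, hts, smul_mul_assoc, one_mul, smul_mul_assoc, one_mul,
    smul_mul_assoc] at h1
  have h2 : (b : A) • (s * s) = 1 - a • s := by
    rw [eq_sub_iff_add_eq, ← h1, add_comm]
  have h3 : s * s = ((b⁻¹ : Aˣ) : A) • (1 - a • s) := by
    rw [← h2, smul_smul, Units.inv_mul, one_smul]
  rw [h3, ha, hb, smul_sub, smul_smul]
  module

/-- CHUNK ST1.  The opposite ring (with `σ`-twisted scalars) with `s ↦ s⁻¹`, `t ↦ t⁻¹`, `u ↦ u⁻¹`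
satisfies the relations (compare `tw_isHecke`, `inv_quad` in `Lib/H10BMM/Star.lean`).
`pol` : `0 = si^D P(s) = (reflect D P)(si) = p0 (P.map σ)(si)`.
`quadt` : `t² = a t + b` gives `t⁻² = σ a t⁻¹ + σ b` (`IsStar.a`, `IsStar.b`).
`br1` : in the opposite ring `s⁻¹ * t⁻¹ * u⁻¹` is `(s t u)⁻¹ = (t u s)⁻¹ = (u s t)⁻¹`. -/
theorem tw_isH {σ : A →+* A} (hσ : IsStar Q σ) :
    IsH Q (twop σ (ksi Q)) (twop σ (tinv Q (kt Q))) (twop σ (kui Q)) := by
  have hH := isH_K Q
  have hW := isW_K Q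
  refine ⟨?_, ?_, ?_, ?_, ?_⟩
  · rw [st1_aeval_twop]
    have h1 := st1_reflect hW.si_s Q.D Q.P Q.deg.le
    rw [hH.pol, mul_zero, hσ.P, map_mul, aeval_C, Algebra.algebraMap_eq_smul_one, smul_mul_assoc,
      one_mul] at h1
    have h2 : aeval (ksi Q) (Q.P.map σ) = 0 := by
      rw [← one_smul A (aeval (ksi Q) (Q.P.map σ)), ← Units.inv_mul Q.p0, mul_smul, h1, smul_zero]
    rw [h2, twop_zero]
  · have h2 := congrArg (twop σ) (st1_quad hσ.a hσ.b (mul_tinv hH.quadt) hH.quadt)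
    rw [twop_mul, twop_add, twop_smul, twop_smul, twop_one] at h2
    exact h2
  · have h2 := congrArg (twop σ) (st1_quad hσ.a' hσ.b' (ku_kui Q) hH.quadu)
    rw [twop_mul, twop_add, twop_smul, twop_smul, twop_one] at h2
    exact h2
  · let us : (K Q)ˣ := ⟨ks Q, ksi Q, hW.s_si, hW.si_s⟩
    let ut : (K Q)ˣ := ⟨kt Q, tinv Q (kt Q), mul_tinv hH.quadt, tinv_mul hH.quadt⟩
    let uu : (K Q)ˣ := ⟨ku Q, kui Q, ku_kui Q, kui_ku Q⟩
    have h' : us * ut * uu = ut * uu * us := Units.ext hH.br1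
    have h2 := congrArg (fun x : (K Q)ˣ => twop σ ((x⁻¹ : (K Q)ˣ) : K Q)) h'
    simp only [_root_.mul_inv_rev, Units.val_mul, twop_mul] at h2
    exact h2
  · let us : (K Q)ˣ := ⟨ks Q, ksi Q, hW.s_si, hW.si_s⟩
    let ut : (K Q)ˣ := ⟨kt Q, tinv Q (kt Q), mul_tinv hH.quadt, tinv_mul hH.quadt⟩
    let uu : (K Q)ˣ := ⟨ku Q, kui Q, ku_kui Q, kui_ku Q⟩
    have h' : ut * uu * us = uu * us * ut := Units.ext hH.br2
    have h2 := congrArg (fun x : (K Q)ˣ => twop σ ((x⁻¹ : (K Q)ˣ) : K Q)) h'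
    simp only [_root_.mul_inv_rev, Units.val_mul, twop_mul] at h2
    exact h2

end Pool.Agent.Lib.H10K2
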