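import Pool.Agent.Lib.H10K2.ST2A

/-!
# Chunk ST2 : the second condition on the trace
-/

namespace Pool.Agent.Lib.H10K2

open Polynomial
open scoped BigOperators

universe u v

variable {A : Type u} [CommRing A] {Q : Par A} {σ : A →+* A} (hσ : IsStar Q σ)

variable [Nontrivial A]

theorem st2_al_pow {A : Type u} [CommRing A] {Q : Par A} {σ : A →+* A} (hσ : IsStar Q σ)
    (x : K Q) (n : ℕ) : al hσ (x ^ n) = al hσ x ^ n := by
  induction n with
  | zero => rw [pow_zero, pow_zero, al_one]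
  | succ n ih => rw [pow_succ, al_mul, ih, pow_succ']

theorem st2_zi {A : Type u} [CommRing A] (Q : Par A) (k : ℕ) :
    kzi Q ^ k * kz Q ^ k = 1 := by
  induction k with
  | zero => rw [pow_zero, pow_zero, one_mul]
  | succ k ih => rw [pow_succ, pow_succ', mul_assoc, ← mul_assoc (kzi Q), (isW_K Q).zi_z, one_mul, ih]

theorem st2_zz (x : K Q) (n : ℕ) : x * kz Q ^ n = kz Q ^ n * x := by
  have h : Commute x (kz Q) := (kz_comm Q x).symm
  exact (h.pow_right n).eq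

theorem st2_form (x : Fin 2 × Fin (2 * Q.D) × Fin Q.D) :
    tau Q (al hσ (kw Q x) * kz Q ^ (2 * Q.D)) =
      tau Q (kz Q ^ (2 * Q.D - (x.2.1 : ℕ)) * ksi Q ^ (x.2.2 : ℕ) * tinv Q (kt Q) ^ (x.1 : ℕ)) := by
  have hk : (x.2.1 : ℕ) < 2 * Q.D := x.2.1.2
  have e1 : al hσ (kw Q x) * kz Q ^ (2 * Q.D) = tinv Q (kt Q) ^ (x.1 : ℕ) *
      (ksi Q ^ (x.2.2 : ℕ) * kz Q ^ (2 * Q.D - (x.2.1 : ℕ))) := by
    rw [kw, al_mul, al_mul, st2_al_pow, st2_al_pow, st2_al_pow, al_t, al_s, al_z]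
    obtain ⟨m, hm⟩ : ∃ m, 2 * Q.D = (x.2.1 : ℕ) + m := ⟨2 * Q.D - (x.2.1 : ℕ), by omega⟩
    have h2 : 2 * Q.D - (x.2.1 : ℕ) = m := by omega
    have h3 : kz Q ^ (2 * Q.D) = kz Q ^ (x.2.1 : ℕ) * kz Q ^ m := by
      rw [← pow_add]
      exact congrArg (fun n => kz Q ^ n) hm
    rw [h2, h3]
    calc tinv Q (kt Q) ^ (x.1 : ℕ) * (ksi Q ^ (x.2.2 : ℕ) * kzi Q ^ (x.2.1 : ℕ)) *
          (kz Q ^ (x.2.1 : ℕ) * kz Q ^ m)
        = tinv Q (kt Q) ^ (x.1 : ℕ) * (ksi Q ^ (x.2.2 : ℕ) *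
          ((kzi Q ^ (x.2.1 : ℕ) * kz Q ^ (x.2.1 : ℕ)) * kz Q ^ m)) := by
          simp only [mul_assoc]
      _ = _ := by rw [st2_zi, one_mul]
  rw [e1, tau_comm, st2_zz]

/-- CHUNK ST2.  `tau (al (z^k s^i t^a) z^(2D)) = [k=i=a=0] p0² q^D`: by `al_mul`, `al_s`, `al_t`,
`al_z`, `tau_comm`, `kz_comm` the element is `z^(2D-k) si^i tinv^a` up to cyclic order.
`k > 0` : `z^(2D-k) si^i tinv^a` has value `0` (`V1`, `V2'`; `0 < 2D - k < 2D`; `si = N(s)`).
`k = 0`, `a = 1` : `V4`.  `k = 0`, `a = 0` : `tau_z_top_si` for `i > 0`, `tau_z_top` for `i = 0`. -/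
theorem tau_al_kw (x : Fin 2 × Fin (2 * Q.D) × Fin Q.D) :
    tau Q (al hσ (kw Q x) * kz Q ^ (2 * Q.D)) =
      (Q.p0 : A) ^ 2 * (Q.q : A) ^ Q.D * tau Q (kw Q x) := by
  rw [st2_form, tau_kw]
  obtain ⟨a, k, i⟩ := x
  have hk := k.2
  have hi := i.2
  have hN : ksi Q ^ (i : ℕ) = aeval (ks Q) (np Q ^ (i : ℕ)) := by
    rw [map_pow, (isW_K Q).aeval_np]
  by_cases hk0 : (k : ℕ) = 0
  · obtain ha | ha : (a : ℕ) = 0 ∨ (a : ℕ) = 1 := by
      have := a.2; omega
    · simp only [hk0, ha, Nat.sub_zero, pow_zero, mul_one]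
      by_cases hi0 : (i : ℕ) = 0
      · rw [hi0, pow_zero, mul_one, if_pos, mul_one, tau_z_top]
        refine Prod.ext (Fin.ext ha) (Prod.ext (Fin.ext hk0) (Fin.ext hi0))
      · rw [tau_z_top_si Q _ (Nat.pos_of_ne_zero hi0) hi, if_neg, mul_zero]
        intro h
        apply hi0
        have := congrArg (fun x => (x.2.2 : ℕ)) h
        exact this
    · simp only [hk0, ha, Nat.sub_zero, pow_one]
      rw [hN, V4, if_neg, mul_zero]
      intro h
      have h1 : (a : ℕ) = 0 := congrArg (fun x => (x.1 : ℕ)) h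
      omega
  · have hlt : 2 * Q.D - (k : ℕ) < 2 * Q.D := by omega
    have hne : 2 * Q.D - (k : ℕ) ≠ 0 := by omega
    rw [if_neg, mul_zero]
    · obtain ha | ha : (a : ℕ) = 0 ∨ (a : ℕ) = 1 := by
        have := a.2; omega
      · simp only [ha, pow_zero, mul_one]
        rw [hN, V1 Q _ hlt, if_neg hne]
      · simp only [ha, pow_one]
        rw [hN, V2' Q _ hlt, if_neg hne]
    · intro h
      apply hk0
      have := congrArg (fun x => (x.2.1 : ℕ)) h
      exact this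

/-- CHUNK ST2.  By semilinearity from `tau_al_kw` (`tau_kw` has values `0`, `1`, fixed by `σ`;
`kw_span`), applied to `al h` (`al_al`). -/
theorem tau_star (h : K Q) : tau Q (h * kz Q ^ (2 * Q.D)) =
    (Q.p0 : A) ^ 2 * (Q.q : A) ^ Q.D * σ (tau Q (al hσ h)) := by
  have key : ∀ g : K Q, tau Q (al hσ g * kz Q ^ (2 * Q.D)) =
      (Q.p0 : A) ^ 2 * (Q.q : A) ^ Q.D * σ (tau Q g) := by
    intro g
    have hg : g ∈ Submodule.span A (Set.range (kw Q)) := kw_span Q trivial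
    induction hg using Submodule.span_induction with
    | mem y hy =>
      obtain ⟨x, rfl⟩ := hy
      rw [tau_al_kw]
      congr 1
      rw [tau_kw]
      split_ifs
      · rw [map_one]
      · rw [map_zero]
    | zero => rw [al_zero, zero_mul, map_zero, map_zero, mul_zero]
    | add x y _ _ hx hy => rw [al_add, add_mul, map_add, hx, hy, map_add, map_add, mul_add]
    | smul r x _ hx =>
      rw [al_smul, smul_mul_assoc, map_smul, hx, map_smul, smul_eq_mul, smul_eq_mul, map_mul]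
      ring
  have h2 := key (al hσ h)
  rwa [al_al] at h2

end Pool.Agent.Lib.H10K2
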