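import Pool.Agent.Lib.H10K2.ST

/-!
# Chunk ST2A
-/

namespace Pool.Agent.Lib.H10K2

open Polynomial
open scoped BigOperators

universe u v

variable {A : Type u} [CommRing A] {Q : Par A} {σ : A →+* A} (hσ : IsStar Q σ)

/-- CHUNK ST2A.  `al_inv` for the pairs `(s, si)`, `(t, tinv)`, `(u, kui)`. -/
theorem al_si : al hσ (ksi Q) = ks Q :=
  al_inv (x' := 0) hσ (isW_K Q).s_si (isW_K Q).si_s (al_s hσ)

theorem al_tinv : al hσ (tinv Q (kt Q)) = kt Q :=
  al_inv (x' := 0) hσ (mul_tinv (isH_K Q).quadt) (tinv_mul (isH_K Q).quadt) (al_t hσ)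

theorem al_kui : al hσ (kui Q) = ku Q :=
  al_inv (x' := 0) hσ (ku_kui Q) (kui_ku Q) (al_u hσ)

/-- CHUNK ST2A.  `K_induction`, as `al_al` in `Lib/H10BMM/Star.lean`. -/
theorem al_al (x : K Q) : al hσ (al hσ x) = x := by
  induction x using K_induction with
  | halg r => rw [al_algebraMap, al_algebraMap, hσ.invol]
  | hs => rw [al_s, al_si]
  | ht => rw [al_t, al_tinv]
  | hu => rw [al_u, al_kui]
  | hadd x y hx hy => rw [al_add, al_add, hx, hy]
  | hmul x y hx hy => rw [al_mul, al_mul, hx, hy]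

/-- CHUNK ST2A.  `al (s t u) = u⁻¹ t⁻¹ s⁻¹` is the inverse of `z`. -/
theorem al_z : al hσ (kz Q) = kzi Q := by
  have h1 : al hσ (kz Q) = kui Q * (tinv Q (kt Q) * ksi Q) := by
    rw [kz, al_mul, al_mul, al_s, al_t, al_u]
  have h2 : kz Q * al hσ (kz Q) = 1 := by
    rw [h1, kz]
    calc ks Q * kt Q * ku Q * (kui Q * (tinv Q (kt Q) * ksi Q))
        = ks Q * (kt Q * (ku Q * kui Q) * tinv Q (kt Q)) * ksi Q := by simp only [mul_assoc]
      _ = 1 := by rw [ku_kui, mul_one, mul_tinv (isH_K Q).quadt, mul_one, (isW_K Q).s_si]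
  calc al hσ (kz Q) = kzi Q * (kz Q * al hσ (kz Q)) := by
        rw [← mul_assoc, (isW_K Q).zi_z, one_mul]
    _ = kzi Q := by rw [h2, mul_one]

end Pool.Agent.Lib.H10K2
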