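import Pool.Agent.Lib.H10K2.TA1

set_option autoImplicit false

/-!
# Chunk TA : the linear form `tau`
-/

namespace Pool.Agent.Lib.H10K2

open Polynomial
open scoped BigOperators

universe u v

variable {A : Type u} [CommRing A] (Q : Par A)

variable [Nontrivial A]

/-- The form: the coefficient of `1`. -/
noncomputable def tau : K Q →ₗ[A] A :=
  (kb Q).coord (0, ⟨0, by have := Q.hD; omega⟩, ⟨0, Q.hD⟩)

theorem tau_kw (x : Fin 2 × Fin (2 * Q.D) × Fin Q.D) :
    tau Q (kw Q x) = if x = (0, ⟨0, by have := Q.hD; omega⟩, ⟨0, Q.hD⟩) then 1 else 0 := by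
  rw [← kb_apply, tau, Module.Basis.coord_apply, Module.Basis.repr_self, Finsupp.single_apply]

/-- CHUNK TA.  `f(s) = r(s)` with `r = f %ₘ P` of degree `< D` (`aeval_mod`), so
`z^k f(s) t^a = ∑_{i<D} r_i kw (a, k, i)`; use `tau_kw`. -/
theorem tau_kt_pow (k a : ℕ) (hk : k < 2 * Q.D) (ha : a < 2) (f : A[X]) :
    tau Q (kz Q ^ k * aeval (ks Q) f * kt Q ^ a) = if k = 0 ∧ a = 0 then eps Q f else 0 := by
  have hd : (f %ₘ Q.P).natDegree < Q.D := by
    rw [← Q.deg]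
    refine natDegree_modByMonic_lt f Q.monic ?_
    intro h
    have h2 := Q.deg
    rw [h, natDegree_one] at h2
    exact absurd Q.hD (by omega)
  have h1 : kz Q ^ k * aeval (ks Q) f * kt Q ^ a = ∑ i : Fin Q.D,
      (f %ₘ Q.P).coeff i • kw Q (⟨a, ha⟩, ⟨k, hk⟩, i) := by
    rw [← aeval_mod Q (isW_K Q).pol f, aeval_eq_sum_range' hd, Finset.mul_sum, Finset.sum_mul,
      ← Fin.sum_univ_eq_sum_range
        (fun i => kz Q ^ k * (f %ₘ Q.P).coeff i • ks Q ^ i * kt Q ^ a) Q.D]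
    refine Finset.sum_congr rfl fun i _ => ?_
    rw [mul_smul_comm, smul_mul_assoc]
    rfl
  rw [h1, map_sum]
  simp only [map_smul, tau_kw, smul_eq_mul, mul_ite, mul_one, mul_zero, Prod.mk.injEq]
  split_ifs with h
  · rw [Finset.sum_eq_single (⟨0, Q.hD⟩ : Fin Q.D)]
    · rw [if_pos]
      · rfl
      · exact ⟨Fin.ext h.2, Fin.ext h.1, rfl⟩
    · intro i _ hi
      rw [if_neg]
      rintro ⟨_, _, h3⟩
      exact hi h3
    · intro h4
      exact absurd (Finset.mem_univ _) h4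
  · refine Finset.sum_eq_zero fun i _ => ?_
    rw [if_neg]
    rintro ⟨h2, h3, _⟩
    exact h ⟨congrArg Fin.val h3, congrArg Fin.val h2⟩

theorem V1 (k : ℕ) (hk : k < 2 * Q.D) (f : A[X]) :
    tau Q (kz Q ^ k * aeval (ks Q) f) = if k = 0 then eps Q f else 0 := by
  have h := tau_kt_pow Q k 0 hk (by omega) f
  simpa using h

theorem V2 (k : ℕ) (hk : k < 2 * Q.D) (f : A[X]) :
    tau Q (kz Q ^ k * aeval (ks Q) f * kt Q) = 0 := by
  have h := tau_kt_pow Q k 1 hk (by omega) f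
  simpa using h

/-- The value on `z^k f(s) t⁻¹`. -/
theorem V2' (k : ℕ) (hk : k < 2 * Q.D) (f : A[X]) :
    tau Q (kz Q ^ k * aeval (ks Q) f * tinv Q (kt Q)) =
      if k = 0 then -(((Q.b⁻¹ : Aˣ) : A) * Q.a * eps Q f) else 0 := by
  rw [tinv, mul_smul_comm, mul_sub, map_smul, map_sub, V2 Q k hk, mul_smul_comm, mul_one, map_smul,
    V1 Q k hk]
  split_ifs
  · simp only [smul_eq_mul]; ring
  · simp

theorem tau_one : tau Q 1 = 1 := by
  have h := tau_kw Q (0, ⟨0, by have := Q.hD; omega⟩, ⟨0, Q.hD⟩)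
  rwa [kw_one, if_pos rfl] at h

end Pool.Agent.Lib.H10K2
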