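import Pool.Agent.Lib.H10K2.SP

set_option autoImplicit false

/-!
# Chunk TA1 : the form `eps`
-/

namespace Pool.Agent.Lib.H10K2

open Polynomial
open scoped BigOperators

universe u v

variable {A : Type u} [CommRing A] (Q : Par A)

/-- The constant coefficient of the remainder modulo `P`. -/
noncomputable def eps : A[X] →ₗ[A] A := (lcoeff A 0).comp (modByMonicHom Q.P)

theorem eps_apply (f : A[X]) : eps Q f = (f %ₘ Q.P).coeff 0 := rfl

theorem aeval_mod {L : Type v} [Ring L] [Algebra A L] {s : L} (h : aeval s Q.P = 0) (f : A[X]) :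
    aeval s (f %ₘ Q.P) = aeval s f := by
  conv_rhs => rw [← modByMonic_add_div f Q.P]
  rw [map_add, map_mul, h, zero_mul, add_zero]

/-- CHUNK TA1. -/
theorem eps_of_degree_lt (f : A[X]) (h : f.degree < Q.P.degree) : eps Q f = f.coeff 0 := by
  rcases subsingleton_or_nontrivial A with hA | hA
  · exact Subsingleton.elim _ _
  · rw [eps_apply, (modByMonic_eq_self_iff Q.monic).2 h]

theorem ta1_deg [Nontrivial A] : Q.P.degree = (Q.D : WithBot ℕ) := by
  rw [degree_eq_natDegree Q.monic.ne_zero, Q.deg]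

/-- CHUNK TA1. -/
theorem eps_X_pow [Nontrivial A] (i : ℕ) (h : i < Q.D) : eps Q (X ^ i) = if i = 0 then 1 else 0 := by
  rw [eps_of_degree_lt Q (X ^ i) (by rw [ta1_deg, degree_X_pow]; exact_mod_cast h), coeff_X_pow]
  by_cases hi : i = 0
  · rw [if_pos hi, if_pos hi.symm]
  · rw [if_neg hi, if_neg (fun h => hi h.symm)]

/-- CHUNK TA1.  If `f(s) = g(s)` in a ring where `1, s, .., s^(D-1)` are independent, then
`eps f = eps g`; here: `eps (f * P) = 0`, so `eps` only depends on the class modulo `P`. -/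
theorem eps_mul_P (f : A[X]) : eps Q (f * Q.P) = 0 := by
  rw [eps_apply, (modByMonic_eq_zero_iff_dvd Q.monic).2 (Dvd.intro_left f rfl), coeff_zero]

/-- CHUNK TA1.  `X^D = (X^D - P) + P` and `X^D - P` has degree `< D` and constant coefficient
`- p0` (as `D > 0`). -/
theorem eps_X_top [Nontrivial A] : eps Q (X ^ Q.D) = -(Q.p0 : A) := by
  have h1 : (X ^ Q.D : A[X]) = (X ^ Q.D - Q.P) + 1 * Q.P := by ring
  have h2 : (X ^ Q.D - Q.P : A[X]).degree < Q.P.degree := by
    rw [ta1_deg]
    have h3 := degree_sub_lt_left (p := (X ^ Q.D : A[X])) (q := Q.P)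
      (by rw [ta1_deg, degree_X_pow]) (monic_X_pow Q.D).ne_zero
      (by rw [Q.monic.leadingCoeff, leadingCoeff_X_pow])
    rwa [degree_X_pow] at h3
  rw [h1, map_add, eps_mul_P, add_zero, eps_of_degree_lt Q _ h2, coeff_sub, coeff_X_pow,
    if_neg (by have := Q.hD; omega), Q.hp0, zero_sub]

end Pool.Agent.Lib.H10K2
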