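import Pool.Agent.Lib.H10K2.TB1

/-!
# Chunk TB4
-/

namespace Pool.Agent.Lib.H10K2

open Polynomial
open scoped BigOperators

universe u v

variable {A : Type u} [CommRing A] (Q : Par A) [Nontrivial A]

/-- CHUNK TB4.  `V3` with `f = 1`, `eps_X_top`. -/
theorem tau_z_top : tau Q (kz Q ^ (2 * Q.D)) = (Q.p0 : A) ^ 2 * (Q.q : A) ^ Q.D := by
  have h := V3 Q 1
  rw [map_one, mul_one, mul_one, eps_X_top] at h
  rw [h]
  ring

omit [Nontrivial A] in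
theorem tb4_dvd : Q.P ∣ X * np Q - 1 := by
  refine ⟨-C ((Q.p0⁻¹ : Aˣ) : A), ?_⟩
  have h1 := divX_mul_X_add Q.P
  rw [Q.hp0] at h1
  have h2 : C ((Q.p0⁻¹ : Aˣ) : A) * C (Q.p0 : A) = 1 := by
    rw [← C_mul, Units.inv_mul, C_1]
  rw [np]
  conv_rhs => rw [← h1]
  linear_combination h2

/-- CHUNK TB4.  For `0 < i < D` : `z^(2D) si^i = z^(2D) f(s)` with `f = N^i` (`IsW.aeval_np`), and
`X^D N^i - X^(D-i)` is a multiple of `P` (`X N - 1 = - p0⁻¹ P`), so `V3`, `eps_mul_P` and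
`eps_X_pow` with `0 < D - i < D` give `0`. -/
theorem tau_z_top_si (i : ℕ) (h0 : 0 < i) (hi : i < Q.D) :
    tau Q (kz Q ^ (2 * Q.D) * ksi Q ^ i) = 0 := by
  have h1 : ksi Q ^ i = aeval (ks Q) (np Q ^ i) := by
    rw [map_pow, (isW_K Q).aeval_np]
  have h0' := sub_dvd_pow_sub_pow (X * np Q) 1 i
  rw [one_pow] at h0'
  obtain ⟨c, hc⟩ := (tb4_dvd Q).trans h0'
  have h2 : X ^ Q.D * np Q ^ i = X ^ (Q.D - i) + X ^ (Q.D - i) * c * Q.P := by
    have h3 : (X : A[X]) ^ Q.D = X ^ (Q.D - i) * X ^ i := by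
      rw [← pow_add, Nat.sub_add_cancel hi.le]
    rw [mul_pow] at hc
    rw [h3]
    linear_combination (X ^ (Q.D - i)) * hc
  rw [h1, V3, h2, map_add, eps_mul_P, add_zero, eps_X_pow Q _ (by omega), if_neg (by omega),
    mul_zero, neg_zero]

end Pool.Agent.Lib.H10K2
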