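import Pool.Agent.Lib.H10K2.TB3
import Pool.Agent.Lib.H10K2.TB4

/-!
# Values of `tau` in `z`-degrees `2D` and `2D+1`
-/

namespace Pool.Agent.Lib.H10K2

end Pool.Agent.Lib.H10K2
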