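import Pool.Agent.Lib.H10K2.TA

/-!
# Chunk TB1
-/

namespace Pool.Agent.Lib.H10K2

open Polynomial
open scoped BigOperators

universe u v

variable {A : Type u} [CommRing A] (Q : Par A) [Nontrivial A]

omit [Nontrivial A] in
theorem tb1_comm {L : Type v} [Ring L] [Algebra A L] {x s : L} (h : Commute x s) (f : A[X]) :
    Commute x (aeval s f) := by
  induction f using Polynomial.induction_on' with
  | add p q hp hq => rw [map_add]; exact hp.add_right hq
  | monomial n c =>
    rw [aeval_monomial]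
    exact (Algebra.commute_algebraMap_right c x).mul_right (h.pow_right n)

/-- CHUNK TB1.  Multiply `relZ` by `f(s)` (`z`, `s` commute): `z^(2D) f(s)` is
`- ∑_{k<D} z^(2k) (g_k f)(s) + b⁻¹ (a s - γ z) ∑_{j<D} z^(2j) (d_j f)(s) t`; the second sum has
only terms `z^m (..)(s) t` with `m ≤ 2D - 1` (`V2`), the first only contributes for `k = 0`
(`V1`), `g_0 = p_0 q^D X^D` (`Q.hp0`). -/
theorem V3 (f : A[X]) : tau Q (kz Q ^ (2 * Q.D) * aeval (ks Q) f) =
    -((Q.p0 : A) * (Q.q : A) ^ Q.D * eps Q (X ^ Q.D * f)) := by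
  have h := isW_K Q
  have hr := relZ h
  have hzs : Commute (kz Q) (ks Q) := (comm_s_z h).symm
  have hcf : ∀ g : A[X], Commute (kz Q) (aeval (ks Q) g) := tb1_comm hzs
  have hD := Q.hD
  have e1 : kz Q ^ (2 * Q.D) * aeval (ks Q) f =
      -∑ k ∈ Finset.range Q.D, kz Q ^ (2 * k) * aeval (ks Q) (f * gp Q k) +
      ((Q.b⁻¹ : Aˣ) : A) • ∑ j ∈ Finset.range Q.D,
        (Q.a • (kz Q ^ (2 * j) * aeval (ks Q) (f * (X * dp Q j)) * kt Q) -
          Q.g • (kz Q ^ (2 * j + 1) * aeval (ks Q) (f * dp Q j) * kt Q)) := by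
    have e2 := eq_sub_of_add_eq hr
    rw [((hcf f).pow_left _).eq, e2, mul_sub, Finset.mul_sum, Finset.mul_sum]
    rw [sub_eq_neg_add]
    congr 1
    · congr 1
      refine Finset.sum_congr rfl fun k _ => ?_
      rw [map_mul, ← mul_assoc, ← ((hcf f).pow_left _).eq, mul_assoc]
    · rw [smul_mul_assoc, mul_smul_comm, Finset.sum_mul, Finset.mul_sum]
      congr 1
      refine Finset.sum_congr rfl fun j _ => ?_
      have e3 : aeval (ks Q) (f * (X * dp Q j)) =
          aeval (ks Q) f * (ks Q * aeval (ks Q) (dp Q j)) := by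
        rw [map_mul, map_mul, aeval_X]
      have e4 : aeval (ks Q) (f * dp Q j) = aeval (ks Q) f * aeval (ks Q) (dp Q j) := map_mul _ _ _
      have c1 : aeval (ks Q) f * kz Q ^ (2 * j) = kz Q ^ (2 * j) * aeval (ks Q) f :=
        ((hcf f).pow_left _).eq.symm
      have c2 : ks Q * kz Q ^ (2 * j) = kz Q ^ (2 * j) * ks Q := (hzs.pow_left _).eq.symm
      have c3 : kz Q ^ (2 * j + 1) = kz Q * kz Q ^ (2 * j) := pow_succ' _ _
      have c4 : aeval (ks Q) f * kz Q = kz Q * aeval (ks Q) f := (hcf f).eq.symm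
      rw [e3, e4, c3, sub_mul, sub_mul, mul_sub, smul_mul_assoc, smul_mul_assoc, smul_mul_assoc,
        smul_mul_assoc, mul_smul_comm, mul_smul_comm]
      congr 2
      · generalize kz Q ^ (2 * j) = Z at *
        generalize aeval (ks Q) (dp Q j) = d
        generalize aeval (ks Q) f = F at *
        linear_combination (norm := noncomm_ring) F * c2 * d * kt Q + c1 * ks Q * d * kt Q
      · generalize kz Q ^ (2 * j) = Z at *
        generalize aeval (ks Q) (dp Q j) = d
        generalize aeval (ks Q) f = F at *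
        linear_combination (norm := noncomm_ring) c4 * Z * d * kt Q + kz Q * c1 * d * kt Q
  rw [e1, map_add, map_neg, map_smul, map_sum, map_sum]
  have e5 : ∀ j ∈ Finset.range Q.D,
      tau Q (Q.a • (kz Q ^ (2 * j) * aeval (ks Q) (f * (X * dp Q j)) * kt Q) -
          Q.g • (kz Q ^ (2 * j + 1) * aeval (ks Q) (f * dp Q j) * kt Q)) = 0 := by
    intro j hj
    rw [Finset.mem_range] at hj
    rw [map_sub, map_smul, map_smul, V2 Q _ (by omega), V2 Q _ (by omega), smul_zero, smul_zero,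
      sub_zero]
  rw [Finset.sum_eq_zero e5, smul_zero, add_zero]
  have e6 : ∀ k ∈ Finset.range Q.D, tau Q (kz Q ^ (2 * k) * aeval (ks Q) (f * gp Q k)) =
      if k = 0 then eps Q (f * gp Q 0) else 0 := by
    intro k hk
    rw [Finset.mem_range] at hk
    rw [V1 Q _ (by omega)]
    by_cases hk0 : k = 0
    · subst hk0
      rfl
    · rw [if_neg (by omega), if_neg hk0]
  rw [Finset.sum_congr rfl e6, Finset.sum_ite_eq' (Finset.range Q.D) 0 fun _ => eps Q (f * gp Q 0),
    if_pos (Finset.mem_range.2 hD)]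
  have e7 : f * gp Q 0 = (((Q.p0 : A) * (Q.q : A) ^ Q.D)) • (X ^ Q.D * f) := by
    unfold gp
    rw [Nat.sub_zero, Q.hp0, smul_eq_C_mul]
    ring
  rw [e7, map_smul, smul_eq_mul]

end Pool.Agent.Lib.H10K2
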