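import Pool.Agent.Lib.H10K2.TA

/-!
# Chunk TB2
-/

namespace Pool.Agent.Lib.H10K2

open Polynomial
open scoped BigOperators

universe u v

variable {A : Type u} [CommRing A] (Q : Par A) [Nontrivial A]

theorem tb2_comm {A : Type u} [CommRing A] (Q : Par A) (f : A[X]) :
    Commute (kz Q) (aeval (ks Q) f) := by
  have h : Commute (kz Q) (ks Q) := (comm_s_z (isW_K Q)).symm
  induction f using Polynomial.induction_on' with
  | add p q hp hq => rw [map_add]; exact hp.add_right hq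
  | monomial n a =>
    rw [aeval_monomial]
    exact Commute.mul_right (Algebra.commutes a (kz Q)).symm (h.pow_right n)

theorem tb2_X {A : Type u} [CommRing A] (Q : Par A) (f : A[X]) :
    ks Q * aeval (ks Q) f = aeval (ks Q) (X * f) := by
  rw [map_mul, aeval_X]

theorem tb2_commZ {A : Type u} [CommRing A] (Q : Par A) : Commute (kz Q) (ks Q) :=
  (comm_s_z (isW_K Q)).symm

theorem tb2_ff {A : Type u} [CommRing A] (Q : Par A) (f g : A[X]) :
    Commute (aeval (ks Q) f) (aeval (ks Q) g) := by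
  show _ * _ = _ * _
  rw [← map_mul, ← map_mul, mul_comm]

/-- The relation `relZ` times `t⁻¹` : `z^(2D) t⁻¹ = - ∑ z^(2k) g_k t⁻¹ + b⁻¹ (a s - γ z) ∑ ..`. -/
theorem relZ' (f : A[X]) : kz Q ^ (2 * Q.D) * aeval (ks Q) f * tinv Q (kt Q) =
    ((Q.b⁻¹ : Aˣ) : A) • ((Q.a • ks Q - Q.g • kz Q) *
        ∑ j ∈ Finset.range Q.D, kz Q ^ (2 * j) * aeval (ks Q) (dp Q j)) * aeval (ks Q) f -
      (∑ k ∈ Finset.range Q.D, kz Q ^ (2 * k) * aeval (ks Q) (gp Q k)) * aeval (ks Q) f *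
        tinv Q (kt Q) := by
  have hW := isW_K Q
  have hr := relZ hW
  set F := aeval (ks Q) f with hF
  set E := ((Q.b⁻¹ : Aˣ) : A) • ((Q.a • ks Q - Q.g • kz Q) *
        ∑ j ∈ Finset.range Q.D, kz Q ^ (2 * j) * aeval (ks Q) (dp Q j)) with hE
  set G := ∑ k ∈ Finset.range Q.D, kz Q ^ (2 * k) * aeval (ks Q) (gp Q k) with hG
  have hZF : Commute (kz Q) F := tb2_comm Q f
  have hSF : Commute (ks Q) F := by
    have := tb2_ff Q X f
    rwa [aeval_X] at this
  have hGF : Commute G F := by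
    rw [hG]
    refine Commute.sum_left _ _ _ (fun k _ => ?_)
    exact (hZF.pow_left _).mul_left (tb2_ff Q _ _)
  have hEF : Commute E F := by
    rw [hE]
    refine Commute.smul_left (Commute.mul_left ?_ ?_) _
    · exact (hSF.smul_left _).sub_left (hZF.smul_left _)
    · refine Commute.sum_left _ _ _ (fun k _ => ?_)
      exact (hZF.pow_left _).mul_left (tb2_ff Q _ _)
  have h1 : kz Q ^ (2 * Q.D) = E * kt Q - G := by
    rw [← hr]; abel
  have h2 : kt Q * tinv Q (kt Q) = 1 := mul_tinv hW.quad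
  rw [(hZF.pow_left _).eq, h1, mul_sub, sub_mul, ← mul_assoc, mul_assoc (F * E), h2, mul_one,
    hEF.eq, hGF.eq]

theorem tb2_poly {A : Type u} [CommRing A] (Q : Par A) :
    X * dp Q 0 + gp Q 0 = C ((Q.q : A) ^ Q.D) * X ^ Q.D * Q.P := by
  have h1 : Q.P = ∑ n ∈ Finset.range (Q.D + 1), C (Q.P.coeff n) * X ^ n := by
    conv_lhs => rw [Q.P.as_sum_range_C_mul_X_pow, Q.deg]
  have h2 : ∑ n ∈ Finset.range (Q.D + 1), C (Q.P.coeff n) * X ^ n =
      C (Q.P.coeff 0) + ∑ n ∈ Finset.Ioc 0 Q.D, C (Q.P.coeff n) * X ^ n := by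
    rw [Finset.sum_range_succ', pow_zero, mul_one, add_comm]
    congr 1
    refine Finset.sum_bij (fun n _ => n + 1) ?_ ?_ ?_ ?_
    · intro n hn
      rw [Finset.mem_range] at hn
      rw [Finset.mem_Ioc]
      omega
    · intro a _ b _ h
      exact Nat.succ_injective h
    · intro b hb
      rw [Finset.mem_Ioc] at hb
      exact ⟨b - 1, Finset.mem_range.2 (by omega), by omega⟩
    · intro a _
      rfl
  have h3 : X * dp Q 0 = C ((Q.q : A) ^ Q.D) * X ^ Q.D *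
      ∑ n ∈ Finset.Ioc 0 Q.D, C (Q.P.coeff n) * X ^ n := by
    rw [dp, Finset.mul_sum, Finset.mul_sum, Finset.mul_sum]
    refine Finset.sum_congr rfl (fun n hn => ?_)
    rw [Finset.mem_Ioc] at hn
    have e : X * X ^ (Q.D + n - 1 - 2 * 0) = (X ^ Q.D * X ^ n : A[X]) := by
      rw [← pow_succ', ← pow_add]
      congr 1
      omega
    calc X * (C ((Q.q : A) ^ (Q.D - 0)) * (C (Q.P.coeff n) * X ^ (Q.D + n - 1 - 2 * 0)))
        = C ((Q.q : A) ^ (Q.D - 0)) * C (Q.P.coeff n) * (X * X ^ (Q.D + n - 1 - 2 * 0)) := by ring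
      _ = C ((Q.q : A) ^ Q.D) * X ^ Q.D * (C (Q.P.coeff n) * X ^ n) := by
        rw [e, Nat.sub_zero]; ring
  rw [h3]
  conv_rhs => rw [h1, h2]
  rw [gp, Nat.sub_zero, C_mul]
  ring

/-- CHUNK TB2.  `tau (z^(2D) f(s) t⁻¹) = 0`: by `relZ'`, `V1`, `V2'` the value is
`b⁻¹ a eps (X d_0 f) + (a / b) eps (g_0 f)`, and `X d_0 + g_0` is a multiple of `P`
(`X d_0 = q^D X^D (P - p_0)`; `eps_mul_P`). -/
theorem V4 (f : A[X]) : tau Q (kz Q ^ (2 * Q.D) * aeval (ks Q) f * tinv Q (kt Q)) = 0 := by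
  have hD := Q.hD
  have hZ : ∀ g : A[X], Commute (kz Q) (aeval (ks Q) g) := fun g => tb2_comm Q g
  rw [relZ', map_sub]
  have e1 : ((Q.b⁻¹ : Aˣ) : A) • ((Q.a • ks Q - Q.g • kz Q) *
        ∑ j ∈ Finset.range Q.D, kz Q ^ (2 * j) * aeval (ks Q) (dp Q j)) * aeval (ks Q) f =
      ((Q.b⁻¹ : Aˣ) : A) • ∑ j ∈ Finset.range Q.D,
        (Q.a • (kz Q ^ (2 * j) * aeval (ks Q) (X * dp Q j * f)) -
          Q.g • (kz Q ^ (2 * j + 1) * aeval (ks Q) (dp Q j * f))) := by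
    rw [smul_mul_assoc, mul_assoc, Finset.sum_mul, Finset.mul_sum]
    congr 1
    refine Finset.sum_congr rfl (fun j _ => ?_)
    rw [sub_mul, smul_mul_assoc, smul_mul_assoc]
    congr 1
    · congr 1
      rw [mul_assoc (kz Q ^ (2 * j)), ← map_mul, ← mul_assoc, ← ((tb2_commZ Q).pow_left _).eq,
        mul_assoc, tb2_X, mul_assoc X]
    · congr 1
      rw [mul_assoc (kz Q ^ (2 * j)), ← map_mul, ← mul_assoc, ← pow_succ']
  have e2 : (∑ k ∈ Finset.range Q.D, kz Q ^ (2 * k) * aeval (ks Q) (gp Q k)) * aeval (ks Q) f *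
        tinv Q (kt Q) = ∑ k ∈ Finset.range Q.D,
          kz Q ^ (2 * k) * aeval (ks Q) (gp Q k * f) * tinv Q (kt Q) := by
    rw [Finset.sum_mul, Finset.sum_mul]
    refine Finset.sum_congr rfl (fun j _ => ?_)
    rw [map_mul, mul_assoc (kz Q ^ (2 * j))]
  have t1 : tau Q (((Q.b⁻¹ : Aˣ) : A) • ∑ j ∈ Finset.range Q.D,
        (Q.a • (kz Q ^ (2 * j) * aeval (ks Q) (X * dp Q j * f)) -
          Q.g • (kz Q ^ (2 * j + 1) * aeval (ks Q) (dp Q j * f)))) =
      ((Q.b⁻¹ : Aˣ) : A) * (Q.a * eps Q (X * dp Q 0 * f)) := by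
    rw [map_smul, map_sum, smul_eq_mul]
    congr 1
    rw [Finset.sum_eq_single 0]
    · rw [map_sub, map_smul, map_smul, V1 Q _ (by omega), V1 Q _ (by omega)]
      simp
    · intro j hj hj0
      rw [Finset.mem_range] at hj
      rw [map_sub, map_smul, map_smul, V1 Q _ (by omega), V1 Q _ (by omega), if_neg (by omega),
        if_neg (by omega)]
      simp
    · intro h
      exact absurd (Finset.mem_range.2 hD) h
  have t2 : tau Q (∑ k ∈ Finset.range Q.D,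
          kz Q ^ (2 * k) * aeval (ks Q) (gp Q k * f) * tinv Q (kt Q)) =
      -(((Q.b⁻¹ : Aˣ) : A) * Q.a * eps Q (gp Q 0 * f)) := by
    rw [map_sum, Finset.sum_eq_single 0]
    · rw [V2' Q _ (by omega)]
      simp
    · intro j hj hj0
      rw [Finset.mem_range] at hj
      rw [V2' Q _ (by omega), if_neg (by omega)]
    · intro h
      exact absurd (Finset.mem_range.2 hD) h
  rw [e1, e2, t1, t2]
  have h5 : eps Q (X * dp Q 0 * f) + eps Q (gp Q 0 * f) = 0 := by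
    rw [← map_add, ← add_mul, tb2_poly, mul_right_comm]
    exact eps_mul_P Q _
  calc ((Q.b⁻¹ : Aˣ) : A) * (Q.a * eps Q (X * dp Q 0 * f)) -
        -(((Q.b⁻¹ : Aˣ) : A) * Q.a * eps Q (gp Q 0 * f)) =
      ((Q.b⁻¹ : Aˣ) : A) * Q.a * (eps Q (X * dp Q 0 * f) + eps Q (gp Q 0 * f)) := by ring
    _ = 0 := by rw [h5, mul_zero]

end Pool.Agent.Lib.H10K2
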