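import Pool.Agent.Lib.H10K2.TB2

/-!
# Chunk TB3
-/

namespace Pool.Agent.Lib.H10K2

open Polynomial
open scoped BigOperators

universe u v

variable {A : Type u} [CommRing A] (Q : Par A) [Nontrivial A]

omit [Nontrivial A] in
theorem tb3_comm {z s : K Q} (h : Commute z s) (g : A[X]) : Commute z (aeval s g) := by
  induction g using Polynomial.induction_on' with
  | add p q hp hq => rw [map_add]; exact hp.add_right hq
  | monomial n c =>
    rw [aeval_monomial, ← Algebra.smul_def]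
    exact (h.pow_right n).smul_right c

/-- CHUNK TB3.  Multiply `relZ'` by `z`.  The terms `z^(2k+1) g_k f t⁻¹` have `0 < 2k+1 < 2D`
(`V2'`: no contribution).  `b⁻¹ a s z^(2j+1) d_j f` : `0 < 2j+1 < 2D`, no contribution (`V1`).
`- b⁻¹ γ z^(2j+2) d_j f` : for `j < D - 1` no contribution, for `j = D - 1`, `d_(D-1) = q X`
(`dp_top`) and `- b⁻¹ γ q = a'`. -/
theorem V5 (f : A[X]) : tau Q (kz Q ^ (2 * Q.D + 1) * aeval (ks Q) f * tinv Q (kt Q)) =
    Q.a' * tau Q (kz Q ^ (2 * Q.D) * aeval (ks Q) (X * f)) := by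
  have hD := Q.hD
  have hzs : Commute (kz Q) (ks Q) := (isW_K Q).sz.symm
  have hzf : ∀ g : A[X], Commute (kz Q) (aeval (ks Q) g) := fun g =>
    tb3_comm Q hzs g
  have e1 : kz Q ^ (2 * Q.D + 1) * aeval (ks Q) f * tinv Q (kt Q) =
      kz Q * (kz Q ^ (2 * Q.D) * aeval (ks Q) f * tinv Q (kt Q)) := by
    rw [pow_succ']
    simp only [mul_assoc]
  have e2 : kz Q * ((∑ k ∈ Finset.range Q.D, kz Q ^ (2 * k) * aeval (ks Q) (gp Q k)) *
      aeval (ks Q) f * tinv Q (kt Q)) =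
      ∑ k ∈ Finset.range Q.D, kz Q ^ (2 * k + 1) * aeval (ks Q) (gp Q k * f) *
        tinv Q (kt Q) := by
    rw [Finset.sum_mul, Finset.sum_mul, Finset.mul_sum]
    refine Finset.sum_congr rfl fun k _ => ?_
    rw [map_mul, pow_succ']
    simp only [mul_assoc]
  have e3 : kz Q * (((Q.b⁻¹ : Aˣ) : A) • ((Q.a • ks Q - Q.g • kz Q) *
      ∑ j ∈ Finset.range Q.D, kz Q ^ (2 * j) * aeval (ks Q) (dp Q j)) * aeval (ks Q) f) =
      ((Q.b⁻¹ : Aˣ) : A) • ∑ j ∈ Finset.range Q.D,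
        (Q.a • (kz Q ^ (2 * j + 1) * aeval (ks Q) (X * dp Q j * f)) -
          Q.g • (kz Q ^ (2 * j + 2) * aeval (ks Q) (dp Q j * f))) := by
    rw [smul_mul_assoc, mul_smul_comm, Finset.mul_sum, Finset.sum_mul, Finset.mul_sum]
    congr 1
    refine Finset.sum_congr rfl fun j _ => ?_
    rw [map_mul, map_mul, map_mul, aeval_X, sub_mul, sub_mul, mul_sub, smul_mul_assoc,
      smul_mul_assoc, mul_smul_comm, smul_mul_assoc, smul_mul_assoc, mul_smul_comm]
    congr 2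
    · rw [pow_succ', ← mul_assoc (ks Q), ((hzs.pow_left (2 * j)).eq).symm]
      simp only [mul_assoc]
    · rw [pow_succ' (kz Q) (2 * j + 1), pow_succ' (kz Q) (2 * j)]
      simp only [mul_assoc]
  rw [e1, relZ', mul_sub, e2, e3, map_sub, map_smul, map_sum, map_sum]
  have z1 : ∑ k ∈ Finset.range Q.D, tau Q (kz Q ^ (2 * k + 1) * aeval (ks Q) (gp Q k * f) *
      tinv Q (kt Q)) = 0 := by
    refine Finset.sum_eq_zero fun k hk => ?_
    have hk' := Finset.mem_range.1 hk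
    rw [V2' Q (2 * k + 1) (by omega), if_neg (by omega)]
  have z2 : ∑ j ∈ Finset.range Q.D,
      tau Q (Q.a • (kz Q ^ (2 * j + 1) * aeval (ks Q) (X * dp Q j * f)) -
        Q.g • (kz Q ^ (2 * j + 2) * aeval (ks Q) (dp Q j * f))) =
      -(Q.g * tau Q (kz Q ^ (2 * Q.D) * aeval (ks Q) (dp Q (Q.D - 1) * f))) := by
    rw [Finset.sum_eq_single (Q.D - 1)]
    · rw [map_sub, map_smul, map_smul, V1 Q (2 * (Q.D - 1) + 1) (by omega), if_neg (by omega)]
      have e4 : 2 * (Q.D - 1) + 2 = 2 * Q.D := by omega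
      rw [e4, smul_zero, zero_sub, smul_eq_mul]
    · intro j hj hne
      have hj' := Finset.mem_range.1 hj
      rw [map_sub, map_smul, map_smul, V1 Q (2 * j + 1) (by omega), if_neg (by omega),
        V1 Q (2 * j + 2) (by omega), if_neg (by omega), smul_zero, smul_zero, sub_zero]
    · intro h
      exact absurd (Finset.mem_range.2 (by omega)) h
  have e5 : kz Q ^ (2 * Q.D) * aeval (ks Q) (C (Q.q : A) * X * f) =
      (Q.q : A) • (kz Q ^ (2 * Q.D) * aeval (ks Q) (X * f)) := by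
    rw [mul_assoc (C (Q.q : A)), map_mul (aeval (ks Q)) (C (Q.q : A)), aeval_C,
      ← Algebra.smul_def, mul_smul_comm]
  rw [z1, z2, sub_zero, dp_top, e5, map_smul, smul_eq_mul, smul_eq_mul, Par.g, Par.q,
    Units.val_mul]
  have h5 : ((Q.b⁻¹ : Aˣ) : A) * (Q.b : A) = 1 := Units.inv_mul _
  have h6 : ((Q.b'⁻¹ : Aˣ) : A) * (Q.b' : A) = 1 := Units.inv_mul _
  linear_combination (Q.a' * tau Q (kz Q ^ (2 * Q.D) * aeval (ks Q) (X * f))) *
    (((Q.b'⁻¹ : Aˣ) : A) * (Q.b' : A) * h5 + h6)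

end Pool.Agent.Lib.H10K2
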