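import Pool.Agent.Lib.H10K2.TB
import Pool.Agent.Lib.H10K2.C3
import Pool.Agent.Lib.H10K2.C4

/-!
# Chunk TC1
-/

namespace Pool.Agent.Lib.H10K2

open Polynomial
open scoped BigOperators

universe u v

variable {A : Type u} [CommRing A] (Q : Par A) [Nontrivial A]

omit [Nontrivial A] in
theorem tc1_comm_z_aeval (f : A[X]) : Commute (kz Q) (aeval (ks Q) f) := by
  have h := (isW_K Q).sz
  refine Polynomial.induction_on' (motive := fun f => Commute (kz Q) (aeval (ks Q) f)) f ?_ ?_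
  · intro p q hp hq
    rw [map_add]
    exact hp.add_right hq
  · intro n c
    rw [aeval_monomial]
    have h1 : Commute (kz Q) (ks Q) := h.symm
    exact (Algebra.commute_algebraMap_right c (kz Q)).mul_right (h1.pow_right n)

omit [Nontrivial A] in
/-- `t s = b'⁻¹ z² si tinv + γ z`. -/
theorem tc1_ts : kt Q * ks Q =
    ((Q.b'⁻¹ : Aˣ) : A) • (kz Q * kz Q * ksi Q * tinv Q (kt Q)) + Q.g • kz Q := by
  rw [(isW_K Q).W]
  congr 1
  have : (Q.q⁻¹ : Aˣ) = Q.b'⁻¹ * Q.b⁻¹ := by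
    rw [Par.q, mul_inv_rev]
  rw [tinv, mul_smul_comm, smul_smul, this, Units.val_mul]

/-- CHUNK TC1.  `t s = b'⁻¹ z² si tinv + γ z` (`(isW_K Q).W`, `t - a = b tinv`, `q⁻¹ b = b'⁻¹`), so
`tau (z^k f t s) = b'⁻¹ tau (z^(k+2) (f N)(s) tinv) + γ tau (z^(k+1) f)` with `si = N(s)`.
If `k + 2 < 2D` both are `0` (`V2'`, `V1`); if `k + 2 = 2D` : `V4` and `V1` (`0 < k+1 < 2D`); if
`k + 2 = 2D + 1` : `V5` gives `b'⁻¹ a' tau (z^(2D) (X f N)(s)) + γ tau (z^(2D) f)`,
`(X f N)(s) = f(s)` and `γ = - a' b'⁻¹`. -/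
theorem tau_ts (k : ℕ) (hk : k < 2 * Q.D) (f : A[X]) :
    tau Q (kz Q ^ k * aeval (ks Q) f * kt Q * ks Q) = 0 := by
  have hN : aeval (ks Q) (np Q) = ksi Q := (isW_K Q).aeval_np
  have e1 : kz Q ^ k * aeval (ks Q) f * kt Q * ks Q =
      ((Q.b'⁻¹ : Aˣ) : A) • (kz Q ^ (k + 2) * aeval (ks Q) (f * np Q) * tinv Q (kt Q)) +
        Q.g • (kz Q ^ (k + 1) * aeval (ks Q) f) := by
    have hc := tc1_comm_z_aeval Q f
    rw [mul_assoc, tc1_ts, mul_add, mul_smul_comm, mul_smul_comm, map_mul, hN]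
    congr 2
    · rw [pow_add, pow_two]
      calc kz Q ^ k * aeval (ks Q) f * (kz Q * kz Q * ksi Q * tinv Q (kt Q))
          = kz Q ^ k * (aeval (ks Q) f * (kz Q * kz Q)) * ksi Q * tinv Q (kt Q) := by
            simp only [mul_assoc]
        _ = kz Q ^ k * ((kz Q * kz Q) * aeval (ks Q) f) * ksi Q * tinv Q (kt Q) := by
            rw [(hc.mul_left hc).symm.eq]
        _ = kz Q ^ k * (kz Q * kz Q) * (aeval (ks Q) f * ksi Q) * tinv Q (kt Q) := by
            simp only [mul_assoc]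
    · rw [pow_succ, mul_assoc, mul_assoc, hc.symm.eq]
  rw [e1, map_add, map_smul, map_smul]
  rcases lt_trichotomy (k + 2) (2 * Q.D) with h1 | h1 | h1
  · rw [V2' Q (k + 2) h1, V1 Q (k + 1) (by omega), if_neg (by omega), if_neg (by omega)]
    simp
  · rw [V1 Q (k + 1) (by omega), if_neg (by omega), h1, V4]
    simp
  · have h2 : k + 2 = 2 * Q.D + 1 := by omega
    have h3 : k + 1 = 2 * Q.D := by omega
    rw [h2, h3, V5]
    have h4 : aeval (ks Q) (X * (f * np Q)) = aeval (ks Q) f := by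
      rw [map_mul, map_mul, aeval_X, hN]
      have h5 : ks Q * aeval (ks Q) f = aeval (ks Q) f * ks Q := by
        have h6 : aeval (ks Q) (X * f) = aeval (ks Q) (f * X) := by rw [mul_comm]
        rwa [map_mul, map_mul, aeval_X] at h6
      rw [← mul_assoc, h5, mul_assoc, (isW_K Q).s_si, mul_one]
    rw [h4, Par.g]
    simp only [smul_eq_mul]
    ring

/-- CHUNK TC1.  By linearity (`kw_span`) `h = z^k s^i t^a`; `a = 0` : commute; `a = 1` : `tau_ts` and
`V2`. -/
theorem tau_mul_s (h : K Q) : tau Q (h * ks Q) = tau Q (ks Q * h) := by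
  have hh : h ∈ Submodule.span A (Set.range (kw Q)) := kw_span Q trivial
  induction hh using Submodule.span_induction with
  | zero => rw [zero_mul, mul_zero]
  | add x y _ _ hx hy => rw [add_mul, mul_add, map_add, map_add, hx, hy]
  | smul c x _ hx => rw [smul_mul_assoc, mul_smul_comm, map_smul, map_smul, hx]
  | mem x hx =>
    obtain ⟨⟨a, k, i⟩, rfl⟩ := hx
    have hzs : Commute (kz Q) (ks Q) := (isW_K Q).sz.symm
    have hk := k.2
    have e2 : ks Q * kw Q (a, k, i) =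
        kz Q ^ (k : ℕ) * aeval (ks Q) (X ^ ((i : ℕ) + 1) : A[X]) * kt Q ^ (a : ℕ) := by
      simp only [kw, map_pow, aeval_X]
      rw [← mul_assoc, ← mul_assoc, (hzs.pow_left _).symm.eq, mul_assoc (kz Q ^ (k : ℕ)),
        pow_succ']
    have e1 : kw Q (a, k, i) * ks Q =
        kz Q ^ (k : ℕ) * aeval (ks Q) (X ^ (i : ℕ) : A[X]) * kt Q ^ (a : ℕ) * ks Q := by
      simp only [kw, map_pow, aeval_X]
    rw [e1, e2]
    fin_cases a
    · simp only [pow_zero, mul_one, map_pow, aeval_X]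
      rw [mul_assoc, pow_succ]
    · simp only [pow_one]
      rw [tau_ts Q _ hk, V2 Q _ hk]

end Pool.Agent.Lib.H10K2
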