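import Pool.Agent.Lib.H10K2.TB
import Pool.Agent.Lib.H10K2.C4

/-!
# Chunk TC2
-/

namespace Pool.Agent.Lib.H10K2

open Polynomial
open scoped BigOperators

universe u v

variable {A : Type u} [CommRing A] (Q : Par A) [Nontrivial A]

omit [Nontrivial A] in
theorem tc2_comm (f : A[X]) (n : ℕ) : Commute (aeval (ks Q) f) (kz Q ^ n) := by
  have h : Commute (kz Q) (ks Q) := (isW_K Q).sz.symm
  refine Commute.pow_right ?_ n
  refine Polynomial.induction_on' (motive := fun f => Commute (aeval (ks Q) f) (kz Q)) f ?_ ?_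
  · intro p q hp hq
    rw [map_add]
    exact hp.add_left hq
  · intro n c
    rw [aeval_monomial]
    exact (Algebra.commute_algebraMap_left c (kz Q)).mul_left (h.symm.pow_left n)

omit [Nontrivial A] in
theorem tc2_mul (k n : ℕ) (f g : A[X]) :
    kz Q ^ k * aeval (ks Q) f * (kz Q ^ n * aeval (ks Q) g) =
      kz Q ^ (k + n) * aeval (ks Q) (f * g) := by
  have h := tc2_comm Q f n
  calc kz Q ^ k * aeval (ks Q) f * (kz Q ^ n * aeval (ks Q) g)
      = kz Q ^ k * (aeval (ks Q) f * kz Q ^ n) * aeval (ks Q) g := by simp only [mul_assoc]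
    _ = kz Q ^ k * (kz Q ^ n * aeval (ks Q) f) * aeval (ks Q) g := by rw [h.eq]
    _ = _ := by rw [pow_add, map_mul]; simp only [mul_assoc]

omit [Nontrivial A] in
theorem tc2_expand (k i : ℕ) (f : A[X]) : ∃ c : ℕ → A[X],
    kz Q ^ k * aeval (ks Q) f * kt Q * ks Q ^ i =
      kz Q ^ (k + 2 * i) * aeval (ks Q) (f * (C (((Q.q⁻¹ : Aˣ) : A) ^ i) * np Q ^ i)) * kt Q +
      ∑ m ∈ Finset.range (2 * i), kz Q ^ (k + (m + 1)) * aeval (ks Q) (f * c m) := by
  obtain ⟨c, hc⟩ := t_mul_pow (isW_K Q) i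
  refine ⟨c, ?_⟩
  rw [mul_assoc, hc, mul_add, Finset.mul_sum]
  congr 1
  · rw [← mul_assoc, tc2_mul]
  · exact Finset.sum_congr rfl fun m _ => tc2_mul Q k (m + 1) f (c m)

/-- CHUNK TC2.  `k ≤ 1`, `i < D` : `t_mul_pow` : `z^k f t s^i` is `z^(k+2i) (..)(s) t +
∑_{m<2i} z^(k+m+1) (..)(s)`, `k + 2i < 2D` and `0 < k + m + 1 < 2D`: `V2`, `V1`. -/
theorem V6 (k i : ℕ) (hk : k ≤ 1) (hi : i < Q.D) (f : A[X]) :
    tau Q (kz Q ^ k * aeval (ks Q) f * kt Q * ks Q ^ i) = 0 := by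
  obtain ⟨c, hc⟩ := tc2_expand Q k i f
  rw [hc, map_add, V2 Q _ (by omega), map_sum, zero_add]
  refine Finset.sum_eq_zero fun m hm => ?_
  rw [Finset.mem_range] at hm
  rw [V1 Q _ (by omega), if_neg (by omega)]

/-- CHUNK TC2.  Multiply by `t` on the right: `t² = a t + b` : the terms are
`z^(k+2i) (f (q^-i N^i))(s) (a t + b)` and `z^(k+m+1) (..)(s) t`; only
`b tau (z^(k+2i) ..)` can contribute, and only if `k = 0` and `i = 0`. -/
theorem V7 (k i : ℕ) (hk : k ≤ 1) (hi : i < Q.D) (f : A[X]) :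
    tau Q (kz Q ^ k * aeval (ks Q) f * kt Q * ks Q ^ i * kt Q) =
      if k = 0 ∧ i = 0 then (Q.b : A) * eps Q f else 0 := by
  obtain ⟨c, hc⟩ := tc2_expand Q k i f
  have h0 : ∑ m ∈ Finset.range (2 * i),
      tau Q (kz Q ^ (k + (m + 1)) * aeval (ks Q) (f * c m) * kt Q) = 0 := by
    refine Finset.sum_eq_zero fun m hm => ?_
    rw [Finset.mem_range] at hm
    rw [V2 Q _ (by omega)]
  rw [hc, add_mul, Finset.sum_mul, map_add, map_sum, h0, add_zero, mul_assoc, (isW_K Q).quad,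
    mul_add, mul_smul_comm, mul_smul_comm, map_add, map_smul, map_smul, V2 Q _ (by omega),
    mul_one, V1 Q _ (by omega), smul_zero, zero_add]
  by_cases h : k = 0 ∧ i = 0
  · rw [if_pos (by omega), if_pos h, h.2]
    simp
  · rw [if_neg (by omega), if_neg h, smul_zero]

end Pool.Agent.Lib.H10K2
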