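import Pool.Agent.Lib.H10K2.TC2

/-!
# Chunk TC3
-/

namespace Pool.Agent.Lib.H10K2

open Polynomial
open scoped BigOperators

universe u v

variable {A : Type u} [CommRing A] (Q : Par A) [Nontrivial A]

/-- The commutator-like elements `f t g - g t f`. -/
noncomputable def XX (f g : A[X]) : K Q :=
  aeval (ks Q) f * kt Q * aeval (ks Q) g - aeval (ks Q) g * kt Q * aeval (ks Q) f

omit [Nontrivial A] in
theorem tc3_aeval_sum (g : A[X]) : aeval (ks Q) g =
    ∑ i ∈ Finset.range Q.D, (g %ₘ Q.P).coeff i • ks Q ^ i := by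
  rw [← aeval_mod Q (isW_K Q).pol g]
  refine aeval_eq_sum_range' ?_ _
  have h1 : Q.P ≠ 1 := by
    intro h
    have h2 := Q.deg
    have h3 := Q.hD
    rw [h, natDegree_one] at h2
    omega
  have h4 := natDegree_modByMonic_lt g Q.monic h1
  rwa [Q.deg] at h4

theorem tc3_V6 (k : ℕ) (hk : k ≤ 1) (f g : A[X]) :
    tau Q (kz Q ^ k * aeval (ks Q) f * kt Q * aeval (ks Q) g) = 0 := by
  rw [tc3_aeval_sum Q g, Finset.mul_sum, map_sum]
  refine Finset.sum_eq_zero fun i hi => ?_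
  rw [Finset.mem_range] at hi
  rw [mul_smul_comm, map_smul, V6 Q k i hk hi, smul_zero]

theorem tc3_V7 (k : ℕ) (hk : k ≤ 1) (f g : A[X]) :
    tau Q (kz Q ^ k * aeval (ks Q) f * kt Q * aeval (ks Q) g * kt Q) =
      if k = 0 then (Q.b : A) * (eps Q f * eps Q g) else 0 := by
  rw [tc3_aeval_sum Q g, Finset.mul_sum, Finset.sum_mul, map_sum]
  have h1 : ∀ i ∈ Finset.range Q.D,
      tau Q (kz Q ^ k * aeval (ks Q) f * kt Q * ((g %ₘ Q.P).coeff i • ks Q ^ i) * kt Q) =
      if i = 0 then (if k = 0 then (Q.b : A) * (eps Q f * eps Q g) else 0) else 0 := by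
    intro i hi
    rw [Finset.mem_range] at hi
    rw [mul_smul_comm, smul_mul_assoc, map_smul, V7 Q k i hk hi]
    by_cases hk0 : k = 0
    · by_cases hi0 : i = 0
      · rw [if_pos ⟨hk0, hi0⟩, if_pos hi0, if_pos hk0, hi0, eps_apply Q g, smul_eq_mul]
        ring
      · rw [if_neg (fun h => hi0 h.2), if_neg hi0, smul_zero]
    · rw [if_neg (fun h => hk0 h.1), if_neg hk0, smul_zero]
      simp
  rw [Finset.sum_congr rfl h1, Finset.sum_ite_eq' (Finset.range Q.D) 0,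
    if_pos (Finset.mem_range.2 Q.hD)]

/-- CHUNK TC3.  `k ≤ 1`.  Bilinear in `f`, `g`, which may be replaced by their remainders modulo `P`
(`aeval_mod`), so `f = X^j`, `g = X^i`, `i, j < D`: `V6`, `V7`, and `eps_X_pow` (the two terms of
`V7` are `b [k=0][i=0] [j=0]` both). -/
theorem tau_XX_small (k : ℕ) (hk : k ≤ 1) (f g : A[X]) :
    tau Q (kz Q ^ k * XX Q f g) = 0 ∧ tau Q (kz Q ^ k * XX Q f g * kt Q) = 0 := by
  have e1 : kz Q ^ k * XX Q f g = kz Q ^ k * aeval (ks Q) f * kt Q * aeval (ks Q) g -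
      kz Q ^ k * aeval (ks Q) g * kt Q * aeval (ks Q) f := by
    rw [XX, mul_sub]
    simp only [mul_assoc]
  rw [e1, sub_mul, map_sub, map_sub, tc3_V6 Q k hk f g, tc3_V6 Q k hk g f, tc3_V7 Q k hk f g,
    tc3_V7 Q k hk g f, mul_comm (eps Q f)]
  simp

end Pool.Agent.Lib.H10K2
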