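import Pool.Agent.Lib.H10K2.TC3
import Pool.Agent.Lib.H10K2.C3

/-!
# Chunk TC4
-/

namespace Pool.Agent.Lib.H10K2

open Polynomial
open scoped BigOperators

universe u v

variable {A : Type u} [CommRing A] (Q : Par A) [Nontrivial A]

omit [Nontrivial A] in
theorem tc4_s_comm (g : A[X]) : aeval (ks Q) g * ks Q = ks Q * aeval (ks Q) g := by
  have h6 : aeval (ks Q) (g * X) = aeval (ks Q) (X * g) := by rw [mul_comm]
  rwa [map_mul, map_mul, aeval_X] at h6

omit [Nontrivial A] in
theorem tc4_step (k : ℕ) (f g : A[X]) : kz Q ^ (k + 2) * XX Q f g =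
    (Q.q : A) • (kz Q ^ k * XX Q (X * f) (X * g)) := by
  have h := X_step (isW_K Q) f g
  have e : ks Q * XX Q f g * ks Q = XX Q (X * f) (X * g) := by
    rw [XX, XX, map_mul, map_mul, aeval_X, mul_sub, sub_mul]
    congr 1
    · calc ks Q * (aeval (ks Q) f * kt Q * aeval (ks Q) g) * ks Q
          = ks Q * aeval (ks Q) f * kt Q * (aeval (ks Q) g * ks Q) := by simp only [mul_assoc]
        _ = _ := by rw [tc4_s_comm]
    · calc ks Q * (aeval (ks Q) g * kt Q * aeval (ks Q) f) * ks Q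
          = ks Q * aeval (ks Q) g * kt Q * (aeval (ks Q) f * ks Q) := by simp only [mul_assoc]
        _ = _ := by rw [tc4_s_comm]
  change kz Q * kz Q * XX Q f g = (Q.q : A) • (ks Q * XX Q f g * ks Q) at h
  rw [pow_add, pow_two, mul_assoc, h, e, mul_smul_comm]

/-- CHUNK TC4.  Induction on `k` by steps of `2`: `X_step` : `z² XX f g = q s (XX f g) s =
q XX (X f) (X g)`. -/
theorem tau_XX (k : ℕ) (f g : A[X]) :
    tau Q (kz Q ^ k * XX Q f g) = 0 ∧ tau Q (kz Q ^ k * XX Q f g * kt Q) = 0 := by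
  induction k using Nat.strong_induction_on generalizing f g with
  | _ k ih =>
    by_cases hk : k ≤ 1
    · exact tau_XX_small Q k hk f g
    · obtain ⟨m, rfl⟩ : ∃ m, k = m + 2 := ⟨k - 2, by omega⟩
      obtain ⟨h1, h2⟩ := ih m (by omega) (X * f) (X * g)
      rw [tc4_step, smul_mul_assoc, map_smul, map_smul, h1, h2, smul_zero]
      exact ⟨rfl, rfl⟩

/-- CHUNK TC4.  By linearity `h = z^k f(s) t^a`, `a < 2` : `h t - t h = z^k (f t - t f) t^a =
z^k XX f 1 t^a`. -/
theorem tau_mul_t (h : K Q) : tau Q (h * kt Q) = tau Q (kt Q * h) := by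
  have hh : h ∈ Submodule.span A (Set.range (kw Q)) := kw_span Q trivial
  induction hh using Submodule.span_induction with
  | zero => rw [zero_mul, mul_zero]
  | add x y _ _ hx hy => rw [add_mul, mul_add, map_add, map_add, hx, hy]
  | smul c x _ hx => rw [smul_mul_assoc, mul_smul_comm, map_smul, map_smul, hx]
  | mem x hx =>
    obtain ⟨⟨a, k, i⟩, rfl⟩ := hx
    have hzt : Commute (kz Q ^ (k : ℕ)) (kt Q) := Commute.pow_left (isW_K Q).tz.symm _
    rw [← sub_eq_zero, ← map_sub]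
    have e : kw Q (a, k, i) * kt Q - kt Q * kw Q (a, k, i) =
        kz Q ^ (k : ℕ) * XX Q (X ^ (i : ℕ) : A[X]) 1 * kt Q ^ (a : ℕ) := by
      simp only [kw, XX, map_pow, aeval_X, map_one, mul_one, one_mul]
      rw [mul_sub, sub_mul]
      congr 1
      · calc kz Q ^ (k : ℕ) * ks Q ^ (i : ℕ) * kt Q ^ (a : ℕ) * kt Q
            = kz Q ^ (k : ℕ) * ks Q ^ (i : ℕ) * (kt Q ^ (a : ℕ) * kt Q) := by
              simp only [mul_assoc]
          _ = kz Q ^ (k : ℕ) * ks Q ^ (i : ℕ) * (kt Q * kt Q ^ (a : ℕ)) := by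
              rw [← pow_succ, pow_succ']
          _ = _ := by simp only [mul_assoc]
      · calc kt Q * (kz Q ^ (k : ℕ) * ks Q ^ (i : ℕ) * kt Q ^ (a : ℕ))
            = kt Q * kz Q ^ (k : ℕ) * ks Q ^ (i : ℕ) * kt Q ^ (a : ℕ) := by
              simp only [mul_assoc]
          _ = _ := by rw [← hzt.eq]; simp only [mul_assoc]
    rw [e]
    fin_cases a
    · simp only [pow_zero, mul_one]
      exact (tau_XX Q _ _ _).1
    · simp only [pow_one]
      exact (tau_XX Q _ _ _).2

theorem tau_mul_tinv (h : K Q) : tau Q (h * tinv Q (kt Q)) = tau Q (tinv Q (kt Q) * h) := by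
  rw [tinv, mul_smul_comm, smul_mul_assoc, map_smul, map_smul, mul_sub, sub_mul, map_sub, map_sub,
    tau_mul_t, mul_smul_comm, smul_mul_assoc, mul_one, one_mul]

end Pool.Agent.Lib.H10K2
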