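import Pool.Agent.Lib.H10K2.TC1
import Pool.Agent.Lib.H10K2.TC4

/-!
# Chunk TC5 : `tau` is a trace
-/

namespace Pool.Agent.Lib.H10K2

open Polynomial
open scoped BigOperators

universe u v

variable {A : Type u} [CommRing A] (Q : Par A) [Nontrivial A]

omit [Nontrivial A] in
theorem tc5_kz_comm (h : K Q) : Commute (kz Q) h := by
  have hW := isW_K Q
  have hs : Commute (kz Q) (ks Q) := hW.sz.symm
  have ht : Commute (kz Q) (kt Q) := hW.tz.symm
  have hsi : Commute (kz Q) (ksi Q) := hW.siz.symm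
  have hti : Commute (kz Q) (tinv Q (kt Q)) :=
    (ht.sub_right ((Commute.one_right (kz Q)).smul_right _)).smul_right _
  refine K_induction (p := fun h => Commute (kz Q) h) ?_ hs ht ?_ ?_ ?_ h
  · intro r
    exact Algebra.commute_algebraMap_right r (kz Q)
  · rw [ku_eq]
    exact (hti.mul_right hsi).mul_right (Commute.refl (kz Q))
  · intro x y hx hy
    exact hx.add_right hy
  · intro x y hx hy
    exact hx.mul_right hy

/-- CHUNK TC5.  `kz Q` commutes with everything: `K_induction` (with `ku_eq`). -/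
theorem kz_comm (h : K Q) : kz Q * h = h * kz Q :=
  tc5_kz_comm Q h

/-- CHUNK TC5.  From `tau_mul_s` with `h := si h si`. -/
theorem tau_mul_si (h : K Q) : tau Q (h * ksi Q) = tau Q (ksi Q * h) := by
  have h1 := tau_mul_s Q (ksi Q * h * ksi Q)
  have e1 : ksi Q * h * ksi Q * ks Q = ksi Q * h := by
    rw [mul_assoc, (isW_K Q).si_s, mul_one]
  have e2 : ks Q * (ksi Q * h * ksi Q) = h * ksi Q := by
    rw [← mul_assoc, ← mul_assoc, (isW_K Q).s_si, one_mul]
  rw [e1, e2] at h1
  exact h1.symm

/-- CHUNK TC5.  The set of `y` with `tau (x y) = tau (y x)` for all `x` is a subalgebra containing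
`s`, `t`, `tinv`, `si`, `z`, hence `u` (`ku_eq`): `K_induction`. -/
theorem tau_comm (x y : K Q) : tau Q (x * y) = tau Q (y * x) := by
  have hmul : ∀ y y' : K Q, (∀ x, tau Q (x * y) = tau Q (y * x)) →
      (∀ x, tau Q (x * y') = tau Q (y' * x)) →
      ∀ x, tau Q (x * (y * y')) = tau Q (y * y' * x) := by
    intro y y' hy hy' x
    rw [← mul_assoc, hy', ← mul_assoc, hy, mul_assoc]
  have key : ∀ y : K Q, ∀ x, tau Q (x * y) = tau Q (y * x) := by
    intro y
    refine K_induction (p := fun y => ∀ x, tau Q (x * y) = tau Q (y * x)) ?_ (tau_mul_s Q)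
      (tau_mul_t Q) ?_ ?_ hmul y
    · intro r x
      rw [Algebra.commutes]
    · rw [ku_eq]
      refine hmul _ _ (hmul _ _ (tau_mul_tinv Q) (tau_mul_si Q)) ?_
      intro x
      rw [kz_comm]
    · intro y y' hy hy' x
      rw [mul_add, add_mul, map_add, map_add, hy, hy']
  exact key y x

end Pool.Agent.Lib.H10K2
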