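import Pool.Agent.Lib.H10K2.Defs

/-!
# Chunk W1 : from `IsH` to the working form `IsW`
-/

namespace Pool.Agent.Lib.H10K2

open Polynomial

universe u v

/-- The inverse of `t` : `b⁻¹ (t - a)`. -/
def tinv {A : Type u} [CommRing A] (Q : Par A) {L : Type v} [Ring L] [Algebra A L] (t : L) : L :=
  ((Q.b⁻¹ : Aˣ) : A) • (t - Q.a • 1)

variable {A : Type u} [CommRing A] {Q : Par A} {L : Type v} [Ring L] [Algebra A L]

theorem mul_tinv {t : L} (h : t * t = Q.a • t + (Q.b : A) • (1 : L)) : t * tinv Q t = 1 := by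
  rw [tinv, mul_smul_comm, mul_sub, h, mul_smul_comm, mul_one, add_sub_cancel_left, smul_smul,
    Units.inv_mul, one_smul]

theorem tinv_mul {t : L} (h : t * t = Q.a • t + (Q.b : A) • (1 : L)) : tinv Q t * t = 1 := by
  rw [tinv, smul_mul_assoc, sub_mul, h, smul_mul_assoc, one_mul, add_sub_cancel_left, smul_smul,
    Units.inv_mul, one_smul]

/-- CHUNK W1.  Put `z = s t u`.
`si := - p0⁻¹ • aeval s (divX P)` : `P = X * divX P + C p0` (`Polynomial.divX_mul_X_add`), and
`aeval s P = 0`.  `ui := b'⁻¹ (u - a')` is the inverse of `u` (as `mul_tinv`), `ti := tinv Q t`,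
`zi := ui * ti * si`.
`s z = s (t u s) = (s t u) s = z s` by `br1`; `t z = t (u s t) = (t u s) t = (s t u) t = z t` by
`br1`, `br2`.
`W` : from `u u = a' u + b'` and `u = ti si z` (`z` central among `s`, `t`, hence among `si`, `ti`,
`ui`; `ui = zi s t`): `ti si z = u = a' + b' ui = a' + b' zi s t`; here `ti = b⁻¹ (t - a)`.
Multiply on the left by `b`: `(t - a) si z = b a' + q zi s t`, `q = b b'`.
Multiply on the right by `s` and on the left by `q⁻¹ z si`: `q⁻¹ z si (t - a) z = q⁻¹ b a' z si s + t s`,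
i.e. `t s = q⁻¹ z z si (t - a) - q⁻¹ b a' z` and `q⁻¹ b a' = a' / b' = - γ`. -/
theorem IsH.toW {s t u : L} (h : IsH Q s t u) : ∃ si zi : L, IsW Q s si t (s * t * u) zi := by
  obtain ⟨g, hg⟩ : ∃ g : L, g = aeval s (divX Q.P) := ⟨_, rfl⟩
  have hgs : g * s + (Q.p0 : A) • (1 : L) = 0 := by
    have h1 := congrArg (aeval s) (divX_mul_X_add Q.P)
    rw [map_add, map_mul, aeval_X, aeval_C, h.pol, Q.hp0, Algebra.algebraMap_eq_smul_one] at h1
    rw [hg]
    exact h1
  have hcomm : g * s = s * g := by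
    rw [hg]
    have h2 := congrArg (aeval s) (mul_comm (divX Q.P) X)
    rw [map_mul, map_mul, aeval_X] at h2
    exact h2
  obtain ⟨si, hsi⟩ : ∃ si : L, si = (-((Q.p0⁻¹ : Aˣ) : A)) • g := ⟨_, rfl⟩
  have e1 : g * s = -((Q.p0 : A) • (1 : L)) := eq_neg_of_add_eq_zero_left hgs
  have si_s : si * s = 1 := by
    rw [hsi, smul_mul_assoc, e1, neg_smul, smul_neg, neg_neg, smul_smul, Units.inv_mul, one_smul]
  have s_si : s * si = 1 := by
    rw [hsi, mul_smul_comm, ← hcomm, e1, neg_smul, smul_neg, neg_neg, smul_smul, Units.inv_mul,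
      one_smul]
  obtain ⟨ti, hti⟩ : ∃ ti : L, ti = tinv Q t := ⟨_, rfl⟩
  have t_ti : t * ti = 1 := by rw [hti]; exact mul_tinv h.quadt
  have ti_t : ti * t = 1 := by rw [hti]; exact tinv_mul h.quadt
  obtain ⟨ui, hui⟩ : ∃ ui : L, ui = ((Q.b'⁻¹ : Aˣ) : A) • (u - Q.a' • 1) := ⟨_, rfl⟩
  have u_ui : u * ui = 1 := by
    rw [hui, mul_smul_comm, mul_sub, h.quadu, mul_smul_comm, mul_one, add_sub_cancel_left,
      smul_smul, Units.inv_mul, one_smul]
  have ui_u : ui * u = 1 := by
    rw [hui, smul_mul_assoc, sub_mul, h.quadu, smul_mul_assoc, one_mul, add_sub_cancel_left,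
      smul_smul, Units.inv_mul, one_smul]
  obtain ⟨z, hz⟩ : ∃ z : L, z = s * t * u := ⟨_, rfl⟩
  obtain ⟨zi, hzi⟩ : ∃ zi : L, zi = ui * ti * si := ⟨_, rfl⟩
  have z_zi : z * zi = 1 := by
    calc z * zi = s * (t * (u * ui) * ti) * si := by rw [hz, hzi]; simp only [mul_assoc]
      _ = 1 := by rw [u_ui, mul_one, t_ti, mul_one, s_si]
  have zi_z : zi * z = 1 := by
    calc zi * z = ui * (ti * (si * s) * t) * u := by rw [hz, hzi]; simp only [mul_assoc]
      _ = 1 := by rw [si_s, mul_one, ti_t, mul_one, ui_u]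
  have sz : s * z = z * s := by
    calc s * z = s * (t * u * s) := by rw [hz, h.br1]
      _ = s * t * u * s := by simp only [mul_assoc]
      _ = z * s := by rw [hz]
  have tz : t * z = z * t := by
    calc t * z = t * (u * s * t) := by rw [hz, h.br1, h.br2]
      _ = t * u * s * t := by simp only [mul_assoc]
      _ = z * t := by rw [← h.br1, hz]
  have siz : si * z = z * si := by
    calc si * z = si * z * (s * si) := by rw [s_si, mul_one]
      _ = si * (z * s) * si := by simp only [mul_assoc]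
      _ = si * (s * z) * si := by rw [sz]
      _ = si * s * z * si := by simp only [mul_assoc]
      _ = z * si := by rw [si_s, one_mul]
  have sizi : si * zi = zi * si := by
    calc si * zi = zi * z * (si * zi) := by rw [zi_z, one_mul]
      _ = zi * (z * si) * zi := by simp only [mul_assoc]
      _ = zi * (si * z) * zi := by rw [siz]
      _ = zi * si * (z * zi) := by simp only [mul_assoc]
      _ = zi * si := by rw [z_zi, mul_one]
  have hta : t - Q.a • 1 = (Q.b : A) • ti := by
    rw [hti, tinv, smul_smul, Units.mul_inv, one_smul]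
  have htaz : (t - Q.a • 1) * z = z * (t - Q.a • 1) := by
    rw [sub_mul, mul_sub, tz, smul_mul_assoc, one_mul, mul_smul_comm, mul_one]
  have E1 : ti * si * z = u := by
    calc ti * si * z = ti * (si * s) * t * u := by rw [hz]; simp only [mul_assoc]
      _ = u := by rw [si_s, mul_one, ti_t, one_mul]
  have E2 : u = Q.a' • (1 : L) + (Q.b' : A) • ui := by
    rw [hui, smul_smul, Units.mul_inv, one_smul, add_sub_cancel]
  have E4 : ui = zi * (s * t) := by
    calc ui = zi * z * ui := by rw [zi_z, one_mul]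
      _ = zi * (s * t) * (u * ui) := by rw [hz]; simp only [mul_assoc]
      _ = zi * (s * t) := by rw [u_ui, mul_one]
  have E5 : (t - Q.a • 1) * si * z =
      ((Q.b : A) * Q.a') • (1 : L) + ((Q.b : A) * (Q.b' : A)) • (zi * (s * t)) := by
    rw [hta, smul_mul_assoc, smul_mul_assoc, E1, E2, ← E4, smul_add, smul_smul, smul_smul]
  have L1 : z * si * ((t - Q.a • 1) * si * z) * s = z * z * si * (t - Q.a • 1) := by
    calc z * si * ((t - Q.a • 1) * si * z) * s
        = z * si * (t - Q.a • 1) * si * (z * s) := by simp only [mul_assoc]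
      _ = z * si * (t - Q.a • 1) * si * (s * z) := by rw [sz]
      _ = z * si * (t - Q.a • 1) * (si * s) * z := by simp only [mul_assoc]
      _ = z * si * ((t - Q.a • 1) * z) := by rw [si_s, mul_one, mul_assoc]
      _ = z * (si * z) * (t - Q.a • 1) := by rw [htaz]; simp only [mul_assoc]
      _ = z * z * si * (t - Q.a • 1) := by rw [siz]; simp only [mul_assoc]
  have L2 : z * si * (((Q.b : A) * Q.a') • (1 : L) +
      ((Q.b : A) * (Q.b' : A)) • (zi * (s * t))) * s =
      ((Q.b : A) * Q.a') • z + ((Q.b : A) * (Q.b' : A)) • (t * s) := by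
    rw [mul_add, add_mul, mul_smul_comm, mul_smul_comm, smul_mul_assoc, smul_mul_assoc]
    have l1 : z * si * 1 * s = z := by rw [mul_one, mul_assoc, si_s, mul_one]
    have l2 : z * si * (zi * (s * t)) * s = t * s := by
      calc z * si * (zi * (s * t)) * s = z * (si * zi) * s * t * s := by simp only [mul_assoc]
        _ = z * (zi * si) * s * t * s := by rw [sizi]
        _ = (z * zi) * (si * s) * t * s := by simp only [mul_assoc]
        _ = t * s := by rw [z_zi, si_s, one_mul, one_mul]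
    rw [l1, l2]
  have E6 : z * z * si * (t - Q.a • 1) =
      ((Q.b : A) * Q.a') • z + ((Q.b : A) * (Q.b' : A)) • (t * s) := by
    rw [← L1, E5, L2]
  refine ⟨si, zi, ?_⟩
  rw [← hz]
  refine ⟨s_si, si_s, z_zi, zi_z, sz, tz, h.pol, h.quadt, ?_⟩
  have hq : ((Q.q⁻¹ : Aˣ) : A) * ((Q.b : A) * (Q.b' : A)) = 1 := by
    have h3 : ((Q.b : A) * (Q.b' : A)) = ((Q.q : Aˣ) : A) := by
      rw [Par.q, Units.val_mul]
    rw [h3, Units.inv_mul]
  have hg2 : ((Q.q⁻¹ : Aˣ) : A) * ((Q.b : A) * Q.a') + Q.g = 0 := by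
    have h4 : ((Q.q⁻¹ : Aˣ) : A) = ((Q.b'⁻¹ : Aˣ) : A) * ((Q.b⁻¹ : Aˣ) : A) := by
      rw [Par.q, mul_inv, mul_comm, Units.val_mul]
    rw [h4, Par.g]
    have h5 : ((Q.b⁻¹ : Aˣ) : A) * (Q.b : A) = 1 := Units.inv_mul _
    linear_combination (((Q.b'⁻¹ : Aˣ) : A) * Q.a') * h5
  rw [E6, smul_add, smul_smul, smul_smul, hq, one_smul, add_right_comm, ← add_smul, hg2, zero_smul,
    zero_add]

end Pool.Agent.Lib.H10K2
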