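import Pool.Agent.Lib.H10K2.W1

/-!
# Chunk W2 : from `IsW` back to `IsH`
-/

namespace Pool.Agent.Lib.H10K2

open Polynomial

universe u v

variable {A : Type u} [CommRing A] {Q : Par A} {L : Type v} [Ring L] [Algebra A L]

/-- The inverse `si` commutes with `z`. -/
theorem IsW.siz {s si t z zi : L} (h : IsW Q s si t z zi) : si * z = z * si := by
  calc si * z = si * z * (s * si) := by rw [h.s_si, mul_one]
    _ = si * (z * s) * si := by noncomm_ring
    _ = si * s * z * si := by rw [← h.sz]; noncomm_ring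
    _ = z * si := by rw [h.si_s, one_mul]

/-- CHUNK W2.  `u := tinv Q t * si * z`.  Then `s * t * u = z` since `t * tinv Q t = 1`
(`mul_tinv h.quad`) and `s si = 1`; `t * u * s = si * z * s = z` and
`u * s * t = tinv t * si * z * s * t = tinv t * z * t = z` (`z` commutes with `t`, hence with
`tinv Q t = b⁻¹ (t - a)`).  So `br1`, `br2` hold.
`quadu` : `u = ti si z` and `ui := zi s t` is its inverse; it suffices that `u = a' + b' ui`
(multiply by `u`).  I.e. `b⁻¹ (t - a) si z = a' + b' zi s t`.  From `h.W`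
(`t s = q⁻¹ z z si (t - a) + γ z`): multiply on the left by `q zi s` and on the right by `si`:
`q zi s t = z (t - a) si + q γ s si`, `q = b b'`, `q γ = - b a'`; hence
`b b' zi s t = z (t - a) si - b a'`; divide by `b`. -/
theorem IsW.toH {s si t z zi : L} (h : IsW Q s si t z zi) :
    ∃ u : L, IsH Q s t u ∧ s * t * u = z := by
  obtain ⟨ti, hti⟩ : ∃ ti : L, ti = tinv Q t := ⟨_, rfl⟩
  have t_ti : t * ti = 1 := by rw [hti]; exact mul_tinv h.quad
  have ti_t : ti * t = 1 := by rw [hti]; exact tinv_mul h.quad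
  have hta : t - Q.a • 1 = (Q.b : A) • ti := by
    rw [hti, tinv, smul_smul, Units.mul_inv, one_smul]
  have htaz : (t - Q.a • 1) * z = z * (t - Q.a • 1) := by
    rw [sub_mul, mul_sub, h.tz, smul_mul_assoc, one_mul, mul_smul_comm, mul_one]
  obtain ⟨u, hu⟩ : ∃ u : L, u = ti * si * z := ⟨_, rfl⟩
  have b1 : s * t * u = z := by
    calc s * t * u = s * (t * ti) * si * z := by rw [hu]; simp only [mul_assoc]
      _ = z := by rw [t_ti, mul_one, h.s_si, one_mul]
  have b2 : t * u * s = z := by
    calc t * u * s = (t * ti) * si * (z * s) := by rw [hu]; simp only [mul_assoc]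
      _ = si * (s * z) := by rw [t_ti, one_mul, h.sz]
      _ = z := by rw [← mul_assoc, h.si_s, one_mul]
  have b3 : u * s * t = z := by
    calc u * s * t = ti * si * (z * s) * t := by rw [hu]; simp only [mul_assoc]
      _ = ti * si * (s * z) * t := by rw [h.sz]
      _ = ti * (si * s) * (z * t) := by simp only [mul_assoc]
      _ = ti * (t * z) := by rw [h.si_s, mul_one, h.tz]
      _ = z := by rw [← mul_assoc, ti_t, one_mul]
  have b4 : u * (zi * (s * t)) = 1 := by
    calc u * (zi * (s * t)) = ti * si * (z * zi) * s * t := by rw [hu]; simp only [mul_assoc]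
      _ = ti * (si * s) * t := by rw [h.z_zi, mul_one]; simp only [mul_assoc]
      _ = 1 := by rw [h.si_s, mul_one, ti_t]
  have hqg : ((Q.q : Aˣ) : A) * Q.g = -((Q.b : A) * Q.a') := by
    rw [Par.q, Units.val_mul, Par.g]
    have h5 : (Q.b' : A) * ((Q.b'⁻¹ : Aˣ) : A) = 1 := Units.mul_inv _
    linear_combination (-(Q.b : A) * Q.a') * h5
  have hqq : ((Q.q : Aˣ) : A) * ((Q.q⁻¹ : Aˣ) : A) = 1 := Units.mul_inv _
  have E1 : ((Q.q : Aˣ) : A) • (t * s) = z * z * si * (t - Q.a • 1) - ((Q.b : A) * Q.a') • z := by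
    rw [h.W, smul_add, smul_smul, smul_smul, hqq, one_smul, hqg, neg_smul]
    exact (sub_eq_add_neg _ _).symm
  have E2 : ((Q.q : Aˣ) : A) • (zi * (s * t)) = (t - Q.a • 1) * si * z - ((Q.b : A) * Q.a') • 1 := by
    have l0 := congrArg (fun x => zi * s * x * si) E1
    rw [mul_smul_comm, smul_mul_assoc, mul_sub, sub_mul, mul_smul_comm, smul_mul_assoc] at l0
    have l1 : zi * s * (t * s) * si = zi * (s * t) := by
      calc zi * s * (t * s) * si = zi * s * t * (s * si) := by simp only [mul_assoc]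
        _ = zi * (s * t) := by rw [h.s_si, mul_one, mul_assoc]
    have l2 : zi * s * (z * z * si * (t - Q.a • 1)) * si = (t - Q.a • 1) * si * z := by
      calc zi * s * (z * z * si * (t - Q.a • 1)) * si
          = zi * (s * z) * z * si * (t - Q.a • 1) * si := by simp only [mul_assoc]
        _ = zi * (z * s) * z * si * (t - Q.a • 1) * si := by rw [h.sz]
        _ = (zi * z) * (s * z) * si * (t - Q.a • 1) * si := by simp only [mul_assoc]
        _ = (z * s) * si * (t - Q.a • 1) * si := by rw [h.zi_z, one_mul, h.sz]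
        _ = z * (s * si) * (t - Q.a • 1) * si := by simp only [mul_assoc]
        _ = ((t - Q.a • 1) * z) * si := by rw [h.s_si, mul_one, htaz]
        _ = (t - Q.a • 1) * (z * si) := by rw [mul_assoc]
        _ = (t - Q.a • 1) * si * z := by rw [← h.siz, mul_assoc]
    have l3 : zi * s * z * si = 1 := by
      calc zi * s * z * si = zi * (s * z) * si := by simp only [mul_assoc]
        _ = zi * (z * s) * si := by rw [h.sz]
        _ = (zi * z) * (s * si) := by simp only [mul_assoc]
        _ = 1 := by rw [h.zi_z, h.s_si, one_mul]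
    rw [l1, l2, l3] at l0
    exact l0
  have hbb : ((Q.b⁻¹ : Aˣ) : A) * (Q.b : A) = 1 := Units.inv_mul _
  have E3 : u = Q.a' • (1 : L) + (Q.b' : A) • (zi * (s * t)) := by
    have l4 : (Q.b : A) • u = ((Q.b : A) * Q.a') • (1 : L) + ((Q.q : Aˣ) : A) • (zi * (s * t)) := by
      rw [E2, add_sub_cancel, hta, smul_mul_assoc, smul_mul_assoc, hu]
    have l5 := congrArg (fun x => ((Q.b⁻¹ : Aˣ) : A) • x) l4
    rw [smul_smul, hbb, one_smul, smul_add, smul_smul, smul_smul, Par.q, Units.val_mul, ← mul_assoc,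
      ← mul_assoc, hbb, one_mul, one_mul] at l5
    exact l5
  refine ⟨u, ⟨h.pol, h.quad, ?_, ?_, ?_⟩, b1⟩
  · have l6 := congrArg (fun x => u * x) E3
    rw [mul_add, mul_smul_comm, mul_smul_comm, mul_one, b4] at l6
    exact l6
  · rw [b1, b2]
  · rw [b2, b3]

end Pool.Agent.Lib.H10K2
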